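import Pool.Agent.URec.Letters

/-!
# Basic properties of points (module Basic)
-/

namespace Pool.Agent.URec

variable {P : Params}

namespace Pt

/-- A window of a point is covered by the common letter revealed by one of its symbols. -/
theorem exists_reveal_window (p : Pt P) (t : ℕ) : ∃ (n : ℤ) (j y : ℕ), -(t : ℤ) ≤ n ∧ n ≤ t ∧
    p.x n = (j, y) ∧ n - y ≤ -t ∧ (t : ℤ) < n - y + P.N j := by
  obtain ⟨J, β, σ, -, hσ, h1, h2, h3⟩ := p.exists_occ t 0
  obtain ⟨lo, hlo⟩ : ∃ lo : ℕ, -(t : ℤ) = β + lo := ⟨(-(t : ℤ) - β).toNat, by omega⟩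
  obtain ⟨n, j, y, B, h4, h5, h6, h7, h8, h9⟩ := exists_reveal (P := P) (J := J) (lo := lo)
    (hi := lo + 2 * t) (by omega) (by omega)
  refine ⟨β + n, j, y, by omega, by omega, ?_, by omega, by omega⟩
  rw [← h6]
  exact (h3 n (by omega)).1

end Pt

theorem stmt_cell (P : Params) : Stmt_Cell P := by
  intro t p
  obtain ⟨n, j, y, h1, h2, h3, h4, h5⟩ := p.exists_reveal_window t
  exact ⟨n, h1, h2, p.good_of_reveal h3 h4 h5⟩

theorem stmt_sign (P : Params) : Stmt_Sign P := by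
  intro t p q h
  obtain ⟨n, j, y, h1, h2, h3, h4, h5⟩ := p.exists_reveal_window t
  obtain ⟨h6, -, σ, hσ, h7⟩ := p.reveal h3
  have h8 : q.x n = (j, y) := by rw [← h n h1 h2]; exact h3
  obtain ⟨-, -, σ', hσ', h9⟩ := q.reveal h8
  refine ⟨σ' * σ, ?_, ?_⟩
  · rcases hσ with rfl | rfl <;> rcases hσ' with rfl | rfl <;> norm_num
  · intro i hi1 hi2
    obtain ⟨z, hz⟩ : ∃ z : ℕ, i = n - y + z := ⟨(i - (n - y)).toNat, by omega⟩
    have hzN : z < P.N j := by omega
    rw [hz, (h7 z hzN).2, (h9 z hzN).2]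
    rcases hσ with rfl | rfl <;> ring

theorem stmt_pos (P : Params) : Stmt_Pos P := by
  intro t K p hl
  obtain ⟨J, β, σ, hJ, hσ, h1, h2, h3⟩ := p.exists_occ t (K + 1)
  obtain ⟨lo, hlo⟩ : ∃ lo : ℕ, -(t : ℤ) = β + lo := ⟨(-(t : ℤ) - β).toNat, by omega⟩
  obtain ⟨B, h4, h5, h6⟩ := exists_isLet_of_level_le (P := P) (J := J) (K := K) (lo := lo)
    (hi := lo + 2 * t) (by omega) (by omega) (by omega) (by
      intro i hi1 hi2
      rw [← (h3 i (by omega)).1]
      exact hl (β + i) (by omega) (by omega))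
  refine ⟨-(β + B), ⟨J, β, σ, B, hσ, h3, h4, by ring⟩, by omega, ?_⟩
  omega

theorem stmt_posDet (P : Params) : Stmt_PosDet P := by
  intro t K p q y hp hq hpy hqy i hi1 hi2
  obtain ⟨hpl, h1, h2⟩ := hpy
  obtain ⟨hql, -, -⟩ := hqy
  have key : ∀ r : Pt P, Pt.LevLe t K r → Pt.LetAt (K + 1) r (-y) →
      r.x i = P.c (K + 1) (i + y).toNat := by
    intro r hr hrl
    obtain ⟨J, β, σ, B, hσ, h3, h4, h5⟩ := hrl
    obtain ⟨z, hz⟩ : ∃ z : ℕ, i = β + B + z := ⟨(i + y).toNat, by omega⟩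
    have hzN : z < P.N (K + 1) := by omega
    have hb := h4.bound
    have h6 := (h3 (B + z) (by omega)).1
    have h7 : β + ((B + z : ℕ) : ℤ) = i := by push_cast; omega
    rw [h7] at h6
    have h8 : (i + y).toNat = z := by omega
    rw [h8]
    have h9 := hr i hi1 hi2
    rcases lt_or_eq_of_le (c_level_le hzN) with h10 | h10
    · rw [h6]
      exact h4.c_of_lt hzN h10
    · obtain ⟨j, y', B', h11, h12, -⟩ := h4.reveal_native hzN h10
      rw [h6, h12] at h9
      simp only at h9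
      omega
  rw [key p hp hpl, key q hq hql]

theorem stmt_nonempty (P : Params) : Stmt_Nonempty P := by
  obtain ⟨p, -⟩ := Pt.exists_extend (P := P) 0 0
  exact ⟨p⟩

/-- Signs can be adjusted. -/
theorem Pt.exists_adj (p q : Pt P) : ∃ r : Pt P, r.x = q.x ∧ r.s 0 = p.s 0 := by
  have h1 := Pt.s_sq p 0
  have h2 := Pt.s_sq q 0
  by_cases h : q.s 0 = p.s 0
  · exact ⟨q, rfl, h⟩
  · refine ⟨Pt.ng q, rfl, ?_⟩
    change - q.s 0 = p.s 0
    have h3 : (q.s 0 - p.s 0) * (q.s 0 + p.s 0) = 0 := by ring_nf; nlinarith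
    rcases mul_eq_zero.1 h3 with h4 | h4
    · exact absurd (by linarith) h
    · linarith

theorem stmt_closed (P : Params) : Stmt_Closed P := by
  intro u hu
  -- adjust the signs
  have hadj : ∀ t, ∃ r : Pt P, r.x = (u t).x ∧ r.s 0 = (u 0).s 0 := fun t => Pt.exists_adj _ _
  choose v hv1 hv2 using hadj
  have hsame : ∀ t k, Pt.SameX t (v (t + k)) (v t) := by
    intro t k
    induction k with
    | zero => intro i _ _; rfl
    | succ k ih =>
      intro i hi1 hi2
      have h1 := hu (t + k) i (by push_cast; omega) (by push_cast; omega)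
      have h2 := ih i hi1 hi2
      rw [hv1, hv1] at h2
      rw [hv1, hv1, ← Nat.add_assoc, h1, h2]
  have hSame : ∀ t k, Pt.Same t (v (t + k)) (v t) := by
    intro t k i hi1 hi2
    refine ⟨hsame t k i hi1 hi2, ?_⟩
    obtain ⟨σ, hσ, h⟩ := stmt_sign P t _ _ (hsame t k)
    have h0 := h 0 (by omega) (by omega)
    rw [hv2, hv2] at h0
    have h1 := Pt.s_sq (u 0) 0
    have h2 : σ = 1 := by
      rcases hσ with rfl | rfl
      · rfl
      · nlinarith
    have h3 := h i hi1 hi2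
    rw [h2, one_mul] at h3
    exact h3.symm
  have hS : ∀ s t : ℕ, ∀ i : ℤ, i.natAbs ≤ s → i.natAbs ≤ t → (v s).x i = (v t).x i ∧
      (v s).s i = (v t).s i := by
    intro s t i hs ht
    have h1 := hSame i.natAbs (s - i.natAbs) i (by omega) (by omega)
    have h2 := hSame i.natAbs (t - i.natAbs) i (by omega) (by omega)
    rw [Nat.add_sub_cancel' hs] at h1
    rw [Nat.add_sub_cancel' ht] at h2
    exact ⟨h1.1.trans h2.1.symm, h1.2.trans h2.2.symm⟩
  refine ⟨⟨fun i => (v i.natAbs).x i, fun i => (v i.natAbs).s i, ?_⟩, ?_⟩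
  · intro t
    obtain ⟨n, j, y, h1, h2, h3, h4, h5⟩ := (v t).exists_reveal_window t
    set T := t + (n - y).natAbs + (n - y + P.N j).natAbs with hT
    have h6 : (v T).x n = (j, y) := by
      rw [(hS T t n (by omega) (by omega)).1]
      exact h3
    obtain ⟨h7, -, σ, hσ, h8⟩ := (v T).reveal h6
    refine ⟨j, n - y, σ, hσ, h4, h5, ?_⟩
    intro z hz
    have h9 := hS (n - y + z).natAbs T (n - y + z) le_rfl (by omega)
    obtain ⟨h10, h11⟩ := h8 z hz
    exact ⟨h9.1.trans h10, h9.2.trans h11⟩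
  · intro t i hi1 hi2
    have h1 := (hS i.natAbs t i le_rfl (by omega)).1
    change (v i.natAbs).x i = _
    rw [h1, hv1]

end Pool.Agent.URec
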