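import Pool.Agent.URec.CorrDefs

/-!
# Windowed correlations of hierarchical functions (module CorrAbs)
-/

open Finset

namespace Pool.Agent.URec

namespace CorrAbsAux

theorem sum_Ico_succ {A B : ℤ} (h : A ≤ B) (f : ℤ → ℝ) :
    ∑ i ∈ Finset.Ico A (B + 1), f i = ∑ i ∈ Finset.Ico A B, f i + f B := by
  have e : Finset.Ico A (B + 1) = insert B (Finset.Ico A B) := by
    ext x
    simp only [Finset.mem_Ico, Finset.mem_insert]
    omega
  rw [e, Finset.sum_insert (by simp)]
  ring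

/-- Sum over an interval of a product of a function of the quotient and a function of the
remainder. -/
theorem block_sum (q : ℤ) (hq : 0 < q) (a b : ℤ → ℝ) (A B : ℤ) (h : A ≤ B) :
    ∑ i ∈ Finset.Ico A B, a (i / q) * b (i % q) =
      (∑ d ∈ Finset.Ico (A / q) (B / q), a d) * (∑ x ∈ Finset.Ico 0 q, b x) +
        a (B / q) * ∑ x ∈ Finset.Ico 0 (B % q), b x -
        a (A / q) * ∑ x ∈ Finset.Ico 0 (A % q), b x := by
  induction B, h using Int.leInduction with
  | base => simp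
  | succ B hB ih =>
    rw [sum_Ico_succ hB, ih]
    have hm0 := Int.emod_nonneg B hq.ne'
    have hm1 := Int.emod_lt_of_pos B hq
    have hdm := Int.emod_add_mul_ediv B q
    have hAB : A / q ≤ B / q := Int.ediv_le_ediv hq hB
    by_cases hc : B % q + 1 = q
    · have e1 : (B + 1) / q = B / q + 1 := by
        have : B + 1 = q * (B / q + 1) := by
          have e0 : q * (B / q + 1) = q * (B / q) + q := by ring
          rw [e0]; omega
        rw [this, Int.mul_ediv_cancel_left _ hq.ne']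
      have e2 : (B + 1) % q = 0 := by
        have : B + 1 = q * (B / q + 1) := by
          have e0 : q * (B / q + 1) = q * (B / q) + q := by ring
          rw [e0]; omega
        rw [this]; exact Int.mul_emod_right _ _
      rw [e1, e2, sum_Ico_succ hAB]
      have e3 : ∑ x ∈ Finset.Ico 0 q, b x = ∑ x ∈ Finset.Ico 0 (B % q), b x + b (B % q) := by
        rw [← sum_Ico_succ hm0, hc]
      rw [e3]
      simp only [Finset.Ico_self, Finset.sum_empty, mul_zero]
      ring
    · have e1 : (B + 1) / q = B / q := by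
        rw [Int.ediv_eq_iff_of_pos hq]
        constructor
        · nlinarith
        · nlinarith [show B % q + 1 < q by omega]
      have e2 : (B + 1) % q = B % q + 1 := by
        have h1 := Int.emod_add_mul_ediv (B + 1) q
        rw [e1] at h1
        omega
      rw [e1, e2, sum_Ico_succ hm0]
      ring

theorem sum_supp_le (G : ℤ → ℝ) {C : ℝ} (N : ℕ) (c lo hi : ℤ) (hC : ∀ i, |G i| ≤ C)
    (hs : ∀ i, G i ≠ 0 → c ≤ i ∧ i < c + N) : |∑ i ∈ Finset.Ico lo hi, G i| ≤ C * N := by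
  have hC0 : 0 ≤ C := (abs_nonneg _).trans (hC 0)
  calc |∑ i ∈ Finset.Ico lo hi, G i| ≤ ∑ i ∈ Finset.Ico lo hi, |G i| :=
        Finset.abs_sum_le_sum_abs _ _
    _ = ∑ i ∈ Finset.Ico lo hi ∩ Finset.Ico c (c + N), |G i| := by
        symm
        apply Finset.sum_subset Finset.inter_subset_left
        intro i hi1 hi2
        by_contra h
        apply hi2
        rw [Finset.mem_inter]
        refine ⟨hi1, ?_⟩
        rw [Finset.mem_Ico]
        exact hs i (by intro h0; apply h; rw [h0, abs_zero])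
    _ ≤ (Finset.Ico lo hi ∩ Finset.Ico c (c + N)).card • C :=
        Finset.sum_le_card_nsmul _ _ _ fun i _ => hC i
    _ = ((Finset.Ico lo hi ∩ Finset.Ico c (c + N)).card : ℝ) * C := by rw [nsmul_eq_mul]
    _ ≤ (N : ℝ) * C := by
        apply mul_le_mul_of_nonneg_right _ hC0
        have : (Finset.Ico lo hi ∩ Finset.Ico c (c + N)).card ≤ (Finset.Ico c (c + N)).card :=
          Finset.card_le_card Finset.inter_subset_right
        rw [Int.card_Ico] at this
        have h2 : (c + (N : ℤ) - c).toNat = N := by omega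
        rw [h2] at this
        exact_mod_cast this
    _ = C * N := mul_comm _ _

/-- The contribution of one difference of slots. -/
theorem part_bound (q : ℤ) (hq : 0 < q) (a b : ℤ → ℝ) (ha : ∀ d, |a d| ≤ 1) (hb : ∀ x, |b x| ≤ 1)
    (A B : ℤ) (h : A ≤ B) {α β : ℝ} (hα : |∑ d ∈ Finset.Ico (A / q) (B / q), a d| ≤ α)
    (hβ : |∑ x ∈ Finset.Ico 0 q, b x| ≤ β) :
    |∑ i ∈ Finset.Ico A B, a (i / q) * b (i % q)| ≤ α * β + 2 * q := by
  rw [block_sum q hq a b A B h]
  have hpart : ∀ u : ℤ, |∑ x ∈ Finset.Ico 0 (u % q), b x| ≤ q := by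
    intro u
    have h0 := Int.emod_nonneg u hq.ne'
    have h1 := Int.emod_lt_of_pos u hq
    calc |∑ x ∈ Finset.Ico 0 (u % q), b x| ≤ ∑ x ∈ Finset.Ico 0 (u % q), |b x| :=
          Finset.abs_sum_le_sum_abs _ _
      _ ≤ (Finset.Ico 0 (u % q)).card • (1 : ℝ) := Finset.sum_le_card_nsmul _ _ _ fun i _ => hb i
      _ = ((u % q).toNat : ℝ) := by simp
      _ ≤ q := by
        have h2 : ((u % q).toNat : ℤ) ≤ q := by omega
        exact_mod_cast h2
  have h1 : |(∑ d ∈ Finset.Ico (A / q) (B / q), a d) * (∑ x ∈ Finset.Ico 0 q, b x)| ≤ α * β := by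
    rw [abs_mul]
    exact mul_le_mul hα hβ (abs_nonneg _) ((abs_nonneg _).trans hα)
  have h2 : |a (B / q) * ∑ x ∈ Finset.Ico 0 (B % q), b x| ≤ q := by
    rw [abs_mul]
    calc |a (B / q)| * |∑ x ∈ Finset.Ico 0 (B % q), b x| ≤ 1 * q :=
          mul_le_mul (ha _) (hpart B) (abs_nonneg _) zero_le_one
      _ = q := one_mul _
  have h3 : |a (A / q) * ∑ x ∈ Finset.Ico 0 (A % q), b x| ≤ q := by
    rw [abs_mul]
    calc |a (A / q)| * |∑ x ∈ Finset.Ico 0 (A % q), b x| ≤ 1 * q :=
          mul_le_mul (ha _) (hpart A) (abs_nonneg _) zero_le_one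
      _ = q := one_mul _
  rw [abs_le] at h1 h2 h3 ⊢
  constructor <;> linarith [h1.1, h1.2, h2.1, h2.2, h3.1, h3.2]

section Step

variable {m N : ℕ} {τ : ℕ → ℝ} {F : ℤ → ℝ}

/-- The part of the function of the next level coming from the slots `d ≥ 1`. -/
noncomputable def hfun (m N : ℕ) (τ : ℕ → ℝ) (F : ℤ → ℝ) (i : ℤ) : ℝ :=
  trunc m τ ((i - 1) / ((N : ℤ) + 1)) * F ((i - 1) % ((N : ℤ) + 1))

theorem abs_trunc_le (hτ : ∀ d, τ d = 1 ∨ τ d = -1) (d : ℤ) : |trunc m τ d| ≤ 1 := by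
  unfold trunc
  split_ifs with h
  · rcases hτ d.toNat with h | h <;> rw [h] <;> norm_num
  · norm_num

theorem abs_hfun_le (hτ : ∀ d, τ d = 1 ∨ τ d = -1) (hF : ∀ i, |F i| ≤ 1) (i : ℤ) :
    |hfun m N τ F i| ≤ 1 := by
  unfold hfun
  rw [abs_mul]
  calc _ ≤ (1 : ℝ) * 1 := mul_le_mul (abs_trunc_le hτ _) (hF _) (abs_nonneg _) zero_le_one
    _ = 1 := one_mul _

/-- The sum over the slots `d ≥ 1`. -/
theorem sum_slots_eq (hs : ∀ i, F i ≠ 0 → 0 ≤ i ∧ i < N) (i : ℤ) :
    ∑ d ∈ Finset.Ico 1 m, τ d * F (i - ((d * (N + 1) + 1 : ℕ) : ℤ)) = hfun m N τ F i := by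
  set q : ℤ := (N : ℤ) + 1 with hq
  have hq0 : 0 < q := by omega
  have hdm := Int.emod_add_mul_ediv (i - 1) q
  have hm0 := Int.emod_nonneg (i - 1) hq0.ne'
  have hm1 := Int.emod_lt_of_pos (i - 1) hq0
  have hval : ∀ d : ℕ, F (i - ((d * (N + 1) + 1 : ℕ) : ℤ)) ≠ 0 → (d : ℤ) = (i - 1) / q := by
    intro d hd
    obtain ⟨h1, h2⟩ := hs _ hd
    push_cast at h1 h2
    symm
    rw [Int.ediv_eq_iff_of_pos hq0]
    constructor <;> · rw [hq]; linarith
  unfold hfun
  rw [← hq]
  by_cases hD : 1 ≤ (i - 1) / q ∧ (i - 1) / q < m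
  · rw [Finset.sum_eq_single ((i - 1) / q).toNat]
    · unfold trunc
      rw [if_pos hD]
      congr 2
      have : (((i - 1) / q).toNat : ℤ) = (i - 1) / q := Int.toNat_of_nonneg (by omega)
      push_cast
      rw [this]
      rw [← hq]
      linarith [mul_comm ((i - 1) / q) q]
    · intro d _ hne
      by_cases h0 : F (i - ((d * (N + 1) + 1 : ℕ) : ℤ)) = 0
      · rw [h0, mul_zero]
      · exfalso
        apply hne
        have := hval d h0
        omega
    · intro hn
      exfalso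
      apply hn
      rw [Finset.mem_Ico]
      omega
  · have h1 : trunc m τ ((i - 1) / q) = 0 := by
      unfold trunc
      rw [if_neg hD]
    rw [h1, zero_mul]
    refine Finset.sum_eq_zero fun d hd => ?_
    rw [Finset.mem_Ico] at hd
    by_cases h0 : F (i - ((d * (N + 1) + 1 : ℕ) : ℤ)) = 0
    · rw [h0, mul_zero]
    · exfalso
      apply hD
      have := hval d h0
      omega

/-- Product of two values of `hfun`. -/
theorem hfun_mul (hs : ∀ i, F i ≠ 0 → 0 ≤ i ∧ i < N) (S j : ℤ) :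
    hfun m N τ F (j + 1) * hfun m N τ F (j + 1 + S) =
      (trunc m τ (j / ((N : ℤ) + 1)) * trunc m τ (j / ((N : ℤ) + 1) + S / ((N : ℤ) + 1))) *
        (F (j % ((N : ℤ) + 1)) * F (j % ((N : ℤ) + 1) + S % ((N : ℤ) + 1))) +
      (trunc m τ (j / ((N : ℤ) + 1)) * trunc m τ (j / ((N : ℤ) + 1) + (S / ((N : ℤ) + 1) + 1))) *
        (F (j % ((N : ℤ) + 1)) * F (j % ((N : ℤ) + 1) + (S % ((N : ℤ) + 1) - ((N : ℤ) + 1)))) := by
  set q : ℤ := (N : ℤ) + 1 with hq
  have hq0 : 0 < q := by omega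
  have hj := Int.emod_add_mul_ediv j q
  have hj0 := Int.emod_nonneg j hq0.ne'
  have hj1 := Int.emod_lt_of_pos j hq0
  have hS := Int.emod_add_mul_ediv S q
  have hS0 := Int.emod_nonneg S hq0.ne'
  have hS1 := Int.emod_lt_of_pos S hq0
  unfold hfun
  rw [← hq]
  have e1 : j + 1 - 1 = j := by ring
  have e2 : j + 1 + S - 1 = j + S := by ring
  rw [e1, e2]
  have hFz : ∀ x : ℤ, x < 0 ∨ (N : ℤ) ≤ x → F x = 0 := by
    intro x hx
    by_contra h
    have := hs x h
    omega
  by_cases hc : j % q + S % q < q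
  · have h1 : (j + S) / q = j / q + S / q := by
      rw [Int.ediv_eq_iff_of_pos hq0]
      constructor <;> nlinarith
    have h2 : (j + S) % q = j % q + S % q := by
      have := Int.emod_add_mul_ediv (j + S) q
      rw [h1, mul_add] at this
      omega
    have hlt : j % q + (S % q - q) < 0 := by omega
    have h3 : F (j % q + (S % q - q)) = 0 := hFz _ (Or.inl hlt)
    rw [h1, h2, h3]
    ring
  · have h1 : (j + S) / q = j / q + (S / q + 1) := by
      rw [Int.ediv_eq_iff_of_pos hq0]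
      constructor <;> nlinarith
    have h2 : (j + S) % q = j % q + (S % q - q) := by
      have := Int.emod_add_mul_ediv (j + S) q
      rw [h1, mul_add, mul_add] at this
      omega
    have hge : (N : ℤ) ≤ j % q + S % q := by omega
    have h3 : F (j % q + S % q) = 0 := hFz _ (Or.inr hge)
    rw [h1, h2, h3]
    ring

theorem sum_shift (G : ℤ → ℝ) (c lo hi : ℤ) :
    ∑ i ∈ Finset.Ico lo hi, G i = ∑ j ∈ Finset.Ico (lo - c) (hi - c), G (j + c) := by
  refine Finset.sum_nbij' (fun d => d - c) (fun d => d + c) ?_ ?_ ?_ ?_ ?_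
  · intro d hd
    rw [Finset.mem_Ico] at hd ⊢
    omega
  · intro d hd
    rw [Finset.mem_Ico] at hd ⊢
    omega
  · intro d _
    ring
  · intro d _
    ring
  · intro d _
    simp

/-- The correlation of the part of the slots `d ≥ 1`. -/
theorem hh_bound (hτ : ∀ d, τ d = 1 ∨ τ d = -1) (hF : ∀ i, |F i| ≤ 1)
    (hs : ∀ i, F i ≠ 0 → 0 ≤ i ∧ i < N) {θ g : ℝ} (hθ : 0 ≤ θ) (hg : 0 ≤ g)
    (hauto : ∀ s : ℤ, s ≠ 0 → ∀ lo hi : ℤ,
      |∑ d ∈ Finset.Ico lo hi, trunc m τ d * trunc m τ (d + s)| ≤ θ * m)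
    (S : ℤ) (hg' : ∀ lo hi : ℤ, |wcorr F S lo hi| ≤ g * N) (lo hi : ℤ) :
    |∑ i ∈ Finset.Ico lo hi, hfun m N τ F i * hfun m N τ F (i + S)| ≤
      (g + 2 * θ) * (m * (N + 1)) + 4 * (N + 1) := by
  have hm0 : (0 : ℝ) ≤ m := Nat.cast_nonneg _
  have hN0 : (0 : ℝ) ≤ N := Nat.cast_nonneg _
  rcases lt_or_ge hi lo with hlt | hle
  · rw [Finset.Ico_eq_empty (by omega), Finset.sum_empty, abs_zero]
    positivity
  set q : ℤ := (N : ℤ) + 1 with hq
  have hq0 : 0 < q := by omega
  have hqr : (q : ℝ) = N + 1 := by rw [hq]; push_cast; ring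
  have e := sum_shift (fun i => hfun m N τ F i * hfun m N τ F (i + S)) 1 lo hi
  rw [e]
  simp only [hfun_mul hs]
  rw [← hq, Finset.sum_add_distrib]
  -- one difference of slots
  have hone : ∀ s ρ : ℤ, S = s * q + ρ →
      |∑ i ∈ Finset.Ico (lo - 1) (hi - 1), (trunc m τ (i / q) * trunc m τ (i / q + s)) *
        (F (i % q) * F (i % q + ρ))| ≤ (if s = 0 then g else θ) * (m * q) + 2 * q := by
    intro s ρ hsρ
    have ha : ∀ d : ℤ, |trunc m τ d * trunc m τ (d + s)| ≤ 1 := by
      intro d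
      rw [abs_mul]
      calc _ ≤ (1 : ℝ) * 1 :=
            mul_le_mul (abs_trunc_le hτ _) (abs_trunc_le hτ _) (abs_nonneg _) zero_le_one
        _ = 1 := one_mul _
    have hb : ∀ x : ℤ, |F x * F (x + ρ)| ≤ 1 := by
      intro d
      rw [abs_mul]
      calc _ ≤ (1 : ℝ) * 1 := mul_le_mul (hF _) (hF _) (abs_nonneg _) zero_le_one
        _ = 1 := one_mul _
    by_cases hs0 : s = 0
    · have hρ : ρ = S := by rw [hsρ, hs0]; ring
      have hA : |∑ d ∈ Finset.Ico ((lo - 1) / q) ((hi - 1) / q),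
          trunc m τ d * trunc m τ (d + s)| ≤ 1 * m := by
        apply sum_supp_le _ m 0 _ _ ha
        intro i hi'
        by_contra hcon
        apply hi'
        have : trunc m τ i = 0 := by
          unfold trunc
          rw [if_neg]
          omega
        rw [this, zero_mul]
      have hB : |∑ x ∈ Finset.Ico 0 q, F x * F (x + ρ)| ≤ g * q := by
        rw [hρ]
        refine (hg' 0 q).trans ?_
        rw [hqr]
        nlinarith
      have := part_bound q hq0 (fun d => trunc m τ d * trunc m τ (d + s))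
        (fun x => F x * F (x + ρ)) ha hb (lo - 1) (hi - 1) (by omega) hA hB
      rw [if_pos hs0]
      refine this.trans ?_
      nlinarith
    · have hA := hauto s hs0 ((lo - 1) / q) ((hi - 1) / q)
      have hB : |∑ x ∈ Finset.Ico 0 q, F x * F (x + ρ)| ≤ 1 * (N : ℝ) := by
        apply sum_supp_le _ N 0 _ _ hb
        intro i hi'
        have : F i ≠ 0 := by
          intro h0
          apply hi'
          rw [h0, zero_mul]
        have := hs i this
        omega
      have hB' : |∑ x ∈ Finset.Ico 0 q, F x * F (x + ρ)| ≤ (q : ℝ) := by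
        rw [hqr]
        linarith
      have := part_bound q hq0 (fun d => trunc m τ d * trunc m τ (d + s))
        (fun x => F x * F (x + ρ)) ha hb (lo - 1) (hi - 1) (by omega) hA hB'
      rw [if_neg hs0]
      refine this.trans ?_
      nlinarith
  have hS := Int.emod_add_mul_ediv S q
  have h1 := hone (S / q) (S % q) (by linarith [mul_comm q (S / q)])
  have h2 := hone (S / q + 1) (S % q - q) (by
    have : (S / q + 1) * q = S / q * q + q := by ring
    rw [this]
    linarith [mul_comm q (S / q)])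
  have hmq : (0 : ℝ) ≤ m * q := by
    rw [hqr]; positivity
  have h3 : (if S / q = 0 then g else θ) + (if S / q + 1 = 0 then g else θ) ≤ g + 2 * θ := by
    by_cases ha : S / q = 0
    · rw [if_pos ha, if_neg (by omega)]
      linarith
    · rw [if_neg ha]
      split_ifs
      · linarith
      · linarith
  calc _ ≤ _ := abs_add_le _ _
    _ ≤ ((if S / q = 0 then g else θ) * (m * q) + 2 * q) +
        ((if S / q + 1 = 0 then g else θ) * (m * q) + 2 * q) := add_le_add h1 h2
    _ = ((if S / q = 0 then g else θ) + (if S / q + 1 = 0 then g else θ)) * (m * q) + 4 * q := by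
        ring
    _ ≤ (g + 2 * θ) * (m * q) + 4 * q := by
        have := mul_le_mul_of_nonneg_right h3 hmq
        linarith
    _ = _ := by rw [hqr]

end Step

/-- One step of the recursion. -/
theorem step_bound {P : Params} {K₁ : ℕ} {f : ℕ → ℤ → ℝ} (hf : Fam P K₁ f) {K : ℕ} (hK : K₁ ≤ K)
    {g : ℝ} (hg : 0 ≤ g) (S : ℤ) (hg' : ∀ lo hi : ℤ, |wcorr (f K) S lo hi| ≤ g * P.N K)
    (lo hi : ℤ) : |wcorr (f (K + 1)) S lo hi| ≤ (g + 3 * (1 / 4) ^ K) * P.N (K + 1) := by
  have hτ := P.hτ K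
  have hF := hf.bdd K
  have hs := hf.supp K
  have hm : 1000 * 4 ^ K ≤ P.m K := P.hm K
  have hm1 : 1 ≤ P.m K := by
    have : 1 ≤ 4 ^ K := Nat.one_le_pow _ _ (by norm_num)
    omega
  -- decomposition of the function of the next level
  have hdec : ∀ i, f (K + 1) i = P.τ K 0 * f K i + hfun (P.m K) (P.N K) (P.τ K) (f K) i := by
    intro i
    rw [hf.step K hK i, ← sum_slots_eq hs i, ← Finset.sum_range_add_sum_Ico _ hm1]
    congr 1
    · rw [Finset.sum_range_one]
      simp [Params.start]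
    · refine Finset.sum_congr rfl fun d hd => ?_
      rw [Finset.mem_Ico] at hd
      unfold Params.start
      rw [if_neg (by omega)]
  have hτ0 : |P.τ K 0| ≤ 1 := by
    rcases hτ 0 with h | h <;> rw [h] <;> norm_num
  have hmul : ∀ {a b : ℝ}, |a| ≤ 1 → |b| ≤ 1 → |a * b| ≤ 1 := by
    intro a b ha hb
    rw [abs_mul]
    calc _ ≤ (1 : ℝ) * 1 := mul_le_mul ha hb (abs_nonneg _) zero_le_one
      _ = 1 := one_mul _
  have e : wcorr (f (K + 1)) S lo hi =
      ∑ i ∈ Finset.Ico lo hi, (P.τ K 0 * f K i) * f (K + 1) (i + S) +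
      ∑ i ∈ Finset.Ico lo hi, hfun (P.m K) (P.N K) (P.τ K) (f K) i * (P.τ K 0 * f K (i + S)) +
      ∑ i ∈ Finset.Ico lo hi, hfun (P.m K) (P.N K) (P.τ K) (f K) i *
        hfun (P.m K) (P.N K) (P.τ K) (f K) (i + S) := by
    unfold wcorr
    rw [← Finset.sum_add_distrib, ← Finset.sum_add_distrib]
    refine Finset.sum_congr rfl fun i _ => ?_
    rw [hdec i, hdec (i + S)]
    ring
  have h1 : |∑ i ∈ Finset.Ico lo hi, (P.τ K 0 * f K i) * f (K + 1) (i + S)| ≤ 1 * P.N K := by
    apply sum_supp_le _ _ 0 _ _ (fun i => hmul (hmul hτ0 (hF i)) (hf.bdd _ _))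
    intro i hi'
    have : f K i ≠ 0 := by
      intro h0
      apply hi'
      rw [h0]; ring
    have := hs i this
    omega
  have h2 : |∑ i ∈ Finset.Ico lo hi, hfun (P.m K) (P.N K) (P.τ K) (f K) i *
      (P.τ K 0 * f K (i + S))| ≤ 1 * P.N K := by
    apply sum_supp_le _ _ (-S) _ _
      (fun i => hmul (abs_hfun_le hτ hF i) (hmul hτ0 (hF _)))
    intro i hi'
    have : f K (i + S) ≠ 0 := by
      intro h0
      apply hi'
      rw [h0]; ring
    have := hs _ this
    omega
  have h3 := hh_bound hτ hF hs (by positivity) hg (P.auto K) S hg' lo hi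
  have hN : (P.N (K + 1) : ℝ) = P.m K * (P.N K + 1) := by
    have : P.N (K + 1) = P.m K * (P.N K + 1) := rfl
    rw [this]; push_cast; ring
  have hθm : 1000 ≤ (1 / 4 : ℝ) ^ K * P.m K := by
    have h4 : (1000 * 4 ^ K : ℝ) ≤ P.m K := by exact_mod_cast hm
    have h5 : (1 / 4 : ℝ) ^ K * (1000 * 4 ^ K) = 1000 := by
      rw [one_div, inv_pow]
      field_simp
    calc (1000 : ℝ) = (1 / 4 : ℝ) ^ K * (1000 * 4 ^ K) := h5.symm
      _ ≤ _ := mul_le_mul_of_nonneg_left h4 (by positivity)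
  have hN0 : (0 : ℝ) ≤ P.N K := Nat.cast_nonneg _
  rw [e, hN]
  calc _ ≤ _ := abs_add_three _ _ _
    _ ≤ 1 * P.N K + 1 * P.N K +
        ((g + 2 * (1 / 4) ^ K) * (P.m K * (P.N K + 1)) + 4 * (P.N K + 1)) := by
        gcongr
    _ ≤ (g + 3 * (1 / 4) ^ K) * (P.m K * (P.N K + 1)) := by
        nlinarith

end CorrAbsAux

open CorrAbsAux

theorem corrAbs (P : Params) : Stmt_CorrAbs P := by
  intro K₁ f hf δ hδ
  have hNmono : ∀ k, P.N k ≤ P.N (k + 1) := by
    intro k
    have h1 : P.N (k + 1) = P.m k * (P.N k + 1) := rfl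
    have h2 := P.hm k
    have h3 : 1 ≤ 4 ^ k := Nat.one_le_pow _ _ (by norm_num)
    have h4 : 1 ≤ P.m k := by omega
    rw [h1]
    nlinarith
  have hmono : Monotone P.N := monotone_nat_of_le_succ hNmono
  -- the starting level
  have hlim : Filter.Tendsto (fun n : ℕ => 4 * (1 / 4 : ℝ) ^ n) Filter.atTop (nhds 0) := by
    have := (tendsto_pow_atTop_nhds_zero_of_lt_one (r := (1 / 4 : ℝ)) (by norm_num)
      (by norm_num)).const_mul 4
    simpa using this
  obtain ⟨κ, hκ1, hκ2⟩ := ((hlim.eventually (gt_mem_nhds hδ)).and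
    (Filter.eventually_ge_atTop K₁)).exists
  refine ⟨P.N κ, fun K hK S hS lo hi => ?_⟩
  have hzero : ∀ K', K' ≤ κ → ∀ lo hi : ℤ, wcorr (f K') S lo hi = 0 := by
    intro K' hK' lo hi
    unfold wcorr
    refine Finset.sum_eq_zero fun i _ => ?_
    by_contra h
    have h1 : f K' i ≠ 0 := left_ne_zero_of_mul h
    have h2 : f K' (i + S) ≠ 0 := right_ne_zero_of_mul h
    have h3 := hf.supp K' i h1
    have h4 := hf.supp K' _ h2
    have h5 : (P.N K' : ℤ) ≤ P.N κ := by exact_mod_cast hmono hK'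
    rcases abs_cases S with ⟨h, _⟩ | ⟨h, _⟩ <;> rw [h] at hS <;> omega
  have hrec : ∀ n : ℕ, ∀ lo hi : ℤ, |wcorr (f (κ + n)) S lo hi| ≤
      (4 * (1 / 4) ^ κ - 4 * (1 / 4) ^ (κ + n)) * P.N (κ + n) := by
    intro n
    induction n with
    | zero =>
      intro lo hi
      rw [hzero (κ + 0) (by omega) lo hi]
      simp
    | succ n ih =>
      intro lo hi
      have hg : (0 : ℝ) ≤ 4 * (1 / 4) ^ κ - 4 * (1 / 4) ^ (κ + n) := by
        have : (1 / 4 : ℝ) ^ (κ + n) ≤ (1 / 4) ^ κ :=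
          pow_le_pow_of_le_one (by norm_num) (by norm_num) (by omega)
        linarith
      have := step_bound hf (show K₁ ≤ κ + n by omega) hg S ih lo hi
      have e : κ + (n + 1) = κ + n + 1 := by ring
      rw [e]
      refine this.trans (le_of_eq ?_)
      rw [pow_succ (1 / 4 : ℝ) (κ + n)]
      ring
  rcases le_total K κ with h | h
  · rw [hzero K h lo hi, abs_zero]
    positivity
  · obtain ⟨n, rfl⟩ := Nat.exists_eq_add_of_le h
    refine (hrec n lo hi).trans ?_
    have h1 : (0 : ℝ) ≤ (1 / 4 : ℝ) ^ (κ + n) := by positivity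
    have h2 : (0 : ℝ) ≤ P.N (κ + n) := Nat.cast_nonneg _
    apply mul_le_mul_of_nonneg_right _ h2
    linarith

end Pool.Agent.URec
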