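import Pool.Agent.URec.CorrDefs

/-!
# Signed coincidences: from letters to points (module CorrLink)
-/

namespace Pool.Agent.URec

variable {P : Params}

theorem fSym_nat {a : ℕ × ℕ} {K z : ℕ} (hz : z < P.N K) :
    fSym P a K (z : ℤ) = if P.c K z = a then P.ph K z else 0 := by
  unfold fSym
  have h1 : (z : ℤ).toNat = z := Int.toNat_natCast z
  rw [h1]
  have h2 : (0 : ℤ) ≤ z := Int.natCast_nonneg z
  have h3 : (z : ℤ) < P.N K := by exact_mod_cast hz
  by_cases h : P.c K z = a
  · rw [if_pos ⟨h2, h3, h⟩, if_pos h]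
  · rw [if_neg (fun h' => h h'.2.2), if_neg h]

theorem fSym_out {a : ℕ × ℕ} {K : ℕ} {i : ℤ} (h : i < 0 ∨ (P.N K : ℤ) ≤ i) :
    fSym P a K i = 0 := by
  unfold fSym
  rw [if_neg]
  rintro ⟨h1, h2, -⟩
  omega

theorem famSym (P : Params) : Stmt_FamSym P := by
  intro a
  refine ⟨?_, ?_, ?_⟩
  · intro K i
    unfold fSym
    split_ifs
    · rcases ph_eq (P := P) K i.toNat with h | h <;> rw [h] <;> norm_num
    · norm_num
  · intro K i h
    by_contra hcon
    exact h (fSym_out (by omega))
  · intro K hK i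
    by_cases hi : 0 ≤ i ∧ i < P.N (K + 1)
    · obtain ⟨n, rfl⟩ : ∃ n : ℕ, i = n := ⟨i.toNat, by omega⟩
      have hn : n < P.N (K + 1) := by exact_mod_cast hi.2
      rw [fSym_nat hn]
      rcases pos_cases hn with ⟨d, x, hd, hx, rfl⟩ | ⟨hno, d, g, h1, h2, h3⟩
      · rw [Finset.sum_eq_single d]
        · have h4 : (((P.start K d + x : ℕ) : ℤ) - P.start K d) = (x : ℤ) := by push_cast; ring
          rw [h4, fSym_nat hx, ph_start hx, c_start hx]
          by_cases h5 : P.c K x = a
          · have h6 : d = P.ca K ∨ d = P.cb K ∨ (P.c K x).1 < K := by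
              right; right
              rw [h5]
              omega
            rw [if_pos h6, if_pos h5, if_pos h5]
          · rw [if_neg h5]
            split_ifs with h6 h7
            · simp
            · exfalso
              have := congrArg Prod.fst h7
              simp only at this
              omega
            · simp
        · intro d' hd' hne
          rw [fSym_out, mul_zero]
          rcases lt_or_gt_of_ne hne with h5 | h5
          · have := start_le_of_lt (P := P) (k := K) h5
            right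
            push_cast
            omega
          · have := start_le_of_lt (P := P) (k := K) h5
            left
            push_cast
            omega
        · intro h5
          exact absurd (Finset.mem_range.2 hd) h5
      · rw [c_spacer hno, if_neg]
        · symm
          apply Finset.sum_eq_zero
          intro d' hd'
          rw [fSym_out, mul_zero]
          rcases lt_trichotomy d' d with h5 | h5 | h5
          · have := start_le_of_lt (P := P) (k := K) h5
            right
            omega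
          · subst h5
            right
            omega
          · rcases Nat.eq_or_lt_of_le (Nat.succ_le_of_lt h5) with h11 | h11
            · rw [Nat.succ_eq_add_one] at h11
              left
              rw [← h11]
              omega
            · have := start_le_of_lt (P := P) (k := K) h11
              rw [Nat.succ_eq_add_one] at this
              left
              omega
        · intro h5
          have := congrArg Prod.fst h5
          simp only at this
          omega
    · rw [fSym_out (by omega)]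
      symm
      apply Finset.sum_eq_zero
      intro d hd
      rw [Finset.mem_range] at hd
      rw [fSym_out, mul_zero]
      have h1 := start_add_lt (P := P) hd (x := P.N K - 1) (by have := N_pos (P := P) K; omega)
      have := N_pos (P := P) K
      omega

/-- The signed indicator of a symbol along a letter. -/
theorem sym_letter {a : ℕ × ℕ} {J K B z : ℕ} (ha : a.1 < K) (h : IsLet P J K B)
    (hz : z < P.N K) : P.c J (B + z) = a ↔ P.c K z = a := by
  rcases lt_or_eq_of_le (c_level_le hz) with h1 | h1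
  · rw [h.c_of_lt hz h1]
  · obtain ⟨j, y, B', h2, h3, -⟩ := h.reveal_native hz h1
    constructor
    · intro h4
      rw [h3] at h4
      have := congrArg Prod.fst h4
      simp only at this
      omega
    · intro h4
      rw [h4] at h1
      omega

theorem link (P : Params) : Stmt_Link P := by
  intro a K ha p y hy0 hyN hlet
  obtain ⟨t, ht⟩ := hlet.isLet
  obtain ⟨J, β, σ, -, hσ, h1, h2, h3⟩ := p.exists_occ (t + 2 * P.N (K + 1) + 5) 0
  obtain ⟨B, hB, hBl⟩ := ht J β σ (by push_cast at h1; omega) (by push_cast at h2; omega) h3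
  obtain ⟨σ', hσ', hph⟩ := hBl.ph
  push_cast at h1 h2
  rcases hBl.next with h4 | ⟨g, hg, hBl2, hgap⟩
  · exfalso
    omega
  obtain ⟨σ'', hσ'', hph2⟩ := hBl2.ph
  have hb1 := hBl.bound
  have hb2 := hBl2.bound
  refine ⟨σ * σ', σ * σ'', g, ?_, ?_, by omega, by omega, ?_⟩
  · rcases hσ with rfl | rfl <;> rcases hσ' with rfl | rfl <;> norm_num
  · rcases hσ with rfl | rfl <;> rcases hσ'' with rfl | rfl <;> norm_num
  intro n hn
  obtain ⟨Y, rfl⟩ : ∃ Y : ℕ, y = Y := ⟨y.toNat, by omega⟩
  have hpos : (n : ℤ) = β + ((B + (Y + n) : ℕ) : ℤ) := by push_cast; omega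
  by_cases hc1 : Y + n < P.N (K + 1)
  · -- in the first letter
    obtain ⟨h5, h6⟩ := h3 (B + (Y + n)) (by omega)
    rw [← hpos] at h5 h6
    have h7 : fSym P a (K + 1) ((n : ℤ) + Y - P.N (K + 1) - g) = 0 := fSym_out (by omega)
    have h8 : (n : ℤ) + Y = ((Y + n : ℕ) : ℤ) := by push_cast; ring
    rw [h7, h8, fSym_nat hc1, h5, h6, hph _ hc1]
    by_cases h9 : P.c (K + 1) (Y + n) = a
    · rw [if_pos h9, if_pos ((sym_letter ha hBl hc1).2 h9)]
      ring
    · rw [if_neg h9, if_neg (fun h => h9 ((sym_letter ha hBl hc1).1 h))]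
      ring
  · have h10 : fSym P a (K + 1) ((n : ℤ) + Y) = 0 := fSym_out (by omega)
    rw [h10]
    by_cases hc2 : Y + n < P.N (K + 1) + g
    · -- in the gap
      have h5 := (h3 (B + (Y + n)) (by omega)).1
      rw [← hpos] at h5
      have h6 := hgap (B + (Y + n)) (by omega) (by omega)
      have h7 : fSym P a (K + 1) ((n : ℤ) + Y - P.N (K + 1) - g) = 0 := fSym_out (by omega)
      rw [h7, if_neg]
      · ring
      · intro h8
        rw [h5] at h8
        rw [h8] at h6
        omega
    · -- in the second letter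
      obtain ⟨z, hz⟩ : ∃ z, Y + n = P.N (K + 1) + g + z := ⟨Y + n - (P.N (K + 1) + g), by omega⟩
      have hzN : z < P.N (K + 1) := by omega
      obtain ⟨h5, h6⟩ := h3 (B + P.N (K + 1) + g + z) (by omega)
      have h7 : β + ((B + P.N (K + 1) + g + z : ℕ) : ℤ) = n := by push_cast; omega
      have h8 : (n : ℤ) + Y - P.N (K + 1) - g = (z : ℤ) := by omega
      rw [h7] at h5 h6
      rw [h8, fSym_nat hzN, h5, h6, hph2 _ hzN]
      by_cases h9 : P.c (K + 1) z = a
      · rw [if_pos h9, if_pos ((sym_letter ha hBl2 hzN).2 h9)]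
        ring
      · rw [if_neg h9, if_neg (fun h => h9 ((sym_letter ha hBl2 hzN).1 h))]
        ring

theorem sum_eq_wcorr (f : ℤ → ℝ) (L : ℕ) (A B : ℤ) :
    ∑ n ∈ Finset.range L, f (n + A) * f (n + B) = wcorr f (B - A) A (A + L) := by
  unfold wcorr
  refine Finset.sum_bij (fun n _ => (n : ℤ) + A) ?_ ?_ ?_ ?_
  · intro n hn
    rw [Finset.mem_range] at hn
    rw [Finset.mem_Ico]
    omega
  · intro n _ m _ h
    omega
  · intro i hi
    rw [Finset.mem_Ico] at hi
    exact ⟨(i - A).toNat, Finset.mem_range.2 (by omega), by omega⟩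
  · intro n _
    have : (n : ℤ) + A + (B - A) = n + B := by ring
    rw [this]

theorem le_N (k : ℕ) : k < P.N k := by
  induction k with
  | zero => exact N_pos 0
  | succ k ih =>
    have := N_strictMono (P := P) (Nat.lt_succ_self k)
    rw [Nat.succ_eq_add_one] at this
    omega

theorem corr (P : Params) (hA : Stmt_CorrAbs P) : Stmt_Corr P := by
  intro a δ hδ
  obtain ⟨M, hM⟩ := hA (a.1 + 1) (fSym P a) (famSym P a) (δ / 4) (by positivity)
  refine ⟨M + 1, a.1 + 1, ?_⟩
  intro K hK
  refine ⟨P.N (K + 1), ?_, ?_⟩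
  · have := le_N (P := P) (K + 1)
    omega
  intro p q y z hp hq hyz
  obtain ⟨hpl, hp1, hp2⟩ := hp
  obtain ⟨hql, hq1, hq2⟩ := hq
  push_cast at hp1 hp2 hq1 hq2 hyz
  obtain ⟨σ₁, σ₂, g, hσ₁, hσ₂, hg1, hg2, h1⟩ := link P a K (by omega) p y (by omega) (by omega) hpl
  obtain ⟨ρ₁, ρ₂, g', hρ₁, hρ₂, hg'1, hg'2, h2⟩ :=
    link P a K (by omega) q z (by omega) (by omega) hql
  set N := P.N (K + 1) with hN
  set f := fSym P a (K + 1) with hf
  have hsum : ∑ n ∈ Finset.range N, (if p.x n = a then p.s n else 0) *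
      (if q.x n = a then q.s n else 0) =
      σ₁ * ρ₁ * wcorr f (z - y) y (y + N) +
      σ₁ * ρ₂ * wcorr f (z - N - g' - y) y (y + N) +
      σ₂ * ρ₁ * wcorr f (z - (y - N - g)) (y - N - g) (y - N - g + N) +
      σ₂ * ρ₂ * wcorr f (z - N - g' - (y - N - g)) (y - N - g) (y - N - g + N) := by
    rw [← sum_eq_wcorr, ← sum_eq_wcorr, ← sum_eq_wcorr, ← sum_eq_wcorr, Finset.mul_sum,
      Finset.mul_sum, Finset.mul_sum, Finset.mul_sum, ← Finset.sum_add_distrib,
      ← Finset.sum_add_distrib, ← Finset.sum_add_distrib]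
    apply Finset.sum_congr rfl
    intro n hn
    rw [Finset.mem_range] at hn
    rw [h1 n hn, h2 n hn]
    have e1 : (n : ℤ) + y - N - g = n + (y - N - g) := by ring
    have e2 : (n : ℤ) + z - N - g' = n + (z - N - g') := by ring
    rw [e1, e2]
    ring
  have key : ∀ (c c' : ℝ) (S lo hi : ℤ), |c| ≤ 1 → |c'| ≤ 1 → (M : ℤ) ≤ |S| →
      |c * c' * wcorr f S lo hi| ≤ δ / 4 * N := by
    intro c c' S lo hi hc hc' hS
    have h3 := hM (K + 1) (by omega) S hS lo hi
    rw [abs_mul, abs_mul]
    have h4 : |c| * |c'| ≤ 1 := mul_le_one₀ hc (abs_nonneg _) hc'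
    calc |c| * |c'| * |wcorr f S lo hi| ≤ 1 * |wcorr f S lo hi| := by
          gcongr
      _ ≤ δ / 4 * N := by rw [one_mul]; exact h3
  have hyz' : (M : ℤ) + 1 ≤ |z - y| := by rw [abs_sub_comm]; exact hyz
  have k1 := key σ₁ ρ₁ (z - y) y (y + N) hσ₁ hρ₁ (by omega)
  have k2 := key σ₁ ρ₂ (z - N - g' - y) y (y + N) hσ₁ hρ₂ (by
    rw [abs_of_neg (by omega)]; omega)
  have k3 := key σ₂ ρ₁ (z - (y - N - g)) (y - N - g) (y - N - g + N) hσ₂ hρ₁ (by
    rw [abs_of_pos (by omega)]; omega)
  have k4 := key σ₂ ρ₂ (z - N - g' - (y - N - g)) (y - N - g) (y - N - g + N) hσ₂ hρ₂ (by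
    have e : z - N - g' - (y - N - g) = (z - y) + (g - g') := by ring
    rw [e]
    rcases abs_cases (z - y) with ⟨h5, h6⟩ | ⟨h5, h6⟩ <;>
      rcases abs_cases (z - y + (g - g')) with ⟨h7, h8⟩ | ⟨h7, h8⟩ <;> omega)
  rw [hsum]
  have t1 := abs_add_le (σ₁ * ρ₁ * wcorr f (z - y) y (y + N) +
      σ₁ * ρ₂ * wcorr f (z - N - g' - y) y (y + N) +
      σ₂ * ρ₁ * wcorr f (z - (y - N - g)) (y - N - g) (y - N - g + N))
      (σ₂ * ρ₂ * wcorr f (z - N - g' - (y - N - g)) (y - N - g) (y - N - g + N))
  have t2 := abs_add_le (σ₁ * ρ₁ * wcorr f (z - y) y (y + N) +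
      σ₁ * ρ₂ * wcorr f (z - N - g' - y) y (y + N))
      (σ₂ * ρ₁ * wcorr f (z - (y - N - g)) (y - N - g) (y - N - g + N))
  have t3 := abs_add_le (σ₁ * ρ₁ * wcorr f (z - y) y (y + N))
      (σ₁ * ρ₂ * wcorr f (z - N - g' - y) y (y + N))
  linarith

end Pool.Agent.URec
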