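import Pool.Agent.URec.Letters

/-!
# A positive proportion of the symbols is good (module Dec)
-/

namespace Pool.Agent.URec

variable {P : Params}

theorem IsLet.eq_zero_or_lt {J K b : ℕ} (h : IsLet P J K b) : b = 0 ∨ P.N K + 1 ≤ b := by
  induction h with
  | refl K => left; rfl
  | @step J K B d h hd ih =>
    rcases Nat.eq_zero_or_pos d with h0 | h0
    · subst h0
      rw [start_zero, zero_add]
      exact ih
    · right
      rw [start_pos h0]
      have h1 : P.N K ≤ P.N J := N_mono h.le
      have h2 : 1 * (P.N J + 1) ≤ d * (P.N J + 1) := Nat.mul_le_mul_right _ h0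
      omega

theorem IsLet.end_or {J K b : ℕ} (h : IsLet P J K b) :
    b + P.N K = P.N J ∨ b + P.N K + 1 + P.N K ≤ P.N J := by
  rcases h.next with h1 | ⟨g, hg, h2, -⟩
  · left; exact h1
  · right
    have := h2.bound
    omega

/-- For two adjacent letters, one of them has the property that its native positions reveal a
common letter containing both letters. -/
theorem two_letters {J K B₁ B₂ g : ℕ} (h₁ : IsLet P J K B₁) (h₂ : IsLet P J K B₂)
    (hg : B₂ = B₁ + P.N K + g) (hg1 : 1 ≤ g) (hg2 : g ≤ 2) :
    (∀ z, z < P.N K → (P.c K z).1 = K → ∃ j y B', P.c J (B₁ + z) = (j, y) ∧ B₁ + z = B' + y ∧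
      B' ≤ B₁ ∧ B₂ + P.N K ≤ B' + P.N j) ∨
    (∀ z, z < P.N K → (P.c K z).1 = K → ∃ j y B', P.c J (B₂ + z) = (j, y) ∧ B₂ + z = B' + y ∧
      B' ≤ B₁ ∧ B₂ + P.N K ≤ B' + P.N j) := by
  induction J generalizing B₁ B₂ with
  | zero =>
    have hK := h₁.le
    have hb := h₂.bound
    have h0 : K = 0 := by omega
    subst h0
    omega
  | succ J ih =>
    have hN := N_pos (P := P) K
    have hbb₂ := h₂.bound
    cases h₁ with
    | refl => omega
    | @step _ _ b₁ d₁ h₁' hd₁ =>
      cases h₂ with
      | refl => omega
      | @step _ _ b₂ d₂ h₂' hd₂ =>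
        have hKJ := h₁'.le
        have hb₁ := h₁'.bound
        have hb₂ := h₂'.bound
        rcases lt_trichotomy d₁ d₂ with hd | hd | hd
        · -- different slots
          have h3 := start_le_of_lt (P := P) (k := J) hd
          have h4 : b₁ + P.N K = P.N J := by
            rcases h₁'.end_or with h | h
            · exact h
            · omega
          have h5 : b₂ = 0 := by
            rcases h₂'.eq_zero_or_lt with h | h
            · exact h
            · omega
          have h6 : d₂ = d₁ + 1 := by
            by_contra hcon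
            have h7 := start_le_of_lt (P := P) (k := J) (d := d₁ + 1) (d' := d₂) (by omega)
            rw [start_succ] at h7
            have := N_pos (P := P) J
            split_ifs at h7 <;> omega
          by_cases hc : d₁ = P.ca J ∨ d₁ = P.cb J
          · right
            intro z hz hzn
            have h7 := first_native (P := P) hKJ hz hzn
            refine ⟨J + 1, P.start J d₂ + b₂ + z, 0, ?_, by simp, by omega, by omega⟩
            have hab := P.hcab J
            rw [h5, Nat.add_assoc, zero_add, c_start (by omega), if_neg]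
            rw [h7]
            simp only
            omega
          · left
            intro z hz hzn
            have h7 := last_native (P := P) hKJ hz hzn
            refine ⟨J + 1, P.start J d₁ + b₁ + z, 0, ?_, by simp, by omega, by omega⟩
            have h8 : b₁ = P.N J - P.N K := by omega
            rw [Nat.add_assoc, c_start (by omega), if_neg]
            rw [h8, h7]
            simp only
            omega
        · subst hd
          have h3 : b₂ = b₁ + P.N K + g := by omega
          have key : ∀ b : ℕ, b + P.N K ≤ P.N J →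
              (∀ z, z < P.N K → (P.c K z).1 = K → ∃ j y B', P.c J (b + z) = (j, y) ∧
                b + z = B' + y ∧ B' ≤ b₁ ∧ b₂ + P.N K ≤ B' + P.N j) →
              ∀ z, z < P.N K → (P.c K z).1 = K → ∃ j y B',
                P.c (J + 1) (P.start J d₁ + b + z) = (j, y) ∧ P.start J d₁ + b + z = B' + y ∧
                B' ≤ P.start J d₁ + b₁ ∧ P.start J d₁ + b₂ + P.N K ≤ B' + P.N j := by
            intro b hb hall z hz hzn
            obtain ⟨j, y, B', h4, h5, h6, h7⟩ := hall z hz hzn
            rw [Nat.add_assoc, c_start (by omega)]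
            by_cases hc : d₁ = P.ca J ∨ d₁ = P.cb J ∨ (P.c J (b + z)).1 < J
            · rw [if_pos hc]
              exact ⟨j, y, P.start J d₁ + B', h4, by omega, by omega, by omega⟩
            · rw [if_neg hc]
              exact ⟨J + 1, P.start J d₁ + (b + z), 0, rfl, by simp, by omega, by omega⟩
          rcases ih h₁' h₂' h3 with h | h
          · left
            exact key b₁ (by omega) h
          · right
            exact key b₂ (by omega) h
        · exfalso
          have h3 := start_le_of_lt (P := P) (k := J) hd
          omega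

/-- Number of non native positions in a window. -/
theorem card_window_le (K a l : ℕ) (hl : l ≤ 100 * (P.N K + 1)) (hal : a + l ≤ P.N (K + 1)) :
    100 * ((Finset.Ico a (a + l)).filter (fun i => (P.c (K + 1) i).1 < K + 1)).card ≤
      301 * P.N K := by
  classical
  have hsub : (Finset.Ico a (a + l)).filter (fun i => (P.c (K + 1) i).1 < K + 1) ⊆
      ((({P.ca K, P.cb K} : Finset ℕ) ×ˢ Finset.range (P.N K)) ∪
        (Finset.Ico (a / (P.N K + 1)) (a / (P.N K + 1) + 101) ×ˢ
          (Finset.range (P.N K)).filter (fun i => (P.c K i).1 < K))).image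
        (fun q => P.start K q.1 + q.2) := by
    intro i hi
    rw [Finset.mem_filter, Finset.mem_Ico] at hi
    obtain ⟨⟨h1, h2⟩, h3⟩ := hi
    rcases pos_cases (P := P) (k := K) (i := i) (by omega) with ⟨d, x, hd, hx, rfl⟩ | ⟨hn, -⟩
    · rw [Finset.mem_image]
      refine ⟨(d, x), ?_, rfl⟩
      rw [c_start hx] at h3
      split_ifs at h3 with h4
      · rw [Finset.mem_union, Finset.mem_product, Finset.mem_product, Finset.mem_filter]
        simp only [Finset.mem_insert, Finset.mem_singleton, Finset.mem_range, Finset.mem_Ico]
        rcases h4 with h4 | h4 | h4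
        · left; exact ⟨Or.inl h4, hx⟩
        · left; exact ⟨Or.inr h4, hx⟩
        · right
          refine ⟨⟨?_, ?_⟩, hx, h4⟩
          · have h5 : a / (P.N K + 1) < d + 1 := by
              apply Nat.div_lt_of_lt_mul
              rcases Nat.eq_zero_or_pos d with h0 | h0
              · subst h0
                rw [start_zero] at h1
                omega
              · rw [start_pos h0] at h1
                have : (P.N K + 1) * (d + 1) = d * (P.N K + 1) + (P.N K + 1) := by ring
                omega
            omega
          · have h5 : d * (P.N K + 1) < a + 100 * (P.N K + 1) := by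
              rcases Nat.eq_zero_or_pos d with h0 | h0
              · subst h0
                omega
              · rw [start_pos h0] at h2
                omega
            have h6 : d < a / (P.N K + 1) + 100 + 1 := by
              have h7 := h5.le
              have h9 : 0 < P.N K + 1 := Nat.succ_pos _
              have h8 : d ≤ (a + 100 * (P.N K + 1)) / (P.N K + 1) :=
                (Nat.le_div_iff_mul_le h9).2 h7
              rw [Nat.add_mul_div_right _ _ h9] at h8
              omega
            omega
      · exact absurd h3 (lt_irrefl _)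
    · rw [c_spacer hn] at h3
      exact absurd h3 (lt_irrefl _)
  have hcard : ((Finset.Ico a (a + l)).filter (fun i => (P.c (K + 1) i).1 < K + 1)).card ≤
      2 * (P.N K) + 101 * ((Finset.range (P.N K)).filter (fun i => (P.c K i).1 < K)).card := by
    calc _ ≤ _ := Finset.card_le_card hsub
      _ ≤ _ := Finset.card_image_le
      _ ≤ _ := Finset.card_union_le _ _
      _ ≤ _ := by
        rw [Finset.card_product, Finset.card_product, Finset.card_range, Nat.card_Ico]
        have h1 : ({P.ca K, P.cb K} : Finset ℕ).card ≤ 2 := Finset.card_le_two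
        have h2 : a / (P.N K + 1) + 101 - a / (P.N K + 1) = 101 := by omega
        rw [h2]
        exact Nat.add_le_add_right (Nat.mul_le_mul_right _ h1) _
  have h3 := card_nonnative_le (P := P) K
  omega

theorem dec (P : Params) : Stmt_Dec P := by
  classical
  intro t
  obtain ⟨K, hK⟩ : ∃ K, t ≤ P.N K := ⟨t, N_strictMono.id_le t⟩
  set N := P.N K with hN
  set N' := P.N (K + 1) with hN'
  set L := 100 * (N + 1) with hL
  have hN'L : 10 * L ≤ N' := by
    have h1 := lt_N_succ (P := P) K
    rw [← hN, ← hN'] at h1
    have h2 : 1 ≤ 4 ^ K := Nat.one_le_pow _ _ (by norm_num)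
    have h3 : 1000 * 1 * (N + 1) ≤ 1000 * 4 ^ K * (N + 1) := by gcongr
    omega
  refine ⟨L, ?_⟩
  intro p S hS
  obtain ⟨J, β, σ, hJ, hσ, hb1, hb2, hocc⟩ := p.exists_occ (2 * L + 2 * N' + 10) (K + 1)
  push_cast at hb1 hb2
  obtain ⟨i₀, hi₀⟩ : ∃ i₀ : ℕ, 0 = β + i₀ := ⟨(-β).toNat, by omega⟩
  -- general counting
  have hcount : ∀ (B a l : ℕ), IsLet P J (K + 1) B → l ≤ L → a + l ≤ N' →
      99 * (N + 1) ≤ l →
      (∀ z, a ≤ z → z < a + l → (P.c (K + 1) z).1 = K + 1 → Pt.Good t p (β + (B + z : ℕ)) ∧
        -(L : ℤ) ≤ β + (B + z : ℕ) ∧ β + (B + z : ℕ) ≤ L) →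
      (2 : ℝ) / 5 * (2 * L + 1) ≤ (S.card : ℝ) := by
    intro B a l hB hl hal hl2 hz
    have h1 := card_window_le (P := P) K a l hl hal
    have h2 : ((Finset.Ico a (a + l)).filter (fun i => ¬ (P.c (K + 1) i).1 < K + 1)).card ≤
        S.card := by
      apply Finset.card_le_card_of_injOn (fun z => β + (B + z : ℕ))
      · intro z hz'
        rw [Finset.mem_coe, Finset.mem_filter, Finset.mem_Ico] at hz'
        obtain ⟨⟨h3, h4⟩, h5⟩ := hz'
        have h6 := c_level_le (P := P) (k := K + 1) (i := z) (by omega)
        obtain ⟨h7, h8, h9⟩ := hz z h3 h4 (by omega)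
        exact (hS _).2 ⟨h8, h9, h7⟩
      · intro z _ z' _ h
        simp only at h
        omega
    have h3 := Finset.card_filter_add_card_filter_not (s := Finset.Ico a (a + l))
      (fun i => (P.c (K + 1) i).1 < K + 1)
    rw [Nat.card_Ico] at h3
    have h4 : 2 * (2 * L + 1) ≤ 5 * S.card := by omega
    have h5 : (2 : ℝ) * (2 * L + 1) ≤ 5 * S.card := by exact_mod_cast h4
    linarith
  -- goodness
  have hgood : ∀ (i j y B' : ℕ), i < P.N J → P.c J i = (j, y) → i = B' + y → B' + t ≤ i₀ →
      i₀ + t < B' + P.N j → Pt.Good t p (β + i) := by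
    intro i j y B' hi hc hB' h1 h2
    have h3 := (hocc i hi).1
    rw [hc] at h3
    exact p.good_of_reveal h3 (by omega) (by omega)
  obtain ⟨B, hB, hB1, hB2⟩ := IsLet.exists_near (P := P) (J := J) (K := K + 1) (i := i₀ - t)
    (by omega) (by omega)
  have hbd := hB.bound
  by_cases hA : i₀ + t < B + N'
  · -- case A
    have hgA : ∀ z, z < N' → (P.c (K + 1) z).1 = K + 1 → Pt.Good t p (β + (B + z : ℕ)) := by
      intro z hz hzn
      obtain ⟨j, y, B', h1, h2, h3, h4, h5, h6⟩ := hB.reveal_native hz hzn
      exact hgood (B + z) j y B' (by omega) h2 h3 (by omega) (by omega)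
    by_cases hA2 : i₀ + L ≤ B + N'
    · refine hcount B (i₀ - B) L hB le_rfl (by omega) (by omega) ?_
      intro z h1 h2 h3
      exact ⟨hgA z (by omega) h3, by omega, by omega⟩
    · refine hcount B (i₀ - L - B) L hB le_rfl (by omega) (by omega) ?_
      intro z h1 h2 h3
      exact ⟨hgA z (by omega) h3, by omega, by omega⟩
  · -- case B
    rcases hB.next with h1 | ⟨g, hg, hBn, -⟩
    · exfalso
      omega
    have hbd2 := hBn.bound
    rcases two_letters hB hBn rfl (by omega) (by omega) with h | h
    · refine hcount B (N' - (L - t - 1)) (L - t - 1) hB (by omega) (by omega) (by omega) ?_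
      intro z h1 h2 h3
      obtain ⟨j, y, B', h4, h5, h6, h7⟩ := h z (by omega) h3
      exact ⟨hgood (B + z) j y B' (by omega) h4 h5 (by omega) (by omega), by omega, by omega⟩
    · refine hcount (B + N' + g) 0 (L - t - 1) hBn (by omega) (by omega) (by omega) ?_
      intro z h1 h2 h3
      obtain ⟨j, y, B', h4, h5, h6, h7⟩ := h z (by omega) h3
      exact ⟨hgood (B + N' + g + z) j y B' (by omega) h4 h5 (by omega) (by omega), by omega,
        by omega⟩

end Pool.Agent.URec
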