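import Pool.Agent.URec.Mass

/-!
# Existence of atoms (module Atom)
-/

open Filter Topology

namespace Pool.Agent.URec

namespace AtomAux

variable {P : Params} {w : ℕ → ℝ} {hw : Wt w}

/-! ### The API for the base tower, with the type `Pt P` -/

/-- Test functions of the base tower. -/
def BT (t : ℕ) (φ : Pt P → ℝ) : Prop := (baseT P).IsTest t φ

/-- Bounded test functions of the base tower. -/
def BB (φ : Pt P → ℝ) : Prop := (baseT P).TB φ

/-- Pairing of the base tower. -/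
noncomputable def bpr (w : ℕ → ℝ) (φ : Pt P → ℝ) (y : (baseT P).F) : ℝ := (baseT P).pr w φ y

/-- Mass of the base tower. -/
noncomputable def bm (w : ℕ → ℝ) (y : (baseT P).F) (E : Set (Pt P)) : ℝ := (baseT P).mass w y E

theorem bt_iff {t : ℕ} {φ : Pt P → ℝ} : BT t φ ↔
    (∀ p q, Pt.Same t p q → φ p = φ q) ∧ ∀ q, φ (Pt.ng q) = - φ q := Iff.rfl

theorem BB.of_bt {t : ℕ} {φ : Pt P → ℝ} (h : BT t φ) {C : ℝ} (hC : ∀ q, |φ q| ≤ C) : BB φ :=
  ⟨t, C, h, hC⟩

theorem BB.smul {φ : Pt P → ℝ} (c : ℝ) (h : BB φ) : BB (c • φ) := Tower.TB.smul (T := baseT P) c h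

theorem bpr_add {φ ψ : Pt P → ℝ} (h : BB φ) (h' : BB ψ) {y : (baseT P).F}
    (hy : y ∈ (baseT P).X w hw) : bpr w (φ + ψ) y = bpr w φ y + bpr w ψ y :=
  Tower.pr_add (T := baseT P) h h' hy

theorem bpr_smul {φ : Pt P → ℝ} (c : ℝ) (h : BB φ) {y : (baseT P).F}
    (hy : y ∈ (baseT P).X w hw) : bpr w (c • φ) y = c * bpr w φ y :=
  Tower.pr_smul (T := baseT P) c h hy

theorem BB.sum {ι : Type} (s : Finset ι) {φ : ι → Pt P → ℝ} (h : ∀ i ∈ s, BB (φ i)) :
    BB (∑ i ∈ s, φ i) := Tower.TB.sum (T := baseT P) s h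

theorem bpr_sum {ι : Type} (s : Finset ι) {φ : ι → Pt P → ℝ} (h : ∀ i ∈ s, BB (φ i))
    {y : (baseT P).F} (hy : y ∈ (baseT P).X w hw) :
    bpr w (∑ i ∈ s, φ i) y = ∑ i ∈ s, bpr w (φ i) y :=
  Tower.pr_sum (T := baseT P) s h hy

theorem bpr_sub_left (φ : Pt P → ℝ) (y z : (baseT P).F) :
    bpr w φ (y - z) = bpr w φ y - bpr w φ z := Tower.pr_sub_left (T := baseT P) φ y z

theorem bpr_le {t : ℕ} {φ : Pt P → ℝ} {C : ℝ} (h : BT t φ) (hC : ∀ q, |φ q| ≤ C)
    {y : (baseT P).F} (hy : y ∈ (baseT P).X w hw) : |bpr w φ y| ≤ C / w t * ‖y‖ :=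
  Tower.pr_le (T := baseT P) h hC hy

/-- Vectors of points of the base tower. -/
noncomputable def be (w : ℕ → ℝ) (hw : Wt w) (q : Pt P) : (baseT P).F := (baseT P).e w hw q

theorem b_exists_approx {y : (baseT P).F} (hy : y ∈ (baseT P).X w hw) {ε : ℝ} (hε : 0 < ε) :
    ∃ (n : ℕ) (a : Fin n → ℝ) (q : Fin n → Pt P), ‖y - ∑ i, a i • be w hw (q i)‖ ≤ ε :=
  Tower.exists_approx (T := baseT P) hy hε

theorem bpr_U (n : ℤ) {φ : Pt P → ℝ} (h : BB φ) {y : (baseT P).F}
    (hy : y ∈ (baseT P).X w hw) :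
    bpr w φ ((baseT P).U w hw n y) = bpr w (fun q => φ (Pt.sh n q)) y :=
  Tower.pr_U (T := baseT P) n h hy

/-! ### Test functions -/

/-- Signed indicator of the symbol `a` at the origin. -/
noncomputable def va (a : ℕ × ℕ) (p : Pt P) : ℝ :=
  if p.x 0 = a then p.s 0 else 0

theorem abs_s_le (p : Pt P) (i : ℤ) : |p.s i| ≤ 1 := by
  rcases Pt.s_eq p i with h | h <;> rw [h] <;> norm_num

theorem s_mul_self (p : Pt P) (i : ℤ) : p.s i * p.s i = 1 := by
  rcases Pt.s_eq p i with h | h <;> rw [h] <;> norm_num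

theorem abs_va_le (a : ℕ × ℕ) (p : Pt P) : |va a p| ≤ 1 := by
  unfold va
  split_ifs
  · exact abs_s_le p 0
  · norm_num

theorem va_test (a : ℕ × ℕ) : BT (P := P) 0 (va a) := by
  rw [bt_iff]
  refine ⟨fun p q h => ?_, fun q => ?_⟩
  · have := h 0 (by norm_num) (by norm_num)
    unfold va
    rw [this.1, this.2]
  · unfold va Pt.ng
    simp only
    split_ifs
    · rfl
    · ring

theorem va_bb (a : ℕ × ℕ) : BB (P := P) (va a) := BB.of_bt (va_test a) (abs_va_le a)

theorem va_sh (a : ℕ × ℕ) (n : ℤ) (p : Pt P) :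
    va a (Pt.sh n p) = if p.x n = a then p.s n else 0 := by
  unfold va Pt.sh
  simp only [zero_add]

theorem va_sh_bb (a : ℕ × ℕ) (n : ℤ) : BB (fun p : Pt P => va a (Pt.sh n p)) :=
  Tower.TB.sh (T := baseT P) n (va_bb a)

/-- A test function on a cell. -/
theorem test_on_cell (hS : Stmt_Sign P) {t : ℕ} {φ : Pt P → ℝ} (hφ : BT t φ)
    {p q : Pt P} (h : Pt.SameX t p q) : φ p = φ q * chi t q p := by
  rw [bt_iff] at hφ
  have hq : Pt.SameX t q p := fun i h1 h2 => (h i h1 h2).symm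
  obtain ⟨σ, hσ, hs⟩ := hS t q p hq
  have hchi : chi t q p = σ := by
    unfold chi
    rw [if_pos h, hs 0 (by omega) (by omega), mul_assoc, s_mul_self, mul_one]
  rw [hchi]
  rcases hσ with rfl | rfl
  · rw [mul_one]
    exact hφ.1 p q fun i h1 h2 => ⟨h i h1 h2, by rw [hs i h1 h2]; ring⟩
  · have h1 : φ p = φ (Pt.ng q) := hφ.1 p (Pt.ng q) fun i h1 h2 => ⟨h i h1 h2, by
      rw [hs i h1 h2]; change _ = - q.s i; ring⟩
    rw [h1, hφ.2 q]; ring

theorem bpr_zero {y : (baseT P).F} (hy : y ∈ (baseT P).X w hw) :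
    bpr (P := P) w (fun _ => 0) y = 0 := by
  have h : BT (P := P) 0 (fun _ => 0) := bt_iff.2 ⟨fun _ _ _ => rfl, fun _ => by simp⟩
  have := bpr_le (hw := hw) h (C := 0) (fun q => by simp) hy
  simp only [zero_div, zero_mul] at this
  exact abs_eq_zero.mp (le_antisymm this (abs_nonneg _))

open Classical in
/-- Restriction of a function to the points with a given property. -/
noncomputable def res (E : Pt P → Prop) (φ : Pt P → ℝ) (p : Pt P) : ℝ := if E p then φ p else 0

theorem res_pos {E : Pt P → Prop} {φ : Pt P → ℝ} {p : Pt P} (h : E p) : res E φ p = φ p := by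
  unfold res; rw [if_pos h]

theorem res_neg {E : Pt P → Prop} {φ : Pt P → ℝ} {p : Pt P} (h : ¬ E p) : res E φ p = 0 := by
  unfold res; rw [if_neg h]

theorem abs_res_le {E : Pt P → Prop} {φ : Pt P → ℝ} {C : ℝ} (hC : 0 ≤ C)
    (h : ∀ p, E p → |φ p| ≤ C) (p : Pt P) : |res E φ p| ≤ C := by
  by_cases hE : E p
  · rw [res_pos hE]; exact h p hE
  · rw [res_neg hE, abs_zero]; exact hC

/-- Invariant properties. -/
def Inv (t : ℕ) (E : Pt P → Prop) : Prop :=
  (∀ p q, Pt.Same t p q → (E p ↔ E q)) ∧ ∀ p, E (Pt.ng p) ↔ E p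

theorem Pt_Same_mono {s t : ℕ} (h : s ≤ t) {p q : Pt P} (hpq : Pt.Same t p q) :
    Pt.Same s p q := fun i h1 h2 => hpq i (by omega) (by omega)

theorem BT.mono {s t : ℕ} (h : s ≤ t) {φ : Pt P → ℝ} (hφ : BT s φ) : BT t φ :=
  bt_iff.2 ⟨fun p q hpq => hφ.1 p q (Pt_Same_mono h hpq), fun q => hφ.2 q⟩

theorem BT.res {t : ℕ} {φ : Pt P → ℝ} (hφ : BT t φ) {E : Pt P → Prop} (hE : Inv t E) :
    BT t (res E φ) := by
  rw [bt_iff] at hφ ⊢
  refine ⟨fun p q hpq => ?_, fun q => ?_⟩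
  · have e1 := hφ.1 p q hpq
    have e2 := hE.1 p q hpq
    by_cases h : E p
    · rw [res_pos h, res_pos (e2.1 h), e1]
    · rw [res_neg h, res_neg (fun h' => h (e2.2 h'))]
  · by_cases h : E q
    · rw [res_pos h, res_pos ((hE.2 q).2 h), hφ.2 q]
    · rw [res_neg h, res_neg (fun h' => h ((hE.2 q).1 h'))]; ring

theorem Inv.mono {s t : ℕ} (h : s ≤ t) {E : Pt P → Prop} (hE : Inv s E) : Inv t E :=
  ⟨fun p q hpq => hE.1 p q (Pt_Same_mono h hpq), hE.2⟩

theorem BB.res {φ : Pt P → ℝ} (hφ : BB φ) {t : ℕ} {E : Pt P → Prop} (hE : Inv t E) :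
    BB (res E φ) := by
  obtain ⟨s, C, h1, h2⟩ := hφ
  have hC : 0 ≤ C ∨ IsEmpty (Pt P) := by
    by_cases h : Nonempty (Pt P)
    · exact Or.inl ((abs_nonneg _).trans (h2 h.some))
    · exact Or.inr (not_nonempty_iff.1 h)
  refine ⟨max s t, C, BT.res (BT.mono (le_max_left _ _) h1) (hE.mono (le_max_right _ _)),
    fun q => ?_⟩
  rcases hC with hC | hC
  · exact abs_res_le hC (fun p _ => h2 p) q
  · exact (hC.false q).elim

theorem SameX.trans' {t : ℕ} {p q r : Pt P} (h : Pt.SameX t p q) (h' : Pt.SameX t q r) :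
    Pt.SameX t p r := fun i h1 h2 => (h i h1 h2).trans (h' i h1 h2)

theorem SameX.symm' {t : ℕ} {p q : Pt P} (h : Pt.SameX t p q) : Pt.SameX t q p :=
  fun i h1 h2 => (h i h1 h2).symm

theorem Same.sameX {t : ℕ} {p q : Pt P} (h : Pt.Same t p q) : Pt.SameX t p q :=
  fun i h1 h2 => (h i h1 h2).1

theorem inv_cells (t : ℕ) (s : Finset (Pt P)) : Inv t (fun p => ∃ q ∈ s, Pt.SameX t p q) := by
  refine ⟨fun p p' hpp => ?_, fun p => Iff.rfl⟩
  constructor
  · rintro ⟨q, hq, h⟩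
    exact ⟨q, hq, SameX.trans' (SameX.symm' (Same.sameX hpp)) h⟩
  · rintro ⟨q, hq, h⟩
    exact ⟨q, hq, SameX.trans' (Same.sameX hpp) h⟩

/-- If all pairings with signed cells vanish, so does the pairing with a test function supported on
finitely many cells. -/
theorem bpr_cells (hS : Stmt_Sign P) {y : (baseT P).F} (hy : y ∈ (baseT P).X w hw)
    (hcon : ∀ t p, bpr w (chi t p) y = 0) {t : ℕ} {φ : Pt P → ℝ} (hφ : BT t φ)
    (hφ1 : ∀ q, |φ q| ≤ 1) (s : Finset (Pt P)) :
    bpr w (res (fun p => ∃ q ∈ s, Pt.SameX t p q) φ) y = 0 := by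
  classical
  induction s using Finset.induction_on with
  | empty =>
    have : res (fun p => ∃ q ∈ (∅ : Finset (Pt P)), Pt.SameX t p q) φ = fun _ => 0 := by
      funext p
      exact res_neg (by simp)
    rw [this]
    exact bpr_zero hy
  | insert q s hqs ih =>
    have hφB : BB φ := BB.of_bt hφ hφ1
    have hchi : BB (chi t q) := BB.of_bt (isTest_chi t q) (abs_chi_le t q)
    by_cases hc : ∃ q' ∈ s, Pt.SameX t q q'
    · obtain ⟨q', hq', hqq⟩ := hc
      have : (fun p => ∃ q₁ ∈ insert q s, Pt.SameX t p q₁) =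
          (fun p => ∃ q₁ ∈ s, Pt.SameX t p q₁) := by
        funext p
        apply propext
        constructor
        · rintro ⟨q₁, hq₁, h⟩
          rw [Finset.mem_insert] at hq₁
          rcases hq₁ with rfl | hq₁
          · exact ⟨q', hq', SameX.trans' h hqq⟩
          · exact ⟨q₁, hq₁, h⟩
        · rintro ⟨q₁, hq₁, h⟩
          exact ⟨q₁, Finset.mem_insert_of_mem hq₁, h⟩
      rw [this]
      exact ih
    · have : res (fun p => ∃ q₁ ∈ insert q s, Pt.SameX t p q₁) φ =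
          res (fun p => ∃ q₁ ∈ s, Pt.SameX t p q₁) φ + (φ q) • chi t q := by
        funext p
        simp only [Pi.add_apply, Pi.smul_apply, smul_eq_mul]
        by_cases hp : Pt.SameX t p q
        · rw [res_pos ⟨q, Finset.mem_insert_self _ _, hp⟩, res_neg, zero_add]
          · exact test_on_cell hS hφ hp
          · rintro ⟨q', hq', h⟩
            exact hc ⟨q', hq', SameX.trans' (SameX.symm' hp) h⟩
        · have e : chi t q p = 0 := by unfold chi; rw [if_neg hp]
          rw [e, mul_zero, add_zero]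
          by_cases hp' : ∃ q₁ ∈ s, Pt.SameX t p q₁
          · obtain ⟨q₁, hq₁, h⟩ := hp'
            rw [res_pos ⟨q₁, Finset.mem_insert_of_mem hq₁, h⟩, res_pos ⟨q₁, hq₁, h⟩]
          · rw [res_neg (E := fun p => ∃ q₁ ∈ s, Pt.SameX t p q₁) hp', res_neg]
            rintro ⟨q₁, hq₁, h⟩
            rw [Finset.mem_insert] at hq₁
            rcases hq₁ with rfl | hq₁
            · exact hp h
            · exact hp' ⟨q₁, hq₁, h⟩
      rw [this, bpr_add (hw := hw) (hφB.res (inv_cells t s)) (hchi.smul _) hy, ih,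
        bpr_smul (hw := hw) _ hchi hy, hcon t q]
      ring

/-- Some signed cell has a nonzero pairing. -/
theorem exists_chi (hS : Stmt_Sign P) {y : (baseT P).F} (hy : y ∈ (baseT P).X w hw) (h0 : y ≠ 0) :
    ∃ (t : ℕ) (p : Pt P), bpr w (chi t p) y ≠ 0 := by
  classical
  by_contra hcon
  push Not at hcon
  apply h0
  rw [← norm_le_zero_iff]
  have key : ∀ (t : ℕ) (φ : Pt P → ℝ), BT t φ → (∀ q, |φ q| ≤ 1) → w t * |bpr w φ y| ≤ 0 := by
    intro t φ hφ hφ1
    have hwt := hw.pos t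
    suffices h : |bpr w φ y| ≤ 0 by
      nlinarith [abs_nonneg (bpr w φ y)]
    refine le_of_forall_pos_le_add fun ε hε => ?_
    rw [zero_add]
    obtain ⟨n, a, q, hz⟩ := b_exists_approx (hw := hw) hy (ε := ε * w t) (by positivity)
    set z := ∑ i, a i • be w hw (q i) with hzdef
    set s : Finset (Pt P) := Finset.univ.image q with hs
    have hφB : BB φ := BB.of_bt hφ hφ1
    have hinv := inv_cells t s
    have hinv2 : Inv t (fun p => ¬ ∃ q ∈ s, Pt.SameX t p q) :=
      ⟨fun p q h => not_congr (hinv.1 p q h), fun p => Iff.rfl⟩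
    set φ1 : Pt P → ℝ := res (fun p => ∃ q ∈ s, Pt.SameX t p q) φ with hφ1def
    set φ2 : Pt P → ℝ := res (fun p => ¬ ∃ q ∈ s, Pt.SameX t p q) φ with hφ2def
    have hφ12 : φ = φ1 + φ2 := by
      funext p
      simp only [Pi.add_apply]
      by_cases h : ∃ q ∈ s, Pt.SameX t p q
      · rw [hφ1def, hφ2def, res_pos h, res_neg (not_not.mpr h), add_zero]
      · rw [hφ1def, hφ2def, res_neg h, res_pos h, zero_add]
    have ht2 : BT t φ2 := hφ.res hinv2
    have hb2 : ∀ p, |φ2 p| ≤ 1 := abs_res_le zero_le_one fun p _ => hφ1 p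
    rw [hφ12, bpr_add (hw := hw) (hφB.res hinv) (hφB.res hinv2) hy,
      bpr_cells hS hy hcon hφ hφ1 s, zero_add]
    have hz0 : bpr w φ2 z = 0 := by
      have h1 : bpr w φ2 z = ∑ i, a i * bpr w φ2 (be w hw (q i)) := by
        rw [hzdef]
        exact Tower.pr_sum_left (T := baseT P) _ _ _ _
      rw [h1]
      refine Finset.sum_eq_zero fun i _ => ?_
      have h2 : bpr w φ2 (be w hw (q i)) = φ2 (q i) :=
        Tower.pr_e (T := baseT P) (hφB.res hinv2) _
      have h3 : φ2 (q i) = 0 := by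
        rw [hφ2def, res_neg]
        rw [not_not]
        exact ⟨q i, by rw [hs]; exact Finset.mem_image_of_mem _ (Finset.mem_univ i),
          fun _ _ _ => rfl⟩
      rw [h2, h3, mul_zero]
    have hzX : z ∈ (baseT P).X w hw := by
      rw [hzdef]
      exact Submodule.sum_mem _ fun i _ => Submodule.smul_mem _ _ (Tower.e_mem (T := baseT P) (q i))
    have e : bpr w φ2 y = bpr w φ2 (y - z) := by
      rw [bpr_sub_left, hz0, sub_zero]
    rw [e]
    refine (bpr_le (hw := hw) ht2 hb2 (Submodule.sub_mem _ hy hzX)).trans ?_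
    rw [div_mul_eq_mul_div, one_mul, div_le_iff₀ hwt]
    exact hz
  exact Tower.norm_le_of_pr (T := baseT P) (hw := hw) hy le_rfl key

/-- Bound by the mass. -/
theorem bpr_le_mass {y : (baseT P).F} (hy : y ∈ (baseT P).X w hw) (hf : (baseT P).FTV w y)
    {φ : Pt P → ℝ} (h : BB φ) {C : ℝ} (hC : 0 ≤ C) (hφ : ∀ q, |φ q| ≤ C) {E : Set (Pt P)}
    (hE : ∀ q, q ∉ E → φ q = 0) : |bpr w φ y| ≤ C * bm w y E := by
  rcases hC.eq_or_lt with h0 | h0
  · have : φ = fun _ => 0 := by
      funext q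
      have := hφ q
      rw [← h0] at this
      exact abs_eq_zero.mp (le_antisymm this (abs_nonneg _))
    rw [this, bpr_zero hy, abs_zero, ← h0, zero_mul]
  · have e : φ = C • (C⁻¹ • φ) := by
      rw [smul_smul, mul_inv_cancel₀ h0.ne', one_smul]
    rw [e, bpr_smul (hw := hw) _ (h.smul _) hy, abs_mul, abs_of_pos h0]
    refine mul_le_mul_of_nonneg_left ?_ h0.le
    refine Tower.le_mass (T := baseT P) hf (h.smul _) (fun q => ?_) (fun q hq => ?_) hy
    · change |C⁻¹ * φ q| ≤ 1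
      rw [abs_mul, abs_of_pos (inv_pos.2 h0), inv_mul_le_iff₀ h0, mul_one]
      exact hφ q
    · change C⁻¹ * φ q = 0
      rw [hE q hq, mul_zero]

/-- Bound by the masses of the fibres of an invariant function. -/
theorem bpr_le_fibers {y : (baseT P).F} (hy : y ∈ (baseT P).X w hw) (hf : (baseT P).FTV w y)
    {φ : Pt P → ℝ} (h : BB φ) {t : ℕ} (Y : Pt P → ℤ) (hY : ∀ p q, Pt.Same t p q → Y p = Y q)
    (hY' : ∀ p, Y (Pt.ng p) = Y p) (S : Finset ℤ) (hS : ∀ p, Y p ∈ S) (C : ℤ → ℝ)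
    (hC : ∀ k, 0 ≤ C k) (hφ : ∀ p, |φ p| ≤ C (Y p)) :
    |bpr w φ y| ≤ ∑ k ∈ S, C k * bm w y {p | Y p = k} := by
  have hinv : ∀ k, Inv t (fun p => Y p = k) := fun k =>
    ⟨fun p q hpq => by show Y p = k ↔ Y q = k; rw [hY p q hpq],
      fun p => by show Y (Pt.ng p) = k ↔ Y p = k; rw [hY' p]⟩
  have e : φ = ∑ k ∈ S, res (fun p => Y p = k) φ := by
    funext p
    rw [Finset.sum_apply, Finset.sum_eq_single (Y p)]
    · exact (res_pos (E := fun p' => Y p' = Y p) rfl).symm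
    · intro k _ hk
      exact res_neg (fun h => hk h.symm)
    · intro hn
      exact absurd (hS p) hn
  have hB : ∀ k ∈ S, BB (res (fun p => Y p = k) φ) := fun k _ => h.res (hinv k)
  have e2 : bpr w φ y = ∑ k ∈ S, bpr w (res (fun p => Y p = k) φ) y := by
    conv_lhs => rw [e]
    exact bpr_sum (hw := hw) S hB hy
  rw [e2]
  refine (Finset.abs_sum_le_sum_abs _ _).trans (Finset.sum_le_sum fun k hk => ?_)
  refine bpr_le_mass hy hf (hB k hk) (hC k) (abs_res_le (hC k) fun p hp => ?_) fun q hq => ?_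
  · have := hφ p
    rwa [show Y p = k from hp] at this
  · exact res_neg hq

theorem sum_bm_le {y : (baseT P).F} (hy : y ∈ (baseT P).X w hw) (hf : (baseT P).FTV w y)
    (Y : Pt P → ℤ) (S : Finset ℤ) :
    ∑ k ∈ S, bm w y {p | Y p = k} ≤ bm w y Set.univ := by
  refine Tower.sum_mass_le (T := baseT P) hy hf S (fun k => {p : Pt P | Y p = k}) ?_
  intro i _ j _ hij
  rw [Set.disjoint_left]
  intro p hp hp'
  exact hij ((show Y p = i from hp).symm.trans hp')

theorem bm_mono {y : (baseT P).F} (hf : (baseT P).FTV w y) {E E' : Set (Pt P)} (h : E ⊆ E') :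
    bm w y E ≤ bm w y E' := Tower.mass_mono (T := baseT P) hf h

theorem bm_nonneg {y : (baseT P).F} (hy : y ∈ (baseT P).X w hw) (E : Set (Pt P)) :
    0 ≤ bm w y E := Tower.mass_nonneg (T := baseT P) (hw := hw) hy E

/-- Lower bound for the mean square, from uniform recurrence. -/
theorem ur_lower {y : (baseT P).F} (hy : y ∈ (baseT P).X w hw) (hu : (baseT P).UR w hw y)
    {a : ℕ × ℕ} (h0 : bpr w (va a) y ≠ 0) :
    ∃ c : ℝ, 0 < c ∧ ∃ L₀ : ℕ, ∀ L : ℕ, L₀ ≤ L →
      c * L ≤ ∑ n ∈ Finset.range L, (bpr w (fun q => va a (Pt.sh (n : ℤ) q)) y) ^ 2 := by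
  set γ := |bpr w (va a) y| / 2 with hγ
  have hγ0 : 0 < γ := by
    have := abs_pos.2 h0
    positivity
  obtain ⟨N, hN⟩ := hu γ hγ0
  set f : ℕ → ℝ := fun n => (bpr w (fun q => va a (Pt.sh (n : ℤ) q)) y) ^ 2 with hf
  have hf0 : ∀ n, 0 ≤ f n := fun n => sq_nonneg _
  have hstep : ∀ m : ℕ, ∃ j : ℕ, j ≤ N ∧ γ ^ 2 ≤ f (m + j) := by
    intro m
    obtain ⟨j, hj, hj'⟩ := hN m
    refine ⟨j, hj, ?_⟩
    have h1 : bpr w (va a) ((baseT P).U w hw ((m : ℤ) + j) y) =
        bpr w (fun q => va a (Pt.sh ((m + j : ℕ) : ℤ) q)) y := by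
      rw [bpr_U _ (va_bb a) hy]
      push_cast
      rfl
    have h2 : |bpr w (va a) ((baseT P).U w hw ((m : ℤ) + j) y - y)| ≤ γ := by
      refine (bpr_le (hw := hw) (va_test a) (abs_va_le a)
        (Submodule.sub_mem _ (Tower.U_mem (T := baseT P) _ hy) hy)).trans ?_
      rw [hw.zero, div_one, one_mul]
      exact hj'
    rw [bpr_sub_left, h1] at h2
    have h3 : γ ≤ |bpr w (fun q => va a (Pt.sh ((m + j : ℕ) : ℤ) q)) y| := by
      have h4 := abs_sub_abs_le_abs_sub (bpr w (va a) y)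
        (bpr w (fun q => va a (Pt.sh ((m + j : ℕ) : ℤ) q)) y)
      rw [abs_sub_comm] at h4
      have h5 : |bpr w (va a) y| = 2 * γ := by rw [hγ]; ring
      linarith
    change γ ^ 2 ≤ (bpr w (fun q => va a (Pt.sh ((m + j : ℕ) : ℤ) q)) y) ^ 2
    rw [← sq_abs (bpr w (fun q => va a (Pt.sh ((m + j : ℕ) : ℤ) q)) y)]
    exact pow_le_pow_left₀ hγ0.le h3 2
  have hblock : ∀ k : ℕ, k * γ ^ 2 ≤ ∑ n ∈ Finset.range (k * (N + 1)), f n := by
    intro k
    induction k with
    | zero => simp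
    | succ k ih =>
      obtain ⟨j, hj, hj'⟩ := hstep (k * (N + 1))
      have e : (k + 1) * (N + 1) = k * (N + 1) + (N + 1) := by ring
      rw [e, Finset.sum_range_add]
      have h1 : f (k * (N + 1) + j) ≤ ∑ x ∈ Finset.range (N + 1), f (k * (N + 1) + x) :=
        Finset.single_le_sum (f := fun x => f (k * (N + 1) + x)) (fun _ _ => hf0 _)
          (Finset.mem_range.2 (by omega))
      push_cast
      linarith
  refine ⟨γ ^ 2 / (2 * (N + 1)), by positivity, 2 * (N + 1), fun L hL => ?_⟩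
  have hN1 : (0 : ℝ) < N + 1 := by positivity
  have h1 : ∑ n ∈ Finset.range (L / (N + 1) * (N + 1)), f n ≤ ∑ n ∈ Finset.range L, f n := by
    apply Finset.sum_le_sum_of_subset_of_nonneg
    · intro x hx
      rw [Finset.mem_range] at hx ⊢
      exact lt_of_lt_of_le hx (Nat.div_mul_le_self L (N + 1))
    · intro x _ _
      exact hf0 x
  refine le_trans ?_ ((hblock (L / (N + 1))).trans h1)
  have h2 : (L : ℝ) < ((L / (N + 1) : ℕ) + 1) * (N + 1) := by
    have h := Nat.lt_mul_div_succ L (show 0 < N + 1 by omega)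
    have h' : (L : ℝ) < ((N + 1) * (L / (N + 1) + 1) : ℕ) := by exact_mod_cast h
    rw [Nat.cast_mul, Nat.cast_add, Nat.cast_add, Nat.cast_one] at h'
    linarith [mul_comm ((N : ℝ) + 1) (((L / (N + 1) : ℕ) : ℝ) + 1)]
  have h3 : (2 * (N + 1) : ℝ) ≤ L := by exact_mod_cast hL
  rw [div_mul_eq_mul_div, div_le_iff₀ (by positivity)]
  have h4 : (L : ℝ) ≤ (L / (N + 1) : ℕ) * (2 * (N + 1)) := by nlinarith
  have h5 : 0 ≤ γ ^ 2 := by positivity
  nlinarith [mul_le_mul_of_nonneg_left h4 h5]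

/-- Truncated correlation of two points. -/
noncomputable def corr (a : ℕ × ℕ) (L : ℕ) (p q : Pt P) : ℝ :=
  ∑ n ∈ Finset.range L, va a (Pt.sh (n : ℤ) p) * va a (Pt.sh (n : ℤ) q)

theorem abs_mul_le_one {x y : ℝ} (hx : |x| ≤ 1) (hy : |y| ≤ 1) : |x * y| ≤ 1 := by
  rw [abs_mul]
  calc |x| * |y| ≤ 1 * 1 := mul_le_mul hx hy (abs_nonneg _) zero_le_one
    _ = 1 := one_mul _

theorem abs_corr_le (a : ℕ × ℕ) (L : ℕ) (p q : Pt P) : |corr a L p q| ≤ L := by
  unfold corr
  calc _ ≤ ∑ n ∈ Finset.range L, |va a (Pt.sh (n : ℤ) p) * va a (Pt.sh (n : ℤ) q)| :=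
        Finset.abs_sum_le_sum_abs _ _
    _ ≤ ∑ n ∈ Finset.range L, (1 : ℝ) :=
        Finset.sum_le_sum fun n _ => abs_mul_le_one (abs_va_le a _) (abs_va_le a _)
    _ = L := by simp

theorem corr_congr (hS : Stmt_Sign P) (a : ℕ × ℕ) {L t : ℕ} (hL : L ≤ t) {p p' q q' : Pt P}
    (hp : Pt.SameX t p p') (hq : Pt.SameX t q q') : |corr a L p q| = |corr a L p' q'| := by
  obtain ⟨σ, hσ, h1⟩ := hS t p p' hp
  obtain ⟨σ', hσ', h2⟩ := hS t q q' hq
  have e : corr a L p' q' = (σ * σ') * corr a L p q := by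
    unfold corr
    rw [Finset.mul_sum]
    refine Finset.sum_congr rfl fun n hn => ?_
    rw [Finset.mem_range] at hn
    rw [va_sh, va_sh, va_sh, va_sh, ← hp n (by omega) (by omega), ← hq n (by omega) (by omega),
      h1 n (by omega) (by omega), h2 n (by omega) (by omega)]
    split_ifs <;> ring
  have e2 : |σ * σ'| = 1 := by
    rcases hσ with rfl | rfl <;> rcases hσ' with rfl | rfl <;> norm_num
  rw [e, abs_mul, e2, one_mul]

/-- Main step: heavy cells at arbitrarily large scales. -/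
theorem heavy_cell (hS : Stmt_Sign P) (hPos : Stmt_Pos P) (hDet : Stmt_PosDet P)
    (hCorr : Stmt_Corr P) {y : (baseT P).F} (hy : y ∈ (baseT P).X w hw)
    (hf : (baseT P).FTV w y) (a : ℕ × ℕ) {c : ℝ} (hc : 0 < c) {L₀ : ℕ}
    (hlow : ∀ L : ℕ, L₀ ≤ L →
      c * L ≤ ∑ n ∈ Finset.range L, (bpr w (fun q => va a (Pt.sh (n : ℤ) q)) y) ^ 2) :
    ∃ η : ℝ, 0 < η ∧ ∀ t₀ : ℕ, ∃ t, t₀ ≤ t ∧ ∃ p : Pt P, η ≤ bm w y (cell t p) := by
  classical
  set V := bm w y Set.univ with hV
  have hV0 : 0 ≤ V := bm_nonneg hy _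
  set δ := c / (4 * (V + 1) ^ 2) with hδ
  have hδ0 : 0 < δ := by positivity
  obtain ⟨M, K₀, hMK⟩ := hCorr a δ hδ0
  set η := c / (16 * (M + 1) * (V + 1)) with hη
  have hη0 : 0 < η := by positivity
  set δ₂ := c / (8 * (V + 1)) with hδ₂
  have hδ₂0 : 0 < δ₂ := by positivity
  refine ⟨η, hη0, fun t₀ => ?_⟩
  set t := max t₀ M with ht
  obtain ⟨K₁, hK₁⟩ := mass_lev hy hf t hδ₂0
  set K := max (max K₀ K₁) (L₀ + 1) with hK
  have hKK₀ : K₀ ≤ K := (le_max_left _ _).trans (le_max_left _ _)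
  have hKK₁ : K₁ ≤ K := (le_max_right _ _).trans (le_max_left _ _)
  have hKL₀ : L₀ + 1 ≤ K := le_max_right _ _
  have hMt : M ≤ t := le_max_right _ _
  obtain ⟨L, hKL, hL⟩ := hMK K hKK₀
  have hexc := hK₁ K hKK₁
  refine ⟨t, le_max_left _ _, ?_⟩
  by_contra hcon
  push Not at hcon
  set t₁ := max L t with ht₁
  have htt₁ : t ≤ t₁ := le_max_right _ _
  have hLt₁ : L ≤ t₁ := le_max_left _ _
  -- the position function
  let R : Pt P → ℤ → Prop := fun p k => ∃ p' : Pt P, Pt.SameX t₁ p p' ∧ Pt.Pos t (K + 1) p' k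
  let Y : Pt P → ℤ := fun p => if Pt.LevLe t K p then Classical.epsilon (R p) else -1
  have hYpos : ∀ p, Pt.LevLe t K p → R p (Y p) := by
    intro p hp
    have h1 : Y p = Classical.epsilon (R p) := if_pos hp
    rw [h1]
    obtain ⟨k, hk⟩ := hPos t K p hp
    exact Classical.epsilon_spec (p := R p) ⟨k, p, fun _ _ _ => rfl, hk⟩
  have hYneg : ∀ p, ¬ Pt.LevLe t K p → Y p = -1 := fun p hp => if_neg hp
  have hYr : ∀ p, Pt.LevLe t K p → (t : ℤ) ≤ Y p ∧ Y p + t < P.N (K + 1) := by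
    intro p hp
    obtain ⟨p', _, h⟩ := hYpos p hp
    exact ⟨h.2.1, h.2.2⟩
  have hlevX : ∀ p q : Pt P, Pt.SameX t₁ p q → Pt.LevLe t K p → Pt.LevLe t K q := by
    intro p q h hp i h1 h2
    rw [← h i (by omega) (by omega)]
    exact hp i h1 h2
  have hRX : ∀ p q : Pt P, Pt.SameX t₁ p q → R p = R q := by
    intro p q h
    funext k
    apply propext
    constructor
    · rintro ⟨p', h1, h2⟩
      exact ⟨p', SameX.trans' (SameX.symm' h) h1, h2⟩
    · rintro ⟨p', h1, h2⟩
      exact ⟨p', SameX.trans' h h1, h2⟩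
  have hYX : ∀ p q : Pt P, Pt.SameX t₁ p q → Y p = Y q := by
    intro p q h
    by_cases hp : Pt.LevLe t K p
    · have hq := hlevX p q h hp
      have e1 : Y p = Classical.epsilon (R p) := if_pos hp
      have e2 : Y q = Classical.epsilon (R q) := if_pos hq
      rw [e1, e2, hRX p q h]
    · have hq : ¬ Pt.LevLe t K q := fun hq => hp (hlevX q p (SameX.symm' h) hq)
      rw [hYneg p hp, hYneg q hq]
  have hY1 : ∀ p q, Pt.Same t₁ p q → Y p = Y q := fun p q h => hYX p q (Same.sameX h)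
  have hY2 : ∀ p, Y (Pt.ng p) = Y p := fun p => hYX _ _ fun _ _ _ => rfl
  set S : Finset ℤ := Finset.Ico (-1) (P.N (K + 1)) with hSdef
  have hYS : ∀ p, Y p ∈ S := by
    intro p
    rw [hSdef, Finset.mem_Ico]
    by_cases hp : Pt.LevLe t K p
    · have := hYr p hp
      omega
    · rw [hYneg p hp]
      omega
  have hYlev : ∀ p, Y p ≠ -1 → Pt.LevLe t K p := fun p h => by
    by_contra hp
    exact h (hYneg p hp)
  -- the masses of the fibres
  have hm0 : ∀ k, 0 ≤ bm w y {p | Y p = k} := fun k => bm_nonneg hy _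
  have hmexc : bm w y {p | Y p = -1} ≤ δ₂ := by
    refine le_trans (bm_mono hf ?_) hexc
    intro p hp
    by_contra h
    have h' : Pt.LevLe t K p := not_not.mp h
    have := hYr p h'
    have h2 : Y p = -1 := hp
    omega
  have hcellpt : ∀ k, k ≠ -1 → bm w y {p | Y p = k} ≤ η := by
    intro k hk
    by_cases hne : ∃ p₀ : Pt P, Y p₀ = k
    · obtain ⟨p₀, hp₀⟩ := hne
      refine le_trans (bm_mono hf ?_) (hcon p₀).le
      intro p hp
      have hp' : Y p = k := hp
      have l1 := hYlev p (by rw [hp']; exact hk)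
      have l2 := hYlev p₀ (by rw [hp₀]; exact hk)
      obtain ⟨p', h1, h2⟩ := hYpos p l1
      obtain ⟨p₀', h3, h4⟩ := hYpos p₀ l2
      rw [hp'] at h2
      rw [hp₀] at h4
      have h5 := hDet t K p' p₀' k (hlevX _ _ h1 l1) (hlevX _ _ h3 l2) h2 h4
      have h1' : Pt.SameX t p p' := fun i ha hb => h1 i (by omega) (by omega)
      have h3' : Pt.SameX t p₀' p₀ := fun i ha hb => (h3 i (by omega) (by omega)).symm
      exact SameX.trans' h1' (SameX.trans' h5 h3')
    · have h1 : {p : Pt P | Y p = k} = ∅ := by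
        ext p
        constructor
        · intro h; exact (hne ⟨p, h⟩).elim
        · intro h; exact h.elim
      rw [h1]
      refine le_trans (Tower.mass_le (T := baseT P) (C := 0) ?_) hη0.le
      intro φ _ _ hφ0
      have : φ = fun _ => 0 := by
        funext q
        exact hφ0 q (Set.notMem_empty q)
      rw [this]
      exact (bpr_zero hy).le
  have hmsum : ∑ k ∈ S, bm w y {p | Y p = k} ≤ V := sum_bm_le hy hf Y S
  -- correlations of points in far positions
  have hfar : ∀ p q, Y p ≠ -1 → Y q ≠ -1 → (M : ℤ) ≤ |Y p - Y q| → |corr a L p q| ≤ δ * L := by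
    intro p q hp hq hpq
    obtain ⟨p', h1, h2⟩ := hYpos p (hYlev p hp)
    obtain ⟨q', h3, h4⟩ := hYpos q (hYlev q hq)
    rw [corr_congr hS a hLt₁ h1 h3]
    have hPM : ∀ {r : Pt P} {k : ℤ}, Pt.Pos t (K + 1) r k → Pt.Pos M (K + 1) r k := by
      rintro r k ⟨ha, hb, hc⟩
      exact ⟨ha, by omega, by omega⟩
    have := hL p' q' (Y p) (Y q) (hPM h2) (hPM h4) hpq
    unfold corr
    simp only [va_sh]
    exact this
  -- the function `Ψ`
  set g : ℕ → ℝ := fun n => bpr w (fun q => va a (Pt.sh (n : ℤ) q)) y with hg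
  have hLr : (0 : ℝ) < L := by
    have : 0 < L := by omega
    exact_mod_cast this
  have hvB : ∀ n : ℕ, BB (fun q : Pt P => va a (Pt.sh (n : ℤ) q)) := fun n => va_sh_bb a n
  let Ψ : Pt P → ℝ := ∑ n ∈ Finset.range L, g n • (fun q : Pt P => va a (Pt.sh (n : ℤ) q))
  have hΨB : BB Ψ := BB.sum _ fun n _ => (hvB n).smul _
  have hΨy : bpr w Ψ y = ∑ n ∈ Finset.range L, g n ^ 2 := by
    rw [bpr_sum (hw := hw) _ (fun n _ => (hvB n).smul _) hy]
    refine Finset.sum_congr rfl fun n _ => ?_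
    rw [bpr_smul (hw := hw) _ (hvB n) hy]
    ring
  have hΨq : ∀ q, Ψ q = bpr w (fun p => corr a L p q) y := by
    intro q
    have e1 : (fun p => corr a L p q) = ∑ n ∈ Finset.range L,
        va a (Pt.sh (n : ℤ) q) • (fun p : Pt P => va a (Pt.sh (n : ℤ) p)) := by
      funext p
      rw [Finset.sum_apply]
      unfold corr
      refine Finset.sum_congr rfl fun n _ => ?_
      simp only [Pi.smul_apply, smul_eq_mul]
      ring
    rw [e1, bpr_sum (hw := hw) _ (fun n _ => (hvB n).smul _) hy]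
    have e2 : Ψ q = ∑ n ∈ Finset.range L, g n * va a (Pt.sh (n : ℤ) q) := by
      change (∑ n ∈ Finset.range L, g n • (fun q : Pt P => va a (Pt.sh (n : ℤ) q))) q = _
      rw [Finset.sum_apply]
      rfl
    rw [e2]
    refine Finset.sum_congr rfl fun n _ => ?_
    rw [bpr_smul (hw := hw) _ (hvB n) hy]
    ring
  have hcB : ∀ q : Pt P, BB (fun p => corr a L p q) := by
    intro q
    have e1 : (fun p => corr a L p q) = ∑ n ∈ Finset.range L,
        va a (Pt.sh (n : ℤ) q) • (fun p : Pt P => va a (Pt.sh (n : ℤ) p)) := by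
      funext p
      rw [Finset.sum_apply]
      unfold corr
      refine Finset.sum_congr rfl fun n _ => ?_
      simp only [Pi.smul_apply, smul_eq_mul]
      ring
    rw [e1]
    exact BB.sum _ fun n _ => (hvB n).smul _
  have hΨ1 : ∀ q, |Ψ q| ≤ L * V := by
    intro q
    rw [hΨq q]
    exact bpr_le_mass hy hf (hcB q) hLr.le (fun p => abs_corr_le a L p q)
      (fun p hp => absurd (Set.mem_univ p) hp)
  set B := L * (δ₂ + δ * V + 2 * M * η) with hB
  have hB0 : 0 ≤ B := by positivity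
  have hΨ2 : ∀ q, Y q ≠ -1 → |Ψ q| ≤ B := by
    intro q hq
    rw [hΨq q]
    have h1 := bpr_le_fibers hy hf (hcB q) Y hY1 hY2 S hYS
      (fun k => if k = -1 ∨ |k - Y q| < M then (L : ℝ) else δ * L)
      (fun k => by split_ifs <;> positivity) (fun p => by
        by_cases h : Y p = -1 ∨ |Y p - Y q| < M
        · rw [if_pos h]; exact abs_corr_le a L p q
        · rw [if_neg h]
          rw [not_or] at h
          exact hfar p q h.1 hq (not_lt.1 h.2))
    refine h1.trans ?_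
    have h2 : ∀ k ∈ S, (if k = -1 ∨ |k - Y q| < M then (L : ℝ) else δ * L) * bm w y {p | Y p = k} ≤
        δ * L * bm w y {p | Y p = k} + (if k = -1 then L * δ₂ else 0) +
          (if k ∈ Finset.Ioo (Y q - M) (Y q + M) then L * η else 0) := by
      intro k _
      have h0 := hm0 k
      have hδL : 0 ≤ δ * L * bm w y {p | Y p = k} := by positivity
      by_cases hk1 : k = -1
      · rw [if_pos (Or.inl hk1), if_pos hk1]
        have h3 : (0 : ℝ) ≤ if k ∈ Finset.Ioo (Y q - M) (Y q + M) then L * η else 0 := by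
          split_ifs <;> positivity
        have h4 : (L : ℝ) * bm w y {p | Y p = k} ≤ L * δ₂ := by
          rw [hk1]
          exact mul_le_mul_of_nonneg_left hmexc hLr.le
        linarith
      · rw [if_neg hk1]
        by_cases hk2 : |k - Y q| < M
        · rw [if_pos (Or.inr hk2), if_pos]
          · have h4 : (L : ℝ) * bm w y {p | Y p = k} ≤ L * η :=
              mul_le_mul_of_nonneg_left (hcellpt k hk1) hLr.le
            linarith
          · rw [Finset.mem_Ioo]
            rw [abs_lt] at hk2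
            omega
        · rw [if_neg (by rw [not_or]; exact ⟨hk1, hk2⟩)]
          have h3 : (0 : ℝ) ≤ if k ∈ Finset.Ioo (Y q - M) (Y q + M) then L * η else 0 := by
            split_ifs <;> positivity
          linarith
    refine (Finset.sum_le_sum h2).trans ?_
    rw [Finset.sum_add_distrib, Finset.sum_add_distrib, ← Finset.mul_sum]
    have h5 : ∑ k ∈ S, (if k = -1 then (L : ℝ) * δ₂ else 0) ≤ L * δ₂ := by
      rw [Finset.sum_ite_eq']
      split_ifs
      · exact le_rfl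
      · positivity
    have h6 : ∑ k ∈ S, (if k ∈ Finset.Ioo (Y q - M) (Y q + M) then (L : ℝ) * η else 0) ≤
        2 * M * (L * η) := by
      rw [← Finset.sum_filter, Finset.sum_const, nsmul_eq_mul]
      refine mul_le_mul_of_nonneg_right ?_ (by positivity)
      have h7 : (S.filter fun k => k ∈ Finset.Ioo (Y q - M) (Y q + M)).card ≤
          (Finset.Ioo (Y q - M) (Y q + M)).card := by
        apply Finset.card_le_card
        intro k hk
        exact (Finset.mem_filter.1 hk).2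
      have h8 : (Finset.Ioo (Y q - M) (Y q + (M : ℤ))).card ≤ 2 * M := by
        rw [Int.card_Ioo]
        omega
      exact_mod_cast h7.trans h8
    have h7 : δ * L * ∑ k ∈ S, bm w y {p | Y p = k} ≤ δ * L * V :=
      mul_le_mul_of_nonneg_left hmsum (by positivity)
    calc _ ≤ δ * L * V + L * δ₂ + 2 * M * (L * η) := by
          exact add_le_add (add_le_add h7 h5) h6
      _ = B := by rw [hB]; ring
  have hfinal : |bpr w Ψ y| ≤ L * V * δ₂ + B * V := by
    have h1 := bpr_le_fibers hy hf hΨB Y hY1 hY2 S hYS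
      (fun k => if k = -1 then (L : ℝ) * V else B)
      (fun k => by split_ifs <;> positivity) (fun p => by
        by_cases h : Y p = -1
        · rw [if_pos h]; exact hΨ1 p
        · rw [if_neg h]; exact hΨ2 p h)
    refine h1.trans ?_
    have h2 : ∀ k ∈ S, (if k = -1 then (L : ℝ) * V else B) * bm w y {p | Y p = k} ≤
        (if k = -1 then L * V * δ₂ else 0) + B * bm w y {p | Y p = k} := by
      intro k _
      have h0 := hm0 k
      by_cases hk : k = -1
      · rw [if_pos hk, if_pos hk]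
        have h3 : L * V * bm w y {p | Y p = k} ≤ L * V * δ₂ := by
          rw [hk]
          exact mul_le_mul_of_nonneg_left hmexc (by positivity)
        have h4 : 0 ≤ B * bm w y {p | Y p = k} := mul_nonneg hB0 h0
        linarith
      · rw [if_neg hk, if_neg hk]
        linarith
    refine (Finset.sum_le_sum h2).trans ?_
    rw [Finset.sum_add_distrib, ← Finset.mul_sum]
    have h5 : ∑ k ∈ S, (if k = -1 then (L : ℝ) * V * δ₂ else 0) ≤ L * V * δ₂ := by
      rw [Finset.sum_ite_eq']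
      split_ifs
      · exact le_rfl
      · positivity
    exact add_le_add h5 (mul_le_mul_of_nonneg_left hmsum hB0)
  have hlowL := hlow L (by omega)
  have h1 : c * L ≤ L * V * δ₂ + B * V := by
    refine hlowL.trans ?_
    rw [← hΨy]
    exact (le_abs_self _).trans hfinal
  have h2 : c ≤ 2 * (V * δ₂) + δ * V ^ 2 + 2 * M * η * V := by
    have e : L * V * δ₂ + B * V = (2 * (V * δ₂) + δ * V ^ 2 + 2 * M * η * V) * L := by
      rw [hB]; ring
    rw [e] at h1
    exact le_of_mul_le_mul_right h1 hLr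
  have hV1 : 0 < V + 1 := by positivity
  have h3 : V * δ₂ ≤ c / 8 := by
    rw [hδ₂, ← mul_div_assoc, div_le_div_iff₀ (by positivity) (by norm_num)]
    nlinarith
  have h4 : δ * V ^ 2 ≤ c / 4 := by
    rw [hδ, div_mul_eq_mul_div, div_le_div_iff₀ (by positivity) (by norm_num)]
    nlinarith [mul_nonneg hc.le hV0]
  have h5 : 2 * M * η * V ≤ c / 8 := by
    have hM0 : (0 : ℝ) ≤ M := Nat.cast_nonneg _
    have e : 2 * M * η * V = c * (2 * M * V) / (16 * (M + 1) * (V + 1)) := by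
      rw [hη]; ring
    rw [e, div_le_div_iff₀ (by positivity) (by norm_num)]
    have : 2 * (M : ℝ) * V * 8 ≤ 16 * (M + 1) * (V + 1) := by nlinarith [mul_nonneg hM0 hV0]
    nlinarith [mul_le_mul_of_nonneg_left this hc.le]
  linarith

end AtomAux

open AtomAux in
/-- A nonzero uniformly recurrent vector with finite total variation has an atom. -/
theorem exists_atom {P : Params} {w : ℕ → ℝ} {hw : Wt w} (hS : Stmt_Sign P) (hCell : Stmt_Cell P)
    (hPos : Stmt_Pos P) (hDet : Stmt_PosDet P) (hCl : Stmt_Closed P) (hCorr : Stmt_Corr P)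
    {y : (baseT P).F} (hy : y ∈ (baseT P).X w hw) (hf : (baseT P).FTV w y)
    (hu : (baseT P).UR w hw y) (h0 : y ≠ 0) :
    ∃ (p : Pt P) (η : ℝ), 0 < η ∧ ∀ t, η ≤ (baseT P).mass w y (cell t p) := by
  obtain ⟨t, p, hp⟩ := exists_chi hS hy h0
  obtain ⟨n₀, hn1, hn2, hgood⟩ := hCell t p
  set a := p.x n₀ with ha
  have hchi : chi t p = p.s n₀ • (fun q : Pt P => va a (Pt.sh n₀ q)) := by
    funext q
    simp only [Pi.smul_apply, smul_eq_mul]
    rw [va_sh]
    by_cases hq : Pt.SameX t q p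
    · have h1 : q.x n₀ = a := hq n₀ hn1 hn2
      obtain ⟨_, h2⟩ := hgood q h1
      unfold chi
      rw [if_pos hq, if_pos h1]
      have h3 := s_mul_self q n₀
      have h4 := s_mul_self p 0
      calc q.s 0 * p.s 0 = (q.s n₀ * q.s n₀) * (q.s 0 * p.s 0) := by rw [h3, one_mul]
        _ = q.s n₀ * (q.s n₀ * q.s 0) * p.s 0 := by ring
        _ = q.s n₀ * (p.s n₀ * p.s 0) * p.s 0 := by rw [h2]
        _ = p.s n₀ * q.s n₀ * (p.s 0 * p.s 0) := by ring
        _ = p.s n₀ * q.s n₀ := by rw [h4, mul_one]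
    · have h1 : q.x n₀ ≠ a := fun h => hq (hgood q h).1
      unfold chi
      rw [if_neg hq, if_neg h1, mul_zero]
  have h1 : bpr w (va a) ((baseT P).U w hw n₀ y) ≠ 0 := by
    intro h
    apply hp
    rw [bpr_U _ (va_bb a) hy] at h
    rw [hchi, bpr_smul (hw := hw) _ (va_sh_bb a n₀) hy, h, mul_zero]
  have hy' : (baseT P).U w hw n₀ y ∈ (baseT P).X w hw := Tower.U_mem (T := baseT P) _ hy
  have hf' : (baseT P).FTV w ((baseT P).U w hw n₀ y) := Tower.FTV.U (T := baseT P) hy hf n₀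
  have hu' : (baseT P).UR w hw ((baseT P).U w hw n₀ y) := Tower.UR.U (T := baseT P) hy hu n₀
  obtain ⟨c, hc, L₀, hlow⟩ := ur_lower hy' hu' h1
  obtain ⟨η, hη, hcell⟩ := heavy_cell hS hPos hDet hCorr hy' hf' a hc hlow
  obtain ⟨p', hp'⟩ := exists_atom₂ hCl hy' hy' hf' hf' hη hη (fun t₀ => by
    obtain ⟨t, ht, q, hq⟩ := hcell t₀
    exact ⟨t, ht, q, hq, hq⟩)
  refine ⟨Pt.sh (-n₀) p', η, hη, fun t => ?_⟩
  refine ((hp' (t + n₀.natAbs)).1).trans ?_
  refine (Tower.mass_U (T := baseT P) (hw := hw) hy n₀ (cell (t + n₀.natAbs) p')).le.trans ?_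
  refine Tower.mass_mono (T := baseT P) hf ?_
  intro q hq
  have hq' : Pt.SameX (t + n₀.natAbs) (Pt.sh n₀ q) p' := hq
  change Pt.SameX t q (Pt.sh (-n₀) p')
  intro i hi1 hi2
  have := hq' (i + -n₀) (by omega) (by omega)
  change q.x i = p'.x (i + -n₀)
  rw [← this]
  change q.x i = q.x (i + -n₀ + n₀)
  congr 1
  ring

end Pool.Agent.URec
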