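import Pool.Agent.URec.Mass

/-!
# Finite total variation of uniformly recurrent vectors (module TV)
-/

open Filter Topology

namespace Pool.Agent.URec

namespace TVAux

open Classical in
/-- Weights attached to a sequence of scales. -/
noncomputable def wt (τ : ℕ → ℕ) : ℕ → ℝ
  | 0 => 1
  | t + 1 => if ∃ i, τ i = t + 1 then 4 / 5 * wt τ t else wt τ t

theorem wt_pos (τ : ℕ → ℕ) (t : ℕ) : 0 < wt τ t := by
  induction t with
  | zero => simp [wt]
  | succ t ih =>
    rw [wt]
    split_ifs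
    · positivity
    · exact ih

theorem wt_anti (τ : ℕ → ℕ) (t : ℕ) : wt τ (t + 1) ≤ wt τ t := by
  have h := wt_pos τ t
  rw [wt]
  split_ifs
  · linarith
  · exact le_rfl

theorem wt_dbl (τ : ℕ → ℕ) (t : ℕ) : wt τ t ≤ 2 * wt τ (t + 1) := by
  have h := wt_pos τ t
  rw [wt]
  split_ifs
  · linarith
  · linarith

theorem wt_const {τ : ℕ → ℕ} (hτ : StrictMono τ) (i k : ℕ) (hk : τ i + k < τ (i + 1)) :
    wt τ (τ i + k) = wt τ (τ i) := by
  induction k with
  | zero => rfl
  | succ k ih =>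
    rw [← ih (by omega)]
    have h : ¬ ∃ j, τ j = τ i + k + 1 := by
      rintro ⟨j, hj⟩
      have h1 : τ i < τ j := by omega
      have h2 : τ j < τ (i + 1) := by omega
      have h3 := hτ.lt_iff_lt.1 h1
      have h4 := hτ.lt_iff_lt.1 h2
      omega
    change wt τ (τ i + k + 1) = _
    rw [wt, if_neg h]

theorem wt_scale {τ : ℕ → ℕ} (hτ : StrictMono τ) (h0 : τ 0 = 0) (i : ℕ) :
    wt τ (τ i) = (4 / 5) ^ i := by
  induction i with
  | zero => rw [h0]; simp [wt]
  | succ i ih =>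
    have h1 : τ i < τ (i + 1) := hτ (Nat.lt_succ_self i)
    obtain ⟨k, hk⟩ : ∃ k, τ (i + 1) = τ i + k + 1 := ⟨τ (i + 1) - τ i - 1, by omega⟩
    have h2 := wt_const hτ i k (by omega)
    rw [hk, wt, if_pos ⟨i + 1, hk⟩, h2, ih, pow_succ]
    ring

theorem wt_lim {τ : ℕ → ℕ} (hτ : StrictMono τ) (h0 : τ 0 = 0) :
    Tendsto (wt τ) atTop (𝓝 0) := by
  have h1 : Antitone (wt τ) := antitone_nat_of_succ_le (wt_anti τ)
  have h2 : Tendsto (fun i => wt τ (τ i)) atTop (𝓝 0) := by
    simp only [wt_scale hτ h0]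
    exact tendsto_pow_atTop_nhds_zero_of_lt_one (by norm_num) (by norm_num)
  rw [Metric.tendsto_atTop] at h2 ⊢
  intro ε hε
  obtain ⟨N, hN⟩ := h2 ε hε
  refine ⟨τ N, fun n hn => ?_⟩
  have h3 := hN N le_rfl
  rw [Real.dist_eq, sub_zero] at h3 ⊢
  have h4 := wt_pos τ n
  have h5 := h1 hn
  have h6 := wt_pos τ (τ N)
  rw [abs_of_pos h6] at h3
  rw [abs_of_pos h4]
  linarith

end TVAux

open TVAux in
/-- Adapted weights exist. -/
theorem exists_wt {P : Params} (hD : Stmt_Dec P) : ∃ w : ℕ → ℝ, Wt w ∧ WtDec P w := by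
  choose Lf hLf using hD
  let τ : ℕ → ℕ := fun n => Nat.rec 0 (fun _ t => t + Lf t + 1) n
  have hτs : ∀ i, τ (i + 1) = τ i + Lf (τ i) + 1 := fun i => rfl
  have hτ : StrictMono τ := strictMono_nat_of_lt_succ fun i => by rw [hτs]; omega
  refine ⟨wt τ, ⟨wt_pos τ, rfl, wt_anti τ, wt_dbl τ, wt_lim hτ rfl⟩,
    τ, fun i => Lf (τ i), hτ, wt_scale hτ rfl, fun i => by
      change τ i + Lf (τ i) ≤ τ (i + 1)
      rw [hτs]; omega,
    fun i p S hS => hLf (τ i) p S hS⟩

namespace TVAux

variable {P : Params}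

theorem s_sq (p : Pt P) (i : ℤ) : p.s i * p.s i = 1 := by
  rcases Pt.s_eq p i with h | h <;> rw [h] <;> norm_num

theorem good_ng {t : ℕ} {p : Pt P} {n : ℤ} : Pt.Good t (Pt.ng p) n ↔ Pt.Good t p n := by
  have h : (Pt.ng p).s n * (Pt.ng p).s 0 = p.s n * p.s 0 := by
    change (- p.s n) * (- p.s 0) = _
    ring
  constructor
  · intro hg q hq
    have := hg q hq
    rw [h] at this
    exact this
  · intro hg q hq
    have := hg q hq
    rw [← h] at this
    exact this

/-- If `n` is good for `p`, and `p'` has the same symbol and sign at `n`, then `n` is good for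
`p'` and the points agree on `[-t, t]`. -/
theorem good_same (hS : Stmt_Sign P) {t : ℕ} {p p' : Pt P} {n : ℤ} (hx : p'.x n = p.x n)
    (hs : p'.s n = p.s n) (hg : Pt.Good t p n) : Pt.Good t p' n ∧ Pt.Same t p p' := by
  obtain ⟨h1, h2⟩ := hg p' hx
  have h3 : p'.s 0 = p.s 0 := by
    have e1 := s_sq p n
    rw [hs] at h2
    calc p'.s 0 = (p.s n * p.s n) * p'.s 0 := by rw [e1, one_mul]
      _ = p.s n * (p.s n * p'.s 0) := by ring
      _ = p.s n * (p.s n * p.s 0) := by rw [h2]
      _ = (p.s n * p.s n) * p.s 0 := by ring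
      _ = p.s 0 := by rw [e1, one_mul]
  constructor
  · intro q hq
    obtain ⟨h4, h5⟩ := hg q (hq.trans hx)
    refine ⟨fun i hi1 hi2 => (h4 i hi1 hi2).trans (h1 i hi1 hi2).symm, ?_⟩
    rw [h5, hs, h3]
  · have h1' : Pt.SameX t p p' := fun i hi1 hi2 => (h1 i hi1 hi2).symm
    obtain ⟨σ, -, h6⟩ := hS t p p' h1'
    have h7 := h6 0 (by omega) (by omega)
    have h8 : σ = 1 := by
      have e1 := s_sq p 0
      calc σ = σ * (p.s 0 * p.s 0) := by rw [e1, mul_one]
        _ = (σ * p.s 0) * p.s 0 := by ring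
        _ = p'.s 0 * p.s 0 := by rw [← h7]
        _ = 1 := by rw [h3, e1]
    intro i hi1 hi2
    refine ⟨h1' i hi1 hi2, ?_⟩
    rw [h6 i hi1 hi2, h8, one_mul]

open Classical in
/-- The scale `0` test function which computes `φ` at the points for which `n` is good. -/
noncomputable def chiN (t : ℕ) (φ : Pt P → ℝ) (n : ℤ) (q : Pt P) : ℝ :=
  if Pt.Good t (Pt.sh (-n) q) n then φ (Pt.sh (-n) q) else 0

open Classical in
theorem chiN_sh (t : ℕ) (φ : Pt P → ℝ) (n : ℤ) (p : Pt P) :
    chiN t φ n (Pt.sh n p) = if Pt.Good t p n then φ p else 0 := by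
  have h : Pt.sh (-n) (Pt.sh n p) = p := by
    have h1 := (baseT P).sh_add (-n) n p
    have h2 := (baseT P).sh_zero p
    rw [neg_add_cancel] at h1
    exact h1.trans h2
  unfold chiN
  rw [h]

theorem isTest_chiN (hS : Stmt_Sign P) {t : ℕ} {φ : Pt P → ℝ} (h : (baseT P).IsTest t φ) (n : ℤ) :
    (baseT P).IsTest 0 (chiN t φ n) := by
  constructor
  · intro q q' hqq
    obtain ⟨h1, h2⟩ := hqq 0 (by simp) (by simp)
    have e1 : (Pt.sh (-n) q').x n = (Pt.sh (-n) q).x n := by
      change q'.x (n + -n) = q.x (n + -n)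
      rw [add_neg_cancel]
      exact h1.symm
    have e2 : (Pt.sh (-n) q').s n = (Pt.sh (-n) q).s n := by
      change q'.s (n + -n) = q.s (n + -n)
      rw [add_neg_cancel]
      exact h2.symm
    unfold chiN
    by_cases hg : Pt.Good t (Pt.sh (-n) q) n
    · obtain ⟨h3, h4⟩ := good_same hS e1 e2 hg
      rw [if_pos hg, if_pos h3]
      exact h.1 _ _ h4
    · have hg' : ¬ Pt.Good t (Pt.sh (-n) q') n := fun hg' =>
        hg (good_same hS e1.symm e2.symm hg').1
      rw [if_neg hg, if_neg hg']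
  · intro q
    unfold chiN
    have e : Pt.sh (-n) ((baseT P).ng q) = Pt.ng (Pt.sh (-n) q) := rfl
    rw [e]
    by_cases hg : Pt.Good t (Pt.sh (-n) q) n
    · rw [if_pos (good_ng.2 hg), if_pos hg]
      exact h.2 _
    · rw [if_neg (fun hh => hg (good_ng.1 hh)), if_neg hg, neg_zero]

theorem abs_chiN_le {t : ℕ} {φ : Pt P → ℝ} (h1 : ∀ q, |φ q| ≤ 1) (n : ℤ) (q : Pt P) :
    |chiN t φ n q| ≤ 1 := by
  unfold chiN
  split_ifs
  · exact h1 _
  · simp

end TVAux

open TVAux in
/-- Vectors of the base space with bounded orbits have finite total variation. -/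
theorem ftv_of_bounded {P : Params} {w : ℕ → ℝ} {hw : Wt w} (hS : Stmt_Sign P)
    (hD : WtDec P w) {y : (baseT P).F} (hy : y ∈ (baseT P).X w hw) {R : ℝ}
    (hR : ∀ n : ℤ, ‖(baseT P).U w hw n y‖ ≤ R) : (baseT P).FTV w y := by
  classical
  obtain ⟨τ, L, hτ, hwτ, hτL, hdec⟩ := hD
  have key : ∀ k i : ℕ, ∀ φ : (baseT P).Q → ℝ, (baseT P).IsTest (τ i) φ → (∀ q, |φ q| ≤ 1) →
      |(baseT P).pr w φ y| ≤ 5 / 2 * R * (1 - (3 / 5) ^ k) + (3 / 5) ^ k * (‖y‖ * (5 / 4) ^ (i + k)) := by
    intro k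
    induction k with
    | zero =>
      intro i φ h h1
      have h2 := Tower.pr_le h h1 hy
      rw [hwτ] at h2
      have h3 : (1 : ℝ) / (4 / 5) ^ i * ‖y‖ = ‖y‖ * (5 / 4) ^ i := by
        rw [one_div, ← inv_pow, mul_comm]
        norm_num
      rw [h3] at h2
      simpa using h2
    | succ k ih =>
      intro i φ h h1
      have hposL : (0 : ℝ) < 2 * L i + 1 := by positivity
      -- the functions `g n φ`
      let g : ℤ → (baseT P).Q → ℝ := fun n q => chiN (τ i) φ n ((baseT P).sh n q)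
      have hg : ∀ n p, g n p = if Pt.Good (τ i) p n then φ p else 0 := fun n p =>
        chiN_sh (τ i) φ n p
      have hgt : ∀ n ∈ Finset.Icc (-(L i : ℤ)) (L i), (baseT P).IsTest (τ (i + 1)) (g n) := by
        intro n hn
        rw [Finset.mem_Icc] at hn
        have h3 := Tower.isTest_sh n (isTest_chiN hS h n)
        refine Tower.IsTest.mono ?_ h3
        have := hτL i
        omega
      have hgTB : ∀ n ∈ Finset.Icc (-(L i : ℤ)) (L i), (baseT P).TB (g n) := fun n hn =>
        ⟨_, 1, hgt n hn, fun q => abs_chiN_le h1 n _⟩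
      have hgpr : ∀ n ∈ Finset.Icc (-(L i : ℤ)) (L i), |(baseT P).pr w (g n) y| ≤ R := by
        intro n _
        have h0 : (baseT P).TB (chiN (τ i) φ n) := ⟨0, 1, isTest_chiN hS h n, abs_chiN_le h1 n⟩
        have h3 := Tower.pr_U (w := w) (hw := hw) n h0 hy
        have h4 := Tower.pr_le (w := w) (hw := hw) (isTest_chiN hS h n) (abs_chiN_le h1 n)
          (Tower.U_mem n hy)
        rw [hw.zero, div_one, one_mul, h3] at h4
        exact h4.trans (hR n)
      -- the remainder
      let ψ : (baseT P).Q → ℝ := (2 * (L i : ℝ) + 1) • φ + ∑ n ∈ Finset.Icc (-(L i : ℤ)) (L i), (-1 : ℝ) • g n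
      have hφTB : (baseT P).TB φ := ⟨_, 1, h, h1⟩
      have hsumTB : (baseT P).TB (∑ n ∈ Finset.Icc (-(L i : ℤ)) (L i), (-1 : ℝ) • g n) :=
        Tower.TB.sum _ fun n hn => Tower.TB.smul _ (hgTB n hn)
      have hψpr : (baseT P).pr w ψ y = (2 * (L i : ℝ) + 1) * (baseT P).pr w φ y
          - ∑ n ∈ Finset.Icc (-(L i : ℤ)) (L i), (baseT P).pr w (g n) y := by
        change (baseT P).pr w (_ + _) y = _
        rw [Tower.pr_add (Tower.TB.smul _ hφTB) hsumTB hy, Tower.pr_smul _ hφTB hy,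
          Tower.pr_sum _ (fun n hn => Tower.TB.smul _ (hgTB n hn)) hy, sub_eq_add_neg,
          ← Finset.sum_neg_distrib]
        congr 1
        refine Finset.sum_congr rfl fun n hn => ?_
        rw [Tower.pr_smul _ (hgTB n hn) hy]
        ring
      have hψv : ∀ p, |ψ p| ≤ 3 / 5 * (2 * (L i : ℝ) + 1) := by
        intro p
        have h3 : ψ p = (2 * (L i : ℝ) + 1) * φ p +
            ∑ n ∈ Finset.Icc (-(L i : ℤ)) (L i), (-1 : ℝ) * g n p := by
          change ((2 * (L i : ℝ) + 1) • φ + ∑ n ∈ Finset.Icc (-(L i : ℤ)) (L i), (-1 : ℝ) • g n) p = _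
          rw [Pi.add_apply, Finset.sum_apply]
          rfl
        have h4 : ∑ n ∈ Finset.Icc (-(L i : ℤ)) (L i), (-1 : ℝ) * g n p =
            - ((((Finset.Icc (-(L i : ℤ)) (L i)).filter fun n => Pt.Good (τ i) p n).card : ℝ) * φ p) := by
          simp only [hg, neg_mul, one_mul, Finset.sum_neg_distrib]
          rw [← Finset.sum_filter, Finset.sum_const, nsmul_eq_mul]
        set S := (Finset.Icc (-(L i : ℤ)) (L i)).filter fun n => Pt.Good (τ i) p n with hSdef
        have h5 := hdec i p S (by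
          intro n
          rw [hSdef, Finset.mem_filter, Finset.mem_Icc]
          tauto)
        have h6 : (S.card : ℝ) ≤ 2 * L i + 1 := by
          have h7 : S.card ≤ (Finset.Icc (-(L i : ℤ)) (L i)).card :=
            Finset.card_le_card (Finset.filter_subset _ _)
          have h8 : (Finset.Icc (-(L i : ℤ)) (L i)).card = 2 * L i + 1 := by
            rw [Int.card_Icc]; omega
          rw [h8] at h7
          exact_mod_cast h7
        rw [h3, h4]
        have h9 : (2 * (L i : ℝ) + 1) * φ p + -((S.card : ℝ) * φ p) =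
            (2 * (L i : ℝ) + 1 - S.card) * φ p := by ring
        rw [h9, abs_mul, abs_of_nonneg (by linarith)]
        have h10 := h1 p
        have h11 : (2 * (L i : ℝ) + 1 - S.card) ≤ 3 / 5 * (2 * (L i : ℝ) + 1) := by linarith
        calc (2 * (L i : ℝ) + 1 - S.card) * |φ p| ≤ (2 * (L i : ℝ) + 1 - S.card) * 1 :=
              mul_le_mul_of_nonneg_left h10 (by linarith)
          _ ≤ _ := by linarith
      have hψt : (baseT P).IsTest (τ (i + 1)) ψ := by
        refine Tower.IsTest.add (Tower.IsTest.smul _ (Tower.IsTest.mono ?_ h)) ?_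
        · have := hτL i
          omega
        · have hs : ∀ s : Finset ℤ, s ⊆ Finset.Icc (-(L i : ℤ)) (L i) →
              (baseT P).IsTest (τ (i + 1)) (∑ n ∈ s, (-1 : ℝ) • g n) := by
            intro s
            induction s using Finset.induction_on with
            | empty =>
              intro _
              rw [Finset.sum_empty]
              exact ⟨fun _ _ _ => rfl, fun _ => by simp⟩
            | insert a s ha ih' =>
              intro hs
              rw [Finset.sum_insert ha]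
              exact Tower.IsTest.add (Tower.IsTest.smul _ (hgt a (hs (Finset.mem_insert_self _ _))))
                (ih' fun x hx => hs (Finset.mem_insert_of_mem hx))
          exact hs _ (Finset.Subset.refl _)
      -- apply the induction hypothesis to the normalised remainder
      set c : ℝ := 3 / 5 * (2 * (L i : ℝ) + 1) with hc
      have hcpos : 0 < c := by positivity
      have h12 := ih (i + 1) (c⁻¹ • ψ) (Tower.IsTest.smul _ hψt) (by
        intro q
        change |c⁻¹ * ψ q| ≤ 1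
        rw [abs_mul, abs_of_pos (inv_pos.2 hcpos), inv_mul_le_iff₀ hcpos, mul_one]
        exact hψv q)
      have hψTB : (baseT P).TB ψ := ⟨_, _, hψt, hψv⟩
      rw [Tower.pr_smul _ hψTB hy, abs_mul, abs_of_pos (inv_pos.2 hcpos),
        inv_mul_le_iff₀ hcpos] at h12
      have h13 : (2 * (L i : ℝ) + 1) * (baseT P).pr w φ y = (baseT P).pr w ψ y +
          ∑ n ∈ Finset.Icc (-(L i : ℤ)) (L i), (baseT P).pr w (g n) y := by
        rw [hψpr]; ring
      have h14 : |∑ n ∈ Finset.Icc (-(L i : ℤ)) (L i), (baseT P).pr w (g n) y| ≤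
          (2 * (L i : ℝ) + 1) * R := by
        refine (Finset.abs_sum_le_sum_abs _ _).trans ?_
        refine (Finset.sum_le_sum hgpr).trans ?_
        rw [Finset.sum_const, nsmul_eq_mul, Int.card_Icc]
        have h8 : ((L i : ℤ) + 1 - (-(L i : ℤ))).toNat = 2 * L i + 1 := by omega
        rw [h8]
        push_cast
        exact le_rfl
      have h15 : (2 * (L i : ℝ) + 1) * |(baseT P).pr w φ y| ≤
          c * (5 / 2 * R * (1 - (3 / 5) ^ k) + (3 / 5) ^ k * (‖y‖ * (5 / 4) ^ (i + 1 + k))) +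
            (2 * (L i : ℝ) + 1) * R := by
        calc (2 * (L i : ℝ) + 1) * |(baseT P).pr w φ y|
            = |(2 * (L i : ℝ) + 1) * (baseT P).pr w φ y| := by
              rw [abs_mul, abs_of_pos hposL]
          _ = |(baseT P).pr w ψ y + ∑ n ∈ Finset.Icc (-(L i : ℤ)) (L i), (baseT P).pr w (g n) y| := by
              rw [h13]
          _ ≤ _ := (abs_add_le _ _).trans (add_le_add h12 h14)
      have h16 : (2 * (L i : ℝ) + 1) * |(baseT P).pr w φ y| ≤ (2 * (L i : ℝ) + 1) *
          (5 / 2 * R * (1 - (3 / 5) ^ (k + 1)) +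
            (3 / 5) ^ (k + 1) * (‖y‖ * (5 / 4) ^ (i + (k + 1)))) := by
        refine h15.trans (le_of_eq ?_)
        rw [hc, pow_succ (3 / 5 : ℝ) k, show i + (k + 1) = i + 1 + k by ring]
        ring
      exact le_of_mul_le_mul_left h16 hposL
  refine ⟨5 / 2 * R, fun φ hφ h1 => ?_⟩
  obtain ⟨t, C, ht, -⟩ := hφ
  have ht' : (baseT P).IsTest (τ t) φ := Tower.IsTest.mono (hτ.id_le t) ht
  have hlim : Tendsto (fun k : ℕ => 5 / 2 * R * (1 - (3 / 5 : ℝ) ^ k) +
      (3 / 5 : ℝ) ^ k * (‖y‖ * (5 / 4) ^ (t + k))) atTop (𝓝 (5 / 2 * R * (1 - 0) + ‖y‖ * (5 / 4) ^ t * 0)) := by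
    have e : (fun k : ℕ => 5 / 2 * R * (1 - (3 / 5 : ℝ) ^ k) +
        (3 / 5 : ℝ) ^ k * (‖y‖ * (5 / 4) ^ (t + k))) =
        fun k : ℕ => 5 / 2 * R * (1 - (3 / 5 : ℝ) ^ k) + ‖y‖ * (5 / 4) ^ t * (3 / 4 : ℝ) ^ k := by
      funext k
      have e1 : (3 / 5 : ℝ) ^ k * (5 / 4) ^ k = (3 / 4) ^ k := by
        rw [← mul_pow]; norm_num
      rw [pow_add, ← e1]
      ring
    rw [e]
    have l1 : Tendsto (fun k : ℕ => (3 / 5 : ℝ) ^ k) atTop (𝓝 0) :=
      tendsto_pow_atTop_nhds_zero_of_lt_one (by norm_num) (by norm_num)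
    have l2 : Tendsto (fun k : ℕ => (3 / 4 : ℝ) ^ k) atTop (𝓝 0) :=
      tendsto_pow_atTop_nhds_zero_of_lt_one (by norm_num) (by norm_num)
    exact ((l1.const_sub 1).const_mul _).add (l2.const_mul _)
  have h2 := ge_of_tendsto' hlim fun k => key k t φ ht' h1
  simpa using h2

end Pool.Agent.URec
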