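import Pool.Agent.URec.Total
import Pool.Agent.URec.TV
import Pool.Agent.URec.Atom

/-!
# The final contradiction (module Final)
-/

open Filter Topology

namespace Pool.Agent.URec

variable {P : Params} {w : ℕ → ℝ} {hw : Wt w}

theorem one_le_norm_e (p : Pt P) : 1 ≤ ‖(baseT P).e w hw p‖ := by
  have h1 : (baseT P).IsTest 0 (fun q : Pt P => q.s 0) :=
    ⟨fun p q hpq => (hpq 0 (by simp) (by simp)).2, fun q => rfl⟩
  have h2 : ∀ q : Pt P, |q.s 0| ≤ 1 := by
    intro q
    rcases q.s_eq 0 with h | h <;> rw [h] <;> simp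
  have h3 : ‖(baseT P).e w hw p ⟨(0, fun q : Pt P => q.s 0), h1, h2⟩‖ ≤
      ‖(baseT P).e w hw p‖ := lp.norm_apply_le_norm (by simp) _ _
  have h4 : (baseT P).e w hw p ⟨(0, fun q : Pt P => q.s 0), h1, h2⟩ = w 0 * p.s 0 := rfl
  rw [h4, hw.zero, one_mul] at h3
  rcases p.s_eq 0 with h | h <;> rw [h] at h3 <;> simpa using h3

/-- There are vectors of a dense subspace with nonzero component `F`. -/
theorem exists_proj_ne (hP : Stmt_Prox P) {M : Submodule ℝ (totT P).F}
    (hd : ∀ y ∈ (totT P).X w hw, ∀ ε : ℝ, 0 < ε → ∃ v ∈ M, ‖y - v‖ < ε)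
    {F : Set (Pt P)} (hF : F.Finite) : ∃ v ∈ M, proj F v ≠ 0 := by
  obtain ⟨p, hp⟩ := hP F hF
  set a : TotPt P := ⟨(F, p), hF, hp⟩ with ha
  obtain ⟨v, hv, h1⟩ := hd ((totT P).e w hw a) (Tower.e_mem _) (1 / 2) (by norm_num)
  refine ⟨v, hv, fun h2 => ?_⟩
  have h3 : proj F ((totT P).e w hw a - v) = (baseT P).e w hw p := by
    rw [map_sub, h2, sub_zero, proj_e_same F a rfl]
  have h4 := norm_proj_le F ((totT P).e w hw a - v)
  rw [h3] at h4
  have h5 := one_le_norm_e (w := w) (hw := hw) p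
  linarith

/-- Points with the same symbols are equal up to a sign. -/
theorem eq_or_eq_ng (hS : Stmt_Sign P) {p q : Pt P} (h : q.x = p.x) : q = p ∨ q = p.ng := by
  have h1 : ∀ t : ℕ, ∃ σ : ℝ, (σ = 1 ∨ σ = -1) ∧ ∀ i : ℤ, -t ≤ i → i ≤ t →
      q.s i = σ * p.s i := fun t => hS t p q (fun i _ _ => by rw [h])
  have h2 : ∀ i : ℤ, q.s i = (q.s 0 * p.s 0) * p.s i := by
    intro i
    obtain ⟨σ, hσ, h3⟩ := h1 i.natAbs
    have h4 := h3 0 (by simp) (by positivity)
    have h5 := h3 i (by omega) (by omega)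
    have h6 : p.s 0 * p.s 0 = 1 := by rcases p.s_eq 0 with h | h <;> rw [h] <;> norm_num
    rw [h5, h4]
    linear_combination (-σ * p.s i) * h6
  have h6 : q.s 0 * p.s 0 = 1 ∨ q.s 0 * p.s 0 = -1 := by
    rcases p.s_eq 0 with h | h <;> rcases q.s_eq 0 with h' | h' <;> rw [h, h'] <;> norm_num
  rcases h6 with h6 | h6
  · left
    ext1
    · exact h
    · funext i
      rw [h2 i, h6, one_mul]
  · right
    ext1
    · exact h
    · funext i
      rw [h2 i, h6]
      change _ = - p.s i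
      ring

/-- Only finitely many points carry atoms of a given size. -/
theorem finite_heavy (hS : Stmt_Sign P) {y : (baseT P).F} (hy : y ∈ (baseT P).X w hw)
    (hf : (baseT P).FTV w y) {η : ℝ} (hη : 0 < η) :
    {p : Pt P | ∀ t, η ≤ (baseT P).mass w y (cell t p)}.Finite := by
  set G := {p : Pt P | ∀ t, η ≤ (baseT P).mass w y (cell t p)} with hG
  refine Set.Finite.of_finite_fibers (fun p : Pt P => p.x) ?_ ?_
  · by_contra hinf
    have hinf' : ((fun p : Pt P => p.x) '' G).Infinite := hinf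
    obtain ⟨k, hk⟩ := exists_nat_gt ((baseT P).mass w y Set.univ / η)
    obtain ⟨S, hS1, hS2⟩ := hinf'.exists_subset_card_eq k
    have hne : Nonempty (Pt P) := by
      obtain ⟨x, p, _, _⟩ := hinf'.nonempty
      exact ⟨p⟩
    have h1 : ∀ x ∈ (fun p : Pt P => p.x) '' G, ∃ p : Pt P, p ∈ G ∧ p.x = x := by
      rintro x ⟨p, hp, rfl⟩
      exact ⟨p, hp, rfl⟩
    choose! g hg using h1
    have h2 : ∀ᶠ t in atTop, ∀ x ∈ S, ∀ x' ∈ S, x ≠ x' → ¬ Pt.SameX t (g x) (g x') := by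
      rw [Filter.eventually_all_finset]
      intro x hx
      rw [Filter.eventually_all_finset]
      intro x' hx'
      by_cases hxx : x = x'
      · exact Eventually.of_forall fun t h => absurd hxx h
      · have h3 : (g x).x ≠ (g x').x := by
          rw [(hg x (hS1 hx)).2, (hg x' (hS1 hx')).2]
          exact hxx
        obtain ⟨t₀, ht₀⟩ := not_sameX_of_ne h3
        filter_upwards [eventually_ge_atTop t₀] with t ht _
        exact ht₀ t ht
    obtain ⟨t, ht⟩ := h2.exists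
    have h3 := Tower.sum_mass_le (T := baseT P) hy hf S (fun x => cell t (g x)) (by
      intro x hx x' hx' hxx
      refine Set.disjoint_left.2 ?_
      intro p' h4 h5
      exact ht x hx x' hx' hxx (Pt.SameX.trans (Pt.SameX.symm h4) h5))
    have h4 : ∑ _x ∈ S, η ≤ ∑ x ∈ S, (baseT P).mass w y (cell t (g x)) :=
      Finset.sum_le_sum fun x hx => (hg x (hS1 hx)).1 t
    rw [Finset.sum_const, hS2, nsmul_eq_mul] at h4
    rw [div_lt_iff₀ hη] at hk
    linarith
  · rintro x ⟨p, hp, rfl⟩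
    refine Set.Finite.subset (Set.toFinite {p, p.ng}) ?_
    rintro q ⟨_, hq⟩
    have hq' : q.x = p.x := hq
    rcases eq_or_eq_ng hS hq' with h | h
    · rw [h]; simp
    · rw [h]; simp

/-- Transfer of an atom along good return times. -/
theorem transfer (hS : Stmt_Sign P) {y : (baseT P).F} (hy : y ∈ (baseT P).X w hw)
    (hf : (baseT P).FTV w y) (hu : (baseT P).UR w hw y) {p : Pt P} {A δ : ℝ} (hδ : 0 < δ)
    (hp : ∀ t, A ≤ (baseT P).mass w y (cell t p)) :
    ∃ s : ℕ, ∀ t, s ≤ t → ∀ m : ℤ, ‖(baseT P).U w hw m y - y‖ ≤ δ * w t →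
      A - 2 * δ ≤ (baseT P).mass w y (cell t (Pt.sh m p)) := by
  obtain ⟨s, hs⟩ := Tower.UR.massAt (T := baseT P) hy hf hu hδ
  refine ⟨s, fun t ht m hm => ?_⟩
  have hwt := hw.pos t
  have hUy : (baseT P).U w hw m y ∈ (baseT P).X w hw := Tower.U_mem _ hy
  have hUf : (baseT P).FTV w ((baseT P).U w hw m y) := Tower.FTV.U hy hf m
  have h1 : A ≤ (baseT P).mass w ((baseT P).U w hw m y) (cell t (Pt.sh m p)) := by
    rw [Tower.mass_U hy]
    refine (hp (t + m.natAbs)).trans (Tower.mass_mono (T := baseT P) hf ?_)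
    intro p' hp'
    exact Pt.SameX.sh hp'
  have h2 := mass_cell_le hS hUy hUf t (Pt.sh m p)
  have h3 : (baseT P).mass w ((baseT P).U w hw m y) Set.univ = (baseT P).mass w y Set.univ := by
    rw [Tower.mass_U hy]
    rfl
  have h4 := hs t ht m
  have h5 : (baseT P).pr w (chi t (Pt.sh m p)) ((baseT P).U w hw m y - y) =
      (baseT P).pr w (chi t (Pt.sh m p)) ((baseT P).U w hw m y) -
        (baseT P).pr w (chi t (Pt.sh m p)) y := Tower.pr_sub_left _ _ _
  have h6 : |(baseT P).pr w (chi t (Pt.sh m p)) ((baseT P).U w hw m y - y)| ≤ δ := by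
    refine (Tower.pr_le (T := baseT P) (isTest_chi t _) (abs_chi_le t _)
      (Submodule.sub_mem _ hUy hy)).trans ?_
    calc 1 / w t * ‖(baseT P).U w hw m y - y‖ ≤ 1 / w t * (δ * w t) := by gcongr
      _ = δ := by field_simp
  have h7 := pr_chi_le hy hf t (Pt.sh m p)
  rw [h3] at h2
  rw [h5] at h6
  have h8 := abs_sub_abs_le_abs_sub ((baseT P).pr w (chi t (Pt.sh m p)) ((baseT P).U w hw m y))
    ((baseT P).pr w (chi t (Pt.sh m p)) y)
  linarith

/-- No dense subspace of the total space consists of uniformly recurrent vectors. -/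
theorem no_dense_subspace (hS : Stmt_Sign P) (hCell : Stmt_Cell P)
    (hPos : Stmt_Pos P) (hDet : Stmt_PosDet P) (hCl : Stmt_Closed P) (hCorr : Stmt_Corr P)
    (hD : WtDec P w) (hP : Stmt_Prox P) (_hN : Stmt_Nonempty P)
    (M : Submodule ℝ (totT P).F) (hM : ∀ v ∈ M, v ∈ (totT P).X w hw ∧ (totT P).UR w hw v)
    (hd : ∀ y ∈ (totT P).X w hw, ∀ ε : ℝ, 0 < ε → ∃ v ∈ M, ‖y - v‖ < ε) : False := by
  -- general facts on the components of elements of `M`
  have hX : ∀ (F : Set (Pt P)), ∀ v ∈ M, proj F v ∈ (baseT P).X w hw := fun F v hv =>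
    proj_mem F (hM v hv).1
  have hU : ∀ (F : Set (Pt P)), ∀ v ∈ M, (baseT P).UR w hw (proj F v) := fun F v hv =>
    UR.proj F (hM v hv).2
  have hT : ∀ (F : Set (Pt P)), ∀ v ∈ M, (baseT P).FTV w (proj F v) := by
    intro F v hv
    obtain ⟨R, hR⟩ := Tower.UR.bounded (T := baseT P) (hX F v hv) (hU F v hv)
    exact ftv_of_bounded (hw := hw) hS hD (hX F v hv) hR
  -- the first vector
  obtain ⟨d, hdM, hd0⟩ := exists_proj_ne hP hd (F := ∅) Set.finite_empty
  obtain ⟨q, a, ha, hq⟩ := exists_atom hS hCell hPos hDet hCl hCorr (hX ∅ d hdM) (hT ∅ d hdM)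
    (hU ∅ d hdM) hd0
  set F : Set (Pt P) := {p : Pt P | ∀ t, a / 2 ≤ (baseT P).mass w (proj ∅ d) (cell t p)} with hF
  have hFfin : F.Finite := finite_heavy hS (hX ∅ d hdM) (hT ∅ d hdM) (by positivity)
  have hqF : q ∈ F := fun t => by
    have := hq t
    linarith
  obtain ⟨d', hdM', hd0'⟩ := exists_proj_ne hP hd hFfin
  set V : ℝ := (baseT P).mass w (proj ∅ d') Set.univ with hV
  have hV0 : 0 ≤ V := Tower.mass_nonneg (T := baseT P) (hX ∅ d' hdM') _
  -- the choice of the coefficient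
  obtain ⟨l, hl0, hl1, hl2⟩ : ∃ l : ℝ, 0 < l ∧ l * V ≤ a / 8 ∧ proj F (d + l • d') ≠ 0 := by
    have h0 : 0 < a / (8 * (V + 1)) := by positivity
    have h1 : a / (8 * (V + 1)) * V ≤ a / 8 := by
      rw [div_mul_eq_mul_div, div_le_div_iff₀ (by positivity) (by positivity)]
      nlinarith
    by_contra hcon
    push Not at hcon
    have h2 := hcon _ h0 h1
    have h3 := hcon (a / (8 * (V + 1)) / 2) (by positivity) (by
      have : a / (8 * (V + 1)) / 2 * V = a / (8 * (V + 1)) * V / 2 := by ring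
      rw [this]
      linarith)
    rw [map_add, map_smul] at h2 h3
    have h4 : (a / (8 * (V + 1)) / 2) • proj F d' = 0 := by
      have : (a / (8 * (V + 1)) / 2) • proj F d' =
          (proj F d + (a / (8 * (V + 1))) • proj F d') -
            (proj F d + (a / (8 * (V + 1)) / 2) • proj F d') := by
        rw [add_sub_add_left_eq_sub, ← sub_smul, sub_half]
      rw [this, h2, h3, sub_zero]
    rcases smul_eq_zero.1 h4 with h5 | h5
    · have : 0 < a / (8 * (V + 1)) / 2 := by positivity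
      linarith
    · exact hd0' h5
  set v := d + l • d' with hv
  have hvM : v ∈ M := M.add_mem hdM (M.smul_mem _ hdM')
  have hvX := (hM v hvM).1
  -- masses of the two vectors on the component `∅`
  have hmz : ∀ E : Set (Pt P), (baseT P).mass w (proj ∅ d') E ≤ V := fun E =>
    Tower.mass_mono (T := baseT P) (hT ∅ d' hdM') (Set.subset_univ _)
  have hm1 : ∀ E : Set (Pt P), (baseT P).mass w (proj ∅ v) E ≤
      (baseT P).mass w (proj ∅ d) E + a / 8 := by
    intro E
    have h1 : proj ∅ v = proj ∅ d + l • proj ∅ d' := by rw [hv, map_add, map_smul]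
    have h2 := Tower.mass_add_le (T := baseT P) (hT ∅ d hdM)
      (Tower.FTV.smul (T := baseT P) l (hT ∅ d' hdM')) E
    have h3 : (baseT P).mass w (l • proj ∅ d') E = |l| * (baseT P).mass w (proj ∅ d') E :=
      Tower.mass_smul (T := baseT P) l (hX ∅ d' hdM') (hT ∅ d' hdM') E
    rw [abs_of_pos hl0] at h3
    rw [← h1, h3] at h2
    have h4 : l * (baseT P).mass w (proj ∅ d') E ≤ l * V :=
      mul_le_mul_of_nonneg_left (hmz E) hl0.le
    linarith
  have hm2 : ∀ E : Set (Pt P), (baseT P).mass w (proj ∅ d) E ≤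
      (baseT P).mass w (proj ∅ v) E + a / 8 := by
    intro E
    have h1 : proj ∅ d = proj ∅ v + (-l) • proj ∅ d' := by
      rw [hv, map_add, map_smul, neg_smul]
      abel
    have h2 := Tower.mass_add_le (T := baseT P) (hT ∅ v hvM)
      (Tower.FTV.smul (T := baseT P) (-l) (hT ∅ d' hdM')) E
    have h3 : (baseT P).mass w ((-l) • proj ∅ d') E = |-l| * (baseT P).mass w (proj ∅ d') E :=
      Tower.mass_smul (T := baseT P) (-l) (hX ∅ d' hdM') (hT ∅ d' hdM') E
    rw [abs_neg, abs_of_pos hl0] at h3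
    rw [← h1, h3] at h2
    have h4 : l * (baseT P).mass w (proj ∅ d') E ≤ l * V :=
      mul_le_mul_of_nonneg_left (hmz E) hl0.le
    linarith
  have hqv : ∀ t, a * (7 / 8) ≤ (baseT P).mass w (proj ∅ v) (cell t q) := by
    intro t
    have h1 := hm2 (cell t q)
    have h2 := hq t
    linarith
  -- the atom of the component `F`
  obtain ⟨p₁, b, hb, hp₁⟩ := exists_atom hS hCell hPos hDet hCl hCorr (hX F v hvM) (hT F v hvM)
    (hU F v hvM) hl2
  have hprox : Pt.Prox p₁ q := by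
    by_contra hcon
    obtain ⟨t, ht⟩ := no_atom_of_not_prox hS hqF hcon hvX (hT F v hvM) hb
    have := hp₁ t
    linarith
  set δ : ℝ := min (a / 16) (b / 4) with hδ
  have hδ0 : 0 < δ := lt_min (by positivity) (by positivity)
  have hδa : δ ≤ a / 16 := min_le_left _ _
  have hδb : δ ≤ b / 4 := min_le_right _ _
  obtain ⟨s₁, hs₁⟩ := transfer hS (hX ∅ v hvM) (hT ∅ v hvM) (hU ∅ v hvM) hδ0 hqv
  obtain ⟨s₂, hs₂⟩ := transfer hS (hX F v hvM) (hT F v hvM) (hU F v hvM) hδ0 hp₁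
  have hkey : ∀ t₀ : ℕ, ∃ t, t₀ ≤ t ∧ ∃ p : Pt P,
      a * (3 / 4) ≤ (baseT P).mass w (proj ∅ v) (cell t p) ∧
      b / 2 ≤ (baseT P).mass w (proj F v) (cell t p) := by
    intro t₀
    set t := max t₀ (max s₁ s₂) with ht
    have hwt := hw.pos t
    obtain ⟨N, hN⟩ := (hM v hvM).2 (δ * w t) (by positivity)
    obtain ⟨n, hn⟩ := hprox (t + N)
    obtain ⟨j, hj, h1⟩ := hN n
    have h2 : ∀ F' : Set (Pt P), ‖(baseT P).U w hw (n + j) (proj F' v) - proj F' v‖ ≤ δ * w t := by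
      intro F'
      rw [← proj_U, ← map_sub]
      exact (norm_proj_le F' _).trans h1
    refine ⟨t, le_max_left _ _, Pt.sh (n + j) q, ?_, ?_⟩
    · have h3 := hs₁ t ((le_max_left _ _).trans (le_max_right _ _)) (n + j) (h2 ∅)
      linarith
    · have h3 := hs₂ t ((le_max_right _ _).trans (le_max_right _ _)) (n + j) (h2 F)
      have h4 : Pt.SameX t (Pt.sh (n + j) p₁) (Pt.sh (n + j) q) := by
        intro i hi1 hi2
        have h5 := hn (i + j) (by push_cast; omega) (by push_cast; omega)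
        simp only [Pt.sh] at h5 ⊢
        have e : i + (n + j) = i + j + n := by ring
        rw [e]
        exact h5
      have h5 : cell t (Pt.sh (n + j) p₁) = cell t (Pt.sh (n + j) q) := by
        ext p'
        exact ⟨fun h => Pt.SameX.trans h h4, fun h => Pt.SameX.trans h h4.symm⟩
      rw [h5] at h3
      linarith
  obtain ⟨p, hp⟩ := exists_atom₂ hCl (hX ∅ v hvM) (hX F v hvM) (hT ∅ v hvM) (hT F v hvM)
    (by positivity) (by positivity) hkey
  have hpF : p ∈ F := by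
    intro t
    have h1 := (hp t).1
    have h2 := hm1 (cell t p)
    linarith
  obtain ⟨t, ht⟩ := no_atom_of_mem hS hpF hvX (hT F v hvM) (η := b / 2) (by positivity)
  have := (hp t).2
  linarith

/-- The conclusion, in the form of the frozen statement. -/
theorem main_of (P : Params) (hS : Stmt_Sign P) (hCell : Stmt_Cell P)
    (hPos : Stmt_Pos P) (hDet : Stmt_PosDet P) (hCl : Stmt_Closed P) (hCorr : Stmt_Corr P)
    (hD : Stmt_Dec P) (hR : Stmt_Rec P) (hP : Stmt_Prox P) (hN : Stmt_Nonempty P) :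
    ¬ (∀ (𝕂 : Type) [RCLike 𝕂] (X : Type) [NormedAddCommGroup X] [NormedSpace 𝕂 X]
      [CompleteSpace X] (T : X →L[𝕂] X),
      Dense {x : X | ∀ U ∈ 𝓝 x, ∃ N : ℕ, ∀ m : ℕ, ∃ n : ℕ,
          m ≤ n ∧ n ≤ m + N ∧ 1 ≤ n ∧ (T ^ n) x ∈ U} →
      ∃ M : Submodule 𝕂 X, Dense (M : Set X) ∧
        ∀ x ∈ M, ∀ U ∈ 𝓝 x, ∃ N : ℕ, ∀ m : ℕ, ∃ n : ℕ,
          m ≤ n ∧ n ≤ m + N ∧ 1 ≤ n ∧ (T ^ n) x ∈ U) := by
  intro H
  obtain ⟨w, hw, hwd⟩ := exists_wt hD
  have _ : CompleteSpace ↥((totT P).X w hw) := (X_isClosed (totT P)).completeSpace_coe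
  set T : ↥((totT P).X w hw) →L[ℝ] ↥((totT P).X w hw) :=
    (((totT P).U w hw 1).comp ((totT P).X w hw).subtypeL).codRestrict ((totT P).X w hw)
      (fun y => Tower.U_mem 1 y.2) with hT
  have hTc : ∀ y : ↥((totT P).X w hw), ((T y : ↥((totT P).X w hw)) : (totT P).F) =
      (totT P).U w hw 1 y := fun y => rfl
  have hTn' : ∀ (n : ℕ) (y : ↥((totT P).X w hw)),
      (((T ^ n) y : ↥((totT P).X w hw)) : (totT P).F) = (((totT P).U w hw 1) ^ n) y := by
    intro n
    induction n with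
    | zero => intro y; rfl
    | succ n ih =>
      intro y
      rw [pow_succ, pow_succ]
      change (((T ^ n) (T y) : ↥((totT P).X w hw)) : (totT P).F) =
        (((totT P).U w hw 1) ^ n) ((totT P).U w hw 1 y)
      rw [ih, hTc]
  have hTn : ∀ (n : ℕ) (y : ↥((totT P).X w hw)),
      (((T ^ n) y : ↥((totT P).X w hw)) : (totT P).F) = (totT P).U w hw n y := by
    intro n y
    rw [hTn', Tower.U_pow n y.2]
  have hnorm : ∀ (n : ℕ) (y : ↥((totT P).X w hw)),
      ‖(T ^ n) y - y‖ = ‖(totT P).U w hw n (y : (totT P).F) - y‖ := by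
    intro n y
    change ‖(((T ^ n) y : ↥((totT P).X w hw)) : (totT P).F) - y‖ = _
    rw [hTn]
  obtain ⟨M, hM1, hM2⟩ := H ℝ ↥((totT P).X w hw) T (by
    rw [Metric.dense_iff]
    intro x r hr
    obtain ⟨v, hv, h1, h2⟩ := dense_UR hR hP x.2 hr
    refine ⟨⟨v, hv⟩, ?_, ?_⟩
    · rw [Metric.mem_ball, dist_comm, dist_eq_norm]
      exact h1
    · intro U hU
      obtain ⟨δ, hδ, hb⟩ := Metric.mem_nhds_iff.1 hU
      obtain ⟨N, hN⟩ := h2 δ hδ
      refine ⟨N, fun m => ?_⟩
      obtain ⟨n, h3, h4, h5, h6⟩ := hN m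
      refine ⟨n, h3, h4, h5, hb ?_⟩
      rw [Metric.mem_ball, dist_eq_norm, hnorm]
      exact h6)
  refine no_dense_subspace (w := w) (hw := hw) hS hCell hPos hDet hCl hCorr hwd hP hN
    (M.map ((totT P).X w hw).subtype) ?_ ?_
  · rintro v ⟨x, hx, rfl⟩
    refine ⟨x.2, Tower.UR_of_forward x.2 fun ε hε => ?_⟩
    obtain ⟨N, hN⟩ := hM2 x hx (Metric.ball x ε) (Metric.ball_mem_nhds x hε)
    refine ⟨N, fun m => ?_⟩
    obtain ⟨n, h3, h4, h5, h6⟩ := hN m
    refine ⟨n, h3, h4, h5, ?_⟩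
    rw [Metric.mem_ball, dist_eq_norm, hnorm] at h6
    exact h6
  · intro y hy ε hε
    obtain ⟨x, hx1, hx2⟩ := Metric.dense_iff.1 hM1 ⟨y, hy⟩ ε hε
    refine ⟨x, ⟨x, hx2, rfl⟩, ?_⟩
    rw [Metric.mem_ball, dist_comm, dist_eq_norm] at hx1
    exact hx1

end Pool.Agent.URec
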