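import Pool.Agent.URec.Letters

/-!
# Proximal points (module Prox)
-/

namespace Pool.Agent.URec

variable {P : Params}

namespace ProxAux

/-- `x` has the common letter of level `J` at `β`. -/
def XOcc (P : Params) (x : ℤ → ℕ × ℕ) (J : ℕ) (β : ℤ) : Prop :=
  ∀ i : ℕ, i < P.N J → x (β + i) = P.c J i

/-- the letter of level `k` at `B` in the common letter of level `J` is common. -/
def Com (P : Params) (J k B : ℕ) : Prop :=
  IsLet P J k B ∧ ∀ x, x < P.N k → P.c J (B + x) = P.c k x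

theorem Com.trans {J K k B r : ℕ} (h : IsLet P J K B) (hr : Com P K k r) (hk : k < K) :
    Com P J k (B + r) := by
  refine ⟨h.trans hr.1, fun x hx => ?_⟩
  have h1 : r + x < P.N K := by
    have := hr.1.bound
    omega
  have h2 : (P.c K (r + x)).1 < K := by
    rw [hr.2 x hx]
    have := c_level_le hx
    omega
  rw [Nat.add_assoc, h.c_of_lt h1 h2, hr.2 x hx]

theorem Com.trans' {J K k B r : ℕ} (h : Com P J K B) (hr : Com P K k r) :
    Com P J k (B + r) := by
  refine ⟨h.1.trans hr.1, fun x hx => ?_⟩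
  have h1 : r + x < P.N K := by
    have := hr.1.bound
    omega
  rw [Nat.add_assoc, h.2 _ h1, hr.2 x hx]

theorem com_ca (J : ℕ) : Com P (J + 1) J (P.start J (P.ca J)) := by
  refine ⟨?_, fun x hx => (Pt.C_ca hx).1⟩
  have := IsLet.step (IsLet.refl (P := P) J) (Pt.ca_lt J)
  simpa using this

theorem com_cb (J : ℕ) : Com P (J + 1) J (P.start J (P.cb J)) := by
  refine ⟨?_, fun x hx => (Pt.C_cb hx).1⟩
  have := IsLet.step (IsLet.refl (P := P) J) (Pt.cb_lt J)
  simpa using this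

theorem com_refl (J : ℕ) : Com P J J 0 := ⟨IsLet.refl J, fun x _ => by rw [Nat.zero_add]⟩

theorem exists_com {k J : ℕ} (h : k ≤ J) : ∃ B, Com P J k B := by
  induction J, h using Nat.le_induction with
  | base => exact ⟨0, com_refl k⟩
  | succ J hJ ih =>
    obtain ⟨B, hB⟩ := ih
    exact ⟨_, (com_ca J).trans' hB⟩

/-- decomposition at the bottom -/
theorem isLet_bottom {J K B : ℕ} (h : IsLet P J K B) (hK : K < J) :
    ∃ B₁ e, IsLet P J (K + 1) B₁ ∧ e < P.m K ∧ B = B₁ + P.start K e := by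
  induction h with
  | refl K => omega
  | @step J K B d h hd ih =>
    by_cases hJ : K = J
    · subst hJ
      have hb := h.bound
      have : B = 0 := by omega
      subst this
      exact ⟨0, d, IsLet.refl _, hd, by omega⟩
    · have hle := h.le
      obtain ⟨B₁, e, h1, h2, h3⟩ := ih (by omega)
      exact ⟨P.start J d + B₁, e, IsLet.step h1 hd, h2, by omega⟩

theorem slot_common {J J₂ B₁ e : ℕ} (h : IsLet P J₂ (J + 1) B₁) (he : e < P.m J)
    (hc : ∀ x, x < P.N J → P.c J₂ (B₁ + P.start J e + x) = P.c J x) :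
    e = P.ca J ∨ e = P.cb J := by
  by_contra hne
  push Not at hne
  obtain ⟨i, hi, hci⟩ := exists_native (P := P) J
  have h1 : P.c (J + 1) (P.start J e + i) = (J + 1, P.start J e + i) := by
    rw [c_start hi, if_neg]
    rw [hci]
    push Not
    exact ⟨hne.1, hne.2, le_rfl⟩
  have h2 : P.start J e + i < P.N (J + 1) := start_add_lt he hi
  obtain ⟨j, y, B', hj, hc', -⟩ := h.reveal_native h2 (by rw [h1])
  have h3 := hc i hi
  rw [← Nat.add_assoc] at hc'
  rw [hc', hci] at h3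
  have := congrArg Prod.fst h3
  simp only at this
  omega

theorem key_step (q : Pt P) (k K' : ℕ) (b : ℤ) {J : ℕ} {β β' : ℤ} {σ : ℝ} {r r' B : ℕ}
    (hk : k < J) (hK' : K' < J)
    (hocc : Occ P q.x q.s J β σ) (hB : Com P J k B) (hb : b = β' + B)
    (hr : Com P J K' r) (hr' : Com P J K' r') (u : ℤ) (hu : u = 1 ∨ u = -1) :
    ∃ J₂ β₂ β₂' σ₂ r₂ r₂' B₂, k < J₂ ∧ K' < J₂ ∧ Occ P q.x q.s J₂ β₂ σ₂ ∧ Com P J₂ k B₂ ∧
      b = β₂' + (B₂ : ℕ) ∧ Com P J₂ K' r₂ ∧ Com P J₂ K' r₂' ∧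
      (β₂ + r₂) - (β₂' + r₂') = (β + r) - (β' + r') + u := by
  obtain ⟨J₂, β₂, σ₂, hJ₂, hσ₂, h1, h2, hocc₂⟩ := Pt.exists_occ q (β.natAbs + P.N J + 1) (J + 1)
  obtain ⟨Bq, hBq, hlet⟩ := Pt.isLet_of_occ hocc hocc₂ (by omega) (by omega)
  obtain ⟨B₁, e, hB₁, he, hBqe⟩ := isLet_bottom hlet (by omega)
  have hcomm : ∀ x, x < P.N J → P.c J₂ (B₁ + P.start J e + x) = P.c J x := by
    intro x hx
    have hx2 : Bq + x < P.N J₂ := by
      have := hlet.bound
      omega
    have e1 := (hocc₂ (Bq + x) hx2).1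
    have e2 := (hocc x hx).1
    have e3 : β₂ + ((Bq + x : ℕ) : ℤ) = β + x := by push_cast; omega
    rw [e3, e2] at e1
    rw [← hBqe]
    exact e1.symm
  have he2 := slot_common hB₁ he hcomm
  have hca := P.hca J
  have hcab := P.hcab J
  have hcb := P.hcb J
  have he3 : 3 ≤ e := by omega
  have he4 : e + 1 < P.m J := by omega
  -- slots of the (J+1)-letter
  have hslot : ∀ d, d < P.m J → IsLet P J₂ J (B₁ + P.start J d) := by
    intro d hd
    have := hB₁.trans (IsLet.step (IsLet.refl (P := P) J) hd)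
    simpa using this
  have hs1 : P.start J 1 = P.N J + 2 := by
    have := start_succ (P := P) J 0
    simp only [start_zero, Nat.zero_add, if_true] at this
    exact this
  have hs0 : P.start J 0 = 0 := start_zero J
  have hse : P.start J e = P.start J (e - 1) + P.N J + 1 := by
    have := start_succ (P := P) J (e - 1)
    rw [if_neg (by omega)] at this
    rw [← this]
    congr 1
    omega
  have hse' : P.start J (e + 1) = P.start J e + P.N J + 1 := by
    have := start_succ (P := P) J e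
    rw [if_neg (by omega)] at this
    exact this
  rcases hu with rfl | rfl
  · refine ⟨J₂, β₂, β' - B₁ - P.start J 1, σ₂, B₁ + P.start J (e - 1) + r,
      B₁ + P.start J 0 + r', B₁ + P.start J 1 + B, by omega, by omega, hocc₂,
      Com.trans (hslot 1 (by omega)) hB hk, ?_, Com.trans (hslot _ (by omega)) hr hK',
      Com.trans (hslot 0 (by omega)) hr' hK', ?_⟩
    · push_cast; omega
    · push_cast; omega
  · refine ⟨J₂, β₂, β' - B₁ - P.start J 0, σ₂, B₁ + P.start J (e + 1) + r,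
      B₁ + P.start J 1 + r', B₁ + P.start J 0 + B, by omega, by omega, hocc₂,
      Com.trans (hslot 0 (by omega)) hB hk, ?_, Com.trans (hslot _ he4) hr hK',
      Com.trans (hslot 1 (by omega)) hr' hK', ?_⟩
    · push_cast; omega
    · push_cast; omega

theorem key (q : Pt P) (k K' : ℕ) (b : ℤ) : ∀ D : ℕ, ∀ (J : ℕ) (β β' : ℤ) (σ : ℝ)
    (r r' B : ℕ), k < J → K' < J → Occ P q.x q.s J β σ → Com P J k B → b = β' + B →
    Com P J K' r → Com P J K' r' → ((β + r) - (β' + r')).natAbs = D →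
    ∃ J' β'' B'' R, Com P J' k B'' ∧ b = β'' + (B'' : ℕ) ∧ Com P J' K' R ∧
      ∀ x : ℕ, x < P.N K' → q.x (β'' + R + x) = P.c K' x := by
  intro D
  induction D with
  | zero =>
    intro J β β' σ r r' B hk hK' hocc hB hb hr hr' hD
    refine ⟨J, β', B, r', hB, hb, hr', fun x hx => ?_⟩
    have h0 : β' + r' = β + r := by omega
    have h1 : r + x < P.N J := by
      have := hr.1.bound
      omega
    have h2 := (hocc _ h1).1
    rw [hr.2 x hx] at h2
    rw [h0, ← h2]
    congr 1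
    push_cast
    ring
  | succ D ih =>
    intro J β β' σ r r' B hk hK' hocc hB hb hr hr' hD
    by_cases hneg : (β + r) - (β' + r') < 0
    · obtain ⟨J₂, β₂, β₂', σ₂, r₂, r₂', B₂, g1, g2, g3, g4, g5, g6, g7, g8⟩ :=
        key_step q k K' b hk hK' hocc hB hb hr hr' 1 (Or.inl rfl)
      exact ih J₂ β₂ β₂' σ₂ r₂ r₂' B₂ g1 g2 g3 g4 g5 g6 g7 (by omega)
    · obtain ⟨J₂, β₂, β₂', σ₂, r₂, r₂', B₂, g1, g2, g3, g4, g5, g6, g7, g8⟩ :=
        key_step q k K' b hk hK' hocc hB hb hr hr' (-1) (Or.inr rfl)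
      exact ih J₂ β₂ β₂' σ₂ r₂ r₂' B₂ g1 g2 g3 g4 g5 g6 g7 (by omega)

theorem xocc_sub {x : ℤ → ℕ × ℕ} {J k B : ℕ} {β b : ℤ} (hB : Com P J k B) (hb : b = β + B)
    (h : XOcc P x J β) : XOcc P x k b := by
  intro i hi
  have h1 : B + i < P.N J := by
    have := hB.1.bound
    omega
  have h2 := h _ h1
  rw [hB.2 i hi] at h2
  rw [← h2, hb]
  congr 1
  push_cast
  ring

/-- a property of sequences of symbols is generic if every common letter can be extended to a
common letter forcing it. -/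
def Gen (P : Params) (R : (ℤ → ℕ × ℕ) → Prop) : Prop :=
  ∀ (k : ℕ) (b : ℤ), ∃ (J B : ℕ), Com P J k B ∧ ∀ x, XOcc P x J (b - B) → R x

theorem gen_match (q : Pt P) (N : ℕ) :
    Gen P (fun x => ∃ m : ℤ, ∀ i : ℤ, -N ≤ i → i ≤ N → x (i + m) = q.x (i + m)) := by
  intro k b
  obtain ⟨J, β, σ, hJ, hσ, h1, h2, hocc⟩ := Pt.exists_occ q 0 (k + (2 * N + 1) + 1)
  obtain ⟨B, hB⟩ := exists_com (P := P) (k := k) (J := J) (by omega)
  obtain ⟨r, hr⟩ := exists_com (P := P) (k := 2 * N + 1) (J := J) (by omega)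
  obtain ⟨J', β'', B'', R, h3, h4, h5, h6⟩ := key q k (2 * N + 1) b _ J β (b - B) σ r r B
    (by omega) (by omega) hocc hB (by ring) hr hr rfl
  refine ⟨J', B'', h3, fun x hx => ⟨β'' + R + N, fun i hi1 hi2 => ?_⟩⟩
  have hbe : b - B'' = β'' := by omega
  rw [hbe] at hx
  obtain ⟨y, hy⟩ : ∃ y : ℕ, (y : ℤ) = N + i := ⟨(N + i).toNat, by omega⟩
  have hid : 2 * N + 1 ≤ P.N (2 * N + 1) := N_strictMono.le_apply
  have hyN : y < P.N (2 * N + 1) := by omega
  have e1 : i + (β'' + R + N) = β'' + R + y := by omega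
  have hbd := h5.1.bound
  have h7 := hx (R + y) (by omega)
  rw [h5.2 y hyN] at h7
  rw [e1, h6 y hyN, ← h7]
  congr 1
  push_cast
  ring

theorem gen_ne (q : Pt P) : Gen P (fun x => x ≠ q.x) := by
  intro k b
  have hsp : P.c (k + 1) (P.N k) = (k + 1, P.N k) := by
    apply c_spacer
    simp [Params.loc]
  have hca := P.hca k
  have hcab := P.hcab k
  have hcb := P.hcb k
  have hlt : P.start k (P.ca k) + P.N k + 1 ≤ P.start k (P.cb k) := start_le_of_lt (by omega)
  have hst1 : P.N k ≤ P.start k (P.ca k) := by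
    have := start_le_of_lt (P := P) (k := k) (d := 0) (d' := P.ca k) (by omega)
    omega
  have hst2 := start_add_lt (P := P) (Pt.cb_lt k) (N_pos k)
  by_cases h : XOcc P q.x (k + 1) (b - P.start k (P.ca k))
  · refine ⟨k + 1, P.start k (P.cb k), com_cb k, ?_⟩
    rintro x hx rfl
    have h1 := h (P.N k) (by omega)
    have h2 := hx (P.N k + P.start k (P.cb k) - P.start k (P.ca k)) (by omega)
    have e : b - P.start k (P.cb k) +
        ((P.N k + P.start k (P.cb k) - P.start k (P.ca k) : ℕ) : ℤ) =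
        b - P.start k (P.ca k) + P.N k := by omega
    rw [e, h1, hsp] at h2
    have h3 := c_native (P := P) (k := k + 1)
      (i := P.N k + P.start k (P.cb k) - P.start k (P.ca k)) (by omega) (by rw [← h2])
    rw [← h2] at h3
    have h4 := congrArg Prod.snd h3
    simp only at h4
    omega
  · refine ⟨k + 1, P.start k (P.ca k), com_ca k, ?_⟩
    rintro x hx rfl
    exact h hx

/-- signed states -/
structure St (P : Params) where
  /-- level -/
  k : ℕ
  /-- position -/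
  b : ℤ
  /-- sign -/
  e : ℝ
  he : e = 1 ∨ e = -1

/-- extension of states -/
def Ext (S S' : St P) : Prop :=
  ∃ B : ℕ, S.b = S'.b + B ∧ B + P.N S.k ≤ P.N S'.k ∧
    ∀ i, i < P.N S.k → P.c S'.k (B + i) = P.c S.k i ∧ S'.e * P.ph S'.k (B + i) = S.e * P.ph S.k i

theorem Ext.refl (S : St P) : Ext S S := ⟨0, by simp, by omega, fun i _ => by simp⟩

theorem Ext.trans {S S' S'' : St P} (h : Ext S S') (h' : Ext S' S'') : Ext S S'' := by
  obtain ⟨B, h1, h2, h3⟩ := h
  obtain ⟨B', h1', h2', h3'⟩ := h'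
  refine ⟨B' + B, by push_cast; omega, by omega, fun i hi => ?_⟩
  obtain ⟨h4, h5⟩ := h3 i hi
  obtain ⟨h6, h7⟩ := h3' (B + i) (by omega)
  rw [Nat.add_assoc, h6, h4, h7, h5]
  exact ⟨rfl, rfl⟩

theorem exists_ext (S : St P) {J B : ℕ} (h : Com P J S.k B) :
    ∃ S' : St P, S'.k = J ∧ S'.b = S.b - B ∧ Ext S S' := by
  obtain ⟨σ, hσ, hph⟩ := h.1.ph
  refine ⟨⟨J, S.b - B, S.e * σ, ?_⟩, rfl, rfl, B, by simp, h.1.bound, fun i hi => ⟨h.2 i hi, ?_⟩⟩
  · rcases S.he with h | h <;> rcases hσ with rfl | rfl <;> rw [h] <;> norm_num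
  · simp only
    rw [hph i hi]
    rcases hσ with rfl | rfl <;> ring

theorem exists_grow (S : St P) (t : ℕ) : ∃ S' : St P, Ext S S' ∧ S'.b ≤ S.b - t ∧
    S.b + P.N S.k + t ≤ S'.b + P.N S'.k := by
  induction t with
  | zero => exact ⟨S, Ext.refl S, by simp, by simp⟩
  | succ t ih =>
    obtain ⟨S', h1, h2, h3⟩ := ih
    obtain ⟨S'', h4, h5, h6⟩ := exists_ext S' (com_ca S'.k)
    refine ⟨S'', h1.trans h6, ?_, ?_⟩
    · have : 1 ≤ P.start S'.k (P.ca S'.k) := by
        have := P.hca S'.k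
        rw [start_pos (by omega)]
        omega
      rw [h5]; push_cast; omega
    · have h7 : P.start S'.k (P.ca S'.k) + P.N S'.k + 1 ≤ P.N (S'.k + 1) := by
        have h2 := P.hcab S'.k
        have h4 := start_le_of_lt (P := P) (k := S'.k) (d := P.ca S'.k) (d' := P.cb S'.k)
          (by omega)
        have h5 := start_add_lt (P := P) (Pt.cb_lt S'.k) (N_pos S'.k)
        omega
      rw [h5, h4]; push_cast; omega

theorem baire (R : ℕ → (ℤ → ℕ × ℕ) → Prop) (hR : ∀ i, Gen P (R i)) :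
    ∃ p : Pt P, ∀ i, R i p.x := by
  have step : ∀ (i : ℕ) (S : St P), ∃ S' : St P, Ext S S' ∧ S'.b ≤ -i ∧
      (i : ℤ) < S'.b + P.N S'.k ∧ ∀ x, XOcc P x S'.k S'.b → R i x := by
    intro i S
    obtain ⟨J, B, h1, h2⟩ := hR i S.k S.b
    obtain ⟨S', h3, h4, h5⟩ := exists_ext S h1
    obtain ⟨T, hT⟩ : ∃ T : ℕ, T = i + S'.b.natAbs + 1 := ⟨_, rfl⟩
    obtain ⟨S'', h6, h7, h8⟩ := exists_grow S' T
    refine ⟨S'', h5.trans h6, by omega, by omega, fun x hx => h2 x ?_⟩
    obtain ⟨B', h9, h10, h11⟩ := h6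
    rw [← h4, ← h3]
    intro j hj
    have h12 := hx (B' + j) (by omega)
    rw [(h11 j hj).1] at h12
    rw [← h12, h9]
    congr 1
    push_cast
    ring
  choose f hf1 hf2 hf3 hf4 using step
  let s : ℕ → St P := fun n => Nat.rec ⟨0, 0, 1, Or.inl rfl⟩ (fun i S => f i S) n
  have hs : ∀ i, s (i + 1) = f i (s i) := fun i => rfl
  have hext : ∀ i j, i ≤ j → Ext (s i) (s j) := by
    intro i j hij
    induction j, hij using Nat.le_induction with
    | base => exact Ext.refl _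
    | succ j hj ih =>
      rw [hs]
      exact ih.trans (hf1 j _)
  let V : St P → ℤ → (ℕ × ℕ) × ℝ := fun S z =>
    (P.c S.k (z - S.b).toNat, S.e * P.ph S.k (z - S.b).toNat)
  have hV : ∀ S S' : St P, Ext S S' → ∀ z, S.b ≤ z → z < S.b + P.N S.k → V S z = V S' z := by
    rintro S S' ⟨B, h1, h2, h3⟩ z hz1 hz2
    obtain ⟨h4, h5⟩ := h3 (z - S.b).toNat (by omega)
    have e : B + (z - S.b).toNat = (z - S'.b).toNat := by omega
    rw [e] at h4 h5
    simp only [V]
    rw [h4, h5]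
  have hcov : ∀ i : ℕ, 1 ≤ i → ∀ z : ℤ, z.natAbs < i → (s i).b ≤ z ∧
      z < (s i).b + P.N (s i).k := by
    intro i hi z hz
    obtain ⟨i, rfl⟩ : ∃ j, i = j + 1 := ⟨i - 1, by omega⟩
    have h1 := hf2 i (s i)
    have h2 := hf3 i (s i)
    rw [hs]
    constructor <;> omega
  have hW : ∀ i : ℕ, ∀ z : ℤ, (s i).b ≤ z → z < (s i).b + P.N (s i).k →
      V (s (z.natAbs + 1)) z = V (s i) z := by
    intro i z h1 h2
    rcases le_total i (z.natAbs + 1) with h | h
    · exact (hV _ _ (hext _ _ h) z h1 h2).symm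
    · obtain ⟨h3, h4⟩ := hcov (z.natAbs + 1) (by omega) z (by omega)
      exact hV _ _ (hext _ _ h) z h3 h4
  have hocc : ∀ i, Occ P (fun z => (V (s (z.natAbs + 1)) z).1) (fun z => (V (s (z.natAbs + 1)) z).2)
      (s i).k (s i).b (s i).e := by
    intro i j hj
    have h1 := hW i ((s i).b + j) (by omega) (by omega)
    have e : ((s i).b + (j : ℤ) - (s i).b).toNat = j := by omega
    have h2 : V (s i) ((s i).b + j) = (P.c (s i).k j, (s i).e * P.ph (s i).k j) := by
      simp only [V]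
      rw [e]
    rw [h2] at h1
    exact Prod.ext_iff.mp h1
  refine ⟨⟨_, _, fun t => ⟨(s (t + 1)).k, (s (t + 1)).b, (s (t + 1)).e, (s (t + 1)).he,
    hf2 t (s t), hf3 t (s t), hocc (t + 1)⟩⟩, fun i => hf4 i (s i) _ fun j hj => ?_⟩
  exact (hocc (i + 1) j hj).1

end ProxAux

open ProxAux

theorem prox (P : Params) : Stmt_Prox P := by
  intro F hF
  rcases F.eq_empty_or_nonempty with rfl | hne
  · obtain ⟨p, -⟩ := Pt.exists_extend (P := P) 0 0
    exact ⟨p, fun q hq => absurd hq (Set.notMem_empty q)⟩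
  · have hc : Countable F := hF.countable
    have hn : Nonempty F := hne.to_subtype
    obtain ⟨f, hf⟩ := exists_surjective_nat (F × ℤ × ℕ)
    obtain ⟨p, hp⟩ := baire (P := P)
      (fun i x => (∃ m : ℤ, ∀ j : ℤ, -((f i).2.2 : ℤ) ≤ j → j ≤ (f i).2.2 →
        x (j + m) = (Pt.sh (f i).2.1 ((f i).1 : Pt P)).x (j + m)) ∧
        x ≠ (Pt.sh (f i).2.1 ((f i).1 : Pt P)).x) (by
        intro i k b
        obtain ⟨J, B, h1, h2⟩ := gen_match (Pt.sh (f i).2.1 ((f i).1 : Pt P)) (f i).2.2 k b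
        obtain ⟨J', B', h3, h4⟩ := gen_ne (Pt.sh (f i).2.1 ((f i).1 : Pt P)) J (b - B)
        refine ⟨J', B' + B, h3.trans' h1, fun x hx => ⟨h2 x ?_, h4 x ?_⟩⟩
        · refine xocc_sub (J := J') (β := b - B - B') h3 (by ring) ?_
          have e : b - ((B' + B : ℕ) : ℤ) = b - B - B' := by push_cast; ring
          rwa [e] at hx
        · have e : b - ((B' + B : ℕ) : ℤ) = b - B - B' := by push_cast; ring
          rwa [e] at hx)
    refine ⟨p, fun q hq n => ⟨fun N => ?_, ?_⟩⟩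
    · obtain ⟨i, hi⟩ := hf (⟨q, hq⟩, n, N)
      obtain ⟨⟨m, hm⟩, -⟩ := hp i
      rw [hi] at hm
      exact ⟨m, fun j h1 h2 => hm j h1 h2⟩
    · obtain ⟨i, hi⟩ := hf (⟨q, hq⟩, n, 0)
      have h := (hp i).2
      rw [hi] at h
      exact h

end Pool.Agent.URec
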