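import Pool.Agent.URec.Letters

/-!
# Uniform recurrence (module Rec)
-/

namespace Pool.Agent.URec

variable {P : Params}

theorem rec_aux (t : ℕ) (q : Pt P) (k : ℕ) (β : ℤ) (σ : ℝ) (hσ : σ = 1 ∨ σ = -1)
    (h1 : β ≤ -t) (h2 : (t : ℤ) < β + P.N k) (hocc : Occ P q.x q.s k β σ)
    (p : Pt P) (m : ℤ) : ∃ n : ℤ, m ≤ n ∧ n ≤ m + (2 * P.N (k + 1) + 2 + β.natAbs : ℕ) ∧
      Pt.Same t (Pt.sh n p) q := by
  obtain ⟨J, γ, σ', hJ, hσ', hγ1, hγ2, hocc'⟩ :=
    Pt.exists_occ p (m.natAbs + 4 * P.N (k + 1) + 10) (k + 1)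
  obtain ⟨i, hi⟩ : ∃ i : ℕ, m = γ + i := ⟨(m - γ).toNat, by omega⟩
  have hiN : i < P.N J := by omega
  obtain ⟨B, hB, hB1, hB2⟩ := IsLet.exists_near hJ hiN
  rcases hB.next with h | ⟨g, hg, hB', -⟩
  · exfalso; omega
  obtain ⟨σ'', hσ'', hph⟩ := hB'.ph
  have hNk : P.N k + 1 ≤ P.N (k + 1) := by
    have := lt_N_succ (P := P) k
    have h4 : 0 < 4 ^ k := by positivity
    nlinarith
  -- choose the slot
  have key : ∃ d, d < P.m k ∧ (∀ x, x < P.N k → P.c (k + 1) (P.start k d + x) = P.c k x) ∧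
      σ' * σ'' * P.τ k d = σ := by
    have e : σ' * σ'' = 1 ∨ σ' * σ'' = -1 := by
      rcases hσ' with rfl | rfl <;> rcases hσ'' with rfl | rfl <;> norm_num
    by_cases hs : σ' * σ'' = σ
    · refine ⟨P.ca k, Pt.ca_lt k, fun x hx => (Pt.C_ca hx).1, ?_⟩
      rw [P.hτa, mul_one, hs]
    · refine ⟨P.cb k, Pt.cb_lt k, fun x hx => (Pt.C_cb hx).1, ?_⟩
      rw [P.hτb]
      rcases e with e | e <;> rcases hσ with rfl | rfl
      · exact absurd e hs
      · rw [e]; norm_num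
      · rw [e]; norm_num
      · exact absurd e hs
  obtain ⟨d, hd, hc, hsgn⟩ := key
  set B' := B + P.N (k + 1) + g with hB'def
  have hstart : ∀ x, x < P.N k → P.start k d + x < P.N (k + 1) := fun x hx => start_add_lt hd hx
  have hNpos : 0 < P.N k := N_pos k
  have hst0 := hstart 0 hNpos
  have hbound := hB'.bound
  refine ⟨γ + B' + P.start k d - β, ?_, ?_, ?_⟩
  · rcases hg with rfl | rfl <;> omega
  · rcases hg with rfl | rfl <;> omega
  · intro j hj1 hj2
    obtain ⟨x, hx⟩ : ∃ x : ℕ, j = β + x := ⟨(j - β).toNat, by omega⟩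
    have hxN : x < P.N k := by omega
    have hxs := hstart x hxN
    have e1 : j + (γ + B' + P.start k d - β) = γ + ((B' + (P.start k d + x) : ℕ) : ℤ) := by
      push_cast; omega
    have hlt : B' + (P.start k d + x) < P.N J := by omega
    obtain ⟨hx1, hs1⟩ := hocc' _ hlt
    obtain ⟨hx2, hs2⟩ := hocc x hxN
    change p.x (j + (γ + B' + P.start k d - β)) = q.x j ∧
      p.s (j + (γ + B' + P.start k d - β)) = q.s j
    rw [e1, hx1, hs1, hx, hx2, hs2, hph _ hxs, ph_start hxN]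
    constructor
    · have hlev : (P.c (k + 1) (P.start k d + x)).1 < k + 1 := by
        rw [hc x hxN]
        have := c_level_le hxN
        omega
      rw [hB'.c_of_lt hxs hlev, hc x hxN]
    · rw [← hsgn]; ring

theorem rec_ (P : Params) : Stmt_Rec P := by
  intro t q
  obtain ⟨k, β, σ, hσ, h1, h2, hocc⟩ := q.mem t
  exact ⟨_, fun p m => rec_aux t q k β σ hσ h1 h2 hocc p m⟩

end Pool.Agent.URec
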