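import Pool.Agent.URec.Defs

/-!
# Existence of the parameters (module Signs)

The signs of the slots are chosen one after the other, so that an exponential potential does not
grow by more than the factor `cosh λ` at each step.
-/

open Finset

namespace Pool.Agent.URec

namespace SignsAux

/-- Partial autocorrelation of `τ` with lag `s`, on the window `[a, i - s)`. -/
noncomputable def Sg (τ : ℕ → ℝ) (a s i : ℕ) : ℝ := ∑ d ∈ Finset.Ico a (i - s), τ d * τ (d + s)

theorem Sg_succ_of_le {τ : ℕ → ℝ} {a s i : ℕ} (h : a + s ≤ i) :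
    Sg τ a s (i + 1) = Sg τ a s i + τ (i - s) * τ i := by
  unfold Sg
  have e : i + 1 - s = (i - s) + 1 := by omega
  rw [e, Finset.sum_Ico_succ_top (by omega)]
  have e2 : i - s + s = i := by omega
  rw [e2]

theorem Sg_of_le {τ : ℕ → ℝ} {a s i : ℕ} (h : i ≤ a + s) : Sg τ a s i = 0 := by
  unfold Sg
  rw [Finset.Ico_eq_empty (by omega), Finset.sum_empty]

theorem Sg_congr {τ τ' : ℕ → ℝ} {a s i : ℕ} (h : ∀ d, d < i → τ d = τ' d) :
    Sg τ a s i = Sg τ' a s i := by
  unfold Sg
  refine Finset.sum_congr rfl fun d hd => ?_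
  rw [Finset.mem_Ico] at hd
  rw [h d (by omega), h (d + s) (by omega)]

theorem abs_Sg_le {τ : ℕ → ℝ} (hτ : ∀ d, τ d = 1 ∨ τ d = -1) (a s i : ℕ) :
    |Sg τ a s i| ≤ i := by
  unfold Sg
  calc |∑ d ∈ Finset.Ico a (i - s), τ d * τ (d + s)|
      ≤ ∑ d ∈ Finset.Ico a (i - s), |τ d * τ (d + s)| := Finset.abs_sum_le_sum_abs _ _
    _ ≤ ∑ d ∈ Finset.Ico a (i - s), (1 : ℝ) := by
        refine Finset.sum_le_sum fun d _ => ?_
        rcases hτ d with h | h <;> rcases hτ (d + s) with h' | h' <;> rw [h, h'] <;> norm_num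
    _ = ((i - s - a : ℕ) : ℝ) := by simp
    _ ≤ i := by exact_mod_cast (by omega : i - s - a ≤ i)

/-- The potential. -/
noncomputable def W (m : ℕ) (lam : ℝ) (τ : ℕ → ℝ) (i : ℕ) : ℝ :=
  ∑ x ∈ (Finset.range m ×ˢ Finset.range m) ×ˢ ({1, -1} : Finset ℤ),
    Real.exp (lam * ((x.2 : ℝ) * Sg τ x.1.1 (x.1.2 + 1) i))

theorem exists_signs (m : ℕ) (lam : ℝ) (hlam : 0 ≤ lam) (j : ℕ) (hj : 6 ≤ j) :
    ∃ τ : ℕ → ℝ, (∀ d, τ d = 1 ∨ τ d = -1) ∧ τ 3 = 1 ∧ τ 5 = -1 ∧ ∀ i, i ≤ j →
      W m lam τ i ≤ Real.exp (6 * lam) * Real.cosh lam ^ i * (2 * m ^ 2) := by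
  induction j, hj using Nat.le_induction with
  | base =>
    refine ⟨fun d => if d = 5 then -1 else 1, fun d => ?_, by simp, by simp, fun i hi => ?_⟩
    · by_cases h : d = 5
      · right; simp [h]
      · left; simp [h]
    · set τ : ℕ → ℝ := fun d => if d = 5 then -1 else 1 with hτdef
      have hτ : ∀ d, τ d = 1 ∨ τ d = -1 := by
        intro d
        by_cases h : d = 5
        · right; simp [hτdef, h]
        · left; simp [hτdef, h]
      have h1 : W m lam τ i ≤ ∑ x ∈ (Finset.range m ×ˢ Finset.range m) ×ˢ ({1, -1} : Finset ℤ),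
          Real.exp (6 * lam) := by
        refine Finset.sum_le_sum fun x hx => ?_
        refine Real.exp_le_exp.mpr ?_
        rw [Finset.mem_product] at hx
        have hx2 : |((x.2 : ℤ) : ℝ)| ≤ 1 := by
          have := hx.2
          simp only [Finset.mem_insert, Finset.mem_singleton] at this
          rcases this with h | h <;> rw [h] <;> norm_num
        have h2 := abs_Sg_le hτ x.1.1 (x.1.2 + 1) i
        have h3 : ((x.2 : ℤ) : ℝ) * Sg τ x.1.1 (x.1.2 + 1) i ≤ 6 := by
          calc ((x.2 : ℤ) : ℝ) * Sg τ x.1.1 (x.1.2 + 1) i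
              ≤ |((x.2 : ℤ) : ℝ) * Sg τ x.1.1 (x.1.2 + 1) i| := le_abs_self _
            _ = |((x.2 : ℤ) : ℝ)| * |Sg τ x.1.1 (x.1.2 + 1) i| := abs_mul _ _
            _ ≤ 1 * i := mul_le_mul hx2 h2 (abs_nonneg _) (by norm_num)
            _ ≤ 6 := by
              rw [one_mul]
              exact_mod_cast hi
        nlinarith
      have h2 : ∑ x ∈ (Finset.range m ×ˢ Finset.range m) ×ˢ ({1, -1} : Finset ℤ),
          Real.exp (6 * lam) = Real.exp (6 * lam) * (2 * m ^ 2) := by
        rw [Finset.sum_const, Finset.card_product, Finset.card_product, Finset.card_range]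
        have : ({1, -1} : Finset ℤ).card = 2 := by decide
        rw [this]
        simp only [nsmul_eq_mul]
        push_cast
        ring
      have h3 : (1 : ℝ) ≤ Real.cosh lam ^ i := one_le_pow₀ (Real.one_le_cosh lam)
      have h4 : 0 ≤ Real.exp (6 * lam) * (2 * (m : ℝ) ^ 2) := by positivity
      calc W m lam τ i ≤ Real.exp (6 * lam) * (2 * m ^ 2) := by rw [← h2]; exact h1
        _ = Real.exp (6 * lam) * (2 * (m : ℝ) ^ 2) * 1 := by ring
        _ ≤ Real.exp (6 * lam) * (2 * (m : ℝ) ^ 2) * Real.cosh lam ^ i :=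
            mul_le_mul_of_nonneg_left h3 h4
        _ = _ := by ring
  | succ j hj ih =>
    obtain ⟨τ, hτ, h3, h5, hW⟩ := ih
    -- the two possible extensions
    have hsum : W m lam (Function.update τ j 1) (j + 1) + W m lam (Function.update τ j (-1)) (j + 1)
        ≤ 2 * (Real.cosh lam * W m lam τ j) := by
      unfold W
      rw [← Finset.sum_add_distrib, Finset.mul_sum, Finset.mul_sum]
      refine Finset.sum_le_sum fun x hx => ?_
      rw [Finset.mem_product] at hx
      have hx2 : ((x.2 : ℤ) : ℝ) = 1 ∨ ((x.2 : ℤ) : ℝ) = -1 := by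
        have := hx.2
        simp only [Finset.mem_insert, Finset.mem_singleton] at this
        rcases this with h | h <;> rw [h] <;> norm_num
      have key : ∀ v : ℝ, Sg (Function.update τ j v) x.1.1 (x.1.2 + 1) (j + 1) =
          Sg τ x.1.1 (x.1.2 + 1) j +
            (if x.1.1 + (x.1.2 + 1) ≤ j then τ (j - (x.1.2 + 1)) * v else 0) := by
        intro v
        by_cases h : x.1.1 + (x.1.2 + 1) ≤ j
        · rw [Sg_succ_of_le h, if_pos h]
          have e1 : Function.update τ j v j = v := Function.update_self _ _ _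
          have e2 : Function.update τ j v (j - (x.1.2 + 1)) = τ (j - (x.1.2 + 1)) :=
            Function.update_of_ne (by omega) _ _
          rw [e1, e2]
          congr 1
          exact Sg_congr fun d hd => Function.update_of_ne (by omega) _ _
        · rw [if_neg h, Sg_of_le (by omega), Sg_of_le (by omega)]
          simp
      rw [key 1, key (-1)]
      set S := Sg τ x.1.1 (x.1.2 + 1) j
      by_cases h : x.1.1 + (x.1.2 + 1) ≤ j
      · rw [if_pos h, if_pos h]
        set t := τ (j - (x.1.2 + 1)) with ht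
        have ht' : t = 1 ∨ t = -1 := hτ _
        have e : ∀ u : ℝ, (u = 1 ∨ u = -1) →
            Real.exp (lam * u) + Real.exp (-(lam * u)) = 2 * Real.cosh lam := by
          rintro u (rfl | rfl)
          · rw [Real.cosh_eq]; ring_nf
          · rw [Real.cosh_eq]; ring_nf
        have hu : ((x.2 : ℤ) : ℝ) * t = 1 ∨ ((x.2 : ℤ) : ℝ) * t = -1 := by
          rcases hx2 with h | h <;> rcases ht' with h' | h' <;> rw [h, h'] <;> norm_num
        have e1 : lam * (((x.2 : ℤ) : ℝ) * (S + t * 1)) =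
            lam * (((x.2 : ℤ) : ℝ) * S) + lam * (((x.2 : ℤ) : ℝ) * t) := by ring
        have e2 : lam * (((x.2 : ℤ) : ℝ) * (S + t * -1)) =
            lam * (((x.2 : ℤ) : ℝ) * S) + -(lam * (((x.2 : ℤ) : ℝ) * t)) := by ring
        rw [e1, e2, Real.exp_add, Real.exp_add, ← mul_add, e _ hu]
        apply le_of_eq
        ring
      · rw [if_neg h, if_neg h]
        simp only [add_zero]
        have h1 := Real.one_le_cosh lam
        have h2 := Real.exp_pos (lam * (((x.2 : ℤ) : ℝ) * S))
        nlinarith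
    have hcase : ∃ v : ℝ, (v = 1 ∨ v = -1) ∧
        W m lam (Function.update τ j v) (j + 1) ≤ Real.cosh lam * W m lam τ j := by
      by_contra hcon
      push Not at hcon
      have h1 := hcon 1 (Or.inl rfl)
      have h2 := hcon (-1) (Or.inr rfl)
      linarith
    obtain ⟨v, hv, hvW⟩ := hcase
    refine ⟨Function.update τ j v, fun d => ?_, ?_, ?_, fun i hi => ?_⟩
    · by_cases h : d = j
      · subst h; rw [Function.update_self]; exact hv
      · rw [Function.update_of_ne h]; exact hτ d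
    · rw [Function.update_of_ne (by omega)]; exact h3
    · rw [Function.update_of_ne (by omega)]; exact h5
    · rcases Nat.lt_or_ge j i with h | h
      · have : i = j + 1 := by omega
        subst this
        refine hvW.trans ?_
        have h1 := hW j le_rfl
        have h2 : 0 ≤ Real.cosh lam := (Real.cosh_pos lam).le
        calc Real.cosh lam * W m lam τ j
            ≤ Real.cosh lam * (Real.exp (6 * lam) * Real.cosh lam ^ j * (2 * m ^ 2)) :=
              mul_le_mul_of_nonneg_left h1 h2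
          _ = _ := by ring
      · have e : W m lam (Function.update τ j v) i = W m lam τ i := by
          unfold W
          refine Finset.sum_congr rfl fun x _ => ?_
          rw [Sg_congr (τ' := τ) fun d hd => Function.update_of_ne (by omega) _ _]
        rw [e]
        exact hW i h

/-- All partial autocorrelations are small. -/
theorem Sg_bound {m : ℕ} (hm : 6 ≤ m) {lam : ℝ} (hlam : 0 < lam) {τ : ℕ → ℝ}
    (hW : ∀ i, i ≤ m → W m lam τ i ≤ Real.exp (6 * lam) * Real.cosh lam ^ i * (2 * m ^ 2))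
    {a s i : ℕ} (ha : a < m) (hs : 1 ≤ s) (hsm : s ≤ m) (hi : i ≤ m) :
    lam * |Sg τ a s i| ≤ 6 * lam + m * (lam ^ 2 / 2) + Real.log (2 * m ^ 2) := by
  have hm0 : (0 : ℝ) < m := by exact_mod_cast (by omega : 0 < m)
  have hbound : Real.exp (6 * lam) * Real.cosh lam ^ i * (2 * m ^ 2) ≤
      Real.exp (6 * lam + m * (lam ^ 2 / 2) + Real.log (2 * m ^ 2)) := by
    rw [Real.exp_add, Real.exp_add, Real.exp_log (by positivity)]
    have h1 : Real.cosh lam ^ i ≤ Real.exp (m * (lam ^ 2 / 2)) := by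
      calc Real.cosh lam ^ i ≤ Real.cosh lam ^ m :=
            pow_le_pow_right₀ (Real.one_le_cosh lam) hi
        _ ≤ (Real.exp (lam ^ 2 / 2)) ^ m :=
            pow_le_pow_left₀ (Real.cosh_pos lam).le (Real.cosh_le_exp_half_sq lam) m
        _ = Real.exp (m * (lam ^ 2 / 2)) := by rw [← Real.exp_nat_mul]
    gcongr
  have hterm : ∀ σ : ℤ, σ ∈ ({1, -1} : Finset ℤ) →
      lam * ((σ : ℝ) * Sg τ a s i) ≤ 6 * lam + m * (lam ^ 2 / 2) + Real.log (2 * m ^ 2) := by
    intro σ hσ
    rw [← Real.exp_le_exp]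
    refine le_trans ?_ ((hW i hi).trans hbound)
    have hmem : (((a, s - 1), σ) : (ℕ × ℕ) × ℤ) ∈
        (Finset.range m ×ˢ Finset.range m) ×ˢ ({1, -1} : Finset ℤ) := by
      simp only [Finset.mem_product, Finset.mem_range]
      exact ⟨⟨ha, by omega⟩, hσ⟩
    have h := Finset.single_le_sum (f := fun x : (ℕ × ℕ) × ℤ =>
      Real.exp (lam * ((x.2 : ℝ) * Sg τ x.1.1 (x.1.2 + 1) i)))
      (fun x _ => (Real.exp_pos _).le) hmem
    have e : s - 1 + 1 = s := by omega
    simp only [e] at h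
    exact h
  have h1 := hterm 1 (by decide)
  have h2 := hterm (-1) (by decide)
  push_cast at h1 h2
  rcases abs_cases (Sg τ a s i) with ⟨h, _⟩ | ⟨h, _⟩ <;> rw [h]
  · simpa using h1
  · simpa using h2

/-- The truncated autocorrelations with positive lag are partial autocorrelations. -/
theorem trunc_sum_eq {m : ℕ} (τ : ℕ → ℝ) {s : ℤ} (hs : 0 < s) (lo hi : ℤ) :
    (∑ d ∈ Finset.Ico lo hi, trunc m τ d * trunc m τ (d + s) = 0) ∨
    ∃ a i : ℕ, a < m ∧ i ≤ m ∧ s.toNat ≤ m ∧
      ∑ d ∈ Finset.Ico lo hi, trunc m τ d * trunc m τ (d + s) = Sg τ a s.toNat i := by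
  by_cases hempty : max lo 1 < min hi (m - s)
  · right
    refine ⟨(max lo 1).toNat, (min hi (m - s)).toNat + s.toNat, by omega, by omega, by omega, ?_⟩
    unfold Sg
    have hsub : Finset.Ico (max lo 1) (min hi (m - s)) ⊆ Finset.Ico lo hi := by
      intro d hd
      rw [Finset.mem_Ico] at hd ⊢
      omega
    rw [← Finset.sum_subset hsub]
    · symm
      refine Finset.sum_nbij' (fun d : ℕ => (d : ℤ)) (fun d : ℤ => d.toNat) ?_ ?_ ?_ ?_ ?_
      · intro d hd
        rw [Finset.mem_Ico] at hd ⊢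
        omega
      · intro d hd
        rw [Finset.mem_Ico] at hd ⊢
        omega
      · intro d hd
        simp
      · intro d hd
        rw [Finset.mem_Ico] at hd
        have : 0 ≤ d := by omega
        exact Int.toNat_of_nonneg this
      · intro d hd
        rw [Finset.mem_Ico] at hd
        unfold trunc
        rw [if_pos (by omega), if_pos (by omega)]
        have e1 : ((d : ℤ)).toNat = d := by simp
        have e2 : ((d : ℤ) + s).toNat = d + s.toNat := by omega
        rw [e1, e2]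
    · intro d hd hd'
      rw [Finset.mem_Ico] at hd hd'
      unfold trunc
      by_cases h1 : 1 ≤ d ∧ d < (m : ℤ)
      · rw [if_neg (c := 1 ≤ d + s ∧ d + s < (m : ℤ)) (by omega)]
        ring
      · rw [if_neg h1]
        ring
  · left
    refine Finset.sum_eq_zero fun d hd => ?_
    rw [Finset.mem_Ico] at hd
    unfold trunc
    by_cases h1 : 1 ≤ d ∧ d < (m : ℤ)
    · rw [if_neg (c := 1 ≤ d + s ∧ d + s < (m : ℤ)) (by omega)]
      ring
    · rw [if_neg h1]
      ring

theorem trunc_sum_neg {m : ℕ} (τ : ℕ → ℝ) (s : ℤ) (lo hi : ℤ) :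
    ∑ d ∈ Finset.Ico lo hi, trunc m τ d * trunc m τ (d + s) =
      ∑ d ∈ Finset.Ico (lo + s) (hi + s), trunc m τ d * trunc m τ (d + (-s)) := by
  refine Finset.sum_nbij' (fun d => d + s) (fun d => d - s) ?_ ?_ ?_ ?_ ?_
  · intro d hd
    rw [Finset.mem_Ico] at hd ⊢
    omega
  · intro d hd
    rw [Finset.mem_Ico] at hd ⊢
    omega
  · intro d _
    ring
  · intro d _
    ring
  · intro d _
    have e : d + s + -s = d := by ring
    rw [e]
    ring

theorem exists_tau (θ : ℝ) (hθ : 0 < θ) (m₀ : ℕ) : ∃ (m : ℕ) (τ : ℕ → ℝ), m₀ ≤ m ∧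
    (∀ d, τ d = 1 ∨ τ d = -1) ∧ τ 3 = 1 ∧ τ 5 = -1 ∧ ∀ s : ℤ, s ≠ 0 → ∀ lo hi : ℤ,
      |∑ d ∈ Finset.Ico lo hi, trunc m τ d * trunc m τ (d + s)| ≤ θ * m := by
  -- choose `m` large
  have hlim : Filter.Tendsto (fun m : ℕ => (6 * θ + Real.log (2 * (m : ℝ) ^ 2)) / (m : ℝ))
      Filter.atTop (nhds 0) := by
    have h1 : Filter.Tendsto (fun x : ℝ => (6 * θ + Real.log 2 + 2 * Real.log x) / x)
        Filter.atTop (nhds 0) := by
      have ha : Filter.Tendsto (fun x : ℝ => (6 * θ + Real.log 2) / x) Filter.atTop (nhds 0) :=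
        Filter.Tendsto.div_atTop tendsto_const_nhds Filter.tendsto_id
      have hb : Filter.Tendsto (fun x : ℝ => Real.log x / x) Filter.atTop (nhds 0) := by
        have := Real.isLittleO_log_id_atTop.tendsto_div_nhds_zero
        simpa using this
      have hc := ha.add (hb.const_mul 2)
      simp only [mul_zero, add_zero] at hc
      refine hc.congr fun x => ?_
      ring
    have h2 := h1.comp (tendsto_natCast_atTop_atTop (R := ℝ))
    refine h2.congr' ?_
    filter_upwards [Filter.eventually_ge_atTop 1] with m hm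
    have hm0 : (0 : ℝ) < m := by exact_mod_cast hm
    simp only [Function.comp]
    rw [Real.log_mul (by norm_num) (by positivity), Real.log_pow]
    push_cast
    ring
  have hev := hlim.eventually (gt_mem_nhds (show (0 : ℝ) < θ ^ 2 / 2 by positivity))
  obtain ⟨m, hm1, hm2⟩ := (hev.and (Filter.eventually_ge_atTop (max m₀ 6))).exists
  have hm6 : 6 ≤ m := le_trans (le_max_right _ _) hm2
  have hmm₀ : m₀ ≤ m := le_trans (le_max_left _ _) hm2
  have hm0 : (0 : ℝ) < m := by exact_mod_cast (by omega : 0 < m)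
  rw [div_lt_iff₀ hm0] at hm1
  obtain ⟨τ, hτ, h3, h5, hW⟩ := exists_signs m θ hθ.le m hm6
  have hpos : ∀ s : ℤ, 0 < s → ∀ lo hi : ℤ,
      |∑ d ∈ Finset.Ico lo hi, trunc m τ d * trunc m τ (d + s)| ≤ θ * m := by
    intro s hs lo hi
    rcases trunc_sum_eq (m := m) τ hs lo hi with h | ⟨a, i, ha, hi', hsm, h⟩
    · rw [h, abs_zero]
      positivity
    · rw [h]
      have h1 := Sg_bound hm6 hθ hW ha (by omega : 1 ≤ s.toNat) hsm hi'
      have h2 : θ * |Sg τ a s.toNat i| ≤ θ * (θ * m) := by nlinarith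
      exact le_of_mul_le_mul_left h2 hθ
  refine ⟨m, τ, hmm₀, hτ, h3, h5, fun s hs lo hi => ?_⟩
  rcases lt_or_gt_of_ne hs with h | h
  · rw [trunc_sum_neg]
    exact hpos (-s) (by omega) _ _
  · exact hpos s h lo hi

end SignsAux

theorem signs : Stmt_Signs := by
  have h : ∀ k : ℕ, ∃ (m : ℕ) (τ : ℕ → ℝ), 1000 * 4 ^ k ≤ m ∧
      (∀ d, τ d = 1 ∨ τ d = -1) ∧ τ 3 = 1 ∧ τ 5 = -1 ∧ ∀ s : ℤ, s ≠ 0 → ∀ lo hi : ℤ,
        |∑ d ∈ Finset.Ico lo hi, trunc m τ d * trunc m τ (d + s)| ≤ (1 / 4) ^ k * m :=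
    fun k => SignsAux.exists_tau ((1 / 4) ^ k) (by positivity) (1000 * 4 ^ k)
  choose m τ hm hτ h3 h5 hauto using h
  refine ⟨{ m := m, ca := fun _ => 3, cb := fun _ => 5, τ := τ, hm := hm, hca := fun _ => le_rfl,
            hcab := fun _ => le_rfl, hcb := fun k => ?_, hτ := hτ, hτa := h3, hτb := h5,
            auto := hauto }⟩
  have := hm k
  have h4 : 1 ≤ 4 ^ k := Nat.one_le_pow _ _ (by norm_num)
  omega

end Pool.Agent.URec
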