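import Pool.Agent.URec.Letters

/-!
# Signed coincidences: definitions and statements
-/

namespace Pool.Agent.URec

/-- Windowed correlation of a real function on the integers. -/
noncomputable def wcorr (f : ℤ → ℝ) (S lo hi : ℤ) : ℝ := ∑ i ∈ Finset.Ico lo hi, f i * f (i + S)

/-- A family of functions generated by the hierarchical structure, from level `K₁` on. -/
structure Fam (P : Params) (K₁ : ℕ) (f : ℕ → ℤ → ℝ) : Prop where
  bdd : ∀ K i, |f K i| ≤ 1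
  supp : ∀ K i, f K i ≠ 0 → 0 ≤ i ∧ i < P.N K
  step : ∀ K, K₁ ≤ K → ∀ i, f (K + 1) i =
    ∑ d ∈ Finset.range (P.m K), P.τ K d * f K (i - P.start K d)

/-- Module CorrAbs: windowed correlations are small for large shifts, uniformly in the level. -/
def Stmt_CorrAbs (P : Params) : Prop := ∀ (K₁ : ℕ) (f : ℕ → ℤ → ℝ), Fam P K₁ f →
  ∀ δ : ℝ, 0 < δ → ∃ M : ℕ, ∀ K, K₁ ≤ K → ∀ S : ℤ, (M : ℤ) ≤ |S| → ∀ lo hi : ℤ,
    |wcorr (f K) S lo hi| ≤ δ * P.N K

/-- The signed indicator function of the symbol `a` in the letters of level `K`. -/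
noncomputable def fSym (P : Params) (a : ℕ × ℕ) (K : ℕ) (i : ℤ) : ℝ :=
  if 0 ≤ i ∧ i < P.N K ∧ P.c K i.toNat = a then P.ph K i.toNat else 0

/-- Module CorrLink (1). -/
def Stmt_FamSym (P : Params) : Prop := ∀ a : ℕ × ℕ, Fam P (a.1 + 1) (fSym P a)

/-- Module CorrLink (2): the signed indicator of the symbol `a` along a point, on a window of length
`N (K+1)`, is a combination of two copies of `fSym`. -/
def Stmt_Link (P : Params) : Prop := ∀ (a : ℕ × ℕ) (K : ℕ), a.1 < K + 1 → ∀ (p : Pt P) (y : ℤ),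
  0 ≤ y → y < P.N (K + 1) → Pt.LetAt (K + 1) p (-y) →
  ∃ (σ₁ σ₂ : ℝ) (g : ℤ), |σ₁| ≤ 1 ∧ |σ₂| ≤ 1 ∧ 1 ≤ g ∧ g ≤ 2 ∧ ∀ n : ℕ, n < P.N (K + 1) →
    (if p.x n = a then p.s n else 0) =
      σ₁ * fSym P a (K + 1) (n + y) + σ₂ * fSym P a (K + 1) (n + y - P.N (K + 1) - g)

end Pool.Agent.URec
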