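import Mathlib

/-!
# Definitions for the nonseparable counterexample (`S04422`)

Combinatorial part: parameters, hierarchical letters, signed points.
-/

namespace Pool.Agent.URec

/-- `τ` restricted to the slots `1 ≤ d < m`, extended by zero to all integers. -/
noncomputable def trunc (m : ℕ) (τ : ℕ → ℝ) (d : ℤ) : ℝ :=
  if 1 ≤ d ∧ d < m then τ d.toNat else 0

/-- Parameters of the construction: numbers of slots `m k`, the two common slots `ca k`, `cb k`,
signs `τ k d` of the slots, with small autocorrelations. -/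
structure Params where
  /-- number of slots of a letter of level `k + 1` -/
  m : ℕ → ℕ
  /-- first common slot -/
  ca : ℕ → ℕ
  /-- second common slot -/
  cb : ℕ → ℕ
  /-- signs of the slots -/
  τ : ℕ → ℕ → ℝ
  hm : ∀ k, 1000 * 4 ^ k ≤ m k
  hca : ∀ k, 3 ≤ ca k
  hcab : ∀ k, ca k + 2 ≤ cb k
  hcb : ∀ k, cb k + 4 ≤ m k
  hτ : ∀ k d, τ k d = 1 ∨ τ k d = -1
  hτa : ∀ k, τ k (ca k) = 1
  hτb : ∀ k, τ k (cb k) = -1
  auto : ∀ k, ∀ s : ℤ, s ≠ 0 → ∀ lo hi : ℤ,
    |∑ d ∈ Finset.Ico lo hi, trunc (m k) (τ k) d * trunc (m k) (τ k) (d + s)| ≤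
      (1 / 4) ^ k * (m k : ℝ)

variable (P : Params)

/-- Length of the letters of level `k`. -/
def Params.N (P : Params) : ℕ → ℕ
  | 0 => 1
  | k + 1 => P.m k * (P.N k + 1)

/-- First position of slot `d` in a letter of level `k + 1`. Consecutive slots are separated by
one spacer, except that slots `0` and `1` are separated by two spacers. -/
def Params.start (P : Params) (k d : ℕ) : ℕ := if d = 0 then 0 else d * (P.N k + 1) + 1

/-- The slot and the position in the slot of a position `i` of a letter of level `k + 1`;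
`none` for spacers. -/
def Params.loc (P : Params) (k i : ℕ) : Option (ℕ × ℕ) :=
  if i < P.N k then some (0, i)
  else if i = P.N k then none
  else if (i - 1) % (P.N k + 1) < P.N k then
    some ((i - 1) / (P.N k + 1), (i - 1) % (P.N k + 1))
  else none

/-- The common letter of level `k`: symbol (a pair of natural numbers: level of the innermost
common letter and position in it) and sign at position `i`. -/
noncomputable def Params.C (P : Params) : ℕ → ℕ → (ℕ × ℕ) × ℝ
  | 0, i => ((0, i), 1)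
  | k + 1, i =>
    match P.loc k i with
    | none => ((k + 1, i), 1)
    | some (d, x) =>
      (if d = P.ca k ∨ d = P.cb k ∨ (P.C k x).1.1 < k then (P.C k x).1 else (k + 1, i),
        P.τ k d * (P.C k x).2)

/-- Symbol at position `i` of the common letter of level `k`. -/
noncomputable def Params.c (P : Params) (k i : ℕ) : ℕ × ℕ := (P.C k i).1

/-- Sign at position `i` of the letters of level `k`. -/
noncomputable def Params.ph (P : Params) (k i : ℕ) : ℝ := (P.C k i).2

/-- `IsLet P J K B`: the letters of level `J` contain a letter of level `K` (common or private)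
starting at position `B`. -/
inductive IsLet (P : Params) : ℕ → ℕ → ℕ → Prop
  | refl (K : ℕ) : IsLet P K K 0
  | step {J K B d : ℕ} : IsLet P J K B → d < P.m J → IsLet P (J + 1) K (P.start J d + B)

/-- The signed sequence `(x, s)` has the common letter of level `J` at `β`, with sign `σ`. -/
def Occ (P : Params) (x : ℤ → ℕ × ℕ) (s : ℤ → ℝ) (J : ℕ) (β : ℤ) (σ : ℝ) : Prop :=
  ∀ i : ℕ, i < P.N J → x (β + i) = P.c J i ∧ s (β + i) = σ * P.ph J i

/-- Signed points: sequences of symbols and signs such that every window lies in a (possibly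
negated) common letter. -/
@[ext]
structure Pt (P : Params) where
  /-- symbols -/
  x : ℤ → ℕ × ℕ
  /-- signs -/
  s : ℤ → ℝ
  mem : ∀ t : ℕ, ∃ (J : ℕ) (β : ℤ) (σ : ℝ), (σ = 1 ∨ σ = -1) ∧ β ≤ -t ∧
    (t : ℤ) < β + P.N J ∧ Occ P x s J β σ

namespace Pt

variable {P}

/-- The shift by `n`. -/
def sh (n : ℤ) (p : Pt P) : Pt P where
  x := fun i => p.x (i + n)
  s := fun i => p.s (i + n)
  mem := by
    intro t
    obtain ⟨J, β, σ, hσ, h1, h2, h3⟩ := p.mem (t + n.natAbs)
    refine ⟨J, β - n, σ, hσ, ?_, ?_, ?_⟩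
    · have := h1
      push_cast at this
      omega
    · have := h2
      push_cast at this
      omega
    · intro i hi
      have := h3 i hi
      have e : β - n + i + n = β + i := by ring
      simp only [e]
      exact this

/-- The opposite signed point. -/
def ng (p : Pt P) : Pt P where
  x := p.x
  s := fun i => - p.s i
  mem := by
    intro t
    obtain ⟨J, β, σ, hσ, h1, h2, h3⟩ := p.mem t
    refine ⟨J, β, -σ, ?_, h1, h2, ?_⟩
    · rcases hσ with rfl | rfl
      · right; rfl
      · left; norm_num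
    · intro i hi
      obtain ⟨ha, hb⟩ := h3 i hi
      refine ⟨ha, ?_⟩
      change - p.s (β + i) = _
      rw [hb]; ring

/-- Two points have the same symbols on `[-t, t]`. -/
def SameX (t : ℕ) (p q : Pt P) : Prop := ∀ i : ℤ, -t ≤ i → i ≤ t → p.x i = q.x i

/-- Two points have the same symbols and signs on `[-t, t]`. -/
def Same (t : ℕ) (p q : Pt P) : Prop := ∀ i : ℤ, -t ≤ i → i ≤ t → p.x i = q.x i ∧ p.s i = q.s i

/-- The symbol of `p` at `n` determines the symbols of `p` on `[-t, t]` and the relative sign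
between `0` and `n`. -/
def Good (t : ℕ) (p : Pt P) (n : ℤ) : Prop :=
  ∀ q : Pt P, q.x n = p.x n → SameX t q p ∧ q.s n * q.s 0 = p.s n * p.s 0

/-- All symbols of `p` on `[-t, t]` have level at most `K`. -/
def LevLe (t K : ℕ) (p : Pt P) : Prop := ∀ i : ℤ, -t ≤ i → i ≤ t → (p.x i).1 ≤ K

/-- `p` has a letter of level `K` starting at `b`. -/
def LetAt (K : ℕ) (p : Pt P) (b : ℤ) : Prop :=
  ∃ (J : ℕ) (β : ℤ) (σ : ℝ) (B : ℕ), (σ = 1 ∨ σ = -1) ∧ Occ P p.x p.s J β σ ∧ IsLet P J K B ∧
    b = β + B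

/-- The origin has position `y` in a letter of level `K` of `p`, at distance at least `t` from the
ends of this letter. -/
def Pos (t K : ℕ) (p : Pt P) (y : ℤ) : Prop :=
  LetAt K p (-y) ∧ (t : ℤ) ≤ y ∧ y + t < P.N K

/-- The two points have arbitrarily long common aligned windows. -/
def Prox (p q : Pt P) : Prop := ∀ N : ℕ, ∃ n : ℤ, SameX N (sh n p) (sh n q)

end Pt

/-! ## Statements of the combinatorial modules -/

/-- Module Signs: parameters exist. -/
def Stmt_Signs : Prop := Nonempty Params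

/-- Module Dec: a positive proportion (at least `2/5`) of the symbols near the origin are good. -/
def Stmt_Dec (P : Params) : Prop := ∀ t : ℕ, ∃ L : ℕ, ∀ p : Pt P, ∀ S : Finset ℤ,
  (∀ n, n ∈ S ↔ (-(L : ℤ) ≤ n ∧ n ≤ L ∧ Pt.Good t p n)) →
    (2 : ℝ) / 5 * (2 * L + 1) ≤ (S.card : ℝ)

/-- Module Corr: signed coincidences of two points in different positions are rare. -/
def Stmt_Corr (P : Params) : Prop := ∀ a : ℕ × ℕ, ∀ δ : ℝ, 0 < δ → ∃ M K₀ : ℕ, ∀ K, K₀ ≤ K →
  ∃ L : ℕ, K ≤ L ∧ ∀ (p q : Pt P) (y z : ℤ), Pt.Pos M (K + 1) p y → Pt.Pos M (K + 1) q z →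
    (M : ℤ) ≤ |y - z| →
    |∑ n ∈ Finset.range L, (if p.x n = a then p.s n else 0) * (if q.x n = a then q.s n else 0)|
      ≤ δ * L

/-- Module Rec: uniform recurrence and minimality (with signs). -/
def Stmt_Rec (P : Params) : Prop := ∀ (t : ℕ) (q : Pt P), ∃ N : ℕ, ∀ (p : Pt P) (m : ℤ), ∃ n : ℤ,
  m ≤ n ∧ n ≤ m + N ∧ Pt.Same t (Pt.sh n p) q

/-- Module Prox: for a finite set `F` of points there is a point proximal to all points of the
orbits of the elements of `F`, but in none of these orbits. -/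
def Stmt_Prox (P : Params) : Prop := ∀ F : Set (Pt P), F.Finite → ∃ p : Pt P, ∀ q ∈ F, ∀ n : ℤ,
  Pt.Prox p (Pt.sh n q) ∧ p.x ≠ (Pt.sh n q).x

/-- Module Basic, (I2): one symbol in `[-t,t]` determines all symbols of `[-t,t]`. -/
def Stmt_Cell (P : Params) : Prop := ∀ (t : ℕ) (p : Pt P), ∃ n : ℤ, -t ≤ n ∧ n ≤ t ∧ Pt.Good t p n

/-- Module Basic, (I1): the signs on a window are determined by the symbols up to a global sign. -/
def Stmt_Sign (P : Params) : Prop := ∀ (t : ℕ) (p q : Pt P), Pt.SameX t p q →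
  ∃ σ : ℝ, (σ = 1 ∨ σ = -1) ∧ ∀ i : ℤ, -t ≤ i → i ≤ t → q.s i = σ * p.s i

/-- Module Basic, (I5). -/
def Stmt_Pos (P : Params) : Prop := ∀ (t K : ℕ) (p : Pt P), Pt.LevLe t K p →
  ∃ y : ℤ, Pt.Pos t (K + 1) p y

/-- Module Basic, (I6). -/
def Stmt_PosDet (P : Params) : Prop := ∀ (t K : ℕ) (p q : Pt P) (y : ℤ), Pt.LevLe t K p →
  Pt.LevLe t K q → Pt.Pos t (K + 1) p y → Pt.Pos t (K + 1) q y → Pt.SameX t p q

/-- Module Basic, (I9): compactness (nested windows). -/
def Stmt_Closed (P : Params) : Prop := ∀ u : ℕ → Pt P, (∀ t, Pt.SameX t (u (t + 1)) (u t)) →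
  ∃ p : Pt P, ∀ t, Pt.SameX t p (u t)

/-- There is a point. -/
def Stmt_Nonempty (P : Params) : Prop := Nonempty (Pt P)

end Pool.Agent.URec
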