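import Pool.Agent.URec.Defs

namespace Pool.Agent.URec

variable {P : Params}

theorem N_pos (k : ℕ) : 0 < P.N k := by
  cases k with
  | zero => exact Nat.one_pos
  | succ k =>
    have h := P.hm k
    have h2 : 0 < 4 ^ k := by positivity
    change 0 < P.m k * (P.N k + 1)
    have h3 : 0 < P.m k := by omega
    positivity

theorem N_succ (k : ℕ) : P.N (k + 1) = P.m k * (P.N k + 1) := rfl

theorem lt_N_succ (k : ℕ) : 1000 * 4 ^ k * (P.N k + 1) ≤ P.N (k + 1) :=
  Nat.mul_le_mul_right _ (P.hm k)

theorem m_ge (k : ℕ) : 1000 ≤ P.m k := by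
  have h := P.hm k
  have h2 : 0 < 4 ^ k := by positivity
  nlinarith

theorem N_strictMono : StrictMono P.N := by
  apply strictMono_nat_of_lt_succ
  intro k
  have h1 := m_ge (P := P) k
  rw [N_succ]
  nlinarith

theorem ph_eq (k i : ℕ) : P.ph k i = 1 ∨ P.ph k i = -1 := by
  induction k generalizing i with
  | zero => left; simp [Params.ph, Params.C]
  | succ k ih =>
    unfold Params.ph Params.C
    rcases h : P.loc k i with _ | ⟨d, x⟩
    · left; rfl
    · simp only
      rcases P.hτ k d with h1 | h1 <;> rcases ih x with h2 | h2 <;>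
        (unfold Params.ph at h2; rw [h1, h2]; norm_num)

theorem start_zero (k : ℕ) : P.start k 0 = 0 := rfl

theorem start_pos {k d : ℕ} (hd : 0 < d) : P.start k d = d * (P.N k + 1) + 1 := by
  unfold Params.start
  rw [if_neg (by omega)]

theorem start_add_lt {k d x : ℕ} (hd : d < P.m k) (hx : x < P.N k) :
    P.start k d + x < P.N (k + 1) := by
  rw [N_succ]
  rcases Nat.eq_zero_or_pos d with rfl | h
  · rw [start_zero]
    nlinarith
  · rw [start_pos h]
    have : (d + 1) * (P.N k + 1) ≤ P.m k * (P.N k + 1) := Nat.mul_le_mul_right _ hd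
    nlinarith

/-- The gap between consecutive slots. -/
theorem start_succ (k d : ℕ) : P.start k (d + 1) = P.start k d + P.N k + (if d = 0 then 2 else 1) := by
  rw [start_pos (Nat.succ_pos d)]
  rcases Nat.eq_zero_or_pos d with rfl | h
  · rw [start_zero]; simp
  · rw [start_pos h, if_neg (by omega), Nat.succ_eq_add_one]
    ring

theorem start_last (k : ℕ) : P.start k (P.m k - 1) + P.N k = P.N (k + 1) := by
  have h1 := m_ge (P := P) k
  rw [start_pos (by omega), N_succ]
  obtain ⟨m, hm⟩ : ∃ m, P.m k = m + 1 := ⟨P.m k - 1, by omega⟩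
  rw [hm]
  simp only [Nat.add_sub_cancel]
  ring

theorem loc_start {k d x : ℕ} (hx : x < P.N k) : P.loc k (P.start k d + x) = some (d, x) := by
  unfold Params.loc
  rcases Nat.eq_zero_or_pos d with rfl | h
  · rw [start_zero, zero_add, if_pos hx]
  · rw [start_pos h]
    have h1 : ¬ (d * (P.N k + 1) + 1 + x < P.N k) := by nlinarith
    have h2 : ¬ (d * (P.N k + 1) + 1 + x = P.N k) := by nlinarith
    have h3 : d * (P.N k + 1) + 1 + x - 1 = x + (P.N k + 1) * d := by
      have : d * (P.N k + 1) = (P.N k + 1) * d := Nat.mul_comm _ _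
      omega
    rw [if_neg h1, if_neg h2, h3, Nat.add_mul_mod_self_left, Nat.add_mul_div_left _ _ (Nat.succ_pos _),
      Nat.mod_eq_of_lt (by omega), Nat.div_eq_of_lt (by omega), if_pos hx]
    simp

theorem pos_cases {k i : ℕ} (hi : i < P.N (k + 1)) :
    (∃ d x, d < P.m k ∧ x < P.N k ∧ i = P.start k d + x) ∨
    (P.loc k i = none ∧ ∃ d g, d + 1 < P.m k ∧ i = P.start k d + P.N k + g ∧
      i < P.start k (d + 1)) := by
  have hm := m_ge (P := P) k
  rcases lt_trichotomy i (P.N k) with h | h | h
  · left
    exact ⟨0, i, by omega, h, by rw [start_zero]; omega⟩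
  · right
    refine ⟨?_, 0, 0, by omega, by rw [start_zero]; omega, ?_⟩
    · unfold Params.loc
      rw [if_neg (by omega), if_pos h]
    · rw [start_pos (by omega)]
      omega
  · set D := (i - 1) / (P.N k + 1) with hD
    set X := (i - 1) % (P.N k + 1) with hX
    have h1 : (P.N k + 1) * D + X = i - 1 := Nat.div_add_mod _ _
    have h2 : X < P.N k + 1 := Nat.mod_lt _ (Nat.succ_pos _)
    have h3 : D < P.m k := by
      rw [hD]
      apply Nat.div_lt_of_lt_mul
      rw [N_succ] at hi
      have : P.m k * (P.N k + 1) = (P.N k + 1) * P.m k := Nat.mul_comm _ _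
      omega
    by_cases hx : X < P.N k
    · left
      refine ⟨D, X, h3, hx, ?_⟩
      have hDpos : 0 < D := by
        rcases Nat.eq_zero_or_pos D with h0 | h0
        · rw [h0] at h1
          simp at h1
          omega
        · exact h0
      rw [start_pos hDpos]
      have : D * (P.N k + 1) = (P.N k + 1) * D := Nat.mul_comm _ _
      omega
    · right
      have hXe : X = P.N k := by omega
      have hD1 : D + 1 < P.m k := by
        by_contra hcon
        have hDe : D + 1 = P.m k := by omega
        rw [N_succ, ← hDe] at hi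
        have : (D + 1) * (P.N k + 1) = (P.N k + 1) * D + (P.N k + 1) := by ring
        omega
      refine ⟨?_, D, ?_⟩
      · unfold Params.loc
        rw [if_neg (by omega), if_neg (by omega), if_neg hx]
      · rcases Nat.eq_zero_or_pos D with h0 | h0
        · refine ⟨1, hD1, ?_, ?_⟩
          · rw [h0, start_zero]
            rw [h0] at h1
            simp at h1
            omega
          · rw [h0, start_pos (by omega)]
            rw [h0] at h1
            simp at h1
            omega
        · refine ⟨0, hD1, ?_, ?_⟩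
          · rw [start_pos h0]
            have : D * (P.N k + 1) = (P.N k + 1) * D := Nat.mul_comm _ _
            omega
          · rw [start_pos (by omega)]
            have : (D + 1) * (P.N k + 1) = (P.N k + 1) * D + (P.N k + 1) := by ring
            omega

theorem c_start {k d x : ℕ} (hx : x < P.N k) :
    P.c (k + 1) (P.start k d + x) =
      if d = P.ca k ∨ d = P.cb k ∨ (P.c k x).1 < k then P.c k x else (k + 1, P.start k d + x) := by
  unfold Params.c
  conv_lhs => unfold Params.C
  rw [loc_start hx]

theorem ph_start {k d x : ℕ} (hx : x < P.N k) :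
    P.ph (k + 1) (P.start k d + x) = P.τ k d * P.ph k x := by
  unfold Params.ph
  conv_lhs => unfold Params.C
  rw [loc_start hx]

theorem c_spacer {k i : ℕ} (h : P.loc k i = none) : P.c (k + 1) i = (k + 1, i) := by
  unfold Params.c
  conv_lhs => unfold Params.C
  rw [h]

theorem c_level_le {k i : ℕ} (hi : i < P.N k) : (P.c k i).1 ≤ k := by
  induction k generalizing i with
  | zero => simp [Params.c, Params.C]
  | succ k ih =>
    rcases pos_cases hi with ⟨d, x, hd, hx, rfl⟩ | ⟨h, -⟩
    · rw [c_start hx]
      split_ifs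
      · exact (ih hx).trans (Nat.le_succ k)
      · exact le_rfl
    · rw [c_spacer h]

theorem c_native {k i : ℕ} (hi : i < P.N k) (h : (P.c k i).1 = k) : P.c k i = (k, i) := by
  cases k with
  | zero => rfl
  | succ k =>
    rcases pos_cases hi with ⟨d, x, hd, hx, rfl⟩ | ⟨h, -⟩
    · rw [c_start hx] at h ⊢
      split_ifs at h ⊢ with h1
      · have := c_level_le hx
        omega
      · rfl
    · rw [c_spacer h]

/-- Every common letter has a native symbol. -/
theorem exists_native (k : ℕ) : ∃ i, i < P.N k ∧ P.c k i = (k, i) := by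
  cases k with
  | zero => exact ⟨0, N_pos 0, rfl⟩
  | succ k =>
    refine ⟨P.N k, ?_, ?_⟩
    · exact N_strictMono (Nat.lt_succ_self k)
    · apply c_spacer
      unfold Params.loc
      rw [if_neg (by omega), if_pos rfl]

theorem IsLet.le {J K B : ℕ} (h : IsLet P J K B) : K ≤ J := by
  induction h with
  | refl K => exact le_rfl
  | step h hd ih => omega

theorem IsLet.bound {J K B : ℕ} (h : IsLet P J K B) : B + P.N K ≤ P.N J := by
  induction h with
  | refl K => omega
  | @step J K B d h hd ih =>
    have h1 := start_add_lt (P := P) (k := J) (x := P.N J - 1) hd (by have := N_pos (P := P) J; omega)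
    have := N_pos (P := P) J
    omega

theorem IsLet.trans {J K L B C : ℕ} (h : IsLet P J K B) (h' : IsLet P K L C) :
    IsLet P J L (B + C) := by
  induction h with
  | refl K => simpa using h'
  | @step J K B d h hd ih =>
    have := IsLet.step (ih h') hd
    rwa [← Nat.add_assoc] at this

theorem IsLet.ph {J K B : ℕ} (h : IsLet P J K B) :
    ∃ σ : ℝ, (σ = 1 ∨ σ = -1) ∧ ∀ i, i < P.N K → P.ph J (B + i) = σ * P.ph K i := by
  induction h with
  | refl K => exact ⟨1, Or.inl rfl, fun i _ => by simp⟩
  | @step J K B d h hd ih =>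
    obtain ⟨σ, hσ, h1⟩ := ih
    refine ⟨P.τ J d * σ, ?_, ?_⟩
    · rcases hσ with rfl | rfl <;> rcases P.hτ J d with h2 | h2 <;> rw [h2] <;> norm_num
    · intro i hi
      have hb := h.bound
      rw [Nat.add_assoc, ph_start (by omega), h1 i hi, mul_assoc]

/-- Non native symbols of a letter do not depend on its type. -/
theorem IsLet.c_of_lt {J K B i : ℕ} (h : IsLet P J K B) (hi : i < P.N K)
    (hl : (P.c K i).1 < K) : P.c J (B + i) = P.c K i := by
  induction h with
  | refl K => simp
  | @step J K B d h hd ih =>
    have hb := h.bound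
    have hle := h.le
    rw [Nat.add_assoc, c_start (by omega), ih hi hl, if_pos]
    right; right
    omega


/-- A symbol `(j, y)` reveals a common letter of level `j`. -/
theorem c_reveal {J i j y : ℕ} (hi : i < P.N J) (h : P.c J i = (j, y)) :
    y < P.N j ∧ P.c j y = (j, y) ∧ ∃ B, i = B + y ∧ IsLet P J j B ∧
      (∀ x, x < P.N j → P.c J (B + x) = P.c j x) ∧
      ∃ σ : ℝ, (σ = 1 ∨ σ = -1) ∧ ∀ x, x < P.N j → P.ph J (B + x) = σ * P.ph j x := by
  induction J generalizing i with
  | zero =>
    have h0 : i = 0 := by
      have : P.N 0 = 1 := rfl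
      omega
    subst h0
    have h1 : P.c 0 0 = (0, 0) := rfl
    rw [h1] at h
    simp only [Prod.mk.injEq] at h
    obtain ⟨rfl, rfl⟩ := h
    exact ⟨hi, rfl, 0, rfl, IsLet.refl 0, fun x _ => by simp, 1, Or.inl rfl, fun x _ => by simp⟩
  | succ J ih =>
    rcases pos_cases hi with ⟨d, x, hd, hx, rfl⟩ | ⟨hn, -⟩
    · rw [c_start hx] at h
      split_ifs at h with h1
      · obtain ⟨h2, h3, B, h4, h5, h6, h7⟩ := ih hx h
        refine ⟨h2, h3, P.start J d + B, by omega, IsLet.step h5 hd, ?_, (IsLet.step h5 hd).ph⟩
        intro z hz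
        have hb := h5.bound
        rw [Nat.add_assoc, c_start (by omega), h6 z hz]
        by_cases hcd : d = P.ca J ∨ d = P.cb J
        · rw [if_pos]
          tauto
        · have h8 : (P.c J x).1 < J := by tauto
          rw [h] at h8
          have h9 := c_level_le hz
          rw [if_pos]
          right; right
          simp only at h8
          omega
      · simp only [Prod.mk.injEq] at h
        obtain ⟨rfl, rfl⟩ := h
        refine ⟨hi, ?_, 0, by simp, IsLet.refl _, fun x _ => by simp, 1, Or.inl rfl,
          fun x _ => by simp⟩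
        rw [c_start hx, if_neg h1]
    · have h1 := c_spacer hn
      rw [h1] at h
      simp only [Prod.mk.injEq] at h
      obtain ⟨rfl, rfl⟩ := h
      exact ⟨hi, h1, 0, by simp, IsLet.refl _, fun x _ => by simp, 1, Or.inl rfl,
          fun x _ => by simp⟩

/-- A native position of a letter of level `K` has a symbol revealing a common letter which
contains this letter. -/
theorem IsLet.reveal_native {J K B i : ℕ} (h : IsLet P J K B) (hi : i < P.N K)
    (hl : (P.c K i).1 = K) : ∃ j y B', K ≤ j ∧ P.c J (B + i) = (j, y) ∧ B + i = B' + y ∧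
      IsLet P J j B' ∧ B' ≤ B ∧ B + P.N K ≤ B' + P.N j := by
  induction h with
  | refl K =>
    exact ⟨K, i, 0, le_rfl, by rw [zero_add, c_native hi hl], rfl, IsLet.refl K, le_rfl, by simp⟩
  | @step J K B d h hd ih =>
    obtain ⟨j, y, B', h1, h2, h3, h4, h5, h6⟩ := ih hi hl
    have hb := h.bound
    by_cases hc : d = P.ca J ∨ d = P.cb J ∨ (P.c J (B + i)).1 < J
    · refine ⟨j, y, P.start J d + B', h1, ?_, by omega, IsLet.step h4 hd, by omega, by omega⟩
      rw [Nat.add_assoc, c_start (by omega), if_pos hc, h2]
    · refine ⟨J + 1, P.start J d + B + i, 0, ?_, ?_, by simp, IsLet.refl _, by omega, ?_⟩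
      · have := h.le
        omega
      · rw [Nat.add_assoc, c_start (by omega), if_neg hc]
      · have := (IsLet.step h hd).bound
        omega

/-- Every interval contains a symbol revealing a common letter which contains the interval. -/
theorem exists_reveal {J lo hi : ℕ} (h : lo ≤ hi) (hhi : hi < P.N J) :
    ∃ n j y B, lo ≤ n ∧ n ≤ hi ∧ P.c J n = (j, y) ∧ n = B + y ∧ B ≤ lo ∧ hi < B + P.N j := by
  induction J generalizing lo hi with
  | zero =>
    have h0 : P.N 0 = 1 := rfl
    have h1 : hi = 0 := by omega
    have h2 : lo = 0 := by omega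
    subst h1; subst h2
    exact ⟨0, 0, 0, 0, le_rfl, le_rfl, rfl, rfl, le_rfl, hhi⟩
  | succ J ih =>
    by_cases hnat : ∃ n, lo ≤ n ∧ n ≤ hi ∧ P.c (J + 1) n = (J + 1, n)
    · obtain ⟨n, h1, h2, h3⟩ := hnat
      exact ⟨n, J + 1, n, 0, h1, h2, h3, by simp, Nat.zero_le _, by simpa using hhi⟩
    · push Not at hnat
      -- all positions of the interval are in slots
      have hslot : ∀ n, lo ≤ n → n ≤ hi → ∃ d x, d < P.m J ∧ x < P.N J ∧ n = P.start J d + x := by
        intro n h1 h2
        rcases pos_cases (lt_of_le_of_lt h2 hhi) with h3 | ⟨h3, -⟩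
        · exact h3
        · exact absurd (c_spacer h3) (hnat n h1 h2)
      obtain ⟨d, x, hd, hx, hlo⟩ := hslot lo le_rfl h
      -- the whole interval is in slot d
      have hall : ∀ k, lo + k ≤ hi → x + k < P.N J := by
        intro k
        induction k with
        | zero => intro _; simpa using hx
        | succ k ihk =>
          intro hk
          have h4 := ihk (by omega)
          by_contra hcon
          have h5 : x + (k + 1) = P.N J := by omega
          obtain ⟨d', x', hd', hx', h6⟩ := hslot (lo + (k + 1)) (by omega) hk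
          have h7 : P.start J d + P.N J = P.start J d' + x' := by omega
          rcases lt_trichotomy d' d with h8 | h8 | h8
          · have h9 : P.start J d' + P.N J ≤ P.start J d := by
              obtain ⟨e, rfl⟩ : ∃ e, d = d' + 1 + e := ⟨d - d' - 1, by omega⟩
              clear h8 hlo h7 hd
              induction e with
              | zero =>
                rw [Nat.add_zero, start_succ]
                omega
              | succ e ihe =>
                rw [← Nat.add_assoc, start_succ]
                omega
            omega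
          · subst h8
            omega
          · have h9 : P.start J d + P.N J + 1 ≤ P.start J d' := by
              obtain ⟨e, rfl⟩ : ∃ e, d' = d + 1 + e := ⟨d' - d - 1, by omega⟩
              clear h8 hlo h7 hd' h6
              induction e with
              | zero =>
                rw [Nat.add_zero, start_succ]
                split_ifs <;> omega
              | succ e ihe =>
                rw [← Nat.add_assoc, start_succ]
                omega
            omega
      have hx2 : x + (hi - lo) < P.N J := hall (hi - lo) (by omega)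
      obtain ⟨n, j, y, B, h1, h2, h3, h4, h5, h6⟩ := ih (lo := x) (hi := x + (hi - lo))
        (by omega) hx2
      refine ⟨P.start J d + n, j, y, P.start J d + B, by omega, by omega, ?_, by omega, by omega,
        by omega⟩
      have h7 := hnat (P.start J d + n) (by omega) (by omega)
      rw [c_start (by omega)] at h7 ⊢
      split_ifs at h7 ⊢ with h8
      · exact h3
      · exact absurd rfl h7

/-- If all levels of the symbols of an interval are at most `K`, then this interval is contained
in a letter of level `K + 1`. -/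
theorem exists_isLet_of_level_le {J K lo hi : ℕ} (hJ : K < J) (h : lo ≤ hi) (hhi : hi < P.N J)
    (hl : ∀ i, lo ≤ i → i ≤ hi → (P.c J i).1 ≤ K) :
    ∃ B, IsLet P J (K + 1) B ∧ B ≤ lo ∧ hi < B + P.N (K + 1) := by
  induction J generalizing lo hi with
  | zero => omega
  | succ J ih =>
    rcases Nat.eq_or_lt_of_le (Nat.le_of_lt_succ hJ) with h0 | h0
    · subst h0
      exact ⟨0, IsLet.refl _, Nat.zero_le _, by simpa using hhi⟩
    · obtain ⟨n, j, y, B, h1, h2, h3, h4, h5, h6⟩ := exists_reveal h hhi
      have h7 := hl n h1 h2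
      rw [h3] at h7
      simp only at h7
      -- all positions are in the same slot
      obtain ⟨h8, h9, B2, h10, h11, h12, -⟩ := c_reveal (by omega) h3
      have hBB : B2 = B := by omega
      subst hBB
      cases h11 with
      | refl => omega
      | @step J K' B3 d h13 h14 =>
        have hb := h13.bound
        obtain ⟨B', h15, h16, h17⟩ := ih (lo := lo - P.start J d) (hi := hi - P.start J d) h0
          (by omega) (by omega) (by
            intro i hi1 hi2
            have h18 := hl (P.start J d + i) (by omega) (by omega)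
            rw [c_start (by omega)] at h18
            split_ifs at h18 with h19
            · exact h18
            · simp only at h18
              omega)
        exact ⟨P.start J d + B', IsLet.step h15 h14, by omega, by omega⟩


theorem isLet_first {J K : ℕ} (h : K ≤ J) : IsLet P J K 0 := by
  induction J with
  | zero =>
    have : K = 0 := by omega
    subst this
    exact IsLet.refl 0
  | succ J ih =>
    rcases Nat.eq_or_lt_of_le h with h0 | h0
    · subst h0
      exact IsLet.refl _
    · have := IsLet.step (d := 0) (ih (by omega)) (by have := m_ge (P := P) J; omega)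
      simpa [start_zero] using this

theorem N_mono {J K : ℕ} (h : K ≤ J) : P.N K ≤ P.N J := N_strictMono.monotone h

theorem isLet_last {J K : ℕ} (h : K ≤ J) : IsLet P J K (P.N J - P.N K) := by
  induction J with
  | zero =>
    have : K = 0 := by omega
    subst this
    simpa using IsLet.refl 0
  | succ J ih =>
    rcases Nat.eq_or_lt_of_le h with h0 | h0
    · subst h0
      simpa using IsLet.refl _
    · have h1 := m_ge (P := P) J
      have h2 := IsLet.step (d := P.m J - 1) (ih (by omega)) (by omega)
      have h3 := start_last (P := P) J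
      have h4 : P.N K ≤ P.N J := N_mono (by omega)
      have h5 : P.start J (P.m J - 1) + (P.N J - P.N K) = P.N (J + 1) - P.N K := by omega
      rwa [h5] at h2

/-- Native positions of the first letter of level `K` in a letter of level `J` are native. -/
theorem first_native {J K i : ℕ} (h : K ≤ J) (hi : i < P.N K) (hl : (P.c K i).1 = K) :
    P.c J i = (J, i) := by
  induction J with
  | zero =>
    have : K = 0 := by omega
    subst this
    exact c_native hi hl
  | succ J ih =>
    rcases Nat.eq_or_lt_of_le h with h0 | h0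
    · subst h0
      exact c_native hi hl
    · have h1 := ih (by omega)
      have h2 : P.N K ≤ P.N J := N_mono (by omega)
      have h3 : i < P.N J := by omega
      have h4 := c_start (P := P) (k := J) (d := 0) h3
      rw [start_zero, zero_add, if_neg] at h4
      · exact h4
      · rw [h1]
        have := P.hca J
        have := P.hcab J
        simp only
        omega

/-- Native positions of the last letter of level `K` in a letter of level `J` are native. -/
theorem last_native {J K i : ℕ} (h : K ≤ J) (hi : i < P.N K) (hl : (P.c K i).1 = K) :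
    P.c J (P.N J - P.N K + i) = (J, P.N J - P.N K + i) := by
  induction J with
  | zero =>
    have : K = 0 := by omega
    subst this
    have := c_native hi hl
    simpa using this
  | succ J ih =>
    rcases Nat.eq_or_lt_of_le h with h0 | h0
    · subst h0
      have := c_native hi hl
      simpa using this
    · have h1 := ih (by omega)
      have h2 : P.N K ≤ P.N J := N_mono (by omega)
      have h3 : P.N J - P.N K + i < P.N J := by omega
      have h4 := c_start (P := P) (k := J) (d := P.m J - 1) h3
      have h5 := start_last (P := P) J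
      have h6 : P.start J (P.m J - 1) + (P.N J - P.N K + i) = P.N (J + 1) - P.N K + i := by omega
      rw [h6, if_neg] at h4
      · exact h4
      · rw [h1]
        have := P.hcab J
        have := P.hcb J
        simp only
        omega

theorem start_le_of_lt {k d d' : ℕ} (h : d < d') : P.start k d + P.N k + 1 ≤ P.start k d' := by
  obtain ⟨e, rfl⟩ : ∃ e, d' = d + 1 + e := ⟨d' - d - 1, by omega⟩
  clear h
  induction e with
  | zero =>
    rw [Nat.add_zero, start_succ]
    split_ifs <;> omega
  | succ e ihe =>
    rw [← Nat.add_assoc, start_succ]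
    omega

/-- Every position of a letter of level `J` is in a letter of level `K`, or in one of the at most
two spacers after it. -/
theorem IsLet.exists_near {J K i : ℕ} (hK : K ≤ J) (hi : i < P.N J) :
    ∃ B, IsLet P J K B ∧ B ≤ i ∧ i ≤ B + P.N K + 1 := by
  induction J generalizing i with
  | zero =>
    have : K = 0 := by omega
    subst this
    exact ⟨0, IsLet.refl 0, Nat.zero_le _, by omega⟩
  | succ J ih =>
    rcases Nat.eq_or_lt_of_le hK with h0 | h0
    · subst h0
      exact ⟨0, IsLet.refl _, Nat.zero_le _, by omega⟩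
    · rcases pos_cases hi with ⟨d, x, hd, hx, rfl⟩ | ⟨-, d, g, h1, h2, h3⟩
      · obtain ⟨B, h1, h2, h3⟩ := ih (by omega) hx
        exact ⟨P.start J d + B, IsLet.step h1 hd, by omega, by omega⟩
      · have h4 := isLet_last (P := P) (J := J) (K := K) (by omega)
        have h5 : P.N K ≤ P.N J := N_mono (by omega)
        rw [start_succ] at h3
        refine ⟨P.start J d + (P.N J - P.N K), IsLet.step h4 (by omega), by omega, ?_⟩
        split_ifs at h3 <;> omega

/-- The next letter. The symbols in the gap have level larger than `K`. -/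
theorem IsLet.next {J K B : ℕ} (h : IsLet P J K B) : B + P.N K = P.N J ∨
    ∃ g, (g = 1 ∨ g = 2) ∧ IsLet P J K (B + P.N K + g) ∧
      ∀ i, B + P.N K ≤ i → i < B + P.N K + g → K < (P.c J i).1 := by
  induction h with
  | refl K => left; omega
  | @step J K B d h hd ih =>
    rcases ih with h1 | ⟨g, h1, h2, h3⟩
    · rcases Nat.eq_or_lt_of_le (Nat.le_sub_one_of_lt hd) with h4 | h4
      · left
        rw [h4]
        have := start_last (P := P) J
        omega
      · right
        have h5 := start_succ (P := P) J d
        have h6 : d + 1 < P.m J := by omega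
        refine ⟨if d = 0 then 2 else 1, ?_, ?_, ?_⟩
        · split_ifs <;> simp
        · have h7 := IsLet.step (isLet_first (P := P) h.le) h6
          have h8 : P.start J (d + 1) + 0 = P.start J d + B + P.N K + (if d = 0 then 2 else 1) := by
            omega
          rwa [h8] at h7
        · intro i hi1 hi2
          have h9 := start_add_lt (P := P) h6 (N_pos J)
          rcases pos_cases (P := P) (k := J) (i := i) (by omega) with
            ⟨d', x, hd', hx, hi3⟩ | ⟨hn, -⟩
          · exfalso
            rcases lt_trichotomy d' d with h10 | h10 | h10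
            · have := start_le_of_lt (P := P) (k := J) h10
              omega
            · subst h10
              omega
            · rcases Nat.eq_or_lt_of_le (Nat.succ_le_of_lt h10) with h11 | h11
              · rw [Nat.succ_eq_add_one] at h11
                rw [← h11] at hi3
                omega
              · have := start_le_of_lt (P := P) (k := J) h11
                rw [Nat.succ_eq_add_one] at this
                omega
          · rw [c_spacer hn]
            have := h.le
            simp only
            omega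
    · right
      refine ⟨g, h1, ?_, ?_⟩
      · have := IsLet.step h2 hd
        have h4 : P.start J d + (B + P.N K + g) = P.start J d + B + P.N K + g := by ring
        rwa [h4] at this
      · intro i hi1 hi2
        obtain ⟨x, rfl⟩ : ∃ x, i = P.start J d + x := ⟨i - P.start J d, by omega⟩
        have h4 := h3 x (by omega) (by omega)
        have h5 := h2.bound
        rw [c_start (by omega)]
        split_ifs
        · exact h4
        · have := h.le
          simp only
          omega


theorem card_nonnative_succ (K : ℕ) :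
    ((Finset.range (P.N (K + 1))).filter (fun i => (P.c (K + 1) i).1 < K + 1)).card ≤
      2 * P.N K + P.m K * ((Finset.range (P.N K)).filter (fun i => (P.c K i).1 < K)).card := by
  classical
  have hsub : (Finset.range (P.N (K + 1))).filter (fun i => (P.c (K + 1) i).1 < K + 1) ⊆
      ((({P.ca K, P.cb K} : Finset ℕ) ×ˢ Finset.range (P.N K)) ∪
        (Finset.range (P.m K) ×ˢ (Finset.range (P.N K)).filter (fun i => (P.c K i).1 < K))).image
        (fun q => P.start K q.1 + q.2) := by
    intro i hi
    rw [Finset.mem_filter, Finset.mem_range] at hi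
    obtain ⟨h1, h2⟩ := hi
    rcases pos_cases h1 with ⟨d, x, hd, hx, rfl⟩ | ⟨hn, -⟩
    · rw [Finset.mem_image]
      refine ⟨(d, x), ?_, rfl⟩
      rw [c_start hx] at h2
      split_ifs at h2 with h3
      · rw [Finset.mem_union, Finset.mem_product, Finset.mem_product, Finset.mem_filter]
        simp only [Finset.mem_insert, Finset.mem_singleton, Finset.mem_range]
        tauto
      · exact absurd h2 (lt_irrefl _)
    · rw [c_spacer hn] at h2
      exact absurd h2 (lt_irrefl _)
  calc _ ≤ _ := Finset.card_le_card hsub
    _ ≤ _ := Finset.card_image_le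
    _ ≤ _ := Finset.card_union_le _ _
    _ ≤ _ := by
      rw [Finset.card_product, Finset.card_product, Finset.card_range, Finset.card_range]
      have : ({P.ca K, P.cb K} : Finset ℕ).card ≤ 2 := Finset.card_le_two
      exact Nat.add_le_add_right (Nat.mul_le_mul_right _ this) _

theorem card_nonnative_aux (K : ℕ) :
    375 * 4 ^ K * ((Finset.range (P.N K)).filter (fun i => (P.c K i).1 < K)).card + P.N K ≤
      4 ^ K * P.N K := by
  induction K with
  | zero => simp
  | succ K ih =>
    have h1 := card_nonnative_succ (P := P) K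
    set A := ((Finset.range (P.N (K + 1))).filter (fun i => (P.c (K + 1) i).1 < K + 1)).card
    set B := ((Finset.range (P.N K)).filter (fun i => (P.c K i).1 < K)).card
    have h2 := P.hm K
    have h3 := N_succ (P := P) K
    have h4 := N_pos (P := P) K
    rw [h3]
    set n := P.N K
    set m := P.m K
    set q := 4 ^ K with hq
    have hq1 : 1 ≤ q := Nat.one_le_pow _ _ (by norm_num)
    rw [pow_succ, ← hq]
    have h5 : 375 * (q * 4) * A ≤ 375 * (q * 4) * (2 * n + m * B) := Nat.mul_le_mul_left _ h1
    have h6 : m * (375 * q * B + n) ≤ m * (q * n) := Nat.mul_le_mul_left _ ih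
    have h7 : 1000 * q * (3 * n) ≤ m * (3 * n) := Nat.mul_le_mul_right _ h2
    have h8 : m * 1 ≤ m * q := Nat.mul_le_mul_left _ hq1
    zify at *
    nlinarith

/-- Number of non native positions of a letter. -/
theorem card_nonnative_le (K : ℕ) :
    100 * ((Finset.range (P.N K)).filter (fun i => (P.c K i).1 < K)).card ≤ P.N K := by
  have h1 := card_nonnative_aux (P := P) K
  set B := ((Finset.range (P.N K)).filter (fun i => (P.c K i).1 < K)).card
  have hq1 : 0 < 4 ^ K := by positivity
  have h2 : 4 ^ K * (375 * B) ≤ 4 ^ K * P.N K := by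
    have : 4 ^ K * (375 * B) = 375 * 4 ^ K * B := by ring
    omega
  have h3 := Nat.le_of_mul_le_mul_left h2 hq1
  omega

/-! ### Points -/

namespace Pt

/-- Windows in common letters of arbitrarily large level. -/
theorem exists_occ (p : Pt P) (t J₀ : ℕ) : ∃ (J : ℕ) (β : ℤ) (σ : ℝ), J₀ ≤ J ∧
    (σ = 1 ∨ σ = -1) ∧ β ≤ -t ∧ (t : ℤ) < β + P.N J ∧ Occ P p.x p.s J β σ := by
  obtain ⟨J, β, σ, hσ, h1, h2, h3⟩ := p.mem (t + P.N J₀)
  refine ⟨J, β, σ, ?_, hσ, by push_cast at h1; omega, by push_cast at h2; omega, h3⟩
  by_contra hcon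
  have h4 : P.N J < P.N J₀ := N_strictMono (by omega)
  push_cast at h1 h2
  omega

/-- An occurrence of a common letter inside an occurrence of a larger common letter is one of the
letters of the larger one. -/
theorem isLet_of_occ {x : ℤ → ℕ × ℕ} {s : ℤ → ℝ} {J J' : ℕ} {β β' : ℤ} {σ σ' : ℝ}
    (h : Occ P x s J β σ) (h' : Occ P x s J' β' σ')
    (h1 : β' ≤ β) (h2 : β + P.N J ≤ β' + P.N J') :
    ∃ B : ℕ, β = β' + B ∧ IsLet P J' J B := by
  obtain ⟨i, hi, hc⟩ := exists_native (P := P) J
  obtain ⟨B, hB⟩ : ∃ B : ℕ, β = β' + B := ⟨(β - β').toNat, by omega⟩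
  have h3 := (h i hi).1
  have h4 := (h' (B + i) (by omega)).1
  have h5 : β' + ((B + i : ℕ) : ℤ) = β + i := by push_cast; omega
  rw [h5, h3, hc] at h4
  obtain ⟨-, -, B2, h6, h7, -⟩ := c_reveal (P := P) (J := J') (i := B + i) (by omega) h4.symm
  have h8 : B2 = B := by omega
  exact ⟨B, hB, h8 ▸ h7⟩

/-- A symbol `(j, y)` of a point reveals a common letter of level `j`. -/
theorem reveal (p : Pt P) {n : ℤ} {j y : ℕ} (h : p.x n = (j, y)) :
    y < P.N j ∧ P.c j y = (j, y) ∧
      ∃ σ : ℝ, (σ = 1 ∨ σ = -1) ∧ Occ P p.x p.s j (n - y) σ := by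
  obtain ⟨J, β, σ, -, hσ, h1, h2, h3⟩ := p.exists_occ n.natAbs 0
  obtain ⟨i, hi⟩ : ∃ i : ℕ, n = β + i := ⟨(n - β).toNat, by omega⟩
  have hiN : i < P.N J := by omega
  have h4 := (h3 i hiN).1
  rw [← hi, h] at h4
  obtain ⟨h5, h6, B, h7, h8, h9, σ', h10, h11⟩ := c_reveal hiN h4.symm
  refine ⟨h5, h6, σ * σ', ?_, ?_⟩
  · rcases hσ with rfl | rfl <;> rcases h10 with rfl | rfl <;> norm_num
  · intro z hz
    have hb := h8.bound
    obtain ⟨h12, h13⟩ := h3 (B + z) (by omega)
    have h14 : β + ((B + z : ℕ) : ℤ) = n - y + z := by push_cast; omega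
    rw [h14] at h12 h13
    refine ⟨by rw [h12, h9 z hz], by rw [h13, h11 z hz, mul_assoc]⟩

/-- `LetAt` can be read off any sufficiently large common letter. -/
theorem LetAt.isLet {p : Pt P} {K : ℕ} {b : ℤ} (h : LetAt K p b) : ∃ t : ℕ,
    ∀ (J : ℕ) (β : ℤ) (σ : ℝ), β ≤ -t → (t : ℤ) < β + P.N J → Occ P p.x p.s J β σ →
      ∃ B : ℕ, b = β + B ∧ IsLet P J K B := by
  obtain ⟨J, β, σ, B, hσ, h1, h2, h3⟩ := h
  refine ⟨β.natAbs + (β + P.N J).natAbs, ?_⟩
  intro J' β' σ' h4 h5 h6
  obtain ⟨B', h7, h8⟩ := isLet_of_occ h1 h6 (by omega) (by omega)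
  exact ⟨B' + B, by push_cast; omega, h8.trans h2⟩

theorem s_sq (p : Pt P) (n : ℤ) : p.s n * p.s n = 1 := by
  rcases hx : p.x n with ⟨j, y⟩
  obtain ⟨h1, -, σ, hσ, h2⟩ := p.reveal hx
  have h3 := (h2 y h1).2
  have h4 : n - y + y = n := by ring
  rw [h4] at h3
  rw [h3]
  rcases hσ with rfl | rfl <;> rcases ph_eq (P := P) j y with h5 | h5 <;> rw [h5] <;> norm_num

/-- A symbol revealing a common letter which contains `[-t, t]` is good. -/
theorem good_of_reveal (p : Pt P) {n : ℤ} {j y t : ℕ} (h : p.x n = (j, y))
    (h1 : n - y ≤ -t) (h2 : (t : ℤ) < n - y + P.N j) : Good t p n := by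
  intro q hq
  rw [h] at hq
  obtain ⟨h3, -, σ, hσ, h4⟩ := p.reveal h
  obtain ⟨-, -, σ', hσ', h5⟩ := q.reveal hq
  constructor
  · intro i hi1 hi2
    obtain ⟨z, hz⟩ : ∃ z : ℕ, i = n - y + z := ⟨(i - (n - y)).toNat, by omega⟩
    have hzN : z < P.N j := by omega
    rw [hz, (h4 z hzN).1, (h5 z hzN).1]
  · obtain ⟨z, hz⟩ : ∃ z : ℕ, 0 = n - y + z := ⟨(0 - (n - y)).toNat, by omega⟩
    have hzN : z < P.N j := by omega
    have h6 := (h4 z hzN).2
    have h7 := (h5 z hzN).2
    rw [← hz] at h6 h7
    have h8 := (h4 y h3).2
    have h9 := (h5 y h3).2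
    have h10 : n - y + y = n := by ring
    rw [h10] at h8 h9
    rw [h6, h7, h8, h9]
    rcases hσ with rfl | rfl <;> rcases hσ' with rfl | rfl <;> ring


/-- Starting positions of the nested common letters extending a given one. -/
def xt (P : Params) (J : ℕ) (β : ℤ) : ℕ → ℤ
  | 0 => β
  | n + 1 => xt P J β n - P.start (J + n) (P.ca (J + n))

theorem ca_lt (k : ℕ) : P.ca k < P.m k := by
  have := P.hcab k
  have := P.hcb k
  omega

theorem cb_lt (k : ℕ) : P.cb k < P.m k := by
  have := P.hcb k
  omega

theorem C_ca {k x : ℕ} (hx : x < P.N k) : P.c (k + 1) (P.start k (P.ca k) + x) = P.c k x ∧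
    P.ph (k + 1) (P.start k (P.ca k) + x) = P.ph k x := by
  constructor
  · rw [c_start hx, if_pos (Or.inl rfl)]
  · rw [ph_start hx, P.hτa, one_mul]

theorem C_cb {k x : ℕ} (hx : x < P.N k) : P.c (k + 1) (P.start k (P.cb k) + x) = P.c k x ∧
    P.ph (k + 1) (P.start k (P.cb k) + x) = - P.ph k x := by
  constructor
  · rw [c_start hx, if_pos (Or.inr (Or.inl rfl))]
  · rw [ph_start hx, P.hτb, neg_one_mul]

theorem xt_le (J : ℕ) (β : ℤ) (n : ℕ) : xt P J β n ≤ β - n := by
  induction n with
  | zero => simp [xt]
  | succ n ih =>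
    have h1 : 1 ≤ P.start (J + n) (P.ca (J + n)) := by
      have := P.hca (J + n)
      rw [start_pos (by omega)]
      omega
    change xt P J β n - P.start (J + n) (P.ca (J + n)) ≤ _
    push_cast
    omega

theorem le_xt (J : ℕ) (β : ℤ) (n : ℕ) : β + P.N J + n ≤ xt P J β n + P.N (J + n) := by
  induction n with
  | zero => simp [xt]
  | succ n ih =>
    have h1 : P.start (J + n) (P.ca (J + n)) + P.N (J + n) + 1 ≤ P.N (J + n + 1) := by
      have h2 := P.hcab (J + n)
      have h3 := cb_lt (P := P) (J + n)
      have h4 := start_le_of_lt (P := P) (k := J + n) (d := P.ca (J + n)) (d' := P.cb (J + n))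
        (by omega)
      have h5 := start_add_lt (P := P) h3 (N_pos (J + n))
      omega
    change _ ≤ xt P J β n - P.start (J + n) (P.ca (J + n)) + P.N (J + n + 1)
    push_cast
    omega

theorem xt_consistent (J : ℕ) (β : ℤ) (n k : ℕ) (x : ℕ) (hx : x < P.N (J + n)) :
    ∃ z : ℕ, xt P J β n + x = xt P J β (n + k) + z ∧ z < P.N (J + (n + k)) ∧
      P.c (J + (n + k)) z = P.c (J + n) x ∧ P.ph (J + (n + k)) z = P.ph (J + n) x := by
  induction k with
  | zero => exact ⟨x, rfl, hx, rfl, rfl⟩
  | succ k ih =>
    obtain ⟨z, h1, h2, h3, h4⟩ := ih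
    obtain ⟨h5, h6⟩ := C_ca h2
    refine ⟨P.start (J + (n + k)) (P.ca (J + (n + k))) + z, ?_, start_add_lt (ca_lt _) h2, ?_, ?_⟩
    · change _ = xt P J β (n + k) - P.start (J + (n + k)) (P.ca (J + (n + k))) + _
      rw [h1]
      push_cast
      ring
    · exact h5.trans h3
    · exact h6.trans h4

theorem xt_consistent' (J : ℕ) (β : ℤ) (n k : ℕ) (i : ℤ) (h1 : xt P J β n ≤ i)
    (h2 : i < xt P J β n + P.N (J + n)) (h3 : xt P J β k ≤ i)
    (h4 : i < xt P J β k + P.N (J + k)) :
    P.C (J + n) (i - xt P J β n).toNat = P.C (J + k) (i - xt P J β k).toNat := by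
  wlog hnk : n ≤ k generalizing n k
  · exact (this k n h3 h4 h1 h2 (by omega)).symm
  obtain ⟨l, rfl⟩ : ∃ l, k = n + l := ⟨k - n, by omega⟩
  obtain ⟨z, h5, h6, h7, h8⟩ := xt_consistent (P := P) J β n l (i - xt P J β n).toNat (by omega)
  have h9 : z = (i - xt P J β (n + l)).toNat := by omega
  rw [← h9]
  exact Prod.ext h7.symm h8.symm

/-- A common letter can be extended to a point. -/
theorem exists_extend (J : ℕ) (β : ℤ) : ∃ p : Pt P, Occ P p.x p.s J β 1 := by
  have hcov : ∀ (i : ℤ) (k : ℕ), i.natAbs + β.natAbs ≤ k →
      xt P J β k ≤ i ∧ i < xt P J β k + P.N (J + k) := by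
    intro i k hk
    have h1 := xt_le (P := P) J β k
    have h2 := le_xt (P := P) J β k
    have h3 := N_pos (P := P) J
    constructor <;> omega
  let K : ℤ → ℕ := fun i => i.natAbs + β.natAbs
  have hocc : ∀ n : ℕ, Occ P (fun i => P.c (J + K i) (i - xt P J β (K i)).toNat)
      (fun i => P.ph (J + K i) (i - xt P J β (K i)).toNat) (J + n) (xt P J β n) 1 := by
    intro n i hi
    obtain ⟨h1, h2⟩ := hcov (xt P J β n + i) (K (xt P J β n + i)) le_rfl
    have h3 := xt_consistent' (P := P) J β (K (xt P J β n + i)) n (xt P J β n + i) h1 h2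
      (by omega) (by omega)
    have h4 : (xt P J β n + i - xt P J β n).toNat = i := by omega
    rw [h4] at h3
    constructor
    · exact congrArg Prod.fst h3
    · rw [one_mul]
      exact congrArg Prod.snd h3
  refine ⟨⟨_, _, ?_⟩, hocc 0⟩
  intro t
  obtain ⟨h1, h2⟩ := hcov (t : ℤ) (t + β.natAbs) (by omega)
  obtain ⟨h3, h4⟩ := hcov (-t : ℤ) (t + β.natAbs) (by omega)
  exact ⟨J + (t + β.natAbs), xt P J β (t + β.natAbs), 1, Or.inl rfl, h3, h2, hocc _⟩

end Pt

end Pool.Agent.URec
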