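import Pool.Agent.URec.Space
import Pool.Agent.URec.Letters

/-!
# Masses (module Mass)
-/

open Filter Topology

namespace Pool.Agent.URec

namespace Tower

variable {T : Tower} {w : ℕ → ℝ} {hw : Wt w}

theorem isTest_zero (t : ℕ) : T.IsTest t (0 : T.Q → ℝ) := ⟨fun _ _ _ => rfl, fun q => by simp⟩

theorem TB_zero : T.TB (0 : T.Q → ℝ) := ⟨0, 0, isTest_zero 0, fun q => by simp⟩

theorem pr_neg {φ : T.Q → ℝ} (h : T.TB φ) {y : T.F} (hy : y ∈ T.X w hw) :
    T.pr w (-φ) y = - T.pr w φ y := by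
  have h1 := pr_smul (w := w) (hw := hw) (-1) h hy
  rw [neg_smul, one_smul] at h1
  rw [h1]; ring

/-- The set whose supremum is the mass. -/
def massSet (w : ℕ → ℝ) (y : T.F) (E : Set T.Q) : Set ℝ :=
  {r | ∃ φ, T.TB φ ∧ (∀ q, |φ q| ≤ 1) ∧ (∀ q, q ∉ E → φ q = 0) ∧ r = T.pr w φ y}

theorem mass_eq (y : T.F) (E : Set T.Q) : T.mass w y E = sSup (massSet w y E) := rfl

theorem massSet_nonempty (y : T.F) (E : Set T.Q) : (massSet w y E).Nonempty :=
  ⟨_, 0, TB_zero, fun q => by simp, fun q _ => rfl, rfl⟩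

theorem massSet_bdd {y : T.F} (hf : T.FTV w y) (E : Set T.Q) : BddAbove (massSet w y E) := by
  obtain ⟨R, hR⟩ := hf
  refine ⟨R, ?_⟩
  rintro r ⟨φ, h1, h2, -, rfl⟩
  exact (abs_le.mp (hR φ h1 h2)).2

/-- The set whose supremum is the mass at a scale. -/
def massAtSet (w : ℕ → ℝ) (y : T.F) (s : ℕ) : Set ℝ :=
  {r | ∃ φ, T.IsTest s φ ∧ (∀ q, |φ q| ≤ 1) ∧ r = T.pr w φ y}

theorem massAt_eq (y : T.F) (s : ℕ) : T.massAt w y s = sSup (massAtSet w y s) := rfl

theorem massAtSet_nonempty (y : T.F) (s : ℕ) : (massAtSet w y s).Nonempty :=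
  ⟨_, 0, isTest_zero s, fun q => by simp, rfl⟩

theorem massAtSet_bdd {y : T.F} (hf : T.FTV w y) (s : ℕ) : BddAbove (massAtSet w y s) := by
  obtain ⟨R, hR⟩ := hf
  refine ⟨R, ?_⟩
  rintro r ⟨φ, h1, h2, rfl⟩
  exact (abs_le.mp (hR φ ⟨s, 1, h1, h2⟩ h2)).2

theorem mass_nonneg {y : T.F} (hy : y ∈ T.X w hw) (E : Set T.Q) : 0 ≤ T.mass w y E := by
  by_cases h : BddAbove (massSet w y E)
  · exact le_csSup h ⟨0, TB_zero, fun q => by simp, fun q _ => rfl, (pr_zero hy).symm⟩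
  · rw [mass_eq, Real.sSup_of_not_bddAbove h]

theorem massAt_nonneg {y : T.F} (hy : y ∈ T.X w hw) (s : ℕ) : 0 ≤ T.massAt w y s := by
  by_cases h : BddAbove (massAtSet w y s)
  · exact le_csSup h ⟨0, isTest_zero s, fun q => by simp, (pr_zero hy).symm⟩
  · rw [massAt_eq, Real.sSup_of_not_bddAbove h]

theorem le_mass' {y : T.F} (hf : T.FTV w y) {φ : T.Q → ℝ} (h : T.TB φ) (h1 : ∀ q, |φ q| ≤ 1)
    {E : Set T.Q} (hE : ∀ q, q ∉ E → φ q = 0) : T.pr w φ y ≤ T.mass w y E :=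
  le_csSup (massSet_bdd hf E) ⟨φ, h, h1, hE, rfl⟩

theorem le_massAt' {y : T.F} (hf : T.FTV w y) {s : ℕ} {φ : T.Q → ℝ} (h : T.IsTest s φ)
    (h1 : ∀ q, |φ q| ≤ 1) : T.pr w φ y ≤ T.massAt w y s :=
  le_csSup (massAtSet_bdd hf s) ⟨φ, h, h1, rfl⟩

theorem le_mass {y : T.F} (hf : T.FTV w y) {φ : T.Q → ℝ} (h : T.TB φ) (h1 : ∀ q, |φ q| ≤ 1)
    {E : Set T.Q} (hE : ∀ q, q ∉ E → φ q = 0) (hy : y ∈ T.X w hw) :
    |T.pr w φ y| ≤ T.mass w y E := by
  rw [abs_le']
  refine ⟨le_mass' hf h h1 hE, ?_⟩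
  rw [← pr_neg h hy]
  exact le_mass' hf h.neg (fun q => by simpa using h1 q) fun q hq => by simp [hE q hq]

theorem IsTest.neg {s : ℕ} {φ : T.Q → ℝ} (h : T.IsTest s φ) : T.IsTest s (-φ) := by
  have := h.smul (-1)
  rwa [neg_smul, one_smul] at this

theorem le_massAt {y : T.F} (hf : T.FTV w y) {s : ℕ} {φ : T.Q → ℝ} (h : T.IsTest s φ)
    (h1 : ∀ q, |φ q| ≤ 1) (hy : y ∈ T.X w hw) : |T.pr w φ y| ≤ T.massAt w y s := by
  rw [abs_le']
  refine ⟨le_massAt' hf h h1, ?_⟩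
  rw [← pr_neg (TB.of_isTest h h1) hy]
  exact le_massAt' hf h.neg (fun q => by simpa using h1 q)

theorem mass_le {y : T.F} {E : Set T.Q} {C : ℝ}
    (h : ∀ φ, T.TB φ → (∀ q, |φ q| ≤ 1) → (∀ q, q ∉ E → φ q = 0) → T.pr w φ y ≤ C) :
    T.mass w y E ≤ C := by
  refine csSup_le (massSet_nonempty y E) ?_
  rintro r ⟨φ, h1, h2, h3, rfl⟩
  exact h φ h1 h2 h3

theorem massAt_le {y : T.F} {s : ℕ} {C : ℝ}
    (h : ∀ φ, T.IsTest s φ → (∀ q, |φ q| ≤ 1) → T.pr w φ y ≤ C) : T.massAt w y s ≤ C := by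
  refine csSup_le (massAtSet_nonempty y s) ?_
  rintro r ⟨φ, h1, h2, rfl⟩
  exact h φ h1 h2

theorem mass_mono {y : T.F} (hf : T.FTV w y) {E E' : Set T.Q} (h : E ⊆ E') :
    T.mass w y E ≤ T.mass w y E' :=
  mass_le fun _ h1 h2 h3 => le_mass' hf h1 h2 fun q hq => h3 q fun hq' => hq (h hq')

theorem massAt_mono {y : T.F} (hf : T.FTV w y) {s t : ℕ} (h : s ≤ t) :
    T.massAt w y s ≤ T.massAt w y t :=
  massAt_le fun _ h1 h2 => le_massAt' hf (h1.mono h) h2

theorem massAt_le_mass {y : T.F} (hf : T.FTV w y) (s : ℕ) :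
    T.massAt w y s ≤ T.mass w y Set.univ :=
  massAt_le fun _ h1 h2 => le_mass' hf (TB.of_isTest h1 h2) h2 fun q hq => absurd (Set.mem_univ q) hq

theorem exists_massAt {y : T.F} (hf : T.FTV w y) {δ : ℝ} (hδ : 0 < δ) :
    ∃ s, T.mass w y Set.univ ≤ T.massAt w y s + δ := by
  have h1 : T.mass w y Set.univ - δ < sSup (massSet w y Set.univ) := by
    rw [← mass_eq]; linarith
  obtain ⟨r, ⟨φ, ⟨t, C, ht, hC⟩, h2, -, rfl⟩, hr⟩ := exists_lt_of_lt_csSup (massSet_nonempty y _) h1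
  exact ⟨t, by linarith [le_massAt' hf ht h2]⟩

/-- Superadditivity on disjoint sets. -/
theorem mass_add_mass_le {y : T.F} (hy : y ∈ T.X w hw) (hf : T.FTV w y) {E E' : Set T.Q}
    (h : Disjoint E E') : T.mass w y E + T.mass w y E' ≤ T.mass w y (E ∪ E') := by
  have key : T.mass w y E ≤ T.mass w y (E ∪ E') - T.mass w y E' := by
    refine mass_le fun φ h1 h2 h3 => ?_
    have key2 : T.mass w y E' ≤ T.mass w y (E ∪ E') - T.pr w φ y := by
      refine mass_le fun ψ g1 g2 g3 => ?_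
      have h4 : T.pr w (φ + ψ) y ≤ T.mass w y (E ∪ E') := by
        refine le_mass' hf (h1.add g1) (fun q => ?_) (fun q hq => ?_)
        · by_cases hq : q ∈ E
          · have : q ∉ E' := fun hq' => Set.disjoint_left.mp h hq hq'
            rw [Pi.add_apply, g3 q this, add_zero]; exact h2 q
          · rw [Pi.add_apply, h3 q hq, zero_add]; exact g2 q
        · rw [Set.mem_union, not_or] at hq
          rw [Pi.add_apply, h3 q hq.1, g3 q hq.2, add_zero]
      rw [pr_add h1 g1 hy] at h4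
      linarith
    linarith
  linarith

theorem sum_mass_le' {y : T.F} (hy : y ∈ T.X w hw) (hf : T.FTV w y) {ι : Type} (s : Finset ι)
    (E : ι → Set T.Q) (h : ∀ i ∈ s, ∀ j ∈ s, i ≠ j → Disjoint (E i) (E j)) :
    ∑ i ∈ s, T.mass w y (E i) ≤ T.mass w y (⋃ i ∈ s, E i) := by
  classical
  induction s using Finset.induction_on with
  | empty => simpa using mass_nonneg hy _
  | insert a s ha ih =>
    rw [Finset.sum_insert ha]
    have h1 := ih fun i hi j hj hij => h i (Finset.mem_insert_of_mem hi) j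
      (Finset.mem_insert_of_mem hj) hij
    have h2 : Disjoint (E a) (⋃ i ∈ s, E i) := by
      rw [Set.disjoint_iUnion₂_right]
      intro i hi
      exact h a (Finset.mem_insert_self _ _) i (Finset.mem_insert_of_mem hi)
        (fun hc => ha (hc ▸ hi))
    have h3 := mass_add_mass_le hy hf h2
    have h4 : (⋃ i ∈ insert a s, E i) = E a ∪ ⋃ i ∈ s, E i := by
      rw [Finset.set_biUnion_insert]
    rw [h4]
    linarith

theorem sum_mass_le {y : T.F} (hy : y ∈ T.X w hw) (hf : T.FTV w y) {ι : Type} (s : Finset ι)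
    (E : ι → Set T.Q) (h : ∀ i ∈ s, ∀ j ∈ s, i ≠ j → Disjoint (E i) (E j)) :
    ∑ i ∈ s, T.mass w y (E i) ≤ T.mass w y Set.univ :=
  (sum_mass_le' hy hf s E h).trans (mass_mono hf (Set.subset_univ _))

theorem FTV.add {y z : T.F} (h : T.FTV w y) (h' : T.FTV w z) : T.FTV w (y + z) := by
  obtain ⟨R, hR⟩ := h
  obtain ⟨R', hR'⟩ := h'
  refine ⟨R + R', fun φ h1 h2 => ?_⟩
  rw [pr_add_left]
  exact (abs_add_le _ _).trans (add_le_add (hR φ h1 h2) (hR' φ h1 h2))

theorem FTV.smul (c : ℝ) {y : T.F} (h : T.FTV w y) : T.FTV w (c • y) := by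
  obtain ⟨R, hR⟩ := h
  refine ⟨|c| * R, fun φ h1 h2 => ?_⟩
  rw [pr_smul_left, abs_mul]
  exact mul_le_mul_of_nonneg_left (hR φ h1 h2) (abs_nonneg c)

theorem FTV.U {y : T.F} (hy : y ∈ T.X w hw) (h : T.FTV w y) (n : ℤ) :
    T.FTV w (T.U w hw n y) := by
  obtain ⟨R, hR⟩ := h
  refine ⟨R, fun φ h1 h2 => ?_⟩
  rw [pr_U n h1 hy]
  exact hR _ (h1.sh n) fun q => h2 _

/-- A finite combination of the vectors `e q` has finite total variation. -/
theorem FTV.e (q : T.Q) : T.FTV w (T.e w hw q) :=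
  ⟨1, fun φ h1 h2 => by rw [pr_e h1]; exact h2 q⟩

theorem mass_add_le {y z : T.F} (h : T.FTV w y) (h' : T.FTV w z) (E : Set T.Q) :
    T.mass w (y + z) E ≤ T.mass w y E + T.mass w z E :=
  mass_le fun φ h1 h2 h3 => by
    rw [pr_add_left]
    exact add_le_add (le_mass' h h1 h2 h3) (le_mass' h' h1 h2 h3)

theorem mass_smul_le (c : ℝ) {y : T.F} (hy : y ∈ T.X w hw) (h : T.FTV w y) (E : Set T.Q) :
    T.mass w (c • y) E ≤ |c| * T.mass w y E :=
  mass_le fun φ h1 h2 h3 => by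
    rw [pr_smul_left]
    calc c * T.pr w φ y ≤ |c * T.pr w φ y| := le_abs_self _
      _ = |c| * |T.pr w φ y| := abs_mul _ _
      _ ≤ |c| * T.mass w y E := mul_le_mul_of_nonneg_left (le_mass h h1 h2 h3 hy) (abs_nonneg _)

theorem mass_smul (c : ℝ) {y : T.F} (hy : y ∈ T.X w hw) (h : T.FTV w y) (E : Set T.Q) :
    T.mass w (c • y) E = |c| * T.mass w y E := by
  refine le_antisymm (mass_smul_le c hy h E) ?_
  by_cases hc : c = 0
  · rw [hc, abs_zero, zero_mul]
    exact mass_nonneg (Submodule.smul_mem _ _ hy) E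
  · have h1 := mass_smul_le c⁻¹ (Submodule.smul_mem (T.X w hw) c hy) (h.smul c) E
    rw [smul_smul, inv_mul_cancel₀ hc, one_smul, abs_inv] at h1
    have h2 : 0 < |c| := abs_pos.mpr hc
    rw [← div_eq_inv_mul, le_div_iff₀ h2] at h1
    linarith

/-- Masses are transported by the shift. -/
theorem mass_U {y : T.F} (hy : y ∈ T.X w hw) (n : ℤ) (E : Set T.Q) :
    T.mass w (T.U w hw n y) E = T.mass w y {q | T.sh n q ∈ E} := by
  have : massSet w (T.U w hw n y) E = massSet w y {q | T.sh n q ∈ E} := by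
    ext r
    constructor
    · rintro ⟨φ, h1, h2, h3, rfl⟩
      exact ⟨fun q => φ (T.sh n q), h1.sh n, fun q => h2 _, fun q hq => h3 _ hq, pr_U n h1 hy⟩
    · rintro ⟨φ, h1, h2, h3, rfl⟩
      have h4 : (fun q => (fun q => φ (T.sh (-n) q)) (T.sh n q)) = φ := by
        funext q
        change φ (T.sh (-n) (T.sh n q)) = φ q
        rw [T.sh_add, neg_add_cancel, T.sh_zero]
      refine ⟨fun q => φ (T.sh (-n) q), h1.sh (-n), fun q => h2 _, fun q hq => ?_, ?_⟩
      · apply h3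
        change ¬ T.sh n (T.sh (-n) q) ∈ E
        rwa [T.sh_add, add_neg_cancel, T.sh_zero]
      · rw [pr_U n (h1.sh (-n)) hy, h4]
  rw [mass_eq, mass_eq, this]

theorem univ_U {y : T.F} (hy : y ∈ T.X w hw) (n : ℤ) :
    T.mass w (T.U w hw n y) Set.univ = T.mass w y Set.univ := by
  rw [mass_U hy]; rfl

/-- No cancellation: for a uniformly recurrent vector, the scale at which the total variation is
almost attained can be chosen uniformly along the orbit. -/
theorem UR.massAt {y : T.F} (hy : y ∈ T.X w hw) (hf : T.FTV w y) (hu : T.UR w hw y) {δ : ℝ}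
    (hδ : 0 < δ) : ∃ s, ∀ t, s ≤ t → ∀ n : ℤ,
      T.mass w y Set.univ ≤ T.massAt w (T.U w hw n y) t + δ := by
  have h1 : T.mass w y Set.univ - δ / 2 < sSup (massSet w y Set.univ) := by
    rw [← mass_eq]; linarith
  obtain ⟨r, ⟨φ, ⟨s₀, C, hφ, -⟩, h2, -, rfl⟩, hr⟩ :=
    exists_lt_of_lt_csSup (massSet_nonempty y _) h1
  have hws : 0 < w s₀ := hw.pos s₀
  obtain ⟨N, hN⟩ := hu (w s₀ * (δ / 2)) (by positivity)
  refine ⟨s₀ + N, fun t ht n => ?_⟩
  obtain ⟨j, hj, hj2⟩ := hN n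
  have hTB : T.TB φ := TB.of_isTest hφ h2
  have hUn := U_mem (w := w) (hw := hw) n hy
  have h3 : |T.pr w φ (T.U w hw (n + j) y - y)| ≤ δ / 2 := by
    have hmem : T.U w hw (n + j) y - y ∈ T.X w hw := Submodule.sub_mem _ (U_mem _ hy) hy
    refine (pr_le hφ h2 hmem).trans ?_
    rw [one_div, inv_mul_le_iff₀ hws]
    exact hj2
  rw [pr_sub_left] at h3
  have h4 : T.pr w φ (T.U w hw (n + j) y) =
      T.pr w (fun q => φ (T.sh j q)) (T.U w hw n y) := by
    rw [← pr_U (w := w) (hw := hw) (j : ℤ) hTB hUn, U_U _ _ hy, add_comm (j : ℤ) n]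
  have h5 : T.IsTest t (fun q => φ (T.sh j q)) :=
    (isTest_sh (j : ℤ) hφ).mono (by simp only [Int.natAbs_natCast]; omega)
  have h6 := le_massAt' (FTV.U hy hf n) h5 fun q => h2 _
  rw [h4] at h3
  have h7 := (abs_le.mp h3).1
  linarith

/-- Tightness. -/
theorem tight (hnn : ∀ q, T.ng (T.ng q) = q) (hrn : ∀ t p q, T.r t p q → T.r t (T.ng p) (T.ng q))
    {y : T.F} (hy : y ∈ T.X w hw) (hf : T.FTV w y) {δ : ℝ} (hδ : 0 < δ) :
    ∃ s₀ : ℕ, ∀ s, s₀ ≤ s → ∃ (n : ℕ) (q : Fin n → T.Q),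
      T.mass w y {p | ∀ i, ¬ T.r s p (q i) ∧ ¬ T.r s p (T.ng (q i))} ≤ δ := by
  classical
  obtain ⟨s₀, hs₀⟩ := exists_massAt hf (δ := δ / 3) (by positivity)
  refine ⟨s₀, fun s hs => ?_⟩
  have hws : 0 < w s := hw.pos s
  obtain ⟨n, a, q, hz⟩ := exists_approx (w := w) (hw := hw) hy
    (ε := w s * (δ / 3)) (by positivity)
  refine ⟨n, q, ?_⟩
  set E : Set T.Q := {p | ∀ i, ¬ T.r s p (q i) ∧ ¬ T.r s p (T.ng (q i))} with hE
  set z : T.F := ∑ i, a i • T.e w hw (q i) with hzdef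
  have hzX : z ∈ T.X w hw :=
    Submodule.sum_mem _ fun i _ => Submodule.smul_mem _ _ (e_mem (q i))
  -- invariance of `E`
  have hEr : ∀ p p', T.r s p p' → (p ∈ E ↔ p' ∈ E) := by
    intro p p' hp
    have : ∀ u, T.r s p u ↔ T.r s p' u := fun u =>
      ⟨fun h => (T.r_equiv s).trans ((T.r_equiv s).symm hp) h, fun h => (T.r_equiv s).trans hp h⟩
    simp only [hE, Set.mem_ofPred_eq, this]
  have hEn : ∀ p, T.ng p ∈ E ↔ p ∈ E := by
    intro p
    have h1 : ∀ u, T.r s (T.ng p) u ↔ T.r s p (T.ng u) := fun u =>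
      ⟨fun h => by have := hrn s _ _ h; rwa [hnn] at this,
        fun h => by have := hrn s _ _ h; rwa [hnn] at this⟩
    simp only [hE, Set.mem_ofPred_eq, h1, hnn]
    exact forall_congr' fun i => and_comm
  refine mass_le fun ψ g1 g2 g3 => ?_
  -- it suffices to find good test functions at scale `s`
  have key : T.massAt w y s ≤ T.mass w y Set.univ - T.pr w ψ y + δ / 3 := by
    refine massAt_le fun φ h1 h2 => ?_
    set φ₁ : T.Q → ℝ := fun p => if p ∈ E then 0 else φ p with hφ₁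
    set φ₂ : T.Q → ℝ := fun p => if p ∈ E then φ p else 0 with hφ₂
    have t1 : T.IsTest s φ₁ := by
      refine ⟨fun p p' hp => ?_, fun p => ?_⟩
      · simp only [hφ₁, hEr p p' hp, h1.1 p p' hp]
      · simp only [hφ₁, hEn p, h1.2 p]; split_ifs <;> simp
    have t2 : T.IsTest s φ₂ := by
      refine ⟨fun p p' hp => ?_, fun p => ?_⟩
      · simp only [hφ₂, hEr p p' hp, h1.1 p p' hp]
      · simp only [hφ₂, hEn p, h1.2 p]; split_ifs <;> simp
    have b1 : ∀ p, |φ₁ p| ≤ 1 := fun p => by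
      simp only [hφ₁]; split_ifs
      · simp
      · exact h2 p
    have b2 : ∀ p, |φ₂ p| ≤ 1 := fun p => by
      simp only [hφ₂]; split_ifs
      · exact h2 p
      · simp
    have hsum : φ = φ₁ + φ₂ := by
      funext p
      simp only [hφ₁, hφ₂, Pi.add_apply]
      split_ifs <;> simp
    have h3 : T.pr w φ y = T.pr w φ₁ y + T.pr w φ₂ y := by
      conv_lhs => rw [hsum]
      exact pr_add (TB.of_isTest t1 b1) (TB.of_isTest t2 b2) hy
    -- `φ₂` is small on `y`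
    have h4 : T.pr w φ₂ z = 0 := by
      rw [hzdef, pr_sum_left]
      refine Finset.sum_eq_zero fun i _ => ?_
      rw [pr_e (TB.of_isTest t2 b2)]
      have : q i ∉ E := fun h => (h i).1 ((T.r_equiv s).refl _)
      simp only [hφ₂, if_neg this, mul_zero]
    have h5 : |T.pr w φ₂ (y - z)| ≤ δ / 3 := by
      refine (pr_le t2 b2 (Submodule.sub_mem _ hy hzX)).trans ?_
      rw [one_div, inv_mul_le_iff₀ hws]
      exact hz
    rw [pr_sub_left, h4, sub_zero] at h5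
    -- `φ₁ + ψ`
    have h6 : T.pr w (φ₁ + ψ) y ≤ T.mass w y Set.univ := by
      refine le_mass' hf ((TB.of_isTest t1 b1).add g1) (fun p => ?_)
        fun p hp => absurd (Set.mem_univ p) hp
      by_cases hp : p ∈ E
      · simp only [Pi.add_apply, hφ₁, if_pos hp, zero_add]; exact g2 p
      · simp only [Pi.add_apply, g3 p hp, add_zero]; exact b1 p
    rw [pr_add (TB.of_isTest t1 b1) g1 hy] at h6
    have h7 := (abs_le.mp h5).2
    linarith
  have h8 := massAt_mono hf hs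
  linarith

end Tower

/-! ### Base tower -/

variable {P : Params} {w : ℕ → ℝ} {hw : Wt w}

theorem Pt.s_eq (p : Pt P) (i : ℤ) : p.s i = 1 ∨ p.s i = -1 := mul_self_eq_one_iff.mp (p.s_sq i)

theorem base_ng_ng (q : (baseT P).Q) : (baseT P).ng ((baseT P).ng q) = q := by
  change Pt.ng (Pt.ng q) = q
  ext i <;> simp [Pt.ng]

theorem base_r_ng (t : ℕ) (p q : (baseT P).Q) (h : (baseT P).r t p q) :
    (baseT P).r t ((baseT P).ng p) ((baseT P).ng q) := by
  intro i h1 h2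
  obtain ⟨h3, h4⟩ := h i h1 h2
  refine ⟨h3, ?_⟩
  change - Pt.s p i = - Pt.s q i
  rw [h4]

theorem Pt.SameX.refl {t : ℕ} (p : Pt P) : Pt.SameX t p p := fun _ _ _ => rfl

theorem Pt.SameX.symm {t : ℕ} {p q : Pt P} (h : Pt.SameX t p q) : Pt.SameX t q p :=
  fun i h1 h2 => (h i h1 h2).symm

theorem Pt.SameX.trans {t : ℕ} {p q r : Pt P} (h : Pt.SameX t p q) (h' : Pt.SameX t q r) :
    Pt.SameX t p r := fun i h1 h2 => (h i h1 h2).trans (h' i h1 h2)

theorem Pt.SameX.mono {s t : ℕ} (hst : s ≤ t) {p q : Pt P} (h : Pt.SameX t p q) :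
    Pt.SameX s p q := fun i h1 h2 => h i (by omega) (by omega)

theorem isTest_chi (t : ℕ) (p : Pt P) : (baseT P).IsTest t (chi t p) := by
  constructor
  · intro q q' h
    have h1 : Pt.SameX t q p ↔ Pt.SameX t q' p := by
      have h2 : Pt.SameX t q q' := fun i a b => (h i a b).1
      exact ⟨fun h3 => h2.symm.trans h3, fun h3 => h2.trans h3⟩
    have h3 : q.s 0 = q'.s 0 := (h 0 (by omega) (by omega)).2
    unfold chi
    by_cases h4 : Pt.SameX t q p
    · rw [if_pos h4, if_pos (h1.mp h4), h3]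
    · rw [if_neg h4, if_neg (fun h5 => h4 (h1.mpr h5))]
  · intro q
    have h1 : Pt.SameX t (Pt.ng q) p ↔ Pt.SameX t q p := Iff.rfl
    change chi t p (Pt.ng q) = - chi t p q
    have h2 : (Pt.ng q).s 0 = - q.s 0 := rfl
    unfold chi
    by_cases h4 : Pt.SameX t q p
    · rw [if_pos h4, if_pos (h1.mpr h4), h2]; ring
    · rw [if_neg h4, if_neg (fun h5 => h4 (h1.mp h5))]; ring

theorem abs_chi_le (t : ℕ) (p q : Pt P) : |chi t p q| ≤ 1 := by
  unfold chi
  split_ifs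
  · rcases Pt.s_eq p 0 with h1 | h1 <;> rcases Pt.s_eq q 0 with h2 | h2 <;>
      rw [h1, h2] <;> norm_num
  · norm_num

theorem chi_eq_zero {t : ℕ} {p q : Pt P} (h : q ∉ cell t p) : chi t p q = 0 := by
  unfold chi
  rw [if_neg (show ¬ Pt.SameX t q p from h)]

theorem TB_chi (t : ℕ) (p : Pt P) : (baseT P).TB (chi t p) :=
  Tower.TB.of_isTest (isTest_chi t p) fun q => abs_chi_le t p q

theorem pr_chi_le {y : (baseT P).F} (hy : y ∈ (baseT P).X w hw) (hf : (baseT P).FTV w y) (t : ℕ)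
    (p : Pt P) : |(baseT P).pr w (chi t p) y| ≤ (baseT P).mass w y (cell t p) :=
  Tower.le_mass hf (TB_chi t p) (fun q => abs_chi_le t p q) (fun _ hq => chi_eq_zero hq) hy

/-- No cancellation inside a cell. -/
theorem mass_cell_le (hS : Stmt_Sign P) {y : (baseT P).F} (hy : y ∈ (baseT P).X w hw)
    (hf : (baseT P).FTV w y) (t : ℕ) (p : Pt P) :
    (baseT P).mass w y (cell t p) ≤ |(baseT P).pr w (chi t p) y| +
      ((baseT P).mass w y Set.univ - (baseT P).massAt w y t) := by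
  classical
  refine Tower.mass_le fun ψ g1 g2 g3 => ?_
  have key : (baseT P).massAt w y t ≤ (baseT P).mass w y Set.univ - (baseT P).pr w ψ y +
      |(baseT P).pr w (chi t p) y| := by
    refine Tower.massAt_le fun φ h1 h2 => ?_
    -- on the cell `φ` is a multiple of `chi`
    have hcell : ∀ q ∈ cell t p, φ q = φ p * chi t p q := by
      intro q hq
      have hq' : Pt.SameX t q p := hq
      obtain ⟨σ, hσ, h3⟩ := hS t p q hq'.symm
      have h4 : chi t p q = σ := by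
        unfold chi
        rw [if_pos hq', h3 0 (by omega) (by omega), mul_assoc, p.s_sq, mul_one]
      rw [h4]
      rcases hσ with rfl | rfl
      · rw [mul_one]
        exact h1.1 q p fun i a b => ⟨hq' i a b, by rw [h3 i a b, one_mul]⟩
      · have h5 : φ q = φ ((baseT P).ng p) := h1.1 q _ fun i a b => ⟨hq' i a b, by
          change q.s i = - p.s i
          rw [h3 i a b, neg_one_mul]⟩
        rw [h5, mul_neg_one]
        exact h1.2 p
    obtain ⟨g, hg⟩ : ∃ g : (baseT P).Q → ℝ, g = chi t p := ⟨_, rfl⟩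
    have hgt : (baseT P).IsTest t g := by rw [hg]; exact isTest_chi t p
    have hgb : (baseT P).TB g := by rw [hg]; exact TB_chi t p
    have hg0 : ∀ q ∉ cell t p, g q = 0 := fun q hq => by rw [hg]; exact chi_eq_zero hq
    rw [← hg] at hcell ⊢
    set φ₁ : (baseT P).Q → ℝ := φ + (-(φ p)) • g with hφ₁
    have t1 : (baseT P).IsTest t φ₁ := h1.add (hgt.smul _)
    have e1 : ∀ q ∈ cell t p, φ₁ q = 0 := by
      intro q hq
      change φ q + -φ p * g q = 0
      rw [hcell q hq]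
      ring
    have e2 : ∀ q ∉ cell t p, φ₁ q = φ q := by
      intro q hq
      change φ q + -φ p * g q = φ q
      rw [hg0 q hq]
      ring
    have b1 : ∀ q, |φ₁ q| ≤ 1 := fun q => by
      by_cases hq : q ∈ cell t p
      · rw [e1 q hq]; simp
      · rw [e2 q hq]; exact h2 q
    have h3 : (baseT P).pr w φ₁ y = (baseT P).pr w φ y +
        (-(φ p)) * (baseT P).pr w g y := by
      rw [hφ₁, Tower.pr_add (Tower.TB.of_isTest h1 h2) (hgb.smul _) hy,
        Tower.pr_smul _ hgb hy]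
    have h4 : (baseT P).pr w (φ₁ + ψ) y ≤ (baseT P).mass w y Set.univ := by
      refine Tower.le_mass' hf ((Tower.TB.of_isTest t1 b1).add g1) (fun q => ?_)
        fun q hq => absurd (Set.mem_univ q) hq
      by_cases hq : q ∈ cell t p
      · change |φ₁ q + ψ q| ≤ 1
        rw [e1 q hq, zero_add]; exact g2 q
      · change |φ₁ q + ψ q| ≤ 1
        rw [g3 q hq, add_zero]; exact b1 q
    rw [Tower.pr_add (Tower.TB.of_isTest t1 b1) g1 hy, h3] at h4
    have h5 : φ p * (baseT P).pr w g y ≤ |(baseT P).pr w g y| := by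
      refine (le_abs_self _).trans ?_
      rw [abs_mul]
      exact mul_le_of_le_one_left (abs_nonneg _) (h2 p)
    linarith
  linarith

/-- Points with symbols of high level near the origin have small mass. -/
theorem mass_lev {y : (baseT P).F} (hy : y ∈ (baseT P).X w hw)
    (hf : (baseT P).FTV w y) (t : ℕ) {δ : ℝ} (hδ : 0 < δ) :
    ∃ K₀ : ℕ, ∀ K, K₀ ≤ K → (baseT P).mass w y {p | ¬ Pt.LevLe t K p} ≤ δ := by
  obtain ⟨s₀, hs₀⟩ := Tower.tight base_ng_ng base_r_ng hy hf hδ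
  obtain ⟨n, q, hq⟩ := hs₀ (max s₀ t) (le_max_left _ _)
  -- levels of the symbols
  have hK : ∃ K₀ : ℕ, ∀ i, Pt.LevLe t K₀ (q i) := by
    refine ⟨∑ i, ∑ j ∈ Finset.Icc (-(t : ℤ)) t, ((q i : Pt P).x j).1, fun i j h1 h2 => ?_⟩
    refine le_trans ?_ (Finset.single_le_sum
      (f := fun i => ∑ j ∈ Finset.Icc (-(t : ℤ)) t, ((q i : Pt P).x j).1)
      (fun _ _ => Nat.zero_le _) (Finset.mem_univ i))
    exact Finset.single_le_sum (f := fun j => ((q i : Pt P).x j).1)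
      (fun _ _ => Nat.zero_le _) (Finset.mem_Icc.mpr ⟨h1, h2⟩)
  obtain ⟨K₀, hK₀⟩ := hK
  refine ⟨K₀, fun K hKK => (Tower.mass_mono hf ?_).trans hq⟩
  intro p hp i
  have aux : ¬ Pt.SameX (max s₀ t) p (q i) := by
    intro hcon
    apply hp
    intro j h1 h2
    rw [hcon j (by have := le_max_right s₀ t; omega) (by have := le_max_right s₀ t; omega)]
    exact (hK₀ i j h1 h2).trans hKK
  exact ⟨fun hcon => aux fun j a b => (hcon j a b).1, fun hcon => aux fun j a b => (hcon j a b).1⟩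

theorem cell_subset {s t : ℕ} (hst : s ≤ t) {p p' : Pt P} (h : Pt.SameX s p' p) :
    cell t p' ⊆ cell s p := fun _ hq => (Pt.SameX.mono hst hq).trans h

/-- pigeonhole for heavy cells -/
theorem exists_heavy {y : (baseT P).F} (hy : y ∈ (baseT P).X w hw) (hf : (baseT P).FTV w y) {η : ℝ}
    (hη : 0 < η) (s : ℕ) (H : ℕ → Pt P → Prop)
    (hH : ∀ t p, H t p → η ≤ (baseT P).mass w y (cell t p))
    (hm : ∀ t t' p p', t ≤ t' → Pt.SameX t p' p → H t' p' → H t p)
    (S : Set (Pt P)) (hS : ∀ t, s ≤ t → ∃ p ∈ S, H t p) :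
    ∃ p ∈ S, ∀ t, s ≤ t → ∃ p', Pt.SameX s p' p ∧ p' ∈ S ∧ H t p' := by
  classical
  -- families of heavy points in `S` with different cells
  let V : Set ℕ := {n | ∃ F : Finset (Pt P), F.card = n ∧ (∀ p ∈ F, p ∈ S ∧ H s p) ∧
    ∀ p ∈ F, ∀ p' ∈ F, p ≠ p' → ¬ Pt.SameX s p p'}
  have hV0 : V.Nonempty := ⟨0, ∅, rfl, by simp, by simp⟩
  have hVb : BddAbove V := by
    refine ⟨⌈(baseT P).mass w y Set.univ / η⌉₊, ?_⟩
    rintro n ⟨F, rfl, h1, h2⟩
    have h3 := Tower.sum_mass_le hy hf F (fun p => cell s p) (by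
      intro p hp p' hp' hne
      refine Set.disjoint_left.mpr ?_
      intro q hq hq'
      exact h2 p hp p' hp' hne ((Pt.SameX.symm hq).trans hq'))
    have h4 : (F.card : ℝ) * η ≤ ∑ p ∈ F, (baseT P).mass w y (cell s p) := by
      rw [← nsmul_eq_mul, ← Finset.sum_const]
      exact Finset.sum_le_sum fun p hp => hH s p (h1 p hp).2
    have h5 : (F.card : ℝ) ≤ (baseT P).mass w y Set.univ / η := by
      rw [le_div_iff₀ hη]; exact h4.trans h3
    exact_mod_cast h5.trans (Nat.le_ceil _)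
  obtain ⟨F, hF1, hF2, hF3⟩ := Nat.sSup_mem hV0 hVb
  by_contra hcon
  push Not at hcon
  -- bad scales
  have h1 : ∀ p : Pt P, ∃ t, p ∈ F → s ≤ t ∧ ∀ p', Pt.SameX s p' p → p' ∈ S → ¬ H t p' := by
    intro p
    by_cases hp : p ∈ F
    · obtain ⟨t, ht, h⟩ := hcon p (hF2 p hp).1
      exact ⟨t, fun _ => ⟨ht, h⟩⟩
    · exact ⟨0, fun h => absurd h hp⟩
  choose u hu using h1
  let t₁ := s + ∑ p ∈ F, u p
  obtain ⟨p', hp'S, hp'H⟩ := hS t₁ (by omega)
  have h2 : H s p' := hm s t₁ p' p' (by omega) (Pt.SameX.refl _) hp'H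
  by_cases h3 : ∃ p ∈ F, Pt.SameX s p' p
  · obtain ⟨p, hp, h4⟩ := h3
    obtain ⟨-, h6⟩ := hu p hp
    refine h6 p' h4 hp'S (hm (u p) t₁ p' p' ?_ (Pt.SameX.refl _) hp'H)
    have h7 : u p ≤ ∑ p ∈ F, u p := Finset.single_le_sum (f := u) (fun _ _ => Nat.zero_le _) hp
    omega
  · push Not at h3
    have h4 : p' ∉ F := fun h => h3 p' h (Pt.SameX.refl _)
    have h5 : F.card + 1 ∈ V := by
      refine ⟨insert p' F, Finset.card_insert_of_notMem h4, ?_, ?_⟩
      · intro p hp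
        rcases Finset.mem_insert.mp hp with rfl | hp
        · exact ⟨hp'S, h2⟩
        · exact hF2 p hp
      · intro p hp q hq hne
        rcases Finset.mem_insert.mp hp with hp1 | hp1 <;>
          rcases Finset.mem_insert.mp hq with hq1 | hq1
        · exact absurd (hp1.trans hq1.symm) hne
        · rw [hp1]; exact h3 q hq1
        · rw [hq1]; exact fun h => h3 p hp1 h.symm
        · exact hF3 p hp1 q hq1 hne
    have h6 := le_csSup hVb h5
    omega

/-- Compactness: heavy cells produce atoms (for two vectors simultaneously). -/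
theorem exists_atom₂ (hC : Stmt_Closed P) {y z : (baseT P).F} (hy : y ∈ (baseT P).X w hw)
    (_hz : z ∈ (baseT P).X w hw) (hfy : (baseT P).FTV w y) (hfz : (baseT P).FTV w z) {η θ : ℝ}
    (hη : 0 < η) (hθ : 0 < θ)
    (h : ∀ t₀ : ℕ, ∃ t, t₀ ≤ t ∧ ∃ p : Pt P, η ≤ (baseT P).mass w y (cell t p) ∧
      θ ≤ (baseT P).mass w z (cell t p)) :
    ∃ p : Pt P, ∀ t, η ≤ (baseT P).mass w y (cell t p) ∧ θ ≤ (baseT P).mass w z (cell t p) := by
  let H : ℕ → Pt P → Prop := fun t p => η ≤ (baseT P).mass w y (cell t p) ∧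
      θ ≤ (baseT P).mass w z (cell t p)
  have hH : ∀ t p, H t p → η ≤ (baseT P).mass w y (cell t p) := fun _ _ h => h.1
  have hm : ∀ t t' p p', t ≤ t' → Pt.SameX t p' p → H t' p' → H t p := by
    intro t t' p p' h1 h2 h3
    have h4 := cell_subset h1 h2
    exact ⟨h3.1.trans (Tower.mass_mono hfy h4), h3.2.trans (Tower.mass_mono hfz h4)⟩
  -- `G s p`: the `s`-cell of `p` contains heavy cells of all scales
  let G : ℕ → Pt P → Prop := fun s p => ∀ t, s ≤ t → ∃ p', Pt.SameX s p' p ∧ H t p'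
  have hG0 : ∃ p, G 0 p := by
    obtain ⟨p, -, hp⟩ := exists_heavy hy hfy hη 0 H hH hm Set.univ (by
      intro t _
      obtain ⟨t', h1, p, h2⟩ := h t
      exact ⟨p, Set.mem_univ _, hm t t' p p h1 (Pt.SameX.refl _) h2⟩)
    exact ⟨p, fun t ht => by
      obtain ⟨p', h1, -, h2⟩ := hp t ht
      exact ⟨p', h1, h2⟩⟩
  have hGs : ∀ s p, G s p → ∃ p', Pt.SameX s p' p ∧ G (s + 1) p' := by
    intro s p hp
    obtain ⟨p', h1, h2⟩ := exists_heavy hy hfy hη (s + 1) H hH hm {p' | Pt.SameX s p' p} (by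
      intro t ht
      obtain ⟨p', h1, h2⟩ := hp t (by omega)
      exact ⟨p', h1, h2⟩)
    exact ⟨p', h1, fun t ht => by
      obtain ⟨p'', h3, -, h4⟩ := h2 t ht
      exact ⟨p'', h3, h4⟩⟩
  choose f hf1 hf2 using hGs
  obtain ⟨p₀, hp₀⟩ := hG0
  let u : (s : ℕ) → {p // G s p} := fun s => Nat.rec ⟨p₀, hp₀⟩
    (fun s p => ⟨f s p.1 p.2, hf2 s p.1 p.2⟩) s
  have hu : ∀ s, Pt.SameX s (u (s + 1)).1 (u s).1 := fun s => hf1 s (u s).1 (u s).2
  obtain ⟨p, hp⟩ := hC (fun s => (u s).1) hu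
  refine ⟨p, fun t => ?_⟩
  obtain ⟨p', h1, h2⟩ := (u t).2 t le_rfl
  exact hm t t p p' le_rfl (h1.trans (hp t).symm) h2

end Pool.Agent.URec
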