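import Pool.Agent.URec.SpaceDefs

/-!
# API of the space `X` of a tower (module Space)
-/

open Filter Topology

namespace Pool.Agent.URec

namespace Tower

variable {T : Tower} {w : ℕ → ℝ} {hw : Wt w}

theorem e_mem (q : T.Q) : T.e w hw q ∈ T.X w hw :=
  Submodule.le_topologicalClosure _ (Submodule.subset_span ⟨q, rfl⟩)

theorem e_apply (q : T.Q) (f : T.Idx) : T.e w hw q f = w f.1.1 * f.1.2 q := rfl

theorem U_apply (n : ℤ) (y : T.F) (f : T.Idx) :
    T.U w hw n y f = w f.1.1 / w (f.1.1 + n.natAbs) * y (f.sh n) := rfl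

theorem U_e (n : ℤ) (q : T.Q) : T.U w hw n (T.e w hw q) = T.e w hw (T.sh n q) := by
  ext f
  rw [U_apply, e_apply, e_apply]
  change w f.1.1 / w (f.1.1 + n.natAbs) * (w (f.1.1 + n.natAbs) * f.1.2 (T.sh n q)) = _
  have h1 := (hw.pos (f.1.1 + n.natAbs)).ne'
  field_simp

theorem e_ng (q : T.Q) : T.e w hw (T.ng q) = - T.e w hw q := by
  ext f
  rw [e_apply, lp.coeFn_neg, Pi.neg_apply, e_apply, f.2.1.2 q]
  ring

/-- Induction principle: a closed linear property which holds for the `e q` holds on `X`. -/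
theorem X_induction {p : T.F → Prop} (hcl : IsClosed {y | p y}) (h0 : p 0)
    (hadd : ∀ y z, p y → p z → p (y + z)) (hsmul : ∀ (c : ℝ) y, p y → p (c • y))
    (he : ∀ q, p (T.e w hw q)) {y : T.F} (hy : y ∈ T.X w hw) : p y := by
  have h1 : ((Submodule.span ℝ (Set.range (T.e w hw)) : Submodule ℝ T.F) : Set T.F) ⊆
      {y | p y} := by
    intro z hz
    refine Submodule.span_induction (p := fun z _ => p z) ?_ h0 ?_ ?_ hz
    · rintro x ⟨q, rfl⟩
      exact he q
    · intro a b _ _ ha hb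
      exact hadd a b ha hb
    · intro c a _ ha
      exact hsmul c a ha
  have h2 : y ∈ closure ((Submodule.span ℝ (Set.range (T.e w hw)) : Submodule ℝ T.F) :
      Set T.F) := by
    have := hy
    rwa [X, ← SetLike.mem_coe, Submodule.topologicalClosure_coe] at this
  exact closure_minimal h1 hcl h2

theorem U_mem (n : ℤ) {y : T.F} (hy : y ∈ T.X w hw) : T.U w hw n y ∈ T.X w hw := by
  refine X_induction (p := fun y => T.U w hw n y ∈ T.X w hw) ?_ ?_ ?_ ?_ ?_ hy
  · exact (Submodule.isClosed_topologicalClosure _).preimage (T.U w hw n).continuous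
  · rw [map_zero]; exact Submodule.zero_mem _
  · intro y z h1 h2
    rw [map_add]; exact Submodule.add_mem _ h1 h2
  · intro c y h1
    rw [map_smul]; exact Submodule.smul_mem _ _ h1
  · intro q
    rw [U_e]; exact e_mem _

theorem U_U (m n : ℤ) {y : T.F} (hy : y ∈ T.X w hw) :
    T.U w hw m (T.U w hw n y) = T.U w hw (m + n) y := by
  refine X_induction (p := fun y => T.U w hw m (T.U w hw n y) = T.U w hw (m + n) y)
    ?_ ?_ ?_ ?_ ?_ hy
  · exact isClosed_eq ((T.U w hw m).continuous.comp (T.U w hw n).continuous)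
      (T.U w hw (m + n)).continuous
  · simp only [map_zero]
  · intro y z h1 h2
    simp only [map_add, h1, h2]
  · intro c y h1
    simp only [map_smul, h1]
  · intro q
    rw [U_e, U_e, U_e, T.sh_add]

theorem U_zero {y : T.F} (hy : y ∈ T.X w hw) : T.U w hw 0 y = y := by
  refine X_induction (p := fun y => T.U w hw 0 y = y) ?_ ?_ ?_ ?_ ?_ hy
  · exact isClosed_eq (T.U w hw 0).continuous continuous_id
  · simp only [map_zero]
  · intro y z h1 h2
    simp only [map_add, h1, h2]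
  · intro c y h1
    simp only [map_smul, h1]
  · intro q
    rw [U_e, T.sh_zero]

theorem norm_U_le (n : ℤ) (y : T.F) : ‖T.U w hw n y‖ ≤ 2 ^ n.natAbs * ‖y‖ :=
  ContinuousLinearMap.le_of_opNorm_le _
    (LinearMap.mkContinuous_norm_le _ (by positivity) _) y

theorem U_pow (n : ℕ) {y : T.F} (hy : y ∈ T.X w hw) : ((T.U w hw 1) ^ n) y = T.U w hw n y := by
  induction n with
  | zero =>
    rw [pow_zero, Nat.cast_zero, U_zero hy]
    rfl
  | succ n ih =>
    rw [pow_succ']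
    change T.U w hw 1 ((T.U w hw 1 ^ n) y) = _
    rw [ih, U_U _ _ hy]
    congr 2
    push_cast
    ring

theorem wt_anti (hw : Wt w) {s t : ℕ} (h : s ≤ t) : w t ≤ w s := antitone_nat_of_succ_le hw.anti h

theorem IsTest.mono {s t : ℕ} (hst : s ≤ t) {φ : T.Q → ℝ} (h : T.IsTest s φ) : T.IsTest t φ := by
  refine ⟨?_, h.2⟩
  have key : ∀ (k : ℕ) (p q : T.Q), T.r (s + k) p q → T.r s p q := by
    intro k
    induction k with
    | zero => exact fun p q hpq => hpq
    | succ k ih => exact fun p q hpq => ih p q (T.r_mono _ _ _ hpq)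
  intro p q hpq
  obtain ⟨k, rfl⟩ := Nat.exists_eq_add_of_le hst
  exact h.1 p q (key k p q hpq)

/-- `e q` and `e q'` are close if `q` and `q'` are equal at a large scale. -/
theorem norm_e_sub_le (t : ℕ) (q q' : T.Q) (h : T.r t q q') :
    ‖T.e w hw q - T.e w hw q'‖ ≤ 2 * w t := by
  have h0 := (hw.pos t).le
  refine lp.norm_le_of_forall_le (by positivity) ?_
  intro f
  rw [lp.coeFn_sub, Pi.sub_apply, e_apply, e_apply, Real.norm_eq_abs]
  rcases le_total f.1.1 t with hs | hs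
  · have h1 : f.1.2 q = f.1.2 q' := (f.2.1.mono hs).1 _ _ h
    rw [h1, sub_self, abs_zero]
    positivity
  · have h1 := wt_anti hw hs
    have h2 := (hw.pos f.1.1).le
    have h3 := f.2.2 q
    have h4 := f.2.2 q'
    rw [← mul_sub, abs_mul, abs_of_nonneg h2]
    have h5 : |f.1.2 q - f.1.2 q'| ≤ 2 := (abs_sub _ _).trans (by linarith)
    nlinarith [abs_nonneg (f.1.2 q - f.1.2 q')]

/-- Approximation by finite combinations. -/
theorem exists_approx {y : T.F} (hy : y ∈ T.X w hw) {ε : ℝ} (hε : 0 < ε) :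
    ∃ (n : ℕ) (a : Fin n → ℝ) (q : Fin n → T.Q), ‖y - ∑ i, a i • T.e w hw (q i)‖ ≤ ε := by
  have h2 : y ∈ closure ((Submodule.span ℝ (Set.range (T.e w hw)) : Submodule ℝ T.F) :
      Set T.F) := by
    have := hy
    rwa [X, ← SetLike.mem_coe, Submodule.topologicalClosure_coe] at this
  obtain ⟨z, hz, hd⟩ := Metric.mem_closure_iff.1 h2 ε hε
  have hz' : z ∈ Submodule.span ℝ (Set.range (T.e w hw)) := hz
  rw [Finsupp.mem_span_range_iff_exists_finsupp] at hz'
  obtain ⟨c, hc⟩ := hz'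
  refine ⟨c.support.card, fun i => c (c.support.equivFin.symm i),
    fun i => (c.support.equivFin.symm i : T.Q), ?_⟩
  have h3 : ∑ i, c (c.support.equivFin.symm i) • T.e w hw (c.support.equivFin.symm i : T.Q) =
      z := by
    rw [← hc, Finsupp.sum, ← Finset.sum_coe_sort c.support]
    exact c.support.equivFin.symm.sum_comp
      (fun x : c.support => c (x : T.Q) • T.e w hw (x : T.Q))
  rw [h3, ← dist_eq_norm]
  exact hd.le

/-! ### Test functions -/

theorem TB.of_isTest {t : ℕ} {φ : T.Q → ℝ} (h : T.IsTest t φ) {C : ℝ} (hC : ∀ q, |φ q| ≤ C) :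
    T.TB φ := ⟨t, C, h, hC⟩

theorem IsTest.add {t : ℕ} {φ ψ : T.Q → ℝ} (h : T.IsTest t φ) (h' : T.IsTest t ψ) :
    T.IsTest t (φ + ψ) := by
  refine ⟨fun p q hpq => ?_, fun q => ?_⟩
  · rw [Pi.add_apply, Pi.add_apply, h.1 p q hpq, h'.1 p q hpq]
  · rw [Pi.add_apply, Pi.add_apply, h.2 q, h'.2 q]; ring

theorem IsTest.smul {t : ℕ} {φ : T.Q → ℝ} (c : ℝ) (h : T.IsTest t φ) : T.IsTest t (c • φ) := by
  refine ⟨fun p q hpq => ?_, fun q => ?_⟩
  · rw [Pi.smul_apply, Pi.smul_apply, h.1 p q hpq]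
  · rw [Pi.smul_apply, Pi.smul_apply, h.2 q, smul_eq_mul, smul_eq_mul]; ring

theorem TB.add {φ ψ : T.Q → ℝ} (h : T.TB φ) (h' : T.TB ψ) : T.TB (φ + ψ) := by
  obtain ⟨t, C, h1, h2⟩ := h
  obtain ⟨t', C', h1', h2'⟩ := h'
  refine ⟨max t t', C + C', (h1.mono (le_max_left _ _)).add (h1'.mono (le_max_right _ _)), ?_⟩
  intro q
  exact (abs_add_le _ _).trans (add_le_add (h2 q) (h2' q))

theorem TB.smul {φ : T.Q → ℝ} (c : ℝ) (h : T.TB φ) : T.TB (c • φ) := by
  obtain ⟨t, C, h1, h2⟩ := h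
  refine ⟨t, |c| * C, h1.smul c, fun q => ?_⟩
  rw [Pi.smul_apply, smul_eq_mul, abs_mul]
  exact mul_le_mul_of_nonneg_left (h2 q) (abs_nonneg _)

theorem TB.neg {φ : T.Q → ℝ} (h : T.TB φ) : T.TB (-φ) := by
  have := h.smul (-1)
  rwa [neg_one_smul] at this

theorem TB.zero : T.TB (0 : T.Q → ℝ) :=
  ⟨0, 0, ⟨fun _ _ _ => rfl, fun _ => by simp⟩, fun _ => by simp⟩

theorem TB.sum {ι : Type} (s : Finset ι) {φ : ι → T.Q → ℝ} (h : ∀ i ∈ s, T.TB (φ i)) :
    T.TB (∑ i ∈ s, φ i) := by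
  classical
  induction s using Finset.induction_on with
  | empty => rw [Finset.sum_empty]; exact TB.zero
  | insert a s ha ih =>
    rw [Finset.sum_insert ha]
    exact (h a (Finset.mem_insert_self _ _)).add
      (ih fun i hi => h i (Finset.mem_insert_of_mem hi))

theorem TB.sh (n : ℤ) {φ : T.Q → ℝ} (h : T.TB φ) : T.TB (fun q => φ (T.sh n q)) := by
  obtain ⟨t, C, h1, h2⟩ := h
  exact ⟨t + n.natAbs, C, isTest_sh n h1, fun q => h2 _⟩

/-! ### The pairing -/

theorem continuous_apply (f : T.Idx) : Continuous fun y : T.F => y f := by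
  refine LipschitzWith.continuous (K := 1) ?_
  refine LipschitzWith.of_dist_le_mul ?_
  intro y z
  rw [NNReal.coe_one, one_mul, dist_eq_norm, dist_eq_norm, ← Pi.sub_apply, ← lp.coeFn_sub]
  exact lp.norm_apply_le_norm (by simp) (y - z) f

theorem continuous_pr (φ : T.Q → ℝ) : Continuous (T.pr w φ) := by
  classical
  unfold pr
  split_ifs with h
  · exact continuous_const.mul (continuous_apply _)
  · exact continuous_const

theorem pr_add_left (φ : T.Q → ℝ) (y z : T.F) : T.pr w φ (y + z) = T.pr w φ y + T.pr w φ z := by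
  classical
  unfold pr
  split_ifs with h
  · exact mul_add _ _ _
  · simp

theorem pr_smul_left (φ : T.Q → ℝ) (c : ℝ) (y : T.F) : T.pr w φ (c • y) = c * T.pr w φ y := by
  classical
  unfold pr
  split_ifs with h
  · exact mul_left_comm _ _ _
  · simp

theorem pr_zero_left (φ : T.Q → ℝ) : T.pr w φ 0 = 0 := by
  have := pr_smul_left (w := w) φ 0 (0 : T.F)
  simpa using this

theorem pr_sub_left (φ : T.Q → ℝ) (y z : T.F) : T.pr w φ (y - z) = T.pr w φ y - T.pr w φ z := by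
  have h1 : y - z = y + (-1 : ℝ) • z := by rw [neg_one_smul, sub_eq_add_neg]
  rw [h1, pr_add_left, pr_smul_left]
  ring

theorem pr_sum_left {ι : Type} (s : Finset ι) (φ : T.Q → ℝ) (a : ι → ℝ) (y : ι → T.F) :
    T.pr w φ (∑ i ∈ s, a i • y i) = ∑ i ∈ s, a i * T.pr w φ (y i) := by
  classical
  induction s using Finset.induction_on with
  | empty => rw [Finset.sum_empty, Finset.sum_empty, pr_zero_left]
  | insert i s hi ih =>
    rw [Finset.sum_insert hi, Finset.sum_insert hi, pr_add_left, pr_smul_left, ih]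

theorem pr_e {φ : T.Q → ℝ} (h : T.TB φ) (q : T.Q) : T.pr w φ (T.e w hw q) = φ q := by
  classical
  have h' : ∃ (t : ℕ) (C : ℝ), 0 < C ∧ T.IsTest t φ ∧ ∀ q, |φ q| ≤ C := by
    obtain ⟨t, C, h1, h2⟩ := h
    exact ⟨t, max C 1, lt_max_of_lt_right one_pos, h1, fun q => (h2 q).trans (le_max_left _ _)⟩
  unfold pr
  rw [dif_pos h']
  have h1 := (hw.pos h'.choose).ne'
  have h2 := h'.choose_spec.choose_spec.1.ne'
  change h'.choose_spec.choose / w h'.choose * (w h'.choose * (φ q / h'.choose_spec.choose)) = φ q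
  field_simp

theorem pr_eq' {y : T.F} (hy : y ∈ T.X w hw) (f : T.Idx) :
    T.pr w f.1.2 y = y f / w f.1.1 := by
  refine X_induction (p := fun y => T.pr w f.1.2 y = y f / w f.1.1) ?_ ?_ ?_ ?_ ?_ hy
  · exact isClosed_eq (continuous_pr _) ((continuous_apply _).div_const _)
  · rw [pr_zero_left, lp.coeFn_zero, Pi.zero_apply, zero_div]
  · intro y z h1 h2
    rw [pr_add_left, h1, h2, lp.coeFn_add, Pi.add_apply]; ring
  · intro c y h1
    rw [pr_smul_left, h1, lp.coeFn_smul, Pi.smul_apply, smul_eq_mul]; ring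
  · intro q
    rw [pr_e (TB.of_isTest f.2.1 f.2.2), e_apply]
    have := (hw.pos f.1.1).ne'
    field_simp

/-- The pairing with an explicit scale and bound. -/
theorem pr_eq {y : T.F} (hy : y ∈ T.X w hw) {t : ℕ} {φ : T.Q → ℝ} (h : T.IsTest t φ)
    (h1 : ∀ q, |φ q| ≤ 1) : T.pr w φ y = y ⟨(t, φ), h, h1⟩ / w t :=
  pr_eq' hy ⟨(t, φ), h, h1⟩

theorem pr_add {φ ψ : T.Q → ℝ} (h : T.TB φ) (h' : T.TB ψ) {y : T.F} (hy : y ∈ T.X w hw) :
    T.pr w (φ + ψ) y = T.pr w φ y + T.pr w ψ y := by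
  refine X_induction (p := fun y => T.pr w (φ + ψ) y = T.pr w φ y + T.pr w ψ y)
    ?_ ?_ ?_ ?_ ?_ hy
  · exact isClosed_eq (continuous_pr _) ((continuous_pr _).add (continuous_pr _))
  · simp only [pr_zero_left, add_zero]
  · intro y z h1 h2
    simp only [pr_add_left, h1, h2]; ring
  · intro c y h1
    simp only [pr_smul_left, h1]; ring
  · intro q
    rw [pr_e (h.add h'), pr_e h, pr_e h', Pi.add_apply]

theorem pr_smul {φ : T.Q → ℝ} (c : ℝ) (h : T.TB φ) {y : T.F} (hy : y ∈ T.X w hw) :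
    T.pr w (c • φ) y = c * T.pr w φ y := by
  refine X_induction (p := fun y => T.pr w (c • φ) y = c * T.pr w φ y) ?_ ?_ ?_ ?_ ?_ hy
  · exact isClosed_eq (continuous_pr _) (continuous_const.mul (continuous_pr _))
  · simp only [pr_zero_left, mul_zero]
  · intro y z h1 h2
    simp only [pr_add_left, h1, h2]; ring
  · intro d y h1
    simp only [pr_smul_left, h1]; ring
  · intro q
    rw [pr_e (h.smul c), pr_e h, Pi.smul_apply, smul_eq_mul]

theorem pr_zero {y : T.F} (hy : y ∈ T.X w hw) : T.pr w (0 : T.Q → ℝ) y = 0 := by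
  have := pr_smul (φ := (0 : T.Q → ℝ)) 0 TB.zero hy
  rwa [zero_smul, zero_mul] at this

theorem pr_sum {ι : Type} (s : Finset ι) {φ : ι → T.Q → ℝ} (h : ∀ i ∈ s, T.TB (φ i)) {y : T.F}
    (hy : y ∈ T.X w hw) : T.pr w (∑ i ∈ s, φ i) y = ∑ i ∈ s, T.pr w (φ i) y := by
  classical
  induction s using Finset.induction_on with
  | empty => rw [Finset.sum_empty, Finset.sum_empty, pr_zero hy]
  | insert a s ha ih =>
    have h2 := fun i hi => h i (Finset.mem_insert_of_mem hi)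
    rw [Finset.sum_insert ha, Finset.sum_insert ha,
      pr_add (h a (Finset.mem_insert_self _ _)) (TB.sum s h2) hy, ih h2]

theorem pr_le {t : ℕ} {φ : T.Q → ℝ} {C : ℝ} (h : T.IsTest t φ) (hC : ∀ q, |φ q| ≤ C) {y : T.F}
    (hy : y ∈ T.X w hw) : |T.pr w φ y| ≤ C / w t * ‖y‖ := by
  have hwt := hw.pos t
  rcases isEmpty_or_nonempty T.Q with hQ | ⟨⟨q0⟩⟩
  · have h1 : y = 0 := X_induction (p := fun y => y = 0) (isClosed_singleton (x := (0 : T.F))) rfl
      (fun y z h1 h2 => by rw [h1, h2, add_zero]) (fun c y h1 => by rw [h1, smul_zero])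
      (fun q => hQ.elim q) hy
    rw [h1, pr_zero_left, norm_zero, mul_zero, abs_zero]
  · have hC0 : 0 ≤ C := (abs_nonneg _).trans (hC q0)
    rcases hC0.eq_or_lt with h0 | h0
    · have h1 : φ = 0 := by
        ext q
        have := hC q
        rw [← h0] at this
        exact abs_nonpos_iff.1 this
      rw [h1, pr_zero hy, abs_zero, ← h0]
      simp
    · have h2 : T.IsTest t (C⁻¹ • φ) := h.smul _
      have h3 : ∀ q, |(C⁻¹ • φ) q| ≤ 1 := by
        intro q
        rw [Pi.smul_apply, smul_eq_mul, abs_mul, abs_of_pos (inv_pos.2 h0)]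
        calc C⁻¹ * |φ q| ≤ C⁻¹ * C := mul_le_mul_of_nonneg_left (hC q) (inv_pos.2 h0).le
          _ = 1 := inv_mul_cancel₀ h0.ne'
      have h4 := pr_eq hy h2 h3
      rw [pr_smul _ ⟨t, C, h, hC⟩ hy] at h4
      have h5 : T.pr w φ y = C * (y ⟨(t, C⁻¹ • φ), h2, h3⟩ / w t) := by
        rw [← h4, ← mul_assoc, mul_inv_cancel₀ h0.ne', one_mul]
      have h6 : |y ⟨(t, C⁻¹ • φ), h2, h3⟩| ≤ ‖y‖ := by
        have := lp.norm_apply_le_norm (p := ⊤) (by simp) y ⟨(t, C⁻¹ • φ), h2, h3⟩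
        simpa using this
      rw [h5, abs_mul, abs_div, abs_of_pos h0, abs_of_pos hwt]
      calc C * (|y ⟨(t, C⁻¹ • φ), h2, h3⟩| / w t) ≤ C * (‖y‖ / w t) := by gcongr
        _ = C / w t * ‖y‖ := by ring

theorem pr_U (n : ℤ) {φ : T.Q → ℝ} (h : T.TB φ) {y : T.F} (hy : y ∈ T.X w hw) :
    T.pr w φ (T.U w hw n y) = T.pr w (fun q => φ (T.sh n q)) y := by
  refine X_induction (p := fun y => T.pr w φ (T.U w hw n y) =
    T.pr w (fun q => φ (T.sh n q)) y) ?_ ?_ ?_ ?_ ?_ hy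
  · exact isClosed_eq ((continuous_pr _).comp (T.U w hw n).continuous) (continuous_pr _)
  · simp only [map_zero, pr_zero_left]
  · intro y z h1 h2
    simp only [map_add, pr_add_left, h1, h2]
  · intro d y h1
    simp only [map_smul, pr_smul_left, h1]
  · intro q
    rw [U_e, pr_e h, pr_e (h.sh n)]

/-- Bounding the norm by the pairings. -/
theorem norm_le_of_pr {y : T.F} (hy : y ∈ T.X w hw) {C : ℝ} (hC : 0 ≤ C)
    (h : ∀ (t : ℕ) (φ : T.Q → ℝ), T.IsTest t φ → (∀ q, |φ q| ≤ 1) → w t * |T.pr w φ y| ≤ C) :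
    ‖y‖ ≤ C := by
  refine lp.norm_le_of_forall_le hC ?_
  rintro ⟨⟨t, φ⟩, h1, h2⟩
  have h3 := h t φ h1 h2
  have h4 := hw.pos t
  rw [pr_eq hy h1 h2, abs_div, abs_of_pos h4, mul_div_cancel₀ _ h4.ne'] at h3
  exact h3

/-! ### Uniform recurrence -/

/-- One-sided uniform recurrence (as in the frozen statement) implies the two-sided one. -/
theorem UR_of_forward {y : T.F} (hy : y ∈ T.X w hw)
    (h : ∀ ε : ℝ, 0 < ε → ∃ N : ℕ, ∀ m : ℕ, ∃ n : ℕ, m ≤ n ∧ n ≤ m + N ∧ 1 ≤ n ∧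
      ‖T.U w hw n y - y‖ < ε) : T.UR w hw y := by
  intro ε hε
  obtain ⟨N, hN⟩ := h (ε / 2) (by positivity)
  refine ⟨N, fun m => ?_⟩
  set k := m.natAbs with hk
  obtain ⟨M, hM⟩ := h (ε / 2 / 2 ^ (k + N)) (by positivity)
  obtain ⟨n, hn1, -, -, hn⟩ := hM k
  obtain ⟨n', hn'1, hn'2, -, hn'⟩ := hN (n + m).toNat
  have hnm : 0 ≤ (n : ℤ) + m := by omega
  refine ⟨n' - (n + m).toNat, by omega, ?_⟩
  set j : ℕ := n' - (n + m).toNat with hj
  have h1 : (n' : ℤ) = (m + j) + n := by omega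
  have h2 : T.U w hw n' y = T.U w hw (m + j) (T.U w hw n y) := by rw [U_U _ _ hy, h1]
  have h3 : T.U w hw (m + j) y - y =
      (T.U w hw n' y - y) - T.U w hw (m + j) (T.U w hw n y - y) := by
    rw [h2, map_sub]; abel
  rw [h3]
  have h4 := norm_U_le (hw := hw) (m + j) (T.U w hw n y - y)
  have h5 : (2 : ℝ) ^ (m + j : ℤ).natAbs ≤ 2 ^ (k + N) :=
    pow_le_pow_right₀ (by norm_num) (by omega)
  have h6 : (2 : ℝ) ^ (m + j : ℤ).natAbs * ‖T.U w hw n y - y‖ ≤ ε / 2 := by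
    calc (2 : ℝ) ^ (m + j : ℤ).natAbs * ‖T.U w hw n y - y‖
        ≤ 2 ^ (k + N) * (ε / 2 / 2 ^ (k + N)) := by gcongr
      _ = ε / 2 := by field_simp
  calc ‖(T.U w hw n' y - y) - T.U w hw (m + j) (T.U w hw n y - y)‖
      ≤ ‖T.U w hw n' y - y‖ + ‖T.U w hw (m + j) (T.U w hw n y - y)‖ := norm_sub_le _ _
    _ ≤ ε / 2 + ε / 2 := by linarith
    _ = ε := by ring

theorem UR.bounded {y : T.F} (hy : y ∈ T.X w hw) (h : T.UR w hw y) :
    ∃ R : ℝ, ∀ n : ℤ, ‖T.U w hw n y‖ ≤ R := by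
  obtain ⟨N, hN⟩ := h 1 one_pos
  refine ⟨2 ^ N * (‖y‖ + 1), fun n => ?_⟩
  obtain ⟨j, hj, h1⟩ := hN n
  have h2 : T.U w hw n y = T.U w hw (-j) (T.U w hw (n + j) y) := by
    rw [U_U _ _ hy]; congr 2; ring
  have h3 : ‖T.U w hw (n + j) y‖ ≤ ‖y‖ + 1 := by
    have := norm_le_norm_add_norm_sub' (T.U w hw (n + j) y) y
    linarith
  rw [h2]
  refine (norm_U_le _ _).trans ?_
  have h4 : (2 : ℝ) ^ (-(j : ℤ)).natAbs ≤ 2 ^ N := pow_le_pow_right₀ (by norm_num) (by omega)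
  gcongr

theorem UR.U {y : T.F} (hy : y ∈ T.X w hw) (h : T.UR w hw y) (n : ℤ) :
    T.UR w hw (T.U w hw n y) := by
  intro ε hε
  obtain ⟨N, hN⟩ := h (ε / 2 ^ n.natAbs) (by positivity)
  refine ⟨N, fun m => ?_⟩
  obtain ⟨j, hj, h1⟩ := hN m
  refine ⟨j, hj, ?_⟩
  have h2 : T.U w hw (m + j) (T.U w hw n y) - T.U w hw n y =
      T.U w hw n (T.U w hw (m + j) y - y) := by
    rw [map_sub, U_U _ _ hy, U_U _ _ hy, add_comm n]
  rw [h2]
  refine (norm_U_le _ _).trans ?_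
  calc (2 : ℝ) ^ n.natAbs * ‖T.U w hw (m + j) y - y‖
      ≤ 2 ^ n.natAbs * (ε / 2 ^ n.natAbs) := by gcongr
    _ = ε := by field_simp

end Tower

end Pool.Agent.URec
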