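import Pool.Agent.URec.Defs

/-!
# Definitions: the Banach space attached to a tower of partitions of a set with a shift

Functional analytic part.
-/

open Filter Topology

namespace Pool.Agent.URec

/-- A set with a shift, a sign flip, and a decreasing sequence of equivalence relations. -/
structure Tower where
  /-- the points -/
  Q : Type
  /-- the shift -/
  sh : ℤ → Q → Q
  /-- the flip -/
  ng : Q → Q
  /-- equality at scale `t` -/
  r : ℕ → Q → Q → Prop
  sh_zero : ∀ q, sh 0 q = q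
  sh_add : ∀ m n q, sh m (sh n q) = sh (m + n) q
  sh_ng : ∀ n q, sh n (ng q) = ng (sh n q)
  r_equiv : ∀ t, Equivalence (r t)
  r_mono : ∀ t p q, r (t + 1) p q → r t p q
  r_sh : ∀ t n p q, r (t + n.natAbs) p q → r t (sh n p) (sh n q)

/-- Weights. -/
structure Wt (w : ℕ → ℝ) : Prop where
  pos : ∀ t, 0 < w t
  zero : w 0 = 1
  anti : ∀ t, w (t + 1) ≤ w t
  dbl : ∀ t, w t ≤ 2 * w (t + 1)
  lim : Tendsto w atTop (𝓝 0)

namespace Tower

variable (T : Tower)

/-- Odd functions measurable at scale `t`. -/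
def IsTest (t : ℕ) (φ : T.Q → ℝ) : Prop :=
  (∀ p q, T.r t p q → φ p = φ q) ∧ ∀ q, φ (T.ng q) = - φ q

/-- Test functions bounded by `1`, with their scale. -/
def Idx : Type := {f : ℕ × (T.Q → ℝ) // T.IsTest f.1 f.2 ∧ ∀ q, |f.2 q| ≤ 1}

/-- The ambient Banach space. -/
abbrev F : Type := lp (fun _ : T.Idx => ℝ) ⊤

/-- Bounded test functions (at some scale). -/
def TB (φ : T.Q → ℝ) : Prop := ∃ (t : ℕ) (C : ℝ), T.IsTest t φ ∧ ∀ q, |φ q| ≤ C

variable {T}

theorem isTest_sh {t : ℕ} {φ : T.Q → ℝ} (n : ℤ) (h : T.IsTest t φ) :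
    T.IsTest (t + n.natAbs) (fun q => φ (T.sh n q)) :=
  ⟨fun p q hpq => h.1 _ _ (T.r_sh t n p q hpq), fun q => by
    change φ (T.sh n (T.ng q)) = - φ (T.sh n q)
    rw [T.sh_ng]; exact h.2 _⟩

/-- Shift of an index. -/
def Idx.sh (f : T.Idx) (n : ℤ) : T.Idx :=
  ⟨(f.1.1 + n.natAbs, fun q => f.1.2 (T.sh n q)), isTest_sh n f.2.1, fun _ => f.2.2 _⟩

variable (T)

/-- The vector `e q`: its coordinate at `(t, φ)` is `w t * φ q`. -/
noncomputable def e (w : ℕ → ℝ) (hw : Wt w) (q : T.Q) : T.F :=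
  ⟨fun f => w f.1.1 * f.1.2 q, memℓp_infty ⟨1, by
    rintro x ⟨f, rfl⟩
    have h1 : w f.1.1 ≤ 1 := by
      have : ∀ t, w t ≤ 1 := fun t => by
        induction t with
        | zero => exact hw.zero.le
        | succ t ih => exact (hw.anti t).trans ih
      exact this _
    have h2 := f.2.2 q
    have h3 := (hw.pos f.1.1).le
    simp only [Real.norm_eq_abs, abs_mul, abs_of_nonneg h3]
    nlinarith [abs_nonneg (f.1.2 q)]⟩⟩

/-- The space: the closed span of the vectors `e q`. -/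
noncomputable def X (w : ℕ → ℝ) (hw : Wt w) : Submodule ℝ T.F :=
  (Submodule.span ℝ (Set.range (T.e w hw))).topologicalClosure

theorem wt_ratio_le {w : ℕ → ℝ} (hw : Wt w) (t n : ℕ) : w t / w (t + n) ≤ 2 ^ n := by
  induction n with
  | zero => simp [(hw.pos t).ne']
  | succ n ih =>
    have h1 := hw.pos (t + n)
    have h2 := hw.pos (t + (n + 1))
    have h3 := hw.dbl (t + n)
    rw [div_le_iff₀ h1] at ih
    rw [div_le_iff₀ h2, pow_succ]
    have h4 : (0 : ℝ) < 2 ^ n := by positivity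
    have h5 : t + (n + 1) = t + n + 1 := by ring
    rw [h5]
    nlinarith

/-- The operator induced by the shift by `n`, as a linear map. -/
noncomputable def ULin (w : ℕ → ℝ) (hw : Wt w) (n : ℤ) : T.F →ₗ[ℝ] T.F where
  toFun z := ⟨fun f => w f.1.1 / w (f.1.1 + n.natAbs) * z (f.sh n), memℓp_infty
    ⟨2 ^ n.natAbs * ‖z‖, by
      rintro x ⟨f, rfl⟩
      have h1 := wt_ratio_le hw f.1.1 n.natAbs
      have h2 : ‖z (f.sh n)‖ ≤ ‖z‖ := lp.norm_apply_le_norm (by simp) z _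
      have h3 : 0 ≤ w f.1.1 / w (f.1.1 + n.natAbs) :=
        div_nonneg (hw.pos _).le (hw.pos _).le
      simp only [norm_mul, Real.norm_eq_abs, abs_of_nonneg h3] at h2 ⊢
      gcongr⟩⟩
  map_add' y z := by
    ext f
    simp only [lp.coeFn_add, Pi.add_apply]
    ring
  map_smul' c z := by
    ext f
    simp only [lp.coeFn_smul, Pi.smul_apply, smul_eq_mul, RingHom.id_apply]
    ring

/-- The operator induced by the shift by `n`. -/
noncomputable def U (w : ℕ → ℝ) (hw : Wt w) (n : ℤ) : T.F →L[ℝ] T.F :=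
  (T.ULin w hw n).mkContinuous (2 ^ n.natAbs) (by
    intro z
    refine lp.norm_le_of_forall_le (by positivity) ?_
    intro f
    have h1 := wt_ratio_le hw f.1.1 n.natAbs
    have h2 : ‖z (f.sh n)‖ ≤ ‖z‖ := lp.norm_apply_le_norm (by simp) z _
    have h3 : 0 ≤ w f.1.1 / w (f.1.1 + n.natAbs) := div_nonneg (hw.pos _).le (hw.pos _).le
    change ‖w f.1.1 / w (f.1.1 + n.natAbs) * z (f.sh n)‖ ≤ _
    simp only [norm_mul, Real.norm_eq_abs, abs_of_nonneg h3] at h2 ⊢
    gcongr)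

open Classical in
/-- The pairing of a vector with a bounded test function. -/
noncomputable def pr (w : ℕ → ℝ) (φ : T.Q → ℝ) (y : T.F) : ℝ :=
  if h : ∃ (t : ℕ) (C : ℝ), 0 < C ∧ T.IsTest t φ ∧ ∀ q, |φ q| ≤ C then
    h.choose_spec.choose / w h.choose *
      y ⟨(h.choose, fun q => φ q / h.choose_spec.choose),
        ⟨fun p q hpq => by
            change φ p / _ = φ q / _
            rw [h.choose_spec.choose_spec.2.1.1 p q hpq],
          fun q => by
            change φ (T.ng q) / _ = - (φ q / _)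
            rw [h.choose_spec.choose_spec.2.1.2 q]; ring⟩,
        fun q => by
          change |φ q / _| ≤ 1
          rw [abs_div, abs_of_pos h.choose_spec.choose_spec.1]
          exact (div_le_one h.choose_spec.choose_spec.1).2 (h.choose_spec.choose_spec.2.2 q)⟩
  else 0

/-- Total mass of `y` on a set of points. -/
noncomputable def mass (w : ℕ → ℝ) (y : T.F) (E : Set T.Q) : ℝ :=
  sSup {r | ∃ φ, T.TB φ ∧ (∀ q, |φ q| ≤ 1) ∧ (∀ q, q ∉ E → φ q = 0) ∧ r = T.pr w φ y}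

/-- Total mass of `y` at scale `s`. -/
noncomputable def massAt (w : ℕ → ℝ) (y : T.F) (s : ℕ) : ℝ :=
  sSup {r | ∃ φ, T.IsTest s φ ∧ (∀ q, |φ q| ≤ 1) ∧ r = T.pr w φ y}

/-- Finite total variation. -/
def FTV (w : ℕ → ℝ) (y : T.F) : Prop :=
  ∃ R : ℝ, ∀ φ, T.TB φ → (∀ q, |φ q| ≤ 1) → |T.pr w φ y| ≤ R

/-- Two-sided uniform recurrence. -/
def UR (w : ℕ → ℝ) (hw : Wt w) (y : T.F) : Prop :=
  ∀ ε : ℝ, 0 < ε → ∃ N : ℕ, ∀ m : ℤ, ∃ j : ℕ, j ≤ N ∧ ‖T.U w hw (m + j) y - y‖ ≤ ε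

end Tower

/-- The base tower: all signed points, equality at scale `t` is equality on `[-t, t]`. -/
def baseT (P : Params) : Tower where
  Q := Pt P
  sh := Pt.sh
  ng := Pt.ng
  r := Pt.Same
  sh_zero := fun q => by ext i <;> simp [Pt.sh]
  sh_add := fun m n q => by
    have h : ∀ i : ℤ, i + m + n = i + (m + n) := fun i => by ring
    ext i <;> simp only [Pt.sh, h]
  sh_ng := fun n q => rfl
  r_equiv := fun t => ⟨fun p i _ _ => ⟨rfl, rfl⟩,
    fun h i h1 h2 => ⟨(h i h1 h2).1.symm, (h i h1 h2).2.symm⟩,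
    fun h h' i h1 h2 => ⟨(h i h1 h2).1.trans (h' i h1 h2).1, (h i h1 h2).2.trans (h' i h1 h2).2⟩⟩
  r_mono := fun t p q h i h1 h2 => h i (by push_cast; omega) (by push_cast; omega)
  r_sh := fun t n p q h i h1 h2 => h (i + n) (by omega) (by omega)

/-- The cell of scale `t` of a point. -/
def cell {P : Params} (t : ℕ) (p : Pt P) : Set (Pt P) := {q | Pt.SameX t q p}

open Classical in
/-- The odd indicator function of the cell of scale `t` of a point. -/
noncomputable def chi {P : Params} (t : ℕ) (p : Pt P) (q : Pt P) : ℝ :=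
  if Pt.SameX t q p then q.s 0 * p.s 0 else 0

/-- Weights adapted to `Stmt_Dec`. -/
def WtDec (P : Params) (w : ℕ → ℝ) : Prop := ∃ τ L : ℕ → ℕ, StrictMono τ ∧
  (∀ i, w (τ i) = (4 / 5) ^ i) ∧ (∀ i, τ i + L i ≤ τ (i + 1)) ∧
  ∀ i, ∀ p : Pt P, ∀ S : Finset ℤ,
  (∀ n, n ∈ S ↔ (-(L i : ℤ) ≤ n ∧ n ≤ L i ∧ Pt.Good (τ i) p n)) →
    (2 : ℝ) / 5 * (2 * L i + 1) ≤ (S.card : ℝ)

end Pool.Agent.URec
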