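import Pool.Agent.URec.SpaceDefs

/-!
# The total tower
-/

open Filter Topology

namespace Pool.Agent.URec

variable {P : Params}

/-- `p` avoids `F`: it is proximal to, but different from, all points of the orbits of the elements
of `F`. -/
def Avoids (F : Set (Pt P)) (p : Pt P) : Prop :=
  ∀ q ∈ F, ∀ n : ℤ, Pt.Prox p (Pt.sh n q) ∧ p.x ≠ (Pt.sh n q).x

/-- Points of the total tower: pairs `(F, p)` with `F` finite and `p` avoiding `F`. -/
def TotPt (P : Params) : Type := {a : Set (Pt P) × Pt P // a.1.Finite ∧ Avoids a.1 a.2}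

theorem Avoids.sh {F : Set (Pt P)} {p : Pt P} (h : Avoids F p) (m : ℤ) :
    Avoids F (Pt.sh m p) := by
  intro q hq n
  obtain ⟨h1, h2⟩ := h q hq (n - m)
  have key : Pt.sh n q = Pt.sh m (Pt.sh (n - m) q) := by
    have e : ∀ i : ℤ, i + n = i + m + (n - m) := fun i => by ring
    ext i <;> simp only [Pt.sh, e i]
  constructor
  · intro N
    obtain ⟨k, hk⟩ := h1 N
    refine ⟨k - m, ?_⟩
    intro i hi1 hi2
    have := hk i hi1 hi2
    simp only [Pt.sh] at this ⊢
    have e1 : i + (k - m) + m = i + k := by ring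
    have e2 : i + (k - m) + n = i + k + (n - m) := by ring
    rw [e1, e2]
    exact this
  · intro hx
    apply h2
    funext i
    have := congrFun hx (i - m)
    simp only [Pt.sh] at this ⊢
    have e1 : i - m + m = i := by ring
    have e2 : i - m + n = i + (n - m) := by ring
    rw [e1, e2] at this
    exact this

theorem Avoids.ng {F : Set (Pt P)} {p : Pt P} (h : Avoids F p) : Avoids F (Pt.ng p) := by
  intro q hq n
  exact h q hq n

/-- Equality of all labels at scale `t`: for `|n| ≤ t`, the agreement length of `σⁿ p` with `q`,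
and for `N ≤ t` the distance to the first aligned common window of length `2N+1` of `σⁿ p`
and `q`. -/
def SameLab (t : ℕ) (F : Set (Pt P)) (p p' : Pt P) : Prop :=
  ∀ q ∈ F, ∀ n : ℤ, -t ≤ n → n ≤ t →
    (∀ j : ℕ, Pt.SameX j (Pt.sh n p) q ↔ Pt.SameX j (Pt.sh n p') q) ∧
    ∀ N : ℕ, N ≤ t → ∀ j : ℕ,
      ((∃ i : ℤ, -j ≤ i ∧ i ≤ j ∧ Pt.SameX N (Pt.sh i (Pt.sh n p)) (Pt.sh i q)) ↔
        (∃ i : ℤ, -j ≤ i ∧ i ≤ j ∧ Pt.SameX N (Pt.sh i (Pt.sh n p')) (Pt.sh i q)))

theorem sh_sh (m n : ℤ) (q : Pt P) : Pt.sh m (Pt.sh n q) = Pt.sh (m + n) q :=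
  (baseT P).sh_add m n q

theorem SameLab.mono {t : ℕ} {F : Set (Pt P)} {p p' : Pt P} (h : SameLab (t + 1) F p p') :
    SameLab t F p p' := fun q hq n h1 h2 =>
  ⟨(h q hq n (by push_cast; omega) (by push_cast; omega)).1, fun N hN =>
    (h q hq n (by push_cast; omega) (by push_cast; omega)).2 N (by omega)⟩

theorem SameLab.sh {t : ℕ} {F : Set (Pt P)} {p p' : Pt P} (m : ℤ)
    (h : SameLab (t + m.natAbs) F p p') : SameLab t F (Pt.sh m p) (Pt.sh m p') := by
  intro q hq n h1 h2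
  rw [sh_sh, sh_sh]
  obtain ⟨h3, h4⟩ := h q hq (n + m) (by omega) (by omega)
  exact ⟨h3, fun N hN => h4 N (by omega)⟩

theorem SameLab.refl (t : ℕ) (F : Set (Pt P)) (p : Pt P) : SameLab t F p p :=
  fun _ _ _ _ _ => ⟨fun _ => Iff.rfl, fun _ _ _ => Iff.rfl⟩

theorem SameLab.symm {t : ℕ} {F : Set (Pt P)} {p p' : Pt P} (h : SameLab t F p p') :
    SameLab t F p' p := fun q hq n h1 h2 =>
  ⟨fun j => ((h q hq n h1 h2).1 j).symm, fun N hN j => ((h q hq n h1 h2).2 N hN j).symm⟩

theorem SameLab.trans {t : ℕ} {F : Set (Pt P)} {p p' p'' : Pt P} (h : SameLab t F p p')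
    (h' : SameLab t F p' p'') : SameLab t F p p'' := fun q hq n h1 h2 =>
  ⟨fun j => ((h q hq n h1 h2).1 j).trans ((h' q hq n h1 h2).1 j),
    fun N hN j => ((h q hq n h1 h2).2 N hN j).trans ((h' q hq n h1 h2).2 N hN j)⟩

/-- The total tower. -/
def totT (P : Params) : Tower where
  Q := TotPt P
  sh := fun n a => ⟨(a.1.1, Pt.sh n a.1.2), a.2.1, a.2.2.sh n⟩
  ng := fun a => ⟨(a.1.1, Pt.ng a.1.2), a.2.1, a.2.2.ng⟩
  r := fun t a b => a.1.1 = b.1.1 ∧ Pt.Same t a.1.2 b.1.2 ∧ SameLab t a.1.1 a.1.2 b.1.2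
  sh_zero := fun a => by
    apply Subtype.ext
    apply Prod.ext
    · rfl
    · exact (baseT P).sh_zero _
  sh_add := fun m n a => by
    apply Subtype.ext
    apply Prod.ext
    · rfl
    · exact (baseT P).sh_add m n _
  sh_ng := fun n a => rfl
  r_equiv := fun t => ⟨fun a => ⟨rfl, ((baseT P).r_equiv t).1 _, SameLab.refl _ _ _⟩,
    fun h => ⟨h.1.symm, ((baseT P).r_equiv t).2 h.2.1, h.1 ▸ h.2.2.symm⟩,
    fun h h' => ⟨h.1.trans h'.1, ((baseT P).r_equiv t).3 h.2.1 h'.2.1,
      h.2.2.trans (h.1.symm ▸ h'.2.2)⟩⟩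
  r_mono := fun t a b h => ⟨h.1, (baseT P).r_mono t _ _ h.2.1, h.2.2.mono⟩
  r_sh := fun t n a b h => ⟨h.1, (baseT P).r_sh t n _ _ h.2.1, h.2.2.sh n⟩

open Classical in
/-- Pull-back of a function on the base tower to the component `F` of the total tower. -/
noncomputable def pull (F : Set (Pt P)) (φ : Pt P → ℝ) (a : TotPt P) : ℝ :=
  if a.1.1 = F then φ a.1.2 else 0

theorem isTest_pull {F : Set (Pt P)} {t : ℕ} {φ : Pt P → ℝ} (h : (baseT P).IsTest t φ) :
    (totT P).IsTest t (pull F φ) := by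
  constructor
  · rintro a b ⟨h1, h2, -⟩
    unfold pull
    rw [← h1, h.1 _ _ h2]
  · intro a
    unfold pull
    change (if a.1.1 = F then φ (Pt.ng a.1.2) else 0) = _
    split_ifs
    · exact h.2 _
    · simp

theorem abs_pull_le {F : Set (Pt P)} {φ : Pt P → ℝ} {C : ℝ} (hC : 0 ≤ C) (h : ∀ q, |φ q| ≤ C)
    (a : TotPt P) : |pull F φ a| ≤ C := by
  unfold pull
  split_ifs
  · exact h _
  · simpa using hC

/-- Pull-back of an index. -/
noncomputable def pullIdx (F : Set (Pt P)) (f : (baseT P).Idx) : (totT P).Idx :=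
  ⟨(f.1.1, pull F f.1.2), isTest_pull f.2.1, abs_pull_le zero_le_one f.2.2⟩

/-- The projection on the component `F`. -/
noncomputable def proj (F : Set (Pt P)) : (totT P).F →L[ℝ] (baseT P).F :=
  LinearMap.mkContinuous
    { toFun := fun z => ⟨fun f => z (pullIdx F f), memℓp_infty ⟨‖z‖, by
        rintro x ⟨f, rfl⟩
        exact lp.norm_apply_le_norm (by simp) z _⟩⟩
      map_add' := fun y z => by
        ext f
        simp only [lp.coeFn_add, Pi.add_apply]
      map_smul' := fun c z => by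
        ext f
        simp only [lp.coeFn_smul, Pi.smul_apply, smul_eq_mul, RingHom.id_apply] }
    1 (by
      intro z
      rw [one_mul]
      refine lp.norm_le_of_forall_le (norm_nonneg _) ?_
      intro f
      exact lp.norm_apply_le_norm (by simp) z _)

end Pool.Agent.URec
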