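import Pool.Agent.URec.Mass
import Pool.Agent.URec.TotalDefs

/-!
# The total space (module Total)
-/

open Filter Topology

namespace Pool.Agent.URec

variable {P : Params} {w : ℕ → ℝ} {hw : Wt w}

theorem proj_apply (F : Set (Pt P)) (y : (totT P).F) (f : (baseT P).Idx) :
    proj F y f = y (pullIdx F f) := rfl

theorem proj_e_same (F : Set (Pt P)) (a : TotPt P) (h : a.1.1 = F) :
    proj F ((totT P).e w hw a) = (baseT P).e w hw a.1.2 := by
  ext f
  rw [proj_apply]
  change w f.1.1 * pull F f.1.2 a = w f.1.1 * f.1.2 a.1.2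
  unfold pull
  rw [if_pos h]

theorem proj_e_ne (F : Set (Pt P)) (a : TotPt P) (h : a.1.1 ≠ F) :
    proj F ((totT P).e w hw a) = 0 := by
  ext f
  rw [proj_apply]
  change w f.1.1 * pull F f.1.2 a = 0
  unfold pull
  rw [if_neg h, mul_zero]

theorem X_isClosed (T : Tower) : IsClosed {y : T.F | y ∈ T.X w hw} :=
  (Submodule.span ℝ (Set.range (T.e w hw))).isClosed_topologicalClosure

theorem proj_mem (F : Set (Pt P)) {y : (totT P).F} (hy : y ∈ (totT P).X w hw) :
    proj F y ∈ (baseT P).X w hw := by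
  refine Tower.X_induction (T := totT P) (w := w) (hw := hw)
    (p := fun y => proj F y ∈ (baseT P).X w hw) ?_ ?_ ?_ ?_ ?_ hy
  · exact (X_isClosed (baseT P)).preimage (proj F).continuous
  · rw [map_zero]; exact Submodule.zero_mem _
  · intro y z h1 h2
    rw [map_add]; exact Submodule.add_mem _ h1 h2
  · intro c y h1
    rw [map_smul]; exact Submodule.smul_mem _ _ h1
  · intro a
    by_cases h : a.1.1 = F
    · rw [proj_e_same F a h]; exact Tower.e_mem _
    · rw [proj_e_ne F a h]; exact Submodule.zero_mem _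

theorem norm_proj_le (F : Set (Pt P)) (y : (totT P).F) : ‖proj F y‖ ≤ ‖y‖ := by
  have h : ‖proj F y‖ ≤ 1 * ‖y‖ := by
    refine ContinuousLinearMap.le_of_opNorm_le _ ?_ _
    exact LinearMap.mkContinuous_norm_le _ zero_le_one _
  rwa [one_mul] at h

theorem pullIdx_sh (F : Set (Pt P)) (f : (baseT P).Idx) (n : ℤ) :
    (pullIdx F f).sh n = pullIdx F (f.sh n) := by
  apply Subtype.ext
  rfl

theorem proj_U (F : Set (Pt P)) (n : ℤ) (y : (totT P).F) :
    proj F ((totT P).U w hw n y) = (baseT P).U w hw n (proj F y) := by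
  ext f
  rw [proj_apply]
  change w f.1.1 / w (f.1.1 + n.natAbs) * y ((pullIdx F f).sh n) =
    w f.1.1 / w (f.1.1 + n.natAbs) * y (pullIdx F (f.sh n))
  rw [pullIdx_sh]

theorem UR.proj (F : Set (Pt P)) {y : (totT P).F} (h : (totT P).UR w hw y) :
    (baseT P).UR w hw (proj F y) := by
  intro ε hε
  obtain ⟨N, hN⟩ := h ε hε
  refine ⟨N, fun m => ?_⟩
  obtain ⟨j, hj, h1⟩ := hN m
  refine ⟨j, hj, ?_⟩
  rw [← proj_U, ← map_sub]
  exact (norm_proj_le F _).trans h1

theorem pr_proj (F : Set (Pt P)) {φ : Pt P → ℝ} (h : (baseT P).TB φ) {y : (totT P).F}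
    (hy : y ∈ (totT P).X w hw) : (baseT P).pr w φ (proj F y) = (totT P).pr w (pull F φ) y := by
  obtain ⟨t, C, h1, h2⟩ := h
  set C' : ℝ := max C 1 with hC'
  have hC0 : 0 < C' := lt_of_lt_of_le one_pos (le_max_right _ _)
  set ψ : Pt P → ℝ := (1 / C') • φ with hψ
  have hψt : (baseT P).IsTest t ψ := Tower.IsTest.smul _ h1
  have hψ1 : ∀ q, |ψ q| ≤ 1 := by
    intro q
    rw [hψ, Pi.smul_apply, smul_eq_mul, abs_mul, abs_of_pos (by positivity)]
    have : |φ q| ≤ C' := (h2 q).trans (le_max_left _ _)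
    rw [div_mul_eq_mul_div, one_mul, div_le_one hC0]
    exact this
  have hφ : φ = C' • ψ := by
    rw [hψ, smul_smul, mul_one_div_cancel hC0.ne', one_smul]
  have hp : pull F φ = C' • pull F ψ := by
    rw [hφ]
    funext a
    unfold pull
    by_cases ha : a.1.1 = F <;> simp [ha]
  have hy' := proj_mem F hy
  have e1 : (baseT P).pr w φ (proj F y) = C' * (baseT P).pr w ψ (proj F y) := by
    conv_lhs => rw [hφ]
    exact Tower.pr_smul (T := baseT P) C' ⟨t, 1, hψt, hψ1⟩ hy'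
  have e2 : (totT P).pr w (pull F φ) y = C' * (totT P).pr w (pull F ψ) y := by
    rw [hp]
    exact Tower.pr_smul (T := totT P) C' ⟨t, 1, isTest_pull hψt, abs_pull_le zero_le_one hψ1⟩ hy
  have e3 := Tower.pr_eq (T := baseT P) hy' hψt hψ1
  have e4 := Tower.pr_eq (T := totT P) hy (isTest_pull (F := F) hψt)
    (abs_pull_le zero_le_one hψ1)
  rw [e1, e2, e3, e4]
  rfl

/-- If bounded test functions of a fixed scale tend to zero pointwise, then so do the pairings. -/
theorem eventually_pr_small {T : Tower} {t : ℕ} {ψ : ℕ → T.Q → ℝ} (h : ∀ j, T.IsTest t (ψ j))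
    (h1 : ∀ j q, |ψ j q| ≤ 1) (h0 : ∀ q, ∀ᶠ j in atTop, ψ j q = 0) {y : T.F}
    (hy : y ∈ T.X w hw) {ε : ℝ} (hε : 0 < ε) : ∀ᶠ j in atTop, |T.pr w (ψ j) y| ≤ ε := by
  have hwt := hw.pos t
  obtain ⟨n, a, q, hn⟩ := Tower.exists_approx (T := T) hy (ε := ε * w t) (by positivity)
  set z := ∑ i, a i • T.e w hw (q i) with hz
  have hzX : z ∈ T.X w hw := Submodule.sum_mem _ fun i _ =>
    Submodule.smul_mem _ _ (Tower.e_mem _)
  have hev : ∀ᶠ j in atTop, ∀ i, ψ j (q i) = 0 := by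
    rw [Filter.eventually_all]
    intro i
    exact h0 (q i)
  filter_upwards [hev] with j hj
  have e1 : T.pr w (ψ j) z = 0 := by
    rw [hz, Tower.pr_sum_left]
    apply Finset.sum_eq_zero
    intro i _
    rw [Tower.pr_e ⟨t, 1, h j, h1 j⟩, hj i, mul_zero]
  have e2 : T.pr w (ψ j) y = T.pr w (ψ j) (y - z) := by
    rw [Tower.pr_sub_left, e1, sub_zero]
  rw [e2]
  refine (Tower.pr_le (h j) (h1 j) (Submodule.sub_mem _ hy hzX)).trans ?_
  calc 1 / w t * ‖y - z‖ ≤ 1 / w t * (ε * w t) := by gcongr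
    _ = ε := by field_simp

theorem sh_zero' (p : Pt P) : Pt.sh 0 p = p := (baseT P).sh_zero p

theorem not_sameX_of_ne {p q : Pt P} (h : p.x ≠ q.x) : ∃ t₀ : ℕ, ∀ t, t₀ ≤ t → ¬ Pt.SameX t p q := by
  obtain ⟨i, hi⟩ := Function.ne_iff.1 h
  refine ⟨i.natAbs, fun t ht hs => hi (hs i (by omega) (by omega))⟩

theorem isTest_pull_chi {F : Set (Pt P)} {q : Pt P} (hq : q ∈ F) (t : ℕ) :
    (totT P).IsTest 0 (pull F (chi t q)) := by
  refine ⟨?_, (isTest_pull (F := F) (isTest_chi t q)).2⟩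
  rintro a b ⟨h1, h2, h3⟩
  unfold pull
  rw [← h1]
  by_cases ha : a.1.1 = F
  · rw [if_pos ha, if_pos ha]
    rw [ha] at h3
    have h4 := (h3 q hq 0 (by simp) (by simp)).1 t
    rw [sh_zero', sh_zero'] at h4
    have h5 := (h2 0 (by simp) (by simp)).2
    unfold chi
    by_cases h6 : Pt.SameX t a.1.2 q
    · rw [if_pos h6, if_pos (h4.1 h6), h5]
    · rw [if_neg h6, if_neg (fun h => h6 (h4.2 h))]
  · rw [if_neg ha, if_neg ha]

/-- The vectors of the component `F` have no atoms in `F`. -/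
theorem no_atom_of_mem (hS : Stmt_Sign P) {F : Set (Pt P)} {q : Pt P} (hq : q ∈ F)
    {y : (totT P).F} (hy : y ∈ (totT P).X w hw) (hf : (baseT P).FTV w (proj F y)) {η : ℝ}
    (hη : 0 < η) : ∃ t, (baseT P).mass w (proj F y) (cell t q) < η := by
  have h1 : ∀ᶠ t in atTop, |(totT P).pr w (pull F (chi t q)) y| ≤ η / 4 := by
    refine eventually_pr_small (T := totT P) (t := 0) (fun t => isTest_pull_chi hq t)
      (fun t => abs_pull_le zero_le_one (abs_chi_le t q)) ?_ hy (by positivity)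
    intro a
    by_cases ha : a.1.1 = F
    · have h2 := (a.2.2 q (ha ▸ hq) 0).2
      rw [sh_zero'] at h2
      obtain ⟨t₀, ht₀⟩ := not_sameX_of_ne h2
      filter_upwards [eventually_ge_atTop t₀] with t ht
      unfold pull
      rw [if_pos ha]
      unfold chi
      rw [if_neg (ht₀ t ht)]
    · refine Eventually.of_forall fun t => ?_
      unfold pull
      rw [if_neg ha]
  obtain ⟨s, hs⟩ := Tower.exists_massAt (T := baseT P) hf (δ := η / 4) (by positivity)
  obtain ⟨t, ht1, ht2⟩ := (h1.and (eventually_ge_atTop s)).exists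
  refine ⟨t, ?_⟩
  have hy' := proj_mem F hy
  have h3 := mass_cell_le hS hy' hf t q
  rw [pr_proj F (φ := chi t q) ⟨t, 1, isTest_chi t q, abs_chi_le t q⟩ hy] at h3
  have h4 := Tower.massAt_mono (T := baseT P) hf ht2
  linarith

/-- The points having a common aligned window of radius `N` with `q` at distance at most `j`. -/
def Al (q : Pt P) (N j : ℕ) : Set (Pt P) :=
  {p | ∃ i : ℤ, -j ≤ i ∧ i ≤ j ∧ Pt.SameX N (Pt.sh i p) (Pt.sh i q)}

theorem al_local {q p p' : Pt P} {N j s : ℕ} (hs : j + N ≤ s) (h : Pt.SameX s p p') :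
    p ∈ Al q N j → p' ∈ Al q N j := by
  rintro ⟨i, h1, h2, h3⟩
  refine ⟨i, h1, h2, fun k hk1 hk2 => ?_⟩
  rw [← h3 k hk1 hk2]
  change p'.x (k + i) = p.x (k + i)
  exact (h (k + i) (by omega) (by omega)).symm

theorem Pt.Same.sameX {t : ℕ} {p q : Pt P} (h : Pt.Same t p q) : Pt.SameX t p q :=
  fun i h1 h2 => (h i h1 h2).1

open Classical in
/-- The odd indicator of a cell minus the set `Al q N j`. -/
noncomputable def chiB (t : ℕ) (p q : Pt P) (N j : ℕ) (p' : Pt P) : ℝ :=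
  if p' ∈ Al q N j then 0 else chi t p p'

theorem chiB_of_mem {t : ℕ} {p q : Pt P} {N j : ℕ} {p' : Pt P} (h : p' ∈ Al q N j) :
    chiB t p q N j p' = 0 := by
  unfold chiB
  rw [if_pos h]

theorem chiB_of_not_mem {t : ℕ} {p q : Pt P} {N j : ℕ} {p' : Pt P} (h : p' ∉ Al q N j) :
    chiB t p q N j p' = chi t p p' := by
  unfold chiB
  rw [if_neg h]

theorem chi_of_mem {t : ℕ} {p : Pt P} {p' : Pt P} (h : p' ∈ cell t p) :
    chi t p p' = p'.s 0 * p.s 0 := by
  unfold chi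
  exact if_pos h

theorem chi_of_not_mem {t : ℕ} {p : Pt P} {p' : Pt P} (h : p' ∉ cell t p) :
    chi t p p' = 0 := by
  unfold chi
  exact if_neg h

theorem isTest_chiB (t : ℕ) (p q : Pt P) (N j : ℕ) :
    (baseT P).IsTest (t + (j + N)) (chiB t p q N j) := by
  have h := isTest_chi t p
  refine ⟨fun (p₁ p₂ : Pt P) (h12 : Pt.Same (t + (j + N)) p₁ p₂) => ?_, fun (p' : Pt P) => ?_⟩
  · have h1 : p₁ ∈ Al q N j ↔ p₂ ∈ Al q N j :=
      ⟨al_local (by omega) h12.sameX, al_local (by omega) h12.sameX.symm⟩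
    have h2 : chi t p p₁ = chi t p p₂ := by
      refine h.1 _ _ ?_
      intro i hi1 hi2
      exact h12 i (by push_cast; omega) (by push_cast; omega)
    by_cases h3 : p₁ ∈ Al q N j
    · exact (chiB_of_mem h3).trans (chiB_of_mem (h1.1 h3)).symm
    · exact (chiB_of_not_mem h3).trans (h2.trans (chiB_of_not_mem (fun h4 => h3 (h1.2 h4))).symm)
  · have h1 : Pt.ng p' ∈ Al q N j ↔ p' ∈ Al q N j := Iff.rfl
    change chiB t p q N j (Pt.ng p') = - chiB t p q N j p'
    by_cases h3 : p' ∈ Al q N j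
    · rw [chiB_of_mem h3, chiB_of_mem (h1.2 h3), neg_zero]
    · rw [chiB_of_not_mem h3, chiB_of_not_mem (fun h4 => h3 (h1.1 h4))]
      exact h.2 p'

theorem abs_chiB_le (t : ℕ) (p q : Pt P) (N j : ℕ) (p' : Pt P) : |chiB t p q N j p'| ≤ 1 := by
  unfold chiB
  split_ifs
  · simp
  · exact abs_chi_le t p p'

theorem isTest_pull_chiB {F : Set (Pt P)} {q : Pt P} (hq : q ∈ F) (t : ℕ) (p : Pt P) (N j : ℕ) :
    (totT P).IsTest (t + N) (pull F (chiB t p q N j)) := by
  refine ⟨?_, (isTest_pull (F := F) (isTest_chiB t p q N j)).2⟩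
  rintro a b ⟨h1, h2, h3⟩
  unfold pull
  rw [← h1]
  by_cases ha : a.1.1 = F
  · rw [if_pos ha, if_pos ha]
    rw [ha] at h3
    have h4 := (h3 q hq 0 (by simp) (by positivity)).2 N (by omega) j
    rw [sh_zero', sh_zero'] at h4
    have h5 : a.1.2 ∈ Al q N j ↔ b.1.2 ∈ Al q N j := h4
    have h6 : chi t p a.1.2 = chi t p b.1.2 := by
      refine (isTest_chi t p).1 _ _ ?_
      intro i hi1 hi2
      exact h2 i (by push_cast; omega) (by push_cast; omega)
    by_cases h7 : a.1.2 ∈ Al q N j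
    · rw [chiB_of_mem h7, chiB_of_mem (h5.1 h7)]
    · rw [chiB_of_not_mem h7, chiB_of_not_mem (fun h8 => h7 (h5.2 h8)), h6]
  · rw [if_neg ha, if_neg ha]

/-- The masses of the cells of a point converge. -/
theorem exists_cell_lim {y : (baseT P).F} (hy : y ∈ (baseT P).X w hw)
    (hf : (baseT P).FTV w y) (p : Pt P) {δ : ℝ} (hδ : 0 < δ) :
    ∃ t₀, ∀ t, t₀ ≤ t → ∀ s, t ≤ s →
      (baseT P).mass w y (cell t p) ≤ (baseT P).mass w y (cell s p) + δ := by
  set u : ℕ → ℝ := fun t => (baseT P).mass w y (cell t p) with hu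
  have hanti : Antitone u := by
    intro s t hst
    refine Tower.mass_mono (T := baseT P) hf ?_
    intro p' hp'
    exact Pt.SameX.mono hst hp'
  have hbdd : BddBelow (Set.range u) := ⟨0, by
    rintro _ ⟨t, rfl⟩
    exact Tower.mass_nonneg (T := baseT P) hy _⟩
  have hlim := tendsto_atTop_ciInf hanti hbdd
  have h1 : ∀ᶠ t in atTop, u t < (⨅ t, u t) + δ :=
    hlim.eventually (gt_mem_nhds (by linarith))
  obtain ⟨t₀, ht₀⟩ := eventually_atTop.1 h1
  refine ⟨t₀, fun t ht s _ => ?_⟩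
  have h2 := ht₀ t ht
  have h3 : (⨅ t, u t) ≤ u s := ciInf_le hbdd s
  change u t ≤ u s + δ
  linarith

/-- The vectors of the component `F` have no atoms at points not proximal to elements of `F`. -/
theorem no_atom_of_not_prox (hS : Stmt_Sign P) {F : Set (Pt P)} {q : Pt P} (hq : q ∈ F)
    {p : Pt P} (hp : ¬ Pt.Prox p q)
    {y : (totT P).F} (hy : y ∈ (totT P).X w hw) (hf : (baseT P).FTV w (proj F y)) {η : ℝ}
    (hη : 0 < η) : ∃ t, (baseT P).mass w (proj F y) (cell t p) < η := by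
  have hy' := proj_mem F hy
  unfold Pt.Prox at hp
  push Not at hp
  obtain ⟨N, hN⟩ := hp
  obtain ⟨s₀, hs₀⟩ := Tower.exists_massAt (T := baseT P) hf (δ := η / 5) (by positivity)
  obtain ⟨t₀, ht₀⟩ := exists_cell_lim hy' hf p (δ := η / 5) (by positivity)
  set t := max s₀ t₀ with ht
  have h1 : ∀ᶠ j in atTop, |(totT P).pr w (pull F (chiB t p q N j)) y| ≤ η / 5 := by
    refine eventually_pr_small (T := totT P) (t := t + N) (fun j => isTest_pull_chiB hq t p N j)
      (fun j => abs_pull_le zero_le_one (abs_chiB_le t p q N j)) ?_ hy (by positivity)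
    intro a
    by_cases ha : a.1.1 = F
    · have h2 := (a.2.2 q (ha ▸ hq) 0).1
      rw [sh_zero'] at h2
      obtain ⟨n, hn⟩ := h2 N
      filter_upwards [eventually_ge_atTop n.natAbs] with j hj
      unfold pull
      rw [if_pos ha]
      exact chiB_of_mem ⟨n, by omega, by omega, hn⟩
    · refine Eventually.of_forall fun j => ?_
      unfold pull
      rw [if_neg ha]
  obtain ⟨j, hj⟩ := h1.exists
  set s := t + (j + N) with hs
  have hts : t ≤ s := by omega
  -- on the cell of scale `s` the function `chiB` is `chi`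
  have hcell : ∀ p' ∈ cell s p, p' ∉ Al q N j := by
    intro p' hp' hal
    obtain ⟨i, hi1, hi2, hi3⟩ := hal
    refine hN i (fun k hk1 hk2 => ?_)
    rw [← hi3 k hk1 hk2]
    change p.x (k + i) = p'.x (k + i)
    exact ((hp' : Pt.SameX s p' p) (k + i) (by omega) (by omega)).symm
  have hcellt : cell s p ⊆ cell t p := fun p' hp' => Pt.SameX.mono hts hp'
  -- the difference is supported on the rest of the cell of scale `t`
  set φ : Pt P → ℝ := chiB t p q N j + (-1 : ℝ) • chi s p with hφ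
  have hφs : ∀ p' ∈ cell s p, φ p' = 0 := by
    intro p' h2
    rw [hφ, Pi.add_apply, Pi.smul_apply, smul_eq_mul, chiB_of_not_mem (hcell p' h2),
      chi_of_mem h2, chi_of_mem (hcellt h2)]
    ring
  have hφn : ∀ p' ∉ cell s p, φ p' = chiB t p q N j p' := by
    intro p' h2
    rw [hφ, Pi.add_apply, Pi.smul_apply, smul_eq_mul, chi_of_not_mem h2, mul_zero, add_zero]
  have hφ0 : ∀ p', p' ∉ cell t p \ cell s p → φ p' = 0 := by
    intro p' hp'
    by_cases h2 : p' ∈ cell s p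
    · exact hφs p' h2
    · rw [hφn p' h2]
      have h3 : p' ∉ cell t p := fun h3 => hp' ⟨h3, h2⟩
      by_cases h4 : p' ∈ Al q N j
      · exact chiB_of_mem h4
      · rw [chiB_of_not_mem h4, chi_of_not_mem h3]
  have hφ1 : ∀ p', |φ p'| ≤ 1 := by
    intro p'
    by_cases h2 : p' ∈ cell s p
    · rw [hφs p' h2]; simp
    · rw [hφn p' h2]
      exact abs_chiB_le t p q N j p'
  have hTB1 : (baseT P).TB (chiB t p q N j) := ⟨_, 1, isTest_chiB t p q N j, abs_chiB_le t p q N j⟩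
  have hTB2 : (baseT P).TB (chi s p) := ⟨_, 1, isTest_chi s p, abs_chi_le s p⟩
  have hTB3 : (baseT P).TB ((-1 : ℝ) • chi s p) := Tower.TB.smul (T := baseT P) _ hTB2
  have hTB : (baseT P).TB φ := Tower.TB.add (T := baseT P) hTB1 hTB3
  have e1 : (baseT P).pr w φ (proj F y) =
      (baseT P).pr w (chiB t p q N j) (proj F y) + (-1) * (baseT P).pr w (chi s p) (proj F y) :=
    (Tower.pr_add (T := baseT P) hTB1 hTB3 hy').trans
      (congrArg _ (Tower.pr_smul (T := baseT P) (-1) hTB2 hy'))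
  have e2 : |(baseT P).pr w φ (proj F y)| ≤ (baseT P).mass w (proj F y) (cell t p \ cell s p) :=
    Tower.le_mass (T := baseT P) hf hTB hφ1 hφ0 hy'
  have e3 : (baseT P).mass w (proj F y) (cell t p \ cell s p) +
      (baseT P).mass w (proj F y) (cell s p) ≤ (baseT P).mass w (proj F y) (cell t p) := by
    refine (Tower.mass_add_mass_le (T := baseT P) hy' hf (E := cell t p \ cell s p)
      (E' := cell s p) Set.disjoint_sdiff_left).trans ?_
    refine Tower.mass_mono (T := baseT P) hf ?_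
    rintro p' (h2 | h2)
    · exact h2.1
    · exact hcellt h2
  have e4 := ht₀ t (le_max_right _ _) s hts
  have e5 := mass_cell_le hS hy' hf s p
  have e6 : (baseT P).massAt w (proj F y) s₀ ≤ (baseT P).massAt w (proj F y) s :=
    Tower.massAt_mono (T := baseT P) hf ((le_max_left _ _).trans hts)
  rw [← pr_proj F hTB1 hy] at hj
  refine ⟨s, ?_⟩
  generalize (baseT P).mass w (proj F y) (cell s p) = ms at *
  generalize (baseT P).mass w (proj F y) (cell t p) = mt at *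
  generalize (baseT P).mass w (proj F y) (cell t p \ cell s p) = md at *
  generalize (baseT P).pr w φ (proj F y) = b1 at *
  generalize (baseT P).pr w (chiB t p q N j) (proj F y) = b2 at *
  generalize (baseT P).pr w (chi s p) (proj F y) = b3 at *
  have e7 : |b3| ≤ |b1| + |b2| := by
    have h8 : b3 = b2 - b1 := by rw [e1]; ring
    rw [h8]
    have := abs_sub b2 b1
    linarith
  linarith

theorem fin_unif {α : Type} {F : Set α} (hF : F.Finite) {Q : α → ℕ → Prop}
    (hm : ∀ q s s', s ≤ s' → Q q s → Q q s') (h : ∀ q ∈ F, ∃ s, Q q s) :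
    ∃ s, ∀ q ∈ F, Q q s := by
  choose! f hf using h
  obtain ⟨M, hM⟩ := (hF.image f).bddAbove
  exact ⟨M, fun q hq => hm q _ _ (hM (Set.mem_image_of_mem f hq)) (hf q hq)⟩

theorem Pt.Same.mono {s t : ℕ} (hst : s ≤ t) {p q : Pt P} (h : Pt.Same t p q) :
    Pt.Same s p q :=
  fun i h1 h2 => h i (by omega) (by omega)

theorem Pt.SameX.sh {s : ℕ} {n : ℤ} {p q : Pt P} (h : Pt.SameX (s + n.natAbs) p q) :
    Pt.SameX s (Pt.sh n p) (Pt.sh n q) :=
  fun i h1 h2 => h (i + n) (by omega) (by omega)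

theorem Pt.Same.sh {s : ℕ} {n : ℤ} {p q : Pt P} (h : Pt.Same (s + n.natAbs) p q) :
    Pt.Same s (Pt.sh n p) (Pt.sh n q) :=
  fun i h1 h2 => h (i + n) (by omega) (by omega)

theorem al_mono {q : Pt P} {N j k : ℕ} (hjk : j ≤ k) : Al q N j ⊆ Al q N k := by
  rintro p ⟨i, h1, h2, h3⟩
  exact ⟨i, by omega, by omega, h3⟩

/-- Locality of one agreement length. -/
theorem local_agree {F : Set (Pt P)} {p : Pt P} (hp : Avoids F p) {q : Pt P} (hq : q ∈ F)
    (n : ℤ) : ∃ s : ℕ, ∀ p' : Pt P, Pt.SameX s p' p →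
      ∀ j : ℕ, Pt.SameX j (Pt.sh n p') q ↔ Pt.SameX j (Pt.sh n p) q := by
  have h1 : (Pt.sh n p).x ≠ q.x := by
    intro h2
    apply (hp q hq (-n)).2
    funext i
    have h3 := congrFun h2 (i - n)
    simp only [Pt.sh] at h3 ⊢
    rw [sub_add_cancel] at h3
    rw [← sub_eq_add_neg]
    exact h3
  obtain ⟨j₀, hj₀⟩ := not_sameX_of_ne h1
  refine ⟨j₀ + n.natAbs, fun p' hp' j => ?_⟩
  have h2 : Pt.SameX j₀ (Pt.sh n p') (Pt.sh n p) := Pt.SameX.sh hp'
  rcases le_total j j₀ with hj | hj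
  · have h3 := h2.mono hj
    exact ⟨fun h => h3.symm.trans h, fun h => h3.trans h⟩
  · constructor
    · intro h
      exact absurd (h2.symm.trans (h.mono hj)) (hj₀ j₀ le_rfl)
    · intro h
      exact absurd h (hj₀ j hj)

/-- Locality of one distance to an aligned window. -/
theorem local_al {F : Set (Pt P)} {p : Pt P} (hp : Avoids F p) {q : Pt P} (hq : q ∈ F)
    (n : ℤ) (N : ℕ) : ∃ s : ℕ, ∀ p' : Pt P, Pt.SameX s p' p →
      ∀ j : ℕ, Pt.sh n p' ∈ Al q N j ↔ Pt.sh n p ∈ Al q N j := by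
  obtain ⟨k, hk⟩ := (hp q hq (-n)).1 N
  have h1 : Pt.sh n p ∈ Al q N (k - n).natAbs := by
    refine ⟨k - n, by omega, by omega, ?_⟩
    rw [sh_sh] at hk
    rw [sh_sh]
    have e1 : k - n + n = k := by ring
    have e2 : k + -n = k - n := by ring
    rw [e1]
    rw [e2] at hk
    exact hk
  set j₀ := (k - n).natAbs with hj₀
  refine ⟨(j₀ + N) + n.natAbs, fun p' hp' j => ?_⟩
  have h2 : Pt.SameX (j₀ + N) (Pt.sh n p') (Pt.sh n p) := Pt.SameX.sh hp'
  rcases le_total j j₀ with hj | hj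
  · exact ⟨al_local (by omega) h2, al_local (by omega) h2.symm⟩
  · have h3 : Pt.sh n p' ∈ Al q N j₀ := al_local le_rfl h2.symm h1
    exact ⟨fun _ => al_mono hj h1, fun _ => al_mono hj h3⟩

/-- Locality of the labels. -/
theorem exists_local (t : ℕ) (a : TotPt P) : ∃ s : ℕ, ∀ b : TotPt P, b.1.1 = a.1.1 →
    Pt.Same s b.1.2 a.1.2 → (totT P).r t b a := by
  obtain ⟨⟨F, p⟩, hF, hp⟩ := a
  have hF' : F.Finite := hF
  have hp' : Avoids F p := hp
  have h1 : ∃ s₁ : ℕ, ∀ q ∈ F, ∀ n ∈ Set.Icc (-t : ℤ) t, ∀ p' : Pt P, Pt.SameX s₁ p' p →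
      ∀ j : ℕ, Pt.SameX j (Pt.sh n p') q ↔ Pt.SameX j (Pt.sh n p) q := by
    refine fin_unif hF' (fun q s s' hss h n hn p' hp' => h n hn p' (hp'.mono hss)) ?_
    intro q hq
    refine fin_unif (Set.finite_Icc _ _) (fun n s s' hss h p' hp' => h p' (hp'.mono hss)) ?_
    intro n _
    exact local_agree hp' hq n
  have h2 : ∃ s₂ : ℕ, ∀ q ∈ F, ∀ n ∈ Set.Icc (-t : ℤ) t, ∀ N ∈ Set.Iic t, ∀ p' : Pt P,
      Pt.SameX s₂ p' p → ∀ j : ℕ, Pt.sh n p' ∈ Al q N j ↔ Pt.sh n p ∈ Al q N j := by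
    refine fin_unif hF' (fun q s s' hss h n hn N hN p' hp' => h n hn N hN p' (hp'.mono hss)) ?_
    intro q hq
    refine fin_unif (Set.finite_Icc _ _)
      (fun n s s' hss h N hN p' hp' => h N hN p' (hp'.mono hss)) ?_
    intro n _
    refine fin_unif (Set.finite_Iic _) (fun N s s' hss h p' hp' => h p' (hp'.mono hss)) ?_
    intro N _
    exact local_al hp' hq n N
  obtain ⟨s₁, h1⟩ := h1
  obtain ⟨s₂, h2⟩ := h2
  refine ⟨max t (max s₁ s₂), fun b hb hs => ?_⟩
  have hb' : b.1.1 = F := hb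
  have hs' : Pt.Same (max t (max s₁ s₂)) b.1.2 p := hs
  refine ⟨hb, hs'.mono (le_max_left _ _), ?_⟩
  change SameLab t b.1.1 b.1.2 p
  rw [hb']
  intro q hq n hn1 hn2
  refine ⟨h1 q hq n ⟨hn1, hn2⟩ b.1.2
    (hs'.sameX.mono ((le_max_left _ _).trans (le_max_right _ _))), fun N hN => ?_⟩
  exact h2 q hq n ⟨hn1, hn2⟩ N hN b.1.2
    (hs'.sameX.mono ((le_max_right _ _).trans (le_max_right _ _)))

theorem norm_comb_sub_le {T : Tower} {k : ℕ} (c : Fin k → ℝ) (a b : Fin k → T.Q) {C : ℝ}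
    (h : ∀ i, ‖T.e w hw (a i) - T.e w hw (b i)‖ ≤ C) :
    ‖∑ i, c i • T.e w hw (a i) - ∑ i, c i • T.e w hw (b i)‖ ≤ (∑ i, |c i|) * C := by
  rw [← Finset.sum_sub_distrib, Finset.sum_mul]
  refine norm_sum_le_of_le _ fun i _ => ?_
  rw [← smul_sub, norm_smul, Real.norm_eq_abs]
  exact mul_le_mul_of_nonneg_left (h i) (abs_nonneg _)

/-- The uniformly recurrent vectors are dense. -/
theorem dense_UR (hR : Stmt_Rec P) (hP : Stmt_Prox P) {y : (totT P).F}
    (hy : y ∈ (totT P).X w hw) {ε : ℝ} (hε : 0 < ε) :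
    ∃ v ∈ (totT P).X w hw, ‖y - v‖ < ε ∧ ∀ δ : ℝ, 0 < δ → ∃ N : ℕ, ∀ m : ℕ, ∃ n : ℕ,
      m ≤ n ∧ n ≤ m + N ∧ 1 ≤ n ∧ ‖(totT P).U w hw n v - v‖ < δ := by
  obtain ⟨k, c, a, hya⟩ := Tower.exists_approx (T := totT P) hy (ε := ε / 2) (by positivity)
  set A : ℝ := ∑ i, |c i| with hA
  have hA0 : 0 ≤ A := Finset.sum_nonneg fun i _ => abs_nonneg _
  -- small weights
  have hsmall : ∀ δ : ℝ, 0 < δ → ∃ t : ℕ, A * (2 * w t) < δ := by
    intro δ hδ
    have h1 : ∀ᶠ t in atTop, w t < δ / (2 * (A + 1)) :=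
      hw.lim.eventually (gt_mem_nhds (by positivity))
    obtain ⟨t, ht⟩ := h1.exists
    refine ⟨t, ?_⟩
    rw [lt_div_iff₀ (by positivity)] at ht
    have := hw.pos t
    nlinarith
  obtain ⟨t, ht⟩ := hsmall (ε / 2) (by positivity)
  obtain ⟨p, hp⟩ := hP (⋃ i, (a i).1.1) (Set.finite_iUnion fun i => (a i).2.1)
  have hav : ∀ i, Avoids (a i).1.1 p := fun i q hq n =>
    hp q (Set.mem_iUnion.2 ⟨i, hq⟩) n
  have h1 : ∀ i, ∃ n : ℤ, (totT P).r t ⟨((a i).1.1, Pt.sh n p), (a i).2.1, (hav i).sh n⟩ (a i) := by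
    intro i
    obtain ⟨s, hs⟩ := exists_local t (a i)
    obtain ⟨N, hN⟩ := hR s (a i).1.2
    obtain ⟨n, _, _, h2⟩ := hN p 0
    exact ⟨n, hs _ rfl h2⟩
  choose n hn using h1
  set b : Fin k → TotPt P := fun i => ⟨((a i).1.1, Pt.sh (n i) p), (a i).2.1, (hav i).sh (n i)⟩
    with hb
  refine ⟨∑ i, c i • (totT P).e w hw (b i), ?_, ?_, ?_⟩
  · exact Submodule.sum_mem _ fun i _ => Submodule.smul_mem _ _ (Tower.e_mem _)
  · have h2 := norm_comb_sub_le (T := totT P) (w := w) (hw := hw) c a b (C := 2 * w t)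
      (fun i => by
        rw [norm_sub_rev]
        exact Tower.norm_e_sub_le t _ _ (hn i))
    calc ‖y - ∑ i, c i • (totT P).e w hw (b i)‖
        = ‖(y - ∑ i, c i • (totT P).e w hw (a i)) + (∑ i, c i • (totT P).e w hw (a i) -
            ∑ i, c i • (totT P).e w hw (b i))‖ := by congr 1; abel
      _ ≤ ε / 2 + A * (2 * w t) := (norm_add_le _ _).trans (add_le_add hya h2)
      _ < ε := by linarith
  · intro δ hδ
    obtain ⟨t', ht'⟩ := hsmall δ hδ
    have h2 : ∀ i, ∃ s : ℕ, ∀ m : ℤ, Pt.Same s (Pt.sh m p) p →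
        (totT P).r t' ((totT P).sh m (b i)) (b i) := by
      intro i
      obtain ⟨s, hs⟩ := exists_local t' (b i)
      refine ⟨s + (n i).natAbs, fun m hm => hs _ rfl ?_⟩
      change Pt.Same s (Pt.sh m (Pt.sh (n i) p)) (Pt.sh (n i) p)
      have h3 := Pt.Same.sh hm
      rw [sh_sh] at h3 ⊢
      rw [add_comm m]
      exact h3
    choose s hs using h2
    obtain ⟨N, hN⟩ := hR (Finset.univ.sup s) p
    refine ⟨N + 1, fun m => ?_⟩
    obtain ⟨l, hl1, hl2, hl3⟩ := hN p (m + 1)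
    refine ⟨l.toNat, by omega, by omega, by omega, ?_⟩
    have hl : ((l.toNat : ℕ) : ℤ) = l := Int.toNat_of_nonneg (by omega)
    rw [hl, map_sum]
    have h4 : ∀ i, (totT P).U w hw l (c i • (totT P).e w hw (b i)) =
        c i • (totT P).e w hw ((totT P).sh l (b i)) := by
      intro i
      rw [map_smul, Tower.U_e]
    rw [Finset.sum_congr rfl fun i _ => h4 i]
    refine (norm_comb_sub_le (T := totT P) (w := w) (hw := hw) c
      (fun i => (totT P).sh l (b i)) b (C := 2 * w t') (fun i => ?_)).trans_lt ht'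
    refine Tower.norm_e_sub_le t' _ _ (hs i l (hl3.mono ?_))
    exact Finset.le_sup (Finset.mem_univ i)

end Pool.Agent.URec
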